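import Pool.Agent.N883.FF.StmC
import Pool.Agent.Y145.CT.Cnt9

/-!
# Project FF: cube-free primary elements are equidistributed modulo 9

Part FF-DEN3 of project FF (helper883), written by helper169.
-/

set_option autoImplicit false
set_option linter.unusedVariables false

open scoped Classical

namespace Pool.Agent.N883.FF

open Finset
open Pool.Agent.Y692.QS (Ei w nr toC nr_mul nr_nonneg)
open Pool.Agent.Y715.T.RecG (Pq)
open Pool.Agent.Y699.E (ez nrm QB ZB PB prm mem_ZB mem_QB csum nrm_cast nrm_eq' nrm_mul nrm_ne nrm_pos'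
  prm_mul prm_cancel prm_ne_zero prm_one norm_ez ez_add ez_ne ez_zero sum_ez norm_le_of_dvd
  exists_PP not_dvd_three card_ZB_le pq_ne)

namespace Den3

/-! ### The tail of the series -/

theorem summ : Summable fun x : ℤ => (1 : ℝ) / (1 + (x : ℝ) ^ 2) := by
  have h1 : Summable fun x : ℤ => (1 : ℝ) / (x : ℝ) ^ 2 :=
    (Real.summable_one_div_int_pow (p := 2)).2 (by norm_num)
  have h2 : Summable fun x : ℤ => (if x = 0 then (1 : ℝ) else 0) :=
    summable_of_ne_finset_zero (s := {0}) (by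
      intro b hb
      rw [if_neg]
      simpa using hb)
  refine Summable.of_nonneg_of_le (fun x => by positivity) (fun x => ?_) (h1.add h2)
  by_cases hx : x = 0
  · subst hx
    norm_num
  · rw [if_neg hx, add_zero]
    have h3 : (0 : ℝ) < (x : ℝ) ^ 2 := by positivity
    exact one_div_le_one_div_of_le h3 (by linarith)

theorem summ2 : Summable fun p : ℤ × ℤ => (1 : ℝ) / (1 + (p.1 : ℝ) ^ 2) * (1 / (1 + (p.2 : ℝ) ^ 2)) :=
  Summable.mul_of_nonneg summ summ (fun _ => by positivity) (fun _ => by positivity)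

theorem term (a : Ei) (ha : a ≠ 0) : (1 : ℝ) / (nrm a : ℝ) ^ 2 ≤
    9 * ((1 : ℝ) / (1 + (a.re : ℝ) ^ 2) * (1 / (1 + (a.im : ℝ) ^ 2))) := by
  have h1 : (1 : ℝ) ≤ nrm a := by exact_mod_cast nrm_pos' ha
  have h2 : (nrm a : ℝ) = (a.re : ℝ) ^ 2 - a.re * a.im + (a.im : ℝ) ^ 2 := by
    exact_mod_cast nrm_eq' a
  have h3 : 1 + (a.re : ℝ) ^ 2 + (a.im : ℝ) ^ 2 ≤ 3 * nrm a := by
    nlinarith [sq_nonneg ((a.re : ℝ) - a.im)]
  have h4 : (1 + (a.re : ℝ) ^ 2) * (1 + (a.im : ℝ) ^ 2) ≤ 9 * (nrm a : ℝ) ^ 2 := by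
    have h5 : (1 + (a.re : ℝ) ^ 2) * (1 + (a.im : ℝ) ^ 2) ≤ (1 + (a.re : ℝ) ^ 2 + (a.im : ℝ) ^ 2) ^ 2 := by
      nlinarith [sq_nonneg (a.re : ℝ), sq_nonneg (a.im : ℝ), mul_nonneg (sq_nonneg (a.re : ℝ)) (sq_nonneg (a.im : ℝ)),
        sq_nonneg ((a.re : ℝ) ^ 2), sq_nonneg ((a.im : ℝ) ^ 2)]
    have h6 : (1 + (a.re : ℝ) ^ 2 + (a.im : ℝ) ^ 2) ^ 2 ≤ (3 * (nrm a : ℝ)) ^ 2 :=
      pow_le_pow_left₀ (by positivity) h3 2
    calc _ ≤ _ := h5
      _ ≤ _ := h6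
      _ = 9 * (nrm a : ℝ) ^ 2 := by ring
  have h5 : (0 : ℝ) < (1 + (a.re : ℝ) ^ 2) * (1 + (a.im : ℝ) ^ 2) := by positivity
  have h6 : (0 : ℝ) < (nrm a : ℝ) ^ 2 := by positivity
  rw [one_div_mul_one_div, mul_one_div, div_le_div_iff₀ h6 h5, one_mul]
  exact h4

theorem tail : ∃ C : ℝ, 0 < C ∧ ∀ s : Finset Ei, (∀ a ∈ s, a ≠ 0) → ∑ a ∈ s, (1 : ℝ) / (nrm a : ℝ) ^ 2 ≤ C := by
  set g : ℤ × ℤ → ℝ := fun p => (1 : ℝ) / (1 + (p.1 : ℝ) ^ 2) * (1 / (1 + (p.2 : ℝ) ^ 2)) with hg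
  have hg0 : ∀ p, 0 ≤ g p := fun p => by rw [hg]; positivity
  refine ⟨9 * (∑' p, g p) + 1, ?_, ?_⟩
  · have h0 : 0 ≤ ∑' p, g p := tsum_nonneg hg0
    positivity
  · intro s hs
    have h1 : ∑ a ∈ s, (1 : ℝ) / (nrm a : ℝ) ^ 2 ≤ ∑ a ∈ s, 9 * g (a.re, a.im) :=
      sum_le_sum fun a ha => term a (hs a ha)
    have hinj : Set.InjOn (fun a : Ei => ((a.re, a.im) : ℤ × ℤ)) (s : Set Ei) := by
      intro a _ b _ hab
      have h := Prod.mk.inj hab
      exact QuadraticAlgebra.ext h.1 h.2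
    have h2 : ∑ a ∈ s, g (a.re, a.im) = ∑ p ∈ s.image (fun a : Ei => ((a.re, a.im) : ℤ × ℤ)), g p := by
      rw [sum_image hinj]
    have h3 : ∑ p ∈ s.image (fun a : Ei => ((a.re, a.im) : ℤ × ℤ)), g p ≤ ∑' p, g p :=
      summ2.sum_le_tsum _ (fun p _ => hg0 p)
    rw [← mul_sum, h2] at h1
    linarith

/-! ### Arithmetic -/

theorem nr_prm {a : Ei} (h : prm a) : (3 : ℤ) ∣ nr a - 1 := by
  obtain ⟨b, hb⟩ := h
  have ha : a = 1 + 3 * b := by rw [← hb]; ring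
  have h1 : a.re = 1 + 3 * b.re := by
    rw [ha]
    simp [QuadraticAlgebra.re_ofNat, QuadraticAlgebra.im_ofNat]
    rfl
  have h2 : a.im = 3 * b.im := by
    rw [ha]
    simp [QuadraticAlgebra.re_ofNat, QuadraticAlgebra.im_ofNat]
    rfl
  unfold Pool.Agent.Y692.QS.nr
  rw [h1, h2]
  exact ⟨2 * b.re + 3 * b.re ^ 2 - (1 + 3 * b.re) * b.im + 3 * b.im ^ 2, by ring⟩

theorem nq_zero {a : Ei} (h : prm a) : nq a = 0 ↔ (9 : ℤ) ∣ nr a - 1 := by
  obtain ⟨k, hk⟩ := nr_prm h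
  unfold nq
  rw [hk, Int.mul_ediv_cancel_left _ (by norm_num), ZMod.intCast_zmod_eq_zero_iff_dvd]
  constructor
  · rintro ⟨m, hm⟩
    exact ⟨m, by rw [hm]; push_cast; ring⟩
  · rintro ⟨m, hm⟩
    exact ⟨m, by push_cast; linarith⟩

theorem nq_mul {a b : Ei} (ha : prm a) (hb : prm b) : nq (a * b) = nq a + nq b := by
  obtain ⟨m, hm⟩ := nr_prm ha
  obtain ⟨n, hn⟩ := nr_prm hb
  have h : nr (a * b) - 1 = 3 * (m + n + 3 * (m * n)) := by
    rw [nr_mul]
    have h1 : nr a = 1 + 3 * m := by linarith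
    have h2 : nr b = 1 + 3 * n := by linarith
    rw [h1, h2]
    ring
  unfold nq
  rw [hm, hn, h, Int.mul_ediv_cancel_left _ (by norm_num), Int.mul_ediv_cancel_left _ (by norm_num),
    Int.mul_ediv_cancel_left _ (by norm_num)]
  push_cast
  have h3 : (3 : ZMod 3) = 0 := by decide
  rw [h3]
  ring

theorem nine_three : (3 : Ei) ∣ 9 := ⟨3, by norm_num⟩

theorem prm_per {a b : Ei} (h : (9 : Ei) ∣ a - b) (ha : prm a) : prm b := by
  have h1 : (3 : Ei) ∣ a - b := nine_three.trans h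
  have h2 : b - 1 = (a - 1) - (a - b) := by ring
  show (3 : Ei) ∣ b - 1
  rw [h2]
  exact dvd_sub ha h1

theorem nq_per {a b : Ei} (h : (9 : Ei) ∣ a - b) (ha : prm a) : nq a = nq b := by
  obtain ⟨d, hd⟩ := h
  have hab : a = b + 9 * d := by rw [← hd]; ring
  have h1 : a.re = b.re + 9 * d.re := by
    rw [hab]
    simp [QuadraticAlgebra.re_ofNat, QuadraticAlgebra.im_ofNat]
  have h2 : a.im = b.im + 9 * d.im := by
    rw [hab]
    simp [QuadraticAlgebra.re_ofNat, QuadraticAlgebra.im_ofNat]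
  have hb : prm b := prm_per ⟨d, hd⟩ ha
  obtain ⟨m, hm⟩ := nr_prm ha
  obtain ⟨n, hn⟩ := nr_prm hb
  have h3 : ∃ k : ℤ, nr a = nr b + 9 * k := by
    unfold Pool.Agent.Y692.QS.nr
    rw [h1, h2]
    exact ⟨2 * b.re * d.re + 9 * d.re ^ 2 - b.re * d.im - d.re * b.im - 9 * d.re * d.im +
      2 * b.im * d.im + 9 * d.im ^ 2, by ring⟩
  obtain ⟨k, hk⟩ := h3
  have h4 : m = n + 3 * k := by linarith
  unfold nq
  rw [hm, hn, Int.mul_ediv_cancel_left _ (by norm_num), Int.mul_ediv_cancel_left _ (by norm_num), h4]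
  push_cast
  have h3 : (3 : ZMod 3) = 0 := by decide
  rw [h3]
  ring

theorem nq_four : nq 4 = 2 := by decide

theorem prm_four : prm (4 : Ei) := ⟨1, by norm_num⟩

/-- the periodic condition -/
def G (P : ℕ) (a : Ei) : Prop := prm a ∧ ∀ π ∈ QB P, ¬ π ^ 3 ∣ a

/-- the product of the cubes -/
noncomputable def q0 (P : ℕ) : Ei := ∏ π ∈ QB P, π ^ 3

theorem q0_ne (P : ℕ) : q0 P ≠ 0 := by
  unfold q0
  rw [prod_ne_zero_iff]
  intro π hπ
  exact pow_ne_zero _ (pq_ne (mem_QB.1 hπ).2)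

theorem q0_cop (P : ℕ) : IsCoprime (q0 P) 9 := by
  unfold q0
  refine IsCoprime.prod_left fun π hπ => ?_
  have h := (mem_QB.1 hπ).2
  have h1 : IsCoprime π 3 := (h.prime.irreducible.coprime_iff_not_dvd).2 h.norm
  have h2 : (9 : Ei) = 3 ^ 2 := by norm_num
  rw [h2]
  exact h1.pow

theorem nine_ne : (9 : Ei) ≠ 0 := by decide

/-- cancellation of the character sum -/
theorem csum' (P : ℕ) (t : ZMod 3) (ht : t ≠ 0) (V : ℕ) :
    ‖∑ a ∈ (ZB V).filter (G P), ez (t * nq a)‖ ≤ 3 * nrm (9 * q0 P) * (3 * Real.sqrt V + 1) := by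
  rw [sum_filter]
  obtain ⟨x, y, hxy⟩ := q0_cop P
  set c : Ei := 1 + 3 * (x * q0 P) with hc
  have hc4 : (9 : Ei) ∣ 4 - c := ⟨3 * y, by rw [hc]; linear_combination (-3 : Ei) * hxy⟩
  have hc0 : c - 3 * x * q0 P = 1 := by rw [hc]; ring
  have hprm : prm c := prm_per hc4 prm_four
  have hnq : nq c = 2 := by rw [← nq_per hc4 prm_four, nq_four]
  have hcop0 : IsCoprime c (q0 P) := ⟨1, -(3 * x), by rw [← hc0]; ring⟩
  have hcop9 : IsCoprime c 9 := ⟨-2, 1 - 6 * y, by rw [hc]; linear_combination (-6 : Ei) * hxy⟩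
  have hz : ez (t * nq c) ≠ 1 := by
    apply ez_ne
    rw [hnq]
    intro h
    apply ht
    revert h
    revert t
    decide
  have hGc : ∀ a, G P (c * a) ↔ G P a := by
    intro a
    unfold G
    refine and_congr ⟨fun h => prm_cancel hprm h, fun h => prm_mul hprm h⟩ ?_
    refine forall₂_congr fun π hπ => not_congr ?_
    have h1 : IsCoprime (π ^ 3) c := by
      have h2 : π ^ 3 ∣ q0 P := dvd_prod_of_mem (fun π => π ^ 3) hπ
      exact (hcop0.symm).of_isCoprime_of_dvd_left h2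
    exact ⟨fun h => h1.dvd_of_dvd_mul_left h, fun h => h.mul_left _⟩
  refine csum (mul_ne_zero nine_ne (q0_ne P)) ?_ ?_ (IsCoprime.mul_right hcop9 hcop0) hz ?_ V
  · intro a b hab
    have h9 : (9 : Ei) ∣ a - b := (dvd_mul_right _ _).trans hab
    have h0 : q0 P ∣ a - b := (dvd_mul_left _ _).trans hab
    have hG : ∀ a b : Ei, (9 : Ei) * q0 P ∣ a - b → G P a → G P b := by
      intro a b hab h
      have h9 : (9 : Ei) ∣ a - b := (dvd_mul_right _ _).trans hab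
      have h0 : q0 P ∣ a - b := (dvd_mul_left _ _).trans hab
      refine ⟨prm_per h9 h.1, fun π hπ hd => h.2 π hπ ?_⟩
      have h2 : π ^ 3 ∣ q0 P := dvd_prod_of_mem (fun π => π ^ 3) hπ
      have h3 : a = (a - b) + b := by ring
      rw [h3]
      exact dvd_add (h2.trans h0) hd
    by_cases hGa : G P a
    · rw [if_pos hGa, if_pos (hG a b hab hGa), nq_per h9 hGa.1]
    · have hGb : ¬ G P b := fun h => hGa (hG b a (by rw [← neg_sub]; exact (dvd_neg).2 hab) h)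
      rw [if_neg hGa, if_neg hGb]
  · intro a
    split_ifs
    · rw [norm_ez]
    · rw [norm_zero]; norm_num
  · intro a
    by_cases h : G P a
    · rw [if_pos h, if_pos ((hGc a).2 h), nq_mul hprm h.1, mul_add, ez_add]
    · rw [if_neg h, if_neg (fun hh => h ((hGc a).1 hh)), mul_zero]

/-- the multiples of the cube of a large prime -/
theorem card_cube (X : ℕ) (π : Ei) (hπ : π ≠ 0) :
    (((ZB X).filter fun a => a ≠ 0 ∧ π ^ 3 ∣ a).card : ℝ) ≤ 16 * X / (nrm π : ℝ) ^ 3 := by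
  have hn : 0 < nrm π := nrm_pos' hπ
  rcases Finset.eq_empty_or_nonempty ((ZB X).filter fun a => a ≠ 0 ∧ π ^ 3 ∣ a) with he | ⟨a, ha⟩
  · rw [he, card_empty, Nat.cast_zero]
    positivity
  · rw [mem_filter, mem_ZB] at ha
    have hp3 : nrm (π ^ 3) = nrm π ^ 3 := by
      rw [pow_succ, pow_succ, pow_one, nrm_mul, nrm_mul]
      ring
    have h1 : nrm π ^ 3 ≤ X := by
      rw [← hp3]
      exact (norm_le_of_dvd ha.2.1 ha.2.2).trans ha.1
    have h2 : 1 ≤ X / nrm π ^ 3 := (Nat.one_le_div_iff (by positivity)).2 h1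
    have h3 : ((ZB X).filter fun a => a ≠ 0 ∧ π ^ 3 ∣ a) ⊆
        (ZB (X / nrm π ^ 3)).image (fun b => π ^ 3 * b) := by
      intro a ha
      rw [mem_filter, mem_ZB] at ha
      obtain ⟨hle, h0, b, rfl⟩ := ha
      rw [mem_image]
      refine ⟨b, ?_, rfl⟩
      rw [mem_ZB, Nat.le_div_iff_mul_le (by positivity), mul_comm, ← hp3, ← nrm_mul]
      exact hle
    have h4 : ((ZB X).filter fun a => a ≠ 0 ∧ π ^ 3 ∣ a).card ≤ (ZB (X / nrm π ^ 3)).card :=
      (card_le_card h3).trans card_image_le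
    calc (((ZB X).filter fun a => a ≠ 0 ∧ π ^ 3 ∣ a).card : ℝ) ≤ ((ZB (X / nrm π ^ 3)).card : ℝ) := by
          exact_mod_cast h4
      _ ≤ 16 * ((X / nrm π ^ 3 : ℕ) : ℝ) := card_ZB_le h2
      _ ≤ 16 * ((X : ℝ) / ((nrm π ^ 3 : ℕ) : ℝ)) := by
          gcongr
          exact Nat.cast_div_le
      _ = 16 * X / (nrm π : ℝ) ^ 3 := by push_cast; ring

/-- the cube-free elements -/
noncomputable def CF (X : ℕ) : Finset Ei := (ZB X).filter ClP

theorem CF_sub (X P : ℕ) : CF X ⊆ (ZB X).filter (G P) := by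
  intro a ha
  unfold CF at ha
  rw [mem_filter] at ha ⊢
  refine ⟨ha.1, ha.2.1, fun π hπ hd => ?_⟩
  exact (mem_QB.1 hπ).2.prime.not_isUnit (ha.2.2 π hd)

theorem diff_card : ∃ C : ℝ, 0 < C ∧ ∀ X P : ℕ, 1 ≤ P →
    ((((ZB X).filter (G P)) \ CF X).card : ℝ) ≤ C * X / P := by
  obtain ⟨C, hC, hT⟩ := tail
  refine ⟨16 * C, by positivity, fun X P hP => ?_⟩
  set S := (QB X).filter fun π => P < nrm π with hS
  have hsub : ((ZB X).filter (G P)) \ CF X ⊆ S.biUnion fun π => (ZB X).filter fun a => a ≠ 0 ∧ π ^ 3 ∣ a := by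
    intro a ha
    rw [mem_sdiff, mem_filter] at ha
    obtain ⟨⟨haX, hG⟩, hn⟩ := ha
    have ha0 : a ≠ 0 := prm_ne_zero hG.1
    have h1 : ¬ ClP a := fun h => hn (by unfold CF; rw [mem_filter]; exact ⟨haX, h⟩)
    have h2 : ∃ x : Ei, x ^ 3 ∣ a ∧ ¬ IsUnit x := by
      by_contra hcon
      push Not at hcon
      exact h1 ⟨hG.1, hcon⟩
    obtain ⟨x, hx, hxu⟩ := h2
    have hx0 : x ≠ 0 := by
      rintro rfl
      rw [zero_pow three_ne_zero, zero_dvd_iff] at hx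
      exact ha0 hx
    obtain ⟨ρ, hρ, hρx⟩ := WfDvdMonoid.exists_irreducible_factor hxu hx0
    have hρ' : Prime ρ := irreducible_iff_prime.1 hρ
    have h3 : ρ ∣ a := (hρx.trans (dvd_pow_self x three_ne_zero)).trans hx
    obtain ⟨π, hπ, hass⟩ := exists_PP hρ' (not_dvd_three hρ' h3 hG.1)
    have h4 : π ^ 3 ∣ a := (pow_dvd_pow_of_dvd (hass.dvd.trans hρx) 3).trans hx
    have h5 : P < nrm π := by
      by_contra hcon
      exact hG.2 π (mem_QB.2 ⟨not_lt.1 hcon, hπ⟩) h4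
    have h6 : nrm π ≤ X := (norm_le_of_dvd ha0 ((dvd_pow_self π three_ne_zero).trans h4)).trans (mem_ZB.1 haX)
    rw [mem_biUnion]
    refine ⟨π, ?_, ?_⟩
    · rw [hS, mem_filter, mem_QB]
      exact ⟨⟨h6, hπ⟩, h5⟩
    · rw [mem_filter]
      exact ⟨haX, ha0, h4⟩
  have hS0 : ∀ π ∈ S, π ≠ 0 := by
    intro π hπ
    rw [hS, mem_filter, mem_QB] at hπ
    exact pq_ne hπ.1.2
  have hP' : (0 : ℝ) < P := by exact_mod_cast hP
  calc ((((ZB X).filter (G P)) \ CF X).card : ℝ)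
      ≤ ((S.biUnion fun π => (ZB X).filter fun a => a ≠ 0 ∧ π ^ 3 ∣ a).card : ℝ) := by
        exact_mod_cast card_le_card hsub
    _ ≤ ∑ π ∈ S, (((ZB X).filter fun a => a ≠ 0 ∧ π ^ 3 ∣ a).card : ℝ) := by
        exact_mod_cast card_biUnion_le
    _ ≤ ∑ π ∈ S, 16 * X / (nrm π : ℝ) ^ 3 := sum_le_sum fun π hπ => card_cube X π (hS0 π hπ)
    _ ≤ ∑ π ∈ S, (16 * X / P) * (1 / (nrm π : ℝ) ^ 2) := by
        refine sum_le_sum fun π hπ => ?_
        have h1 : (P : ℝ) ≤ nrm π := by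
          have := (mem_filter.1 (hS ▸ hπ)).2
          exact_mod_cast this.le
        have h2 : (0 : ℝ) < nrm π := lt_of_lt_of_le hP' h1
        rw [div_mul_div_comm, mul_one]
        refine div_le_div_of_nonneg_left (by positivity) (by positivity) ?_
        calc (P : ℝ) * (nrm π : ℝ) ^ 2 ≤ nrm π * (nrm π : ℝ) ^ 2 := by gcongr
          _ = (nrm π : ℝ) ^ 3 := by ring
    _ = (16 * X / P) * ∑ π ∈ S, 1 / (nrm π : ℝ) ^ 2 := by rw [mul_sum]
    _ ≤ (16 * X / P) * C := by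
        refine mul_le_mul_of_nonneg_left (hT S hS0) (by positivity)
    _ = 16 * C * X / P := by ring

/-- the character sums over the cube-free elements are small -/
theorem small (t : ZMod 3) (ht : t ≠ 0) : ∀ ε : ℝ, 0 < ε → ∃ X₀ : ℕ, ∀ X : ℕ, X₀ ≤ X →
    ‖∑ a ∈ CF X, ez (t * nq a)‖ ≤ ε * X := by
  intro ε hε
  obtain ⟨C, hC, hD⟩ := diff_card
  obtain ⟨P, hP⟩ := exists_nat_ge (2 * C / ε + 1)
  have hP1 : 1 ≤ P := by
    have : (1 : ℝ) ≤ P := le_trans (by have : 0 ≤ 2 * C / ε := by positivity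
                                       linarith) hP
    exact_mod_cast this
  have hP0 : (0 : ℝ) < P := by exact_mod_cast hP1
  set K : ℝ := 3 * nrm (9 * q0 P) with hK
  have hK0 : 0 ≤ K := by rw [hK]; positivity
  obtain ⟨X₀, hX₀⟩ := exists_nat_ge ((8 * K / ε) ^ 2 + 1)
  refine ⟨X₀, fun X hX => ?_⟩
  have hX1 : (8 * K / ε) ^ 2 + 1 ≤ (X : ℝ) := hX₀.trans (by exact_mod_cast hX)
  have hXone : (1 : ℝ) ≤ X := by nlinarith [sq_nonneg (8 * K / ε)]
  have hsq : 8 * K / ε ≤ Real.sqrt X := by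
    refine Real.le_sqrt_of_sq_le ?_
    linarith
  have hs1 : 1 ≤ Real.sqrt X := Real.one_le_sqrt.2 hXone
  have hss : Real.sqrt X * Real.sqrt X = X := Real.mul_self_sqrt (by positivity)
  have h1 : ∑ a ∈ CF X, ez (t * nq a) = ∑ a ∈ (ZB X).filter (G P), ez (t * nq a) -
      ∑ a ∈ ((ZB X).filter (G P)) \ CF X, ez (t * nq a) := by
    rw [← sum_sdiff (CF_sub X P)]
    ring
  have h2 : ‖∑ a ∈ ((ZB X).filter (G P)) \ CF X, ez (t * nq a)‖ ≤ ε / 2 * X := by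
    calc _ ≤ ∑ a ∈ ((ZB X).filter (G P)) \ CF X, ‖ez (t * nq a)‖ := norm_sum_le _ _
      _ = ((((ZB X).filter (G P)) \ CF X).card : ℝ) := by
          rw [sum_congr rfl (fun a _ => norm_ez _), sum_const, nsmul_eq_mul, mul_one]
      _ ≤ C * X / P := hD X P hP1
      _ ≤ ε / 2 * X := by
          rw [div_le_iff₀ hP0]
          have h3 : 2 * C / ε ≤ P := by linarith
          rw [div_le_iff₀ hε] at h3
          nlinarith
  have h3 : ‖∑ a ∈ (ZB X).filter (G P), ez (t * nq a)‖ ≤ ε / 2 * X := by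
    refine (csum' P t ht X).trans ?_
    rw [← hK]
    have h4 : 8 * K ≤ Real.sqrt X * ε := by
      rwa [div_le_iff₀ hε] at hsq
    calc K * (3 * Real.sqrt X + 1) ≤ K * (4 * Real.sqrt X) := by
          refine mul_le_mul_of_nonneg_left ?_ hK0
          linarith
      _ = (8 * K) * Real.sqrt X / 2 := by ring
      _ ≤ (Real.sqrt X * ε) * Real.sqrt X / 2 := by
          gcongr
      _ = ε / 2 * (Real.sqrt X * Real.sqrt X) := by ring
      _ = ε / 2 * X := by rw [hss]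
  rw [h1]
  calc _ ≤ _ := norm_sub_le _ _
    _ ≤ ε / 2 * X + ε / 2 * X := add_le_add h3 h2
    _ = ε * X := by ring

theorem card_CF (X : ℕ) : {D : Ei | nr D ≤ X ∧ ClP D}.ncard = (CF X).card := by
  rw [← Set.ncard_coe_finset]
  congr 1
  ext D
  unfold CF
  rw [coe_filter, Set.mem_ofPred_eq, Set.mem_ofPred_eq, mem_ZB]
  refine and_congr ?_ Iff.rfl
  rw [← nrm_cast]
  exact Nat.cast_le

theorem card_CF1 (X : ℕ) : {D : Ei | nr D ≤ X ∧ ClP D ∧ (9 : ℤ) ∣ nr D - 1}.ncard =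
    ((CF X).filter fun D => nq D = 0).card := by
  rw [← Set.ncard_coe_finset]
  congr 1
  ext D
  unfold CF
  rw [coe_filter, Set.mem_ofPred_eq, Set.mem_ofPred_eq, mem_filter, mem_ZB, and_assoc]
  have h1 : nr D ≤ X ↔ nrm D ≤ X := by
    rw [← nrm_cast]
    exact Nat.cast_le
  rw [h1]
  constructor
  · rintro ⟨h2, h3, h4⟩
    exact ⟨h2, h3, (nq_zero h3.1).2 h4⟩
  · rintro ⟨h2, h3, h4⟩
    exact ⟨h2, h3, (nq_zero h3.1).1 h4⟩

theorem three_card (X : ℕ) : (3 : ℂ) * (((CF X).filter fun D => nq D = 0).card : ℂ) =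
    ((CF X).card : ℂ) + ∑ a ∈ CF X, ez (1 * nq a) + ∑ a ∈ CF X, ez (2 * nq a) := by
  have h1 : ∀ a : Ei, ∑ c : ZMod 3, ez (c * nq a) = 1 + ez (1 * nq a) + ez (2 * nq a) := by
    intro a
    have : (Finset.univ : Finset (ZMod 3)) = {0, 1, 2} := by decide
    rw [this, sum_insert (by decide), sum_insert (by decide), sum_singleton, zero_mul, ez_zero]
    ring
  have h2 : ∑ a ∈ CF X, ∑ c : ZMod 3, ez (c * nq a) = (3 : ℂ) * (((CF X).filter fun D => nq D = 0).card : ℂ) := by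
    rw [sum_congr rfl (fun a _ => sum_ez (nq a)), ← sum_filter, sum_const, nsmul_eq_mul, mul_comm]
  rw [← h2, sum_congr rfl (fun a _ => h1 a), sum_add_distrib, sum_add_distrib, sum_const, nsmul_eq_mul, mul_one]

end Den3

open Den3 in
theorem den3 : S_DEN3 := by
  obtain ⟨c, hc, X₀, hcnt⟩ := Pool.Agent.Y145.CT9.cnt9
  have hlow : ∀ X : ℕ, X₀ ≤ X → c * X ≤ ((CF X).card : ℝ) := by
    intro X hX
    refine (hcnt X hX).trans ?_
    rw [← card_CF]
    have hfin : {D : Ei | nr D ≤ X ∧ ClP D}.Finite := by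
      refine (ZB X).finite_toSet.subset ?_
      intro D hD
      rw [mem_coe, mem_ZB]
      have h1 : nr D ≤ X := hD.1
      rw [← nrm_cast] at h1
      exact_mod_cast h1
    have hsub : {D : Ei | nr D ≤ X ∧ Pool.Agent.Y703.CT.ClsE D} ⊆ {D : Ei | nr D ≤ X ∧ ClP D} := by
      rintro D ⟨h1, h2, h3, h4⟩
      refine ⟨h1, h2, fun x hx => h3 x ?_⟩
      exact (Dvd.intro_left x (by ring)).trans hx
    exact_mod_cast Set.ncard_le_ncard hsub hfin
  refine ⟨⟨c, hc, X₀, fun X hX => by rw [card_CF]; exact hlow X hX⟩, ?_⟩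
  rw [Metric.tendsto_atTop]
  intro ε hε
  obtain ⟨X₁, h1⟩ := small 1 (by decide) (c * ε) (by positivity)
  obtain ⟨X₂, h2⟩ := small 2 (by decide) (c * ε) (by positivity)
  refine ⟨max (max X₀ 1) (max X₁ X₂), fun X hX => ?_⟩
  have hX0 : X₀ ≤ X := le_trans (le_trans (le_max_left _ _) (le_max_left _ _)) hX
  have hXp : 1 ≤ X := le_trans (le_trans (le_max_right _ _) (le_max_left _ _)) hX
  have hX1 : X₁ ≤ X := le_trans (le_trans (le_max_left _ _) (le_max_right _ _)) hX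
  have hX2 : X₂ ≤ X := le_trans (le_trans (le_max_right _ _) (le_max_right _ _)) hX
  rw [card_CF, card_CF1, Real.dist_eq]
  have hl := hlow X hX0
  have hXr : (0 : ℝ) < X := by exact_mod_cast hXp
  have hn : (0 : ℝ) < ((CF X).card : ℝ) := lt_of_lt_of_le (by positivity) hl
  set n : ℝ := ((CF X).card : ℝ) with hn'
  set m : ℝ := (((CF X).filter fun D => nq D = 0).card : ℝ) with hm'
  have h3 : |3 * m - n| ≤ 2 * (c * ε * X) := by
    have h4 := three_card X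
    have h5 : ((3 * m - n : ℝ) : ℂ) = ∑ a ∈ CF X, ez (1 * nq a) + ∑ a ∈ CF X, ez (2 * nq a) := by
      rw [hm', hn']
      push_cast
      linear_combination h4
    rw [← Real.norm_eq_abs, ← Complex.norm_real, h5]
    calc _ ≤ _ := norm_add_le _ _
      _ ≤ c * ε * X + c * ε * X := add_le_add (h1 X hX1) (h2 X hX2)
      _ = 2 * (c * ε * X) := by ring
  have h6 : m / n - 1 / 3 = (3 * m - n) / (3 * n) := by
    field_simp
  rw [h6, abs_div, abs_of_pos (by positivity : (0 : ℝ) < 3 * n), div_lt_iff₀ (by positivity)]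
  calc |3 * m - n| ≤ 2 * (c * ε * X) := h3
    _ = 2 * ε * (c * X) := by ring
    _ ≤ 2 * ε * n := by gcongr
    _ < ε * (3 * n) := by nlinarith

end Pool.Agent.N883.FF
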