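import Pool.Agent.N883.FF.StmC
import Pool.Agent.R419.KF.NS

/-!
# Project FF: statements of the counting part, elements
-/

set_option autoImplicit false
set_option linter.unusedVariables false

open scoped Classical

namespace Pool.Agent.N883.FF

open Finset
open Pool.Agent.Y692.QS (Ei w nr toC)
open Pool.Agent.Y715.T.RecG (Pq)
open Pool.Agent.Y699.E (nrm)
open Pool.Agent.Y703.XK (c9)
open Pool.Agent.R419.KF (wt SG el)

/-- FF-TOT: the proportion among the cube-free primary elements. -/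
def S_TOTB : Prop := (∀ (i : ZMod 3), i ≠ 0 → ∀ (M : Finset Ei) (ε : ℝ),
  0 < ε → ∃ X₀ : ℕ, ∀ X : ℕ, X₀ ≤ X →
    |(((SU M X).filter (GdB i M)).card : ℝ) - c9 * ((SU M X).card : ℝ)| ≤ ε * X) →
  ∀ (i : ZMod 3), i ≠ 0 → ∀ T : Ei → Prop,
    (∀ M S : Finset Ei, ClU M S → (T (el M S) ↔ GdB i M S)) →
    Filter.Tendsto (fun X : ℕ => ({D : Ei | nr D ≤ X ∧ ClP D ∧ T D}.ncard : ℝ) /
      ({D : Ei | nr D ≤ X ∧ ClP D}.ncard : ℝ)) Filter.atTop (nhds c9)

/-- FF-DATA: the factorization of an element of the class. -/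
def S_DATB : Prop := ∀ M S : Finset Ei, ClU M S → S.Nonempty → ∀ i : ZMod 3,
  ∃ (n : ℕ) (π : Fin (n + 1) → Ei) (e : Fin (n + 1) → ZMod 3),
    Pool.Agent.Y703.CT.Dt π e ∧ el M S = Pool.Agent.Y703.CT.pD π e ∧ (GdB i M S ↔ KerB π e i)

end Pool.Agent.N883.FF
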