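import Pool.Agent.N883.FF.StmS
import Pool.Agent.Y48.CT.SEL

/-!
# FF/SEL: the Selmer group of `ω ^ i ∏ π_j ^ (e j)` (written by helper776)
-/

set_option autoImplicit false
set_option linter.unusedSectionVars false

open scoped Classical

namespace Pool.Agent.N883.FF.Sel

open Pool.Agent.Y692.QS (Ei w nr nr_nonneg nr_zero_iff isUnit_iff w_cube nr_mod ep epz ep_unit)
open Pool.Agent.Y715.T.Gi Pool.Agent.Y715.T.Nr Pool.Agent.Y715.T.Df
open Pool.Agent.Y715.T.Rec (cs nn)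
open Pool.Agent.Y715.T.RecG
open Pool.Agent.Y715.T.Sel (fac kc_mul kc_one kc_congr kc_pow kc_cube kc_uniq kc_cancel kc_unit
  kc_exp ex_root root_ne iota_sq iota_ev odd_of not_dvd_of_unr resid_kc exists_emb3)
open Pool.Agent.Y703.CT
open Pool.Agent.Y48.CT.SEL (not_lam not_assoc_lam p0 pr0 esq not_dvd_prod prod_form cf_prod
  support)

variable {J : Type} [Fintype J] {π : J → Ei} {e : J → ZMod 3}
variable {i₀ : QB} {hi : i₀ ^ 2 + i₀ + 1 = 0}

lemma w_unit : IsUnit w := by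
  rw [isUnit_iff]
  decide

lemma w_ne : w ≠ 0 := w_unit.ne_zero

lemma unit_w {u : Ei} (hu : IsUnit u) : ∃ s : ℕ, u = w ^ s ∨ u = -w ^ s := by
  have key : ∀ x y : ZMod 3, (x + y) ^ 2 ≠ 0 →
      ∃ s : Fin 3, epz x y = w ^ (s : ℕ) ∨ epz x y = -w ^ (s : ℕ) := by decide
  have h1 := nr_mod u
  rw [isUnit_iff.1 hu] at h1
  have h2 : ((u.re : ZMod 3) + u.im) ^ 2 ≠ 0 := by
    rw [← h1]
    decide
  obtain ⟨s, hs⟩ := key _ _ h2
  have h3 : ep u = epz (u.re : ZMod 3) (u.im : ZMod 3) := rfl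
  rw [← h3, ep_unit hu] at hs
  exact ⟨s, hs⟩

/-- the exponents matter modulo three only -/
lemma kc_exp2 (h0 : ∀ j, π j ≠ 0) {h : GK i₀ → ZMod 3} {s t : ℕ} {x y : J → ℕ}
    (hst : (s : ZMod 3) = t) (hxy : ∀ j, (x j : ZMod 3) = y j)
    (hz : Kc hi (w ^ s * ∏ j, π j ^ x j) h) : Kc hi (w ^ t * ∏ j, π j ^ y j) h := by
  have h1 := kc_exp (hi := hi) (J := Option J) (π := fun o => o.elim w π)
    (x := fun o => o.elim s x) (y := fun o => o.elim t y) (h := h) (by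
      rintro (_ | j)
      · exact w_ne
      · exact h0 j) (by
      rintro (_ | j)
      · exact hst
      · exact hxy j)
  rw [Fintype.prod_option, Fintype.prod_option] at h1
  exact h1 hz

lemma cf_unit {u z : Ei} (hu : IsUnit u) (hz : CF z) : CF (u * z) := by
  refine ⟨mul_ne_zero hu.ne_zero hz.1, fun d hd => hz.2 d ?_⟩
  exact (hu.dvd_mul_left).1 hd

lemma cs_w {ρ : Ei} (h : Pq ρ) : cs ρ w = nq ρ := by
  refine cs_of h.prime h.norm ?_
  have h1 : 0 ≤ nr ρ := nr_nonneg ρ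
  have h2 : nr ρ ≠ 0 := fun h' => h.prime.ne_zero (nr_zero_iff.1 h')
  have h3 : ((nn ρ : ℕ) : ℤ) = (nr ρ - 1) / 3 := by
    unfold nn
    omega
  have h4 : ((nn ρ : ℕ) : ZMod 3) = nq ρ := by
    unfold nq
    rw [← h3]
    push_cast
    rfl
  have h5 : w ^ nn ρ = w ^ (nq ρ).val := by
    rw [← h4, ZMod.val_natCast]
    conv_lhs => rw [← Nat.div_add_mod (nn ρ) 3, pow_add, pow_mul, w_cube, one_pow, one_mul]
  rw [h5, sub_self]
  exact dvd_zero _

lemma unit_norm {p : ℕ} [Fact p.Prime] (ι : QB →ₐ[ℚ] PadicAlgCl p) :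
    ‖ι (ev i₀ hi w)‖ = 1 := by
  have h1 : (ι (ev i₀ hi w)) ^ 3 = 1 := by
    rw [← map_pow, ← map_pow, w_cube, map_one, map_one]
  have h2 : ‖ι (ev i₀ hi w)‖ ^ 3 = 1 := by rw [← norm_pow, h1, norm_one]
  exact (pow_eq_one_iff_of_nonneg (norm_nonneg _) three_ne_zero).1 h2

lemma pB_ne (hD : Dt π e) (i : ZMod 3) : pB π e i ≠ 0 :=
  mul_ne_zero (pow_ne_zero _ w_ne) (pr0 hD _)

lemma not_lam_pB (hD : Dt π e) (i : ZMod 3) : ¬ lam ∣ pB π e i := by
  intro h
  have h1 : lam ∣ pD π e := ((w_unit.pow i.val).dvd_mul_left).1 h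
  have h2 : (3 : Ei) ∣ pD π e - 1 := prod_form hD _
  have h3 : lam ∣ (3 : Ei) := by
    have e1 : (3 : Ei) = -(lam * lam) := by
      have := lam_sq
      rw [pow_two] at this
      rw [this, neg_neg]
    rw [e1]
    exact (dvd_neg).2 (dvd_mul_right _ _)
  have h4 : lam ∣ 1 := by
    have := dvd_sub h1 (h3.trans h2)
    rwa [sub_sub_cancel] at this
  exact prime_lam.not_isUnit (isUnit_of_dvd_one h4)

lemma pB_norm (hD : Dt π e) (i : ZMod 3) {p : ℕ} [Fact p.Prime] (ι : QB →ₐ[ℚ] PadicAlgCl p)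
    (h : ∀ j, ¬ ‖ι (ev i₀ hi (π j))‖ < 1) : ¬ ‖ι (ev i₀ hi (pB π e i))‖ < 1 := by
  have h1 : ∀ j, ‖ι (ev i₀ hi (π j))‖ = 1 := by
    intro j
    refine le_antisymm ?_ (not_lt.1 (h j))
    rw [iota_ev]
    exact ev_le (iota_sq hi ι) _
  have h2 : ‖ι (ev i₀ hi (pB π e i))‖ = 1 := by
    unfold pB pD
    rw [map_mul, map_pow, map_prod, map_mul, map_pow, map_prod, norm_mul, norm_pow, unit_norm,
      one_pow, one_mul, norm_prod]
    refine Finset.prod_eq_one fun j _ => ?_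
    rw [map_pow, map_pow, norm_pow, h1, one_pow]
  rw [h2]
  exact lt_irrefl _

end Pool.Agent.N883.FF.Sel

namespace Pool.Agent.N883.FF

open Pool.Agent.Y692.QS (Ei w nr nr_nonneg nr_zero_iff isUnit_iff w_cube)
open Pool.Agent.Y715.T.Gi Pool.Agent.Y715.T.Nr Pool.Agent.Y715.T.Df
open Pool.Agent.Y715.T.Rec (cs nn)
open Pool.Agent.Y715.T.RecG
open Pool.Agent.Y715.T.Sel (fac kc_mul kc_one kc_congr kc_pow kc_cube kc_uniq kc_cancel kc_unit
  kc_exp ex_root root_ne iota_sq iota_ev odd_of not_dvd_of_unr resid_kc exists_emb3)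
open Pool.Agent.Y703.CT
open Pool.Agent.Y48.CT.SEL (not_lam not_assoc_lam p0 pr0 esq not_dvd_prod prod_form cf_prod
  support)
open Sel

/-- **FF-SEL.** -/
theorem sel : S_SELB := by
  intro hLOC hRAM hUNR J _ π e i hD hi0 hker i₀ hi u a hTw h hc hm hloc
  have hkey : ∀ c : ZMod 3, c ≠ 0 → c * c = 1 := by decide
  have hii : i * i = 1 := hkey i hi0
  have hD0 := pB_ne hD i
  -- the character `a`
  have hb : Kc hi (w ^ i.val * ∏ j, π j ^ (e j).val) (fun σ => -a σ) :=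
    kc_of hi (root_ne (hi := hi) (z := pB π e i) hD0 hTw.cube) hTw.cube hTw.act
  -- the Kummer generator
  obtain ⟨z, hz, hzh⟩ := kum hi h hc hm
  obtain ⟨v₀, g, x₀, hu, ez⟩ := fac (π := π) z hz.1 (support hD hz hzh
    (fun p _ ι hp3 hpj τ σ hcc hτ => by
      obtain ⟨R, hR⟩ := hloc p ι
      exact (hUNR (pB π e i) hD0 i₀ hi u a hTw h p ι hp3 (pB_norm hD i ι hpj) R hR τ σ hcc
        hτ).2))
  rw [ez] at hzh
  obtain ⟨ι₃⟩ := exists_emb3
  obtain ⟨q, hq⟩ := prod_form hD x₀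
  have hq' : ∏ j, π j ^ x₀ j = 1 + 3 * q := by rw [← hq]; ring
  have hx0 : Kc hi (v₀ * ∏ j, π j ^ x₀ j) h := by
    obtain ⟨R, hR⟩ := hloc 3 ι₃
    have hzh' := hzh
    rw [hq'] at hzh'
    obtain ⟨g', hg'⟩ := hLOC i₀ hi (pB π e i) (not_lam_pB hD i) u a hTw h v₀ q g hu hzh'
      inferInstance ι₃ R hR
    refine kc_cancel (z' := lam ^ g') (mul_ne_zero hu.ne_zero (pr0 hD _))
      (pow_ne_zero _ prime_lam.ne_zero) ?_
    have e1 : v₀ * (∏ j, π j ^ x₀ j) * (lam ^ g') ^ 3 = v₀ * lam ^ g * ∏ j, π j ^ x₀ j := by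
      rw [hg', ← pow_mul, mul_comm g' 3]
      ring
    rw [e1]
    exact hzh
  -- the sign
  obtain ⟨s, hs⟩ := unit_w hu
  have hx1 : Kc hi (w ^ s * ∏ j, π j ^ x₀ j) h := by
    have h0 : w ^ s * ∏ j, π j ^ x₀ j ≠ 0 := mul_ne_zero (pow_ne_zero _ w_ne) (pr0 hD _)
    rcases hs with hs | hs
    · rw [← hs]; exact hx0
    · refine kc_unit (u := -1) h0 (Or.inr rfl) ?_
      rw [hs] at hx0
      have e1 : -w ^ s * ∏ j, π j ^ x₀ j = -1 * (w ^ s * ∏ j, π j ^ x₀ j) := by ring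
      rwa [e1] at hx0
  -- remove the power of `w`
  set n₀ : ℕ := (-(s : ZMod 3) * i).val with hn₀
  have hn₀' : (n₀ : ZMod 3) = -(s : ZMod 3) * i := ZMod.natCast_zmod_val _
  obtain ⟨h', hh'⟩ : ∃ h' : GK i₀ → ZMod 3, h' = fun σ => h σ + n₀ * -a σ := ⟨_, rfl⟩
  obtain ⟨x, hxd⟩ : ∃ x : J → ℕ, x = fun j => x₀ j + (e j).val * n₀ := ⟨_, rfl⟩
  have h00 : ∀ (s : ℕ) (f : J → ℕ), w ^ s * ∏ j, π j ^ f j ≠ 0 := fun s f =>
    mul_ne_zero (pow_ne_zero _ w_ne) (pr0 hD _)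
  have epow : ∀ (s : ℕ) (f : J → ℕ) (n : ℕ), (w ^ s * ∏ j, π j ^ f j) *
      (w ^ i.val * ∏ j, π j ^ (e j).val) ^ n =
      w ^ (s + i.val * n) * ∏ j, π j ^ (f j + (e j).val * n) := by
    intro s f n
    rw [mul_pow, ← Finset.prod_pow, ← pow_mul, mul_mul_mul_comm, ← pow_add,
      ← Finset.prod_mul_distrib]
    congr 1
    refine Finset.prod_congr rfl fun j _ => ?_
    rw [← pow_mul, ← pow_add]
  have hx : Kc hi (∏ j, π j ^ x j) h' := by
    have h1 := kc_mul (h00 s x₀) (pow_ne_zero n₀ (h00 _ _)) hx1 (kc_pow (h00 _ _) hb n₀)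
    rw [epow] at h1
    have h2 := kc_exp2 (t := 0) (y := x) (p0 hD) (by
      push_cast
      rw [hn₀', ZMod.natCast_zmod_val]
      linear_combination (-(s : ZMod 3)) * hii) (by intro j; rw [hxd]) h1
    rw [pow_zero, one_mul] at h2
    rw [hh']
    exact h2
  set v : J → ZMod 3 := fun j => x j * e j with hv
  have hxv : ∀ j, (x j : ZMod 3) = e j * v j := by
    intro j
    have := esq hD j
    calc (x j : ZMod 3) = x j * (e j * e j) := by rw [this, mul_one]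
      _ = _ := by rw [hv]; ring
  have heq : ∀ j, ∑ k, e k * cs (π j) (π k) * (v k - v j) = i * nq (π j) * v j := by
    intro j
    obtain ⟨p, hp, ι, hl⟩ := exists_emb hi (hD.pq j).prime
    have hp3 := odd_of hi ι (hD.pq j).prime hl (not_assoc_lam (hD.pq j))
    obtain ⟨R, hR⟩ := hloc p ι
    have hvallt : (e j).val < 3 := ZMod.val_lt _
    have hval0 : (e j).val ≠ 0 := by
      rw [Ne, ZMod.val_eq_zero]
      exact hD.e0 j
    have hdiv : π j ^ (e j).val ∣ pB π e i :=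
      (Finset.dvd_prod_of_mem (fun j => π j ^ (e j).val) (Finset.mem_univ j)).trans
        (dvd_mul_left _ _)
    have hndiv : ¬ π j ^ ((e j).val + 1) ∣ pB π e i := by
      intro h1
      have h2 : π j ^ ((e j).val + 1) ∣ pD π e := ((w_unit.pow i.val).dvd_mul_left).1 h1
      unfold pD at h2
      rw [← Finset.mul_prod_erase Finset.univ (fun i => π i ^ (e i).val) (Finset.mem_univ j),
        pow_succ] at h2
      exact not_dvd_prod hD j _ ((mul_dvd_mul_iff_left (pow_ne_zero _ (p0 hD j))).1 h2)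
    obtain ⟨ε₁, hε₁⟩ := hRAM (pB π e i) (π j) (e j).val (hD.pq j).prime (hD.pq j).norm hdiv hndiv
      (by omega) i₀ hi u a hTw h p ι hl R hR
    obtain ⟨ε, hεd⟩ : ∃ ε : ZMod 3, ε = ε₁ - n₀ := ⟨_, rfl⟩
    have hε : ∀ (τ : Au p) (σ : GK i₀), Cmp ι τ σ → h' σ = ε * a σ := by
      intro τ σ hcc
      rw [hh', hεd]
      simp only
      rw [hε₁ τ σ hcc]
      ring
    -- the character that is trivial at `π j`
    set n : ℕ := ε.val with hn
    have hn3 : (n : ZMod 3) = ε := ZMod.natCast_zmod_val _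
    have hx' : Kc hi (w ^ 0 * ∏ j, π j ^ x j) h' := by
      rw [pow_zero, one_mul]; exact hx
    have hy := kc_mul (h00 0 x) (pow_ne_zero n (h00 _ _)) hx' (kc_pow (h00 _ _) hb n)
    have hy1 : ∀ (τ : Au p) (σ : GK i₀), Cmp ι τ σ → h' σ + n * -a σ = 0 := by
      intro τ σ hcc
      rw [hε τ σ hcc, hn3]
      ring
    rw [epow] at hy
    set y : J → ZMod 3 := fun k => x k + e k * ε with hydef
    have hy2 : Kc hi (w ^ (i.val * n) * ∏ k, π k ^ (y k).val) (fun σ => h' σ + n * -a σ) := by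
      refine kc_exp2 (p0 hD) (by rw [zero_add]) (fun k => ?_) hy
      rw [ZMod.natCast_zmod_val, hydef]
      push_cast
      rw [hn3, ZMod.natCast_zmod_val]
    have hyj : y j = 0 := by
      have h1 := not_dvd_of_unr (cf_unit (w_unit.pow (i.val * n)) (cf_prod hD y)) hy2 hp3 ι
        (hD.pq j).prime hl (fun τ σ hcc _ => hy1 τ σ hcc)
      by_contra hne
      apply h1
      refine Dvd.dvd.mul_left (dvd_trans (dvd_pow_self (π j) ?_) (Finset.dvd_prod_of_mem
        (fun i => π i ^ (y i).val) (Finset.mem_univ j))) _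
      rwa [Ne, ZMod.val_eq_zero]
    have hεv : ε = -v j := by
      have h1 : (x j : ZMod 3) + e j * ε = 0 := hyj
      have h2 := esq hD j
      rw [hxv j] at h1
      calc ε = (e j * e j) * ε := by rw [h2, one_mul]
        _ = e j * (e j * v j + e j * ε) - (e j * e j) * v j := by ring
        _ = _ := by rw [h1, h2]; ring
    have hyi : ∀ k, y k = e k * (v k - v j) := by
      intro k
      rw [hydef]
      change (x k : ZMod 3) + e k * ε = _
      rw [hxv k, hεv]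
      ring
    have e2 : ∏ k, π k ^ (y k).val = ∏ k ∈ Finset.univ.erase j, π k ^ (y k).val := by
      rw [← Finset.mul_prod_erase Finset.univ (fun i => π i ^ (y i).val) (Finset.mem_univ j),
        hyj, ZMod.val_zero, pow_zero, one_mul]
    rw [e2] at hy2
    have hcube := resid_kc hy2 hp3 ι (hD.pq j).prime hl hy1
    have hnd := not_dvd_prod hD j (fun i => (y i).val)
    have h9 := (hD.pq j).norm
    have hpj := (hD.pq j).prime
    have hndw : ¬ π j ∣ w := fun h1 => hpj.not_isUnit (isUnit_of_dvd_unit h1 w_unit)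
    have hndwp : ¬ π j ∣ w ^ (i.val * n) := fun h1 => hndw (hpj.dvd_of_dvd_pow h1)
    have hnd0 : ¬ π j ∣ w ^ (i.val * n) * ∏ k ∈ Finset.univ.erase j, π k ^ (y k).val := by
      intro h1
      rcases hpj.dvd_or_dvd h1 with h2 | h2
      · exact hndwp h2
      · exact hnd h2
    have hcs := (cs_zero_iff hpj h9 hnd0).2 hcube
    have hnd1 : ∀ i ∈ Finset.univ.erase j, ¬ π j ∣ π i := fun i hij =>
      hD.nd i j (Finset.ne_of_mem_erase hij)
    rw [cs_mul hpj h9 hndwp hnd, cs_pow hpj h9 hndw, cs_w (hD.pq j),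
      cs_prod hpj h9 _ _ (fun i hij h1 => hnd1 i hij (hpj.dvd_of_dvd_pow h1))] at hcs
    push_cast at hcs
    rw [hn3, ZMod.natCast_zmod_val, hεv] at hcs
    have hsum : ∑ k, e k * cs (π j) (π k) * (v k - v j) =
        ∑ k ∈ Finset.univ.erase j, cs (π j) (π k ^ (y k).val) := by
      rw [← Finset.add_sum_erase Finset.univ _ (Finset.mem_univ j), sub_self, mul_zero, zero_add]
      refine Finset.sum_congr rfl fun k hij => ?_
      rw [cs_pow hpj h9 (hnd1 k hij), ZMod.natCast_zmod_val, hyi k]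
      ring
    rw [hsum]
    linear_combination hcs
  have hv0 := hker v heq
  -- conclusion
  have hx2 : Kc hi (∏ j, π j ^ (0 : ℕ)) h' := by
    refine kc_exp (p0 hD) (y := fun _ => 0) (fun j => ?_) hx
    rw [hxv j, hv0 j, mul_zero, Nat.cast_zero]
  have e3 : ∏ j, π j ^ (0 : ℕ) = 1 := by simp
  rw [e3] at hx2
  refine ⟨n₀, fun σ => ?_⟩
  have h4 := kc_uniq one_ne_zero hx2 kc_one σ
  rw [hh'] at h4
  simp only at h4
  linear_combination h4

end Pool.Agent.N883.FF
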