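import Pool.Agent.N883.FF.StmA
import Pool.Agent.Y703.CT.AN1

/-!
# Project FF: the valuation of the central value
-/

set_option autoImplicit false
set_option linter.unusedVariables false
set_option linter.unusedSectionVars false

open scoped Classical PeriodPair

namespace Pool.Agent.N883.FF

open Pool.Agent.Y692.QS (Ei w nr toC)
open Pool.Agent.Y703.CT (Dt pD chD Dt.neg)
open Pool.Agent.Y696 (Cur eis psi om)
open Pool.Agent.Y715.T.Rs (eq0)
open Pool.Agent.W192.HK (sp)
open Pool.Agent.TH936.CM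
open Pool.Agent.TH936.PU hiding v_int
open Pool.Agent.Y715.Idn Pool.Agent.Y715.Dist
open Pool.Agent.Y715.T.Three (lam lam_lt lam_ne lam_ne' sq_three v_two)
open Pool.Agent.Y715.T.Cg (Cg Zt zt_of_prim z_pow)
open Pool.Agent.Y715.Two (v_nat v_int v_unit v_mul_le_of)

/-- **The valuation of the central value.** -/
theorem anb (h1 : S_CHI) (h2 : S_DIST) (h3 : S_GF) (h4 : S_VAL) (h5 : S_DRE) (h6 : S_DNE)
    (h7 : S_RECB) (h8 : S_HEC) (h9 : S_ANV) : S_ANB := by
  intro J _ _ π e i hD hi
  obtain ⟨F, hF, hval⟩ := h9 h1 h8 J π (fun j => -e j) i hD.neg hi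
  refine ⟨F, hF, fun hk => ?_⟩
  have hne := h6 J π e i hD hk
  have hfb : (fB : eis) ≠ 0 := by
    intro h
    have hh : ((fB : eis) : ℂ) = 0 := by rw [h]; rfl
    unfold fB at hh
    push_cast at hh
    rcases mul_eq_zero.1 hh with h | h
    · norm_num at h
    · exact lam_ne' (by
        have := Pool.Agent.Y715.T.Lat.la_coe
        rw [← this]
        exact h)
  have : Fintype (eis ⧸ (sp fB : Ideal eis)) :=
    @Fintype.ofFinite _ (Pool.Agent.Y703.CT.fin_quot _ hfb)
  have hmain : ∀ (Γ : Type) [LinearOrderedCommGroupWithZero Γ] (v : Valuation ℂ Γ), v 3 < 1 →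
        ∀ (L : PeriodPair) (Ω : ℂ), Cur L Ω →
          v ((starRingEnd ℂ) (F 1) / Ω) * v lam ^ 2 = v lam ^ Fintype.card J := by
    intro Γ _ v hv L Ω hC
    obtain ⟨ρ, n, hn, hρ, hval⟩ := hval L Ω hC
    have hz : Zt v (toC w) := zt_of_prim hv (k := 1) le_rfl (by
      rw [pow_one]
      exact Pool.Agent.Y715.T.Fin.prim_w)
    have hw : toC w = om := by
      have := Pool.Agent.Y703.CT.toC_eq' 0 1
      have e1 : (w : Ei) = ⟨0, 1⟩ := rfl
      rw [e1, this]
      push_cast
      ring
    have hzl : v (1 - toC w) = v lam := by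
      rw [hw]
      exact Pool.Agent.Y703.CT.Ana.om_val hv
    have hδ : dB L Ω i ^ 2 = -3 := (h3 h1 L Ω hC i hi).1
    have hκ : v (kB L Ω i) = v lam := (h4 Γ v hv L Ω hC _ hδ).1
    have hl : v lam ≠ 0 := lam_ne
    have hκ0 : kB L Ω i ≠ 0 := by
      intro h
      rw [h, map_zero] at hκ
      exact hl hκ.symm
    have hz1 := hz.ne
    have hcg := h7 h1 h2 h3 h4 h5 Γ v hv L Ω hC J π (fun j => -e j) i hD.neg hi Finset.univ
    have hone := hcg.eq_one hv hne
    have hc : v (∏ j, toC (π j)) = 1 := by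
      rw [map_prod]
      refine Finset.prod_eq_one fun k _ => ?_
      apply v_unit
      have h := (Pool.Agent.Y703.CT.fy (v := v) hv hD).lin k
      rw [Pool.Agent.Y715.T.Rs.eq0_coe] at h
      exact h.trans_lt hv
    have h18 : v 18 = v lam ^ 4 := by
      have : (18 : ℂ) = 2 * 9 := by norm_num
      rw [this, map_mul, v_two hv, one_mul, Pool.Agent.Y715.T.Three.v_nine]
    have h6' : v 6 = v lam ^ 2 := by
      have : (6 : ℂ) = 2 * 3 := by norm_num
      rw [this, map_mul, v_two hv, one_mul, pow_two, sq_three]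
    rw [Finset.card_univ] at hone
    have hS : v (SQB L Ω π (fun j => -e j) i Finset.univ) =
        v lam ^ 2 * v lam * v lam ^ Fintype.card J := by
      have hden : (6 * kB L Ω i * (1 - toC w) ^ Fintype.card J) ≠ 0 :=
        mul_ne_zero (mul_ne_zero (by norm_num) hκ0) (pow_ne_zero _ hz1)
      have e1 : SQB L Ω π (fun j => -e j) i Finset.univ =
          (6 * kB L Ω i * (1 - toC w) ^ Fintype.card J) *
          (SQB L Ω π (fun j => -e j) i Finset.univ /
            (6 * kB L Ω i * (1 - toC w) ^ Fintype.card J)) := by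
        rw [mul_div_cancel₀ _ hden]
      rw [e1, map_mul, hone, mul_one]
      simp only [map_mul, map_pow, h6', hκ, hzl]
    rw [hval]
    simp only [map_mul, map_inv₀, hc, z_pow hn hρ, h18, hS, inv_one, mul_one]
    field_simp
  refine ⟨?_, hmain⟩
  intro h0
  obtain ⟨B, hB⟩ := Pool.Agent.Y715.T.Fin.exists_over_three
  obtain ⟨θ, hθ, hL⟩ := Pool.Agent.Y696.exists_cur
  have h1 := hmain _ B.valuation hB _ _ hL
  rw [h0, map_zero, zero_div, map_zero, zero_mul] at h1
  exact pow_ne_zero _ lam_ne h1.symm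

end Pool.Agent.N883.FF
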