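import Pool.Agent.N883.FF.StmF

/-!
# Project FF: the symbol as a ray class character modulo `9 D` (helper2)

Adapted from `R419/CE/Art.lean`.
-/

set_option autoImplicit false

namespace Pool.Agent.N883.FF

open NumberField
open Pool.Agent.Y692.QS
open Pool.Agent.Y715.T.RecG (Pq cs_congr cs_mul cs_one)
open Pool.Agent.Y715.T.Rec (cs)
open Pool.Agent.Y703.CT (Dt pD)

namespace ArtB

lemma re_three : (3 : Ei).re = 3 := by decide
lemma im_three : (3 : Ei).im = 0 := by decide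
lemma re_one' : (1 : Ei).re = 1 := by decide
lemma im_one' : (1 : Ei).im = 0 := by decide

/-- the norm of `1 + 3 k` -/
lemma nr_13 (k : Ei) : nr (1 + 3 * k) = 1 + 3 * (2 * k.re - k.im) + 9 * nr k := by
  have er : (1 + 3 * k : Ei).re = 1 + 3 * k.re := by
    rw [QuadraticAlgebra.re_add, mul_re, re_three, im_three, re_one']; ring
  have ei : (1 + 3 * k : Ei).im = 3 * k.im := by
    rw [QuadraticAlgebra.im_add, mul_im, re_three, im_three, im_one']; ring
  unfold nr
  rw [er, ei]; ring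

lemma nr_ndvd {x v : Ei} (h : (3 : Ei) ∣ x * v - 1) : ¬ (3 : ℤ) ∣ nr x := by
  intro hd
  have h1 : (3 : ℤ) ∣ nr (x * v) := by rw [nr_mul]; exact hd.mul_right _
  obtain ⟨k, hk⟩ := h
  have e : x * v = 1 + 3 * k := by linear_combination hk
  rw [e, nr_13] at h1
  omega

lemma nr_mod3 {x : Ei} (h : ¬ (3 : ℤ) ∣ nr x) : nr x % 3 = 1 := by
  have h1 : ((nr x : ℤ) : ZMod 3) ≠ 0 := by
    intro h'
    exact h ((ZMod.intCast_zmod_eq_zero_iff_dvd _ 3).1 h')
  have h2 : ((nr x : ℤ) : ZMod 3) = ((1 : ℤ) : ZMod 3) := by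
    rw [nr_mod] at h1 ⊢
    generalize ((x.re : ZMod 3) + x.im) = t at *
    revert t
    decide
  have h3 := (ZMod.intCast_eq_intCast_iff' _ _ 3).1 h2
  exact h3

lemma ns_dvd {π x : Ei} (hx : ¬ (3 : ℤ) ∣ nr x) (h : π ∣ ns x) : π ∣ x := by
  have h1 := (ep_cases x hx).2
  have h2 : ep x * ns x = x := by
    unfold ns
    rw [← mul_assoc, mul_comm (ep x), h1, one_mul]
  rw [← h2]
  exact h.mul_left _

lemma ns_sub {x y : Ei} (h : (3 : Ei) ∣ x - y) : ns x - ns y = star (ep x) * (x - y) := by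
  unfold ns
  rw [ep_per h]
  ring

lemma ns_unit {u : Ei} (hu : IsUnit u) : ns u = 1 := by
  unfold ns
  have h3 : ¬ (3 : ℤ) ∣ nr u := by
    rw [isUnit_iff.1 hu]
    decide
  have h4 := (ep_cases u h3).2
  rw [ep_unit hu] at h4 ⊢
  exact h4

lemma ns_fix {α : Ei} (h : (3 : Ei) ∣ α - 1) : ns α = α := by
  unfold ns
  rw [ep_per h, ep_unit isUnit_one, star_one, one_mul]

lemma three_ndvd {α : Ei} (h : (3 : Ei) ∣ α - 1) : ¬ (3 : ℤ) ∣ nr α :=
  nr_ndvd (v := 1) (by rwa [mul_one])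

/-- prime to `3 D` -/
def cop {J : Type} (π : J → Ei) (x : Ei) : Prop := ¬ (3 : ℤ) ∣ nr x ∧ ∀ i, ¬ π i ∣ x

lemma nq_mul {x y : Ei} (hx : ¬ (3 : ℤ) ∣ nr x) (hy : ¬ (3 : ℤ) ∣ nr y) :
    nq (x * y) = nq x + nq y := by
  have h1 := nr_mod3 hx
  have h2 := nr_mod3 hy
  obtain ⟨m, hm⟩ : ∃ m, nr x = 1 + 3 * m := ⟨nr x / 3, by omega⟩
  obtain ⟨n, hn⟩ : ∃ n, nr y = 1 + 3 * n := ⟨nr y / 3, by omega⟩
  unfold nq
  rw [nr_mul, hm, hn]
  have e1 : ((1 + 3 * m) * (1 + 3 * n) - 1) / 3 = m + n + 3 * (m * n) := by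
    have : (1 + 3 * m) * (1 + 3 * n) - 1 = 3 * (m + n + 3 * (m * n)) := by ring
    rw [this]
    exact Int.mul_ediv_cancel_left _ (by norm_num)
  have e2 : (1 + 3 * m - 1) / 3 = m := by omega
  have e3 : (1 + 3 * n - 1) / 3 = n := by omega
  rw [e1, e2, e3]
  push_cast
  have h3 : (3 : ZMod 3) = 0 := rfl
  rw [h3]
  ring

lemma nq_congr {x y : Ei} (h : (9 : Ei) ∣ x - y) : nq x = nq y := by
  obtain ⟨t, ht⟩ := h
  have h1 : x = y + 9 * t := by linear_combination ht
  have h9 : nr x = nr y + 9 * (2 * y.re * t.re - y.re * t.im - y.im * t.re + 2 * y.im * t.im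
      + 9 * nr t) := by
    have e9r : (9 : Ei).re = 9 := by decide
    have e9i : (9 : Ei).im = 0 := by decide
    have er : x.re = y.re + 9 * t.re := by
      rw [h1, QuadraticAlgebra.re_add, mul_re, e9r, e9i]; ring
    have ei : x.im = y.im + 9 * t.im := by
      rw [h1, QuadraticAlgebra.im_add, mul_im, e9r, e9i]; ring
    unfold nr
    rw [er, ei]; ring
  unfold nq
  rw [h9, ZMod.intCast_eq_intCast_iff']
  push_cast
  omega

/-- the symbol -/
noncomputable def gg {J : Type} [Fintype J] (π : J → Ei) (e : J → ZMod 3) (i : ZMod 3) (x : Ei) :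
    ZMod 3 :=
  i * nq x + ∑ k, e k * cs (π k) (ns x)

section

variable {J : Type} [Fintype J] {π : J → Ei} {e : J → ZMod 3} {i : ZMod 3}

lemma gg_congr (hD : Dt π e) {x y : Ei} (hx : cop π x) (h9 : (9 : Ei) ∣ x - y)
    (hi : ∀ k, π k ∣ x - y) : gg π e i x = gg π e i y := by
  have h3 : (3 : Ei) ∣ x - y := dvd_trans ⟨3, by norm_num⟩ h9
  unfold gg
  rw [nq_congr h9]
  congr 1
  refine Finset.sum_congr rfl fun k _ => ?_
  congr 1
  refine cs_congr (hD.pq k).prime (hD.pq k).norm (fun h => hx.2 k (ns_dvd hx.1 h)) ?_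
  rw [ns_sub h3]
  exact (hi k).mul_left _

lemma gg_mul (hD : Dt π e) {x y : Ei} (hx : cop π x) (hy : cop π y) :
    gg π e i (x * y) = gg π e i x + gg π e i y := by
  unfold gg
  have h1 : ∑ k, e k * cs (π k) (ns (x * y)) =
      ∑ k, e k * cs (π k) (ns x) + ∑ k, e k * cs (π k) (ns y) := by
    rw [← Finset.sum_add_distrib]
    refine Finset.sum_congr rfl fun k _ => ?_
    rw [ns_mul, ← mul_add]
    congr 1
    exact cs_mul (hD.pq k).prime (hD.pq k).norm (fun h => hx.2 k (ns_dvd hx.1 h))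
      (fun h => hy.2 k (ns_dvd hy.1 h))
  rw [h1, nq_mul hx.1 hy.1]
  ring

lemma nq_unit {z : Ei} (hz : IsUnit z) (α : Ei) : nq (z * α) = nq α := by
  unfold nq
  rw [nr_mul, isUnit_iff.1 hz, one_mul]

lemma gg_unit (z α : Ei) (hz : IsUnit z) (hα : (3 : Ei) ∣ α - 1) :
    gg π e i (z * α) = i * nq α + ∑ k, e k * cs (π k) α := by
  unfold gg
  rw [ns_mul, ns_unit hz, ns_fix hα, one_mul, nq_unit hz]

lemma val_ne0 {c : ZMod 3} (h : c ≠ 0) : c.val ≠ 0 := fun h' => h ((ZMod.val_eq_zero c).1 h')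

lemma pi_dvd_pD (hD : Dt π e) (k : J) : π k ∣ pD π e := by
  refine dvd_trans ?_ (Finset.dvd_prod_of_mem _ (Finset.mem_univ k))
  exact dvd_pow_self _ (val_ne0 (hD.e0 k))

lemma pi_dvd (hD : Dt π e) (k : J) : π k ∣ 9 * pB π e i :=
  ((pi_dvd_pD hD k).mul_left _).mul_left _

lemma cop_of (hD : Dt π e) {x v : Ei}
    (h : 9 * pB π e i ∣ x * v - 1) : cop π x := by
  refine ⟨nr_ndvd (dvd_trans (dvd_trans ⟨3, by norm_num⟩ (dvd_mul_right (9 : Ei) _)) h),
    fun k hd => ?_⟩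
  have h2 := dvd_sub (hd.mul_right v) ((pi_dvd hD k).trans h)
  rw [sub_sub_cancel] at h2
  exact (hD.pq k).prime.not_isUnit (isUnit_of_dvd_one h2)

/-- the product is primary -/
lemma pD_prim (hD : Dt π e) : (3 : Ei) ∣ pD π e - 1 := by
  unfold pD
  refine Finset.prod_induction _ (fun x : Ei => (3 : Ei) ∣ x - 1) ?_ ?_ ?_
  · rintro a b ⟨c, hc⟩ ⟨d, hd⟩
    exact ⟨c * b + d, by linear_combination b * hc + hd⟩
  · rw [sub_self]; exact dvd_zero _
  · intro k _
    have h1 : (3 : Ei) ∣ π k - 1 := (hD.pq k).three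
    have h2 : π k - 1 ∣ π k ^ (e k).val - 1 ^ (e k).val := sub_dvd_pow_sub_pow _ _ _
    rw [one_pow] at h2
    exact h1.trans h2

/-- `α = 1 + 3 D` -/
lemma exists_alpha (hD : Dt π e) (hi : i ≠ 0) :
    ∃ α β : Ei, (3 : Ei) ∣ α - 1 ∧ 9 * pB π e i ∣ α * β - 1 ∧
      i * nq α + ∑ k, e k * cs (π k) α ≠ 0 := by
  set α : Ei := 1 + 3 * pD π e with hα
  have c1 : IsCoprime α (pD π e) := ⟨1, -3, by rw [hα]; ring⟩
  have c2 : IsCoprime α 3 := ⟨1, -pD π e, by rw [hα]; ring⟩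
  have c3 : IsCoprime α 9 := by
    have : (9 : Ei) = 3 ^ 2 := by norm_num
    rw [this]
    exact c2.pow_right
  have hw : IsUnit (w ^ i.val) := by
    refine IsUnit.pow _ ?_
    rw [isUnit_iff]
    decide
  have c4 : IsCoprime α (9 * pB π e i) := by
    refine c3.mul_right ?_
    unfold pB
    refine IsCoprime.mul_right ?_ c1
    obtain ⟨v, hv⟩ := hw.exists_left_inv
    exact ⟨0, v, by rw [zero_mul, zero_add, hv]⟩
  obtain ⟨β, δ, hβ⟩ := c4
  refine ⟨α, β, ⟨pD π e, by rw [hα]; ring⟩, ⟨-δ, by linear_combination hβ⟩, ?_⟩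
  have h1 : ∑ k, e k * cs (π k) α = 0 := by
    refine Finset.sum_eq_zero fun k _ => ?_
    have h6 : π k ∣ α - 1 := by
      have : α - 1 = 3 * pD π e := by rw [hα]; ring
      rw [this]
      exact (pi_dvd_pD hD k).mul_left _
    have h7 : ¬ π k ∣ α := by
      intro hd
      have := dvd_sub hd h6
      rw [sub_sub_cancel] at this
      exact (hD.pq k).prime.not_isUnit (isUnit_of_dvd_one this)
    rw [cs_congr (hD.pq k).prime (hD.pq k).norm h7 h6, cs_one (hD.pq k).prime (hD.pq k).norm,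
      mul_zero]
  rw [h1, add_zero]
  refine mul_ne_zero hi ?_
  obtain ⟨t, ht⟩ := pD_prim hD
  have ht' : pD π e = 1 + 3 * t := by linear_combination ht
  have er : (pD π e).re = 1 + 3 * t.re := by
    rw [ht', QuadraticAlgebra.re_add, mul_re, re_three, im_three, re_one']; ring
  have ei : (pD π e).im = 3 * t.im := by
    rw [ht', QuadraticAlgebra.im_add, mul_im, re_three, im_three, im_one']; ring
  unfold nq
  rw [hα, nr_13, er, ei]
  have h2 : (1 + 3 * (2 * (1 + 3 * t.re) - 3 * t.im) + 9 * nr (pD π e) - 1) / 3 =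
      2 + 3 * (2 * t.re - t.im + nr (pD π e)) := by omega
  rw [h2]
  push_cast
  have h3 : (3 : ZMod 3) = 0 := rfl
  rw [h3, zero_mul, add_zero]
  decide

end

end ArtB

open ArtB in
/-- the symbol as a character modulo `9 D`, trivial on the units -/
theorem artB : S_ARTB := by
  intro K _ _ j J _ π e i hD hi0
  set N : Ei := 9 * pB π e i with hN
  have hmk : ∀ a b : Ei, Ideal.Quotient.mk (Ideal.span {j N}) (j a) =
      Ideal.Quotient.mk (Ideal.span {j N}) (j b) ↔ N ∣ a - b := by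
    intro a b
    rw [Ideal.Quotient.eq, Ideal.mem_span_singleton, ← map_sub]
    constructor
    · intro h
      have h1 := map_dvd j.symm h
      rwa [j.symm_apply_apply, j.symm_apply_apply] at h1
    · intro h
      exact map_dvd j h
  have hmm : ∀ a b : Ei, Ideal.Quotient.mk (Ideal.span {j N}) (j (a * b)) =
      Ideal.Quotient.mk (Ideal.span {j N}) (j a) * Ideal.Quotient.mk (Ideal.span {j N}) (j b) :=
    fun a b => by rw [← map_mul, ← map_mul]
  have hm1 : Ideal.Quotient.mk (Ideal.span {j N}) (j 1) = 1 := by rw [map_one j, map_one]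
  have hlift : ∀ u : (𝓞 K ⧸ Ideal.span {j N})ˣ, ∃ x : Ei,
      Ideal.Quotient.mk (Ideal.span {j N}) (j x) = u := by
    intro u
    obtain ⟨y, hy⟩ := Ideal.Quotient.mk_surjective (u : 𝓞 K ⧸ Ideal.span {j N})
    exact ⟨j.symm y, by rw [j.apply_symm_apply, hy]⟩
  choose l hl using hlift
  have hcop : ∀ (u : (𝓞 K ⧸ Ideal.span {j N})ˣ) (x : Ei),
      Ideal.Quotient.mk (Ideal.span {j N}) (j x) = u → cop π x := by
    intro u x hx
    refine cop_of (i := i) hD (v := l u⁻¹) ?_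
    rw [← hN, ← hmk, hmm, hx, hl, hm1, Units.mul_inv]
  have hg : ∀ (u : (𝓞 K ⧸ Ideal.span {j N})ˣ) (x : Ei),
      Ideal.Quotient.mk (Ideal.span {j N}) (j x) = u → gg π e i (l u) = gg π e i x := by
    intro u x hx
    have h1 : N ∣ l u - x := (hmk _ _).1 ((hl u).trans hx.symm)
    exact gg_congr hD (hcop u _ (hl u)) ((dvd_mul_right _ _).trans h1)
      (fun k => (pi_dvd hD k).trans h1)
  refine ⟨{ toFun := fun u => Multiplicative.ofAdd (gg π e i (l u))
            map_one' := ?_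
            map_mul' := ?_ }, ?_, ?_⟩
  · have h1 := hg 1 (1 * 1) (by rw [mul_one]; exact hm1)
    rw [h1, gg_unit 1 1 isUnit_one (by rw [sub_self]; exact dvd_zero _)]
    rw [Finset.sum_eq_zero fun k _ => by rw [cs_one (hD.pq k).prime (hD.pq k).norm, mul_zero]]
    have h2 : nq 1 = 0 := by
      unfold nq
      rw [nr_one]
      rfl
    rw [h2, mul_zero, zero_add]
    rfl
  · intro u v
    have h1 := hg (u * v) (l u * l v) (by rw [hmm, hl, hl]; rfl)
    rw [h1, gg_mul hD (hcop u _ (hl u)) (hcop v _ (hl v))]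
    rfl
  · -- surjectivity
    obtain ⟨α, β, ha, hb, hs⟩ := exists_alpha (i := i) hD hi0
    have hu1 : Ideal.Quotient.mk (Ideal.span {j N}) (j α) *
        Ideal.Quotient.mk (Ideal.span {j N}) (j β) = 1 := by
      rw [← hmm, ← hm1, hmk]
      exact hb
    set u : (𝓞 K ⧸ Ideal.span {j N})ˣ := ⟨_, _, hu1, by rw [mul_comm]; exact hu1⟩ with hu
    set f : (𝓞 K ⧸ Ideal.span {j N})ˣ →* Multiplicative (ZMod 3) :=
      { toFun := fun u => Multiplicative.ofAdd (gg π e i (l u)), map_one' := _, map_mul' := _ }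
      with hf
    have hfu : f u = Multiplicative.ofAdd (i * nq α + ∑ k, e k * cs (π k) α) := by
      show Multiplicative.ofAdd (gg π e i (l u)) = _
      rw [hg u (1 * α) (by rw [one_mul]), gg_unit 1 α isUnit_one ha]
    intro c
    have h3 : ∃ k : ℕ, (k : ZMod 3) * (i * nq α + ∑ k, e k * cs (π k) α) =
        Multiplicative.toAdd c := by
      generalize (i * nq α + ∑ k, e k * cs (π k) α) = t at hs
      generalize Multiplicative.toAdd c = s
      refine ⟨(s * t).val, ?_⟩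
      rw [ZMod.natCast_zmod_val]
      revert s t
      decide
    obtain ⟨k, hk⟩ := h3
    refine ⟨u ^ k, ?_⟩
    rw [map_pow, hfu, ← ofAdd_nsmul, nsmul_eq_mul, hk]
    rfl
  · intro u z α hz hα hu
    show Multiplicative.ofAdd (gg π e i (l u)) = _
    rw [hg u (z * α) hu.symm, gg_unit z α hz hα]

end Pool.Agent.N883.FF
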