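import Pool.Agent.N883.FF.StmC
import Pool.Agent.R419.KF.Box

/-!
# Project FF: the count in a box with the additional index `ω` (helper364)

Adapted from the files `R419/KF/Box.lean` of helper419 and `Y688/XK/BOX.lean` of helper688.
-/

set_option autoImplicit false

open scoped Classical

namespace Pool.Agent.N883.FF

open Finset
open Pool.Agent.Y692.QS (Ei)
open Pool.Agent.Y715.T.Rec (cs)
open Pool.Agent.Y715.T.RecG (Pq)
open Pool.Agent.Y699.E (ez)
open Pool.Agent.Y703.XK (prs HB S_EQ S_LA GdA c9)
open Pool.Agent.Y688.XK (lb cs_symm sum_un ext_sum HB_sub ez0 ez0_coe)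
open Pool.Agent.R419.KF (wt wt_one wt_ne)

namespace Box

/-- the good labels -/
def LNB {ι : Type} (S₀ : Finset Ei) (β : ι → S₀ → ZMod 3) (γ : ι → ZMod 3) : Prop :=
  ∀ (w : S₀ → ZMod 3) (t : ZMod 3), ((∃ u, w u ≠ 0) ∨ t ≠ 0) →
    ∃ i, ∑ u, w u * β i u + t * γ i ≠ 0

/-- the matrix of the small primes and of `ω` -/
noncomputable def Am (i : ZMod 3) (M S₀ : Finset Ei) : Option S₀ → Option S₀ → ZMod 3
  | some u, some v => wt M u * wt M v * cs u v
  | none, some u => i * nq u * wt M u
  | some u, none => i * nq u * wt M u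
  | none, none => 0

/-- the matrix of the labels -/
noncomputable def Bm {ι : Type} (i : ZMod 3) (M S₀ : Finset Ei) (β : ι → S₀ → ZMod 3)
    (γ : ι → ZMod 3) : Option S₀ → ι → ZMod 3
  | some u, l => wt M u * β l u
  | none, l => i * γ l

section one
variable {ι : Type} [Fintype ι] [LinearOrder ι] {i : ZMod 3} {M S₀ : Finset Ei} {p : ι → Ei}

omit [LinearOrder ι] in
theorem nd_iff : NdB S₀ (univ.image p) ↔ LNB S₀ (fun k => lb S₀ (p k)) (fun k => nq (p k)) := by
  unfold NdB LNB
  constructor
  · intro h w t hw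
    obtain ⟨x, hx, hx2⟩ := h (ez0 w) t (by
      rcases hw with ⟨u, hu⟩ | ht
      · exact Or.inl ⟨u, u.2, by rw [ez0_coe]; exact hu⟩
      · exact Or.inr ht)
    rw [Finset.mem_image] at hx
    obtain ⟨k, -, rfl⟩ := hx
    refine ⟨k, ?_⟩
    rw [← Finset.sum_coe_sort S₀] at hx2
    intro h0
    apply hx2
    rw [← h0]
    congr 1
    refine Finset.sum_congr rfl fun u _ => ?_
    rw [ez0_coe]
    rfl
  · intro h w t hw
    obtain ⟨k, hk⟩ := h (fun u => w u) t (by
      rcases hw with ⟨u, hu0, hu⟩ | ht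
      · exact Or.inl ⟨⟨u, hu0⟩, hu⟩
      · exact Or.inr ht)
    refine ⟨p k, Finset.mem_image_of_mem _ (Finset.mem_univ _), ?_⟩
    rw [← Finset.sum_coe_sort S₀]
    exact hk

/-- the sum of all the rows of a symmetric Laplacian vanishes -/
theorem lap_sum (S : Finset Ei) (a : Ei → Ei → ZMod 3) (ha : ∀ x ∈ S, ∀ y ∈ S, a x y = a y x)
    (v : Ei → ZMod 3) : ∑ x ∈ S, ∑ y ∈ S, a x y * (v y - v x) = 0 := by
  have h1 : ∑ x ∈ S, ∑ y ∈ S, a x y * (v y - v x) =
      ∑ x ∈ S, ∑ y ∈ S, a x y * v y - ∑ x ∈ S, ∑ y ∈ S, a x y * v x := by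
    rw [← Finset.sum_sub_distrib]
    refine Finset.sum_congr rfl fun x _ => ?_
    rw [← Finset.sum_sub_distrib]
    exact Finset.sum_congr rfl fun y _ => by ring
  rw [h1, sub_eq_zero, Finset.sum_comm]
  exact Finset.sum_congr rfl fun x hx => Finset.sum_congr rfl fun y hy => by rw [ha y hy x hx]

theorem gdb_iff (hM : M ⊆ S₀) (hp : Function.Injective p) (hpr : ∀ k, Pq (p k))
    (hS₀ : ∀ u ∈ S₀, Pq u) (hd : ∀ k, p k ∉ S₀) :
    GdB i M (S₀ ∪ univ.image p) ↔ GdA (Am i M S₀)
      (Bm i M S₀ (fun k => lb S₀ (p k)) (fun k => nq (p k)))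
      (Pool.Agent.Y703.XK.ext fun e : prs ι => cs (p e.1.1) (p e.1.2)) := by
  have hw : ∀ k, wt M (p k) = 1 := fun k => wt_one fun h => hd k (hM h)
  have hPS : ∀ x ∈ S₀ ∪ univ.image p, Pq x := by
    intro x hx
    rw [Finset.mem_union, Finset.mem_image] at hx
    rcases hx with hx | ⟨k, -, rfl⟩
    · exact hS₀ x hx
    · exact hpr k
  -- the rows of the block system for a function of the primes and a value at `ω`
  have hrowu : ∀ (c : Option S₀ → ZMod 3) (d : ι → ZMod 3) (u : S₀),
      (∑ v, Am i M S₀ (some u) v * (c v - c (some u)) +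
        ∑ l, Bm i M S₀ (fun k => lb S₀ (p k)) (fun k => nq (p k)) (some u) l * (d l - c (some u))) =
      wt M u * (∑ v : S₀, wt M v * cs u v * (c (some v) - c (some u)) +
        ∑ l, cs u (p l) * (d l - c (some u)) - i * nq u * (c (some u) - c none)) := by
    intro c d u
    rw [Fintype.sum_option]
    have e1 : ∑ v : S₀, Am i M S₀ (some u) (some v) * (c (some v) - c (some u)) =
        wt M u * ∑ v : S₀, wt M v * cs u v * (c (some v) - c (some u)) := by
      rw [Finset.mul_sum]
      refine Finset.sum_congr rfl fun v _ => ?_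
      show wt M u * wt M v * cs u v * (c (some v) - c (some u)) = _
      ring
    have e2 : ∑ l, Bm i M S₀ (fun k => lb S₀ (p k)) (fun k => nq (p k)) (some u) l *
        (d l - c (some u)) = wt M u * ∑ l, cs u (p l) * (d l - c (some u)) := by
      rw [Finset.mul_sum]
      refine Finset.sum_congr rfl fun l _ => ?_
      show wt M u * cs u (p l) * (d l - c (some u)) = _
      ring
    have e3 : Am i M S₀ (some u) none = i * nq u * wt M u := rfl
    rw [e1, e2, e3]
    ring
  have hrown : ∀ (c : Option S₀ → ZMod 3) (d : ι → ZMod 3),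
      (∑ v, Am i M S₀ none v * (c v - c none) +
        ∑ l, Bm i M S₀ (fun k => lb S₀ (p k)) (fun k => nq (p k)) none l * (d l - c none)) =
      i * (∑ v : S₀, wt M v * nq v * (c (some v) - c none) + ∑ l, nq (p l) * (d l - c none)) := by
    intro c d
    rw [Fintype.sum_option, mul_add, Finset.mul_sum, Finset.mul_sum]
    have e1 : Am i M S₀ none none = 0 := rfl
    rw [e1, zero_mul, zero_add]
    congr 1
    · refine Finset.sum_congr rfl fun v _ => ?_
      show i * nq v * wt M v * (c (some v) - c none) = _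
      ring
    · refine Finset.sum_congr rfl fun l _ => ?_
      show i * nq (p l) * (d l - c none) = _
      ring
  have hrowk : ∀ (c : Option S₀ → ZMod 3) (d : ι → ZMod 3) (k : ι),
      (∑ u, Bm i M S₀ (fun k => lb S₀ (p k)) (fun k => nq (p k)) u k * (c u - d k) +
        ∑ l, Pool.Agent.Y703.XK.ext (fun e : prs ι => cs (p e.1.1) (p e.1.2)) k l *
          (d l - d k)) =
      ∑ u : S₀, wt M u * cs (p k) u * (c (some u) - d k) + ∑ l, cs (p k) (p l) * (d l - d k) -
        i * nq (p k) * (d k - c none) := by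
    intro c d k
    rw [Fintype.sum_option, ext_sum hpr k d]
    have e1 : Bm i M S₀ (fun k => lb S₀ (p k)) (fun k => nq (p k)) none k = i * nq (p k) := rfl
    have e2 : ∑ u : S₀, Bm i M S₀ (fun k => lb S₀ (p k)) (fun k => nq (p k)) (some u) k *
        (c (some u) - d k) = ∑ u : S₀, wt M u * cs (p k) u * (c (some u) - d k) := by
      refine Finset.sum_congr rfl fun u _ => ?_
      show wt M u * cs u (p k) * (c (some u) - d k) = _
      rw [cs_symm (hpr k) (hS₀ u u.2)]
    rw [e1, e2]
    ring
  unfold GdB GdA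
  constructor
  · intro h c d h1 h2
    obtain ⟨c', hc'⟩ : ∃ c' : Ei → ZMod 3, ∀ n, c' n = if h : n ∈ S₀ then c (some ⟨n, h⟩) - c none
      else if h : ∃ l, p l = n then d h.choose - c none else 0 := ⟨_, fun n => rfl⟩
    have e1 : ∀ u : S₀, c' u = c (some u) - c none := by
      intro u
      rw [hc', dif_pos u.2]
    have e2 : ∀ l, c' (p l) = d l - c none := by
      intro l
      have hex : ∃ l', p l' = p l := ⟨l, rfl⟩
      rw [hc', dif_neg (hd l), dif_pos hex]
      exact congrArg (fun l => d l - c none) (hp hex.choose_spec)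
    have h3 := h c' (by
      intro x hx
      rw [sum_un hp hd]
      simp only [hw, one_mul, e1, e2]
      rw [Finset.mem_union, Finset.mem_image] at hx
      rcases hx with hx | ⟨k, -, rfl⟩
      · have h4 := h1 (some ⟨x, hx⟩)
        rw [hrowu] at h4
        have h5 := (mul_eq_zero.1 h4).resolve_left (wt_ne M _)
        have h6 : c' x = c (some ⟨x, hx⟩) - c none := e1 ⟨x, hx⟩
        rw [h6]
        rw [← sub_eq_zero, ← h5]
        simp only [sub_sub_sub_cancel_right]
      · have h4 := h2 k
        rw [hrowk] at h4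
        rw [e2 k, ← sub_eq_zero, ← h4]
        simp only [sub_sub_sub_cancel_right])
    refine ⟨c none, fun u => ?_, fun l => ?_⟩
    · cases u with
      | none => rfl
      | some u =>
        have h4 := h3 u (Finset.mem_union_left _ u.2)
        rw [e1] at h4
        exact sub_eq_zero.1 h4
    · have h4 := h3 (p l) (Finset.mem_union_right _ (Finset.mem_image_of_mem _ (Finset.mem_univ _)))
      rw [e2] at h4
      exact sub_eq_zero.1 h4
  · intro h v hv
    -- the row of `ω`
    have hn : i * ∑ x ∈ S₀ ∪ univ.image p, wt M x * nq x * v x = 0 := by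
      have h1 := lap_sum (S₀ ∪ univ.image p) (fun x y => wt M x * wt M y * cs x y)
        (fun x hx y hy => by
          show wt M x * wt M y * cs x y = wt M y * wt M x * cs y x
          rw [cs_symm (hPS x hx) (hPS y hy)]
          ring) v
      rw [← h1, Finset.mul_sum]
      refine Finset.sum_congr rfl fun x hx => ?_
      have h2 := hv x hx
      calc i * (wt M x * nq x * v x) = wt M x * (i * nq x * v x) := by ring
        _ = wt M x * ∑ ρ ∈ S₀ ∪ univ.image p, wt M ρ * cs x ρ * (v ρ - v x) := by rw [h2]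
        _ = _ := by
            rw [Finset.mul_sum]
            exact Finset.sum_congr rfl fun y _ => by ring
    obtain ⟨c, hc⟩ : ∃ c : Option S₀ → ZMod 3, c none = 0 ∧ ∀ u : S₀, c (some u) = v u :=
      ⟨fun o => o.elim 0 fun u => v u, rfl, fun u => rfl⟩
    obtain ⟨hc0, hc1⟩ := hc
    obtain ⟨t, ht1, ht2⟩ := h c (fun l => v (p l)) (by
      intro u
      cases u with
      | none =>
        rw [hrown]
        simp only [hc0, hc1, sub_zero]
        rw [sum_un hp hd] at hn
        simp only [hw, one_mul] at hn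
        exact hn
      | some u =>
        rw [hrowu]
        simp only [hc0, hc1, sub_zero]
        have h2 := hv u (Finset.mem_union_left _ u.2)
        rw [sum_un hp hd] at h2
        simp only [hw, one_mul] at h2
        rw [h2, sub_self, mul_zero]) (by
      intro k
      refine (hrowk c (fun l => v (p l)) k).trans ?_
      simp only [hc0, hc1, sub_zero]
      have h2 := hv (p k) (Finset.mem_union_right _ (Finset.mem_image_of_mem _ (Finset.mem_univ _)))
      rw [sum_un hp hd] at h2
      simp only [hw, one_mul] at h2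
      rw [h2, sub_self])
    have ht : t = 0 := by rw [← ht1 none, hc0]
    intro x hx
    rw [Finset.mem_union, Finset.mem_image] at hx
    rcases hx with hx | ⟨k, -, rfl⟩
    · have := ht1 (some ⟨x, hx⟩)
      rw [hc1, ht] at this
      exact this
    · have := ht2 k
      rw [ht] at this
      exact this

end one

end Box

open Box in
/-- **The count in a box.** -/
theorem box (hEQ : S_EQ) (hLA : S_LA) : S_BOXB := by
  intro i hi ι _ _ C X κ M S₀ hM hκ hCX hHB hS₀ hC hdis hnq hcard
  obtain ⟨cc, hcc⟩ : ∃ cc : ℝ, cc = 3 * (3 ^ (S₀.card + 1) / 3 ^ Fintype.card ι) := ⟨_, rfl⟩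
  obtain ⟨R, hR⟩ : ∃ R : ℝ, R = 3 ^ (prs ι).card * (κ * ∏ j, (X j : ℝ)) := ⟨_, rfl⟩
  have hcc0 : 0 ≤ cc := by rw [hcc]; positivity
  have hR0 : 0 ≤ R := by
    rw [hR]
    exact mul_nonneg (by positivity)
      (mul_nonneg hκ (Finset.prod_nonneg fun j _ => by positivity))
  -- the labels at `ω`
  obtain ⟨γ, hγ⟩ : ∃ γ : ι → ZMod 3, ∀ k, ∀ π ∈ C k, nq π = γ k :=
    ⟨fun k => if h : (C k).Nonempty then nq h.choose else 0, fun k π hπ => by
      have h : (C k).Nonempty := ⟨π, hπ⟩
      show nq π = if h : (C k).Nonempty then nq h.choose else 0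
      rw [dif_pos h]
      exact hnq k π hπ _ h.choose_spec⟩
  have hγp : ∀ p ∈ Fintype.piFinset C, (fun k => nq (p k)) = γ := by
    intro p hp
    rw [Fintype.mem_piFinset] at hp
    exact funext fun k => hγ k _ (hp k)
  -- facts on tuples
  have hinj : ∀ p ∈ Fintype.piFinset C, Function.Injective p := by
    intro p hp i j hij
    rw [Fintype.mem_piFinset] at hp
    by_contra hne
    have h1 := Finset.disjoint_left.1 (hdis i j hne) (hp i)
    rw [hij] at h1
    exact h1 (hp j)
  have hd : ∀ p ∈ Fintype.piFinset C, ∀ i, p i ∉ S₀ := by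
    intro p hp i
    rw [Fintype.mem_piFinset] at hp
    exact (hC i _ (hp i)).2
  have hpr : ∀ p ∈ Fintype.piFinset C, ∀ i, Pq (p i) := by
    intro p hp i
    rw [Fintype.mem_piFinset] at hp
    exact (hC i _ (hp i)).1
  -- the part with given labels
  have h1 : ∀ β : ι → S₀ → ZMod 3, LNB S₀ β γ →
      |(((Fintype.piFinset C).filter fun p => (fun i => lb S₀ (p i)) = β ∧
          GdB i M (S₀ ∪ univ.image p)).card : ℝ) -
        c9 * (((Fintype.piFinset C).filter fun p => (fun i => lb S₀ (p i)) = β).card : ℝ)| ≤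
      cc * (((Fintype.piFinset C).filter fun p => (fun i => lb S₀ (p i)) = β).card : ℝ) + R := by
    intro β hβ
    obtain ⟨C', hC'⟩ : ∃ C' : ι → Finset Ei, C' = fun i => (C i).filter fun q => lb S₀ q = β i :=
      ⟨_, rfl⟩
    have hpi : (Fintype.piFinset C).filter (fun p => (fun i => lb S₀ (p i)) = β) =
        Fintype.piFinset C' := by
      ext p
      simp only [Finset.mem_filter, Fintype.mem_piFinset, hC']
      constructor
      · rintro ⟨h2, h3⟩ i
        exact ⟨h2 i, congrFun h3 i⟩
      · intro h2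
        exact ⟨fun i => (h2 i).1, funext fun i => (h2 i).2⟩
    have h2 := hLA (Option S₀) ι (Am i M S₀) (Bm i M S₀ β γ)
      (by rw [Fintype.card_option, Fintype.card_coe]; exact hcard)
      (fun u v => by
        cases u with
        | none => cases v with
          | none => rfl
          | some v => rfl
        | some u => cases v with
          | none => rfl
          | some v =>
            show wt M u * wt M v * cs u v = wt M v * wt M u * cs v u
            rw [cs_symm (hS₀ u u.2) (hS₀ v v.2), mul_comm (wt M u) (wt M v)])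
      (fun w hw => by
        obtain ⟨k, hk⟩ := hβ (fun u => w (some u) * wt M u) (w none * i) (by
          obtain ⟨u, hu⟩ := hw
          cases u with
          | none => exact Or.inr (mul_ne_zero hu hi)
          | some u => exact Or.inl ⟨u, mul_ne_zero hu (wt_ne M u)⟩)
        refine ⟨k, fun h0 => hk ?_⟩
        rw [← h0, Fintype.sum_option, add_comm]
        congr 1
        · show w none * i * γ k = w none * (i * γ k)
          ring
        · refine Finset.sum_congr rfl fun u _ => ?_
          show w (some u) * wt M u * β k u = w (some u) * (wt M u * β k u)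
          ring)
    obtain ⟨Q, hQ⟩ : ∃ Q : (prs ι → ZMod 3) → Prop, Q = fun α =>
        GdA (Am i M S₀) (Bm i M S₀ β γ) (Pool.Agent.Y703.XK.ext α) := ⟨_, rfl⟩
    have h3 := hEQ ι C' X κ hκ
      (fun i => (Finset.card_le_card (by rw [hC']; exact Finset.filter_subset _ _)).trans (hCX i))
      (by rw [hC']; exact HB_sub hHB fun i q => lb S₀ q = β i) Q
    have h4 : ((Fintype.piFinset C).filter fun p => (fun i => lb S₀ (p i)) = β ∧
        GdB i M (S₀ ∪ univ.image p)) = ((Fintype.piFinset C').filter fun p =>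
          Q fun e => cs (p e.1.1) (p e.1.2)) := by
      rw [← hpi, Finset.filter_filter]
      refine Finset.filter_congr fun p hp => ?_
      refine and_congr_right fun hl => ?_
      rw [gdb_iff hM (hinj p hp) (hpr p hp) hS₀ (hd p hp), hγp p hp]
      subst hl
      rw [hQ]
    have h5 : (((Fintype.piFinset C').card : ℕ) : ℝ) = ∏ j, ((C' j).card : ℝ) := by
      rw [Fintype.card_piFinset]
      push_cast
      rfl
    rw [h4, hpi, h5]
    rw [Fintype.card_option, Fintype.card_coe, ← hcc] at h2
    rw [← hR] at h3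
    obtain ⟨n, hn⟩ : ∃ n : ℝ, n = (((Fintype.piFinset C').filter fun p =>
          Q fun e => cs (p e.1.1) (p e.1.2)).card : ℝ) := ⟨_, rfl⟩
    obtain ⟨q, hq⟩ : ∃ q : ℝ, q = ((univ.filter Q).card : ℝ) / 3 ^ (prs ι).card := ⟨_, rfl⟩
    obtain ⟨P, hP⟩ : ∃ P : ℝ, P = ∏ j, ((C' j).card : ℝ) := ⟨_, rfl⟩
    have hP0 : 0 ≤ P := by
      rw [hP]
      exact Finset.prod_nonneg fun j _ => by positivity
    have h2' : |q - c9| ≤ cc := by
      rw [hq, hQ]
      exact h2
    rw [← hn, ← hq, ← hP] at h3
    rw [← hn, ← hP]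
    have h6 : |n - c9 * P| ≤ |n - q * P| + |q - c9| * P := by
      have h7 : n - c9 * P = (n - q * P) + (q - c9) * P := by ring
      have h8 : |(q - c9) * P| = |q - c9| * P := by rw [abs_mul, abs_of_nonneg hP0]
      rw [h7, ← h8]
      exact abs_add_le _ _
    have h7 : |q - c9| * P ≤ cc * P := mul_le_mul_of_nonneg_right h2' hP0
    linarith
  -- sum over the labels
  obtain ⟨LL, hLL⟩ : ∃ LL : Finset (ι → S₀ → ZMod 3), LL = univ.filter (fun β => LNB S₀ β γ) :=
    ⟨_, rfl⟩
  have hfib : ∀ T : (ι → Ei) → Prop,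
      (((Fintype.piFinset C).filter fun p => NdB S₀ (univ.image p) ∧ T p).card : ℝ) =
      ∑ β ∈ LL, (((Fintype.piFinset C).filter fun p =>
        (fun i => lb S₀ (p i)) = β ∧ T p).card : ℝ) := by
    intro T
    have hnd : ∀ p ∈ Fintype.piFinset C, (NdB S₀ (univ.image p) ↔
        LNB S₀ (fun i => lb S₀ (p i)) γ) := by
      intro p hp
      rw [nd_iff, hγp p hp]
    rw [Finset.card_eq_sum_card_fiberwise (f := fun (p : ι → Ei) (i : ι) => lb S₀ (p i))
      (t := LL) (by
        intro p hp
        rw [Finset.mem_coe, Finset.mem_filter] at hp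
        rw [Finset.mem_coe, hLL, Finset.mem_filter]
        exact ⟨Finset.mem_univ _, (hnd p hp.1).1 hp.2.1⟩)]
    push_cast
    refine Finset.sum_congr rfl fun β hβ => ?_
    rw [hLL, Finset.mem_filter] at hβ
    congr 2
    ext p
    simp only [Finset.mem_filter]
    constructor
    · rintro ⟨⟨h3, h4, h4'⟩, h5⟩
      exact ⟨h3, h5, h4'⟩
    · rintro ⟨h3, h4, h5⟩
      refine ⟨⟨h3, ?_, h5⟩, h4⟩
      rw [hnd p h3, h4]
      exact hβ.2
  have hf1 := hfib fun p => GdB i M (S₀ ∪ univ.image p)
  have hf2 := hfib fun _ => True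
  simp only [and_true] at hf2
  rw [← hcc, hf1, hf2, Finset.mul_sum, ← Finset.sum_sub_distrib]
  refine (Finset.abs_sum_le_sum_abs _ _).trans ?_
  refine (Finset.sum_le_sum fun β hβ => h1 β (by
    rw [hLL] at hβ
    exact (Finset.mem_filter.1 hβ).2)).trans ?_
  rw [Finset.sum_add_distrib, ← Finset.mul_sum, Finset.sum_const, nsmul_eq_mul]
  have h5 : ((LL.card : ℕ) : ℝ) ≤ 3 ^ (S₀.card * Fintype.card ι) := by
    have h6 : LL.card ≤ Fintype.card (ι → S₀ → ZMod 3) :=
      Finset.card_le_univ _
    rw [Fintype.card_fun, Fintype.card_fun, ZMod.card, Fintype.card_coe, ← pow_mul] at h6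
    exact_mod_cast h6
  have h6 := mul_le_mul_of_nonneg_right h5 hR0
  rw [pow_add, mul_assoc, ← hR]
  linarith

end Pool.Agent.N883.FF
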