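import Pool.Agent.N883.FF.StmX

/-!
# Project FF: the symbol of `ω ^ i`
-/

set_option autoImplicit false

namespace Pool.Agent.N883.FF

open Pool.Agent.Y692.QS (Ei w nr toC nr_mul nr_neg nr_one nr_int isUnit_iff w_cube mul_re mul_im)
open Pool.Agent.W192.HK (sp)
open Pool.Agent.TH936.PU
open Pool.Agent.Y696 (eis)
open Pool.Agent.Y715.T.Rs (eq0 eq0_coe)
open Pool.Agent.Y715.T.Lat (la)

namespace Chi

/-- the square root of `-3` -/
def laE : Ei := ⟨1, 2⟩

lemma ediv_congr {a b : ℤ} (h : a ≡ b [ZMOD 9]) : (((a - 1) / 3 : ℤ) : ZMod 3) = (((b - 1) / 3 : ℤ) : ZMod 3) := by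
  rw [ZMod.intCast_eq_intCast_iff]
  obtain ⟨c, hc⟩ := h.dvd
  have h1 : b = a + 9 * c := by linarith
  rw [h1]
  have h2 : (a + 9 * c - 1) / 3 = (a - 1) / 3 + 3 * c := by omega
  rw [h2]
  show (a - 1) / 3 ≡ (a - 1) / 3 + 3 * c [ZMOD 3]
  exact (Int.modEq_iff_dvd.mpr ⟨c, by ring⟩)

lemma nq_congr {x y t : Ei} (h : x - y = 3 * laE * t) : nq x = nq y := by
  unfold nq
  apply ediv_congr
  have h1 : x = y + 3 * laE * t := by rw [← h]; ring
  have hre : x.re = y.re + 3 * (t.re - 2 * t.im) := by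
    rw [h1]
    have e3 : (3 : Ei) = ⟨3, 0⟩ := rfl
    rw [e3]
    unfold laE
    simp
    ring
  have him : x.im = y.im + 3 * (2 * t.re - t.im) := by
    rw [h1]
    have e3 : (3 : Ei) = ⟨3, 0⟩ := rfl
    rw [e3]
    unfold laE
    simp
    ring
  rw [Int.modEq_iff_dvd]
  unfold nr
  rw [hre, him]
  refine ⟨-(y.im * t.re - y.re * t.im + 3 * (t.re ^ 2 - t.re * t.im + t.im ^ 2)), ?_⟩
  ring

lemma nr_mod {x : Ei} (hx : IsCoprime x 3) : nr x % 3 = 1 := by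
  obtain ⟨u, v, huv⟩ := hx
  have h1 : u * x = 1 - v * 3 := by rw [← huv]; ring
  have h2 : nr u * nr x = 1 + 3 * (-(2 * v.re - v.im) + 3 * nr v) := by
    rw [← nr_mul, h1]
    have e3 : (3 : Ei) = ⟨3, 0⟩ := rfl
    have e1 : (1 : Ei) = ⟨1, 0⟩ := rfl
    rw [e3, e1]
    unfold nr
    simp
    ring
  have h3 : nr x = (x.re + x.im) ^ 2 - 3 * (x.re * x.im) := by unfold nr; ring
  have h4 : (nr u * nr x) % 3 = 1 := by rw [h2]; omega
  have h5 : nr x % 3 = ((x.re + x.im) % 3) ^ 2 % 3 := by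
    rw [h3, Int.sub_mul_emod_self_left, ← Int.emod_emod_of_dvd _ (dvd_refl 3), pow_two, pow_two, Int.mul_emod,
      Int.emod_emod_of_dvd _ (dvd_refl 3)]
  have h6 : nr x % 3 ≠ 0 := by
    intro h7
    rw [Int.mul_emod, h7] at h4
    simp at h4
  have h8 : 0 ≤ (x.re + x.im) % 3 := Int.emod_nonneg _ (by norm_num)
  have h9 : (x.re + x.im) % 3 < 3 := Int.emod_lt_of_pos _ (by norm_num)
  generalize (x.re + x.im) % 3 = k at h5 h8 h9
  interval_cases k
  · omega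
  · omega
  · omega

lemma nq_mul {x y : Ei} (hx : IsCoprime x 3) (hy : IsCoprime y 3) : nq (x * y) = nq x + nq y := by
  have h1 := nr_mod hx
  have h2 := nr_mod hy
  obtain ⟨m, hm⟩ : ∃ m, nr x = 1 + 3 * m := ⟨nr x / 3, by omega⟩
  obtain ⟨n, hn⟩ : ∃ n, nr y = 1 + 3 * n := ⟨nr y / 3, by omega⟩
  unfold nq
  rw [nr_mul, hm, hn]
  have e1 : ((1 + 3 * m) * (1 + 3 * n) - 1) / 3 = m + n + 3 * (m * n) := by
    have : (1 + 3 * m) * (1 + 3 * n) - 1 = 3 * (m + n + 3 * (m * n)) := by ring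
    rw [this]
    exact Int.mul_ediv_cancel_left _ (by norm_num)
  have e2 : (1 + 3 * m - 1) / 3 = m := by omega
  have e3 : (1 + 3 * n - 1) / 3 = n := by omega
  rw [e1, e2, e3]
  push_cast
  have h3 : (3 : ZMod 3) = 0 := rfl
  rw [h3]
  ring

lemma nq_unit {u : Ei} (hu : IsUnit u) : nq u = 0 := by
  unfold nq
  rw [isUnit_iff.mp hu]
  rfl

lemma nq_neg (x : Ei) : nq (-x) = nq x := by
  unfold nq
  rw [nr_neg]

lemma nq_int (k : ℤ) : nq (1 + 3 * (k : Ei)) = -(k : ZMod 3) := by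
  unfold nq
  have h1 : (1 + 3 * (k : Ei)) = ((1 + 3 * k : ℤ) : Ei) := by push_cast; ring
  rw [h1, nr_int]
  have h2 : ((1 + 3 * k) ^ 2 - 1) / 3 = 2 * k + 3 * k ^ 2 := by
    have : (1 + 3 * k) ^ 2 - 1 = 3 * (2 * k + 3 * k ^ 2) := by ring
    rw [this]
    exact Int.mul_ediv_cancel_left _ (by norm_num)
  rw [h2]
  push_cast
  have h3 : (3 : ZMod 3) = 0 := rfl
  have h4 : (2 : ZMod 3) = -1 := rfl
  rw [h3, h4]
  ring

/-- powers of a cube root of unity -/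
lemma pow_mod3 {ζ : ℂ} (hζ : ζ ^ 3 = 1) (n : ℕ) : ζ ^ (n % 3) = ζ ^ n := by
  conv_rhs => rw [← Nat.div_add_mod n 3, pow_add, pow_mul, hζ, one_pow, one_mul]

lemma pow_add3 {ζ : ℂ} (hζ : ζ ^ 3 = 1) (a b : ZMod 3) : ζ ^ (a + b).val = ζ ^ a.val * ζ ^ b.val := by
  rw [← pow_add, ZMod.val_add, pow_mod3 hζ]

lemma cube_w : toC w ^ 3 = 1 := by rw [← map_pow, w_cube, map_one]

lemma symm_la : eq0.symm la = laE := by
  rw [RingEquiv.symm_apply_eq]
  apply Subtype.ext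
  rw [eq0_coe, Pool.Agent.Y715.T.Rs.toC_eq]
  unfold la laE
  rw [Pool.Agent.Y715.T.Lat.ez_coe]

lemma symm_cop {x : eis} (hx : IsCoprime x 3) : IsCoprime (eq0.symm x) 3 := by
  have h := hx.map (eq0.symm : eis →+* Ei)
  rwa [map_ofNat] at h

lemma c0_add {a b : ZMod 3} : toC w ^ (a + b).val = toC w ^ a.val * toC w ^ b.val := pow_add3 cube_w a b

lemma per (i : ZMod 3) {x y : eis} (h : x - y ∈ (sp fB : Ideal eis)) : c0 i x = c0 i y := by
  unfold c0
  have h1 := Ideal.mem_span_singleton'.mp h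
  obtain ⟨t, ht⟩ := h1
  have h2 : eq0.symm x - eq0.symm y = 3 * laE * eq0.symm t := by
    rw [← map_sub, ← ht]
    unfold fB
    rw [map_mul, map_mul, symm_la, map_ofNat]
    ring
  rw [nq_congr h2]

lemma mul (i : ZMod 3) {x y : eis} (hx : IsCoprime x 3) (hy : IsCoprime y 3) :
    c0 i (x * y) = c0 i x * c0 i y := by
  unfold c0
  rw [map_mul, nq_mul (symm_cop hx) (symm_cop hy), mul_add, c0_add]

lemma unit (i : ZMod 3) {u : eis} (hu : IsUnit u) : c0 i u = 1 := by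
  unfold c0
  have h : IsUnit (eq0.symm u) := hu.map (eq0.symm : eis →+* Ei)
  rw [nq_unit h, mul_zero, ZMod.val_zero, pow_zero]

lemma neg (i : ZMod 3) (x : eis) : c0 i (-x) = c0 i x := by
  unfold c0
  rw [map_neg, nq_neg]

lemma cube (i : ZMod 3) (x : eis) : c0 i x ^ 3 = 1 := by
  unfold c0
  rw [← pow_mul, mul_comm, pow_mul, cube_w, one_pow]

lemma norm_c0 (i : ZMod 3) (x : eis) : ‖c0 i x‖ = 1 := by
  have h := congrArg norm (cube i x)
  rw [norm_pow, norm_one] at h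
  exact (pow_eq_one_iff_of_nonneg (norm_nonneg _) (by norm_num)).mp h

lemma eo (i : ZMod 3) (j : Fin 3) : Eo fB (eB i j) := by
  have h0 := Pool.Agent.Y703.CT.Ana.eo_j j
  refine ⟨fun x y h => ?_, fun x y => ?_, fun x => ?_, fun x => ?_⟩
  · unfold eB
    have h3 : x - y ∈ (sp 3 : Ideal eis) := by
      obtain ⟨t, ht⟩ := Ideal.mem_span_singleton'.mp h
      refine Ideal.mem_span_singleton'.mpr ⟨t * la, ?_⟩
      rw [← ht]
      unfold fB
      ring
    rw [h0.per x y h3, per i h]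
  · unfold eB
    rw [h0.mul x y]
    by_cases hx : IsCoprime x 3
    · by_cases hy : IsCoprime y 3
      · rw [mul i hx hy]
        ring
      · rw [Pool.Agent.Y703.CT.Ana.ej_ncop j hy]
        ring
    · rw [Pool.Agent.Y703.CT.Ana.ej_ncop j hx]
      ring
  · unfold eB
    rw [h0.neg x, neg i x]
    ring
  · unfold eB
    rw [norm_mul, norm_c0, mul_one]
    exact h0.bd x

lemma int (i : ZMod 3) (k : ℤ) : c0 i (1 + 3 * (k : eis)) = toC w ^ (-(i * (k : ZMod 3))).val := by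
  unfold c0
  have h : eq0.symm (1 + 3 * (k : eis)) = 1 + 3 * (k : Ei) := by
    rw [map_add, map_one, map_mul, map_ofNat, map_intCast]
  rw [h, nq_int, mul_neg]

end Chi

/-- FF-CHI -/
theorem chi : S_CHI := fun i =>
  ⟨fun _ _ h => Chi.per i h, fun _ _ hx hy => Chi.mul i hx hy, fun _ hu => Chi.unit i hu,
    fun x => Chi.cube i x, fun j => Chi.eo i j, fun k => Chi.int i k⟩

end Pool.Agent.N883.FF
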