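import Pool.Agent.N883.FF.Tri
import Pool.Agent.N883.FF.Tot
import Pool.Agent.N883.FF.Den3

/-!
# Project FF: the proportion
-/

set_option autoImplicit false
set_option linter.unusedVariables false
set_option linter.unusedSectionVars false

open scoped Classical

namespace Pool.Agent.N883.FF

open NumberField Filter
open Pool.Agent.Y692.QS (Ei w nr toC)
open Pool.Agent.Y703.CT
open Pool.Agent.Y703.XK (c9)
open Pool.Agent.Y715.T.Gi (CF)
open Pool.Agent.R419.KF (el ClsC ClsKC clsC_iff)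
open Pool.Agent.Y696.CTK (Tri)
open Pool.Agent.Y696.XK (img_ncard)

/-- the family: cube-free, not a unit, congruent to a power of `ω` modulo `3` -/
def FamE (D : Ei) : Prop :=
  ¬ IsUnit D ∧ (∀ x : Ei, x ^ 3 ∣ D → IsUnit x) ∧ ∃ i : ZMod 3, (3 : Ei) ∣ D - w ^ i.val

/-- not in the exceptional class -/
def NxE (D : Ei) : Prop := ¬ ((3 : Ei) ∣ D - 1 ∧ (9 : ℤ) ∣ nr D - 1)

lemma w_pow_inj {a b : ZMod 3} (h : (3 : Ei) ∣ w ^ a.val - w ^ b.val) : a = b := by
  by_contra hab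
  have : ∀ a b : ZMod 3, a ≠ b → ¬ (9 : ℤ) ∣ nr (w ^ a.val - w ^ b.val) := by decide
  refine this a b hab ?_
  obtain ⟨t, ht⟩ := h
  rw [ht, Pool.Agent.Y692.QS.nr_mul]
  exact Dvd.dvd.mul_right (by decide) _

lemma nr_w_mul (i : ZMod 3) (z : Ei) : nr (w ^ i.val * z) = nr z := by
  rw [Pool.Agent.Y692.QS.nr_mul]
  have : ∀ i : ZMod 3, nr (w ^ i.val) = 1 := by decide
  rw [this, one_mul]

lemma three_dvd_w {i : ZMod 3} {z : Ei} (h : (3 : Ei) ∣ z - 1) (k : ZMod 3) :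
    (3 : Ei) ∣ w ^ i.val * z - w ^ k.val ↔ i = k := by
  have e : w ^ i.val * z - w ^ k.val = w ^ i.val * (z - 1) + (w ^ i.val - w ^ k.val) := by ring
  rw [e, dvd_add_right (h.mul_left _)]
  constructor
  · exact fun h1 => w_pow_inj h1
  · rintro rfl
    rw [sub_self]
    exact dvd_zero _

lemma unit_prim {z : Ei} (hu : IsUnit z) (h : (3 : Ei) ∣ z - 1) : z = 1 := by
  obtain ⟨t, ht⟩ := h
  have h1 : nr z = 1 := Pool.Agent.Y692.QS.isUnit_iff.1 hu
  have h2 : z = 1 + 3 * t := by rw [← ht]; ring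
  obtain ⟨x, y⟩ := t
  rw [h2, nr_form] at h1
  have e3 : nr (⟨x, y⟩ : Ei) = x ^ 2 - x * y + y ^ 2 := rfl
  have h3 : x = 0 ∧ y = 0 := by
    rw [e3] at h1
    have h4 : (2 * (2 * x - y) + 0) = -(6 * (x ^ 2 - x * y + y ^ 2)) := by linarith
    have h5 : x ^ 2 - x * y + y ^ 2 ≤ 0 := by
      by_contra hc
      push Not at hc
      nlinarith [sq_nonneg (x - y), sq_nonneg (x + y), sq_nonneg (2 * x - y), sq_nonneg x,
        sq_nonneg y, sq_nonneg (2 * x - y + 1), sq_nonneg (y)]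
    have h6 : (2 * x - y) ^ 2 + 3 * y ^ 2 ≤ 0 := by nlinarith
    have h7 : y = 0 := by nlinarith [sq_nonneg (2 * x - y), sq_nonneg y]
    subst h7
    exact ⟨by nlinarith [sq_nonneg x], rfl⟩
  rw [h2, h3.1, h3.2]
  have : (⟨0, 0⟩ : Ei) = 0 := rfl
  rw [this]
  ring

lemma fam_iff (i : ZMod 3) (z : Ei) (h3 : (3 : Ei) ∣ z - 1) :
    FamE (w ^ i.val * z) ↔ ClP z ∧ z ≠ 1 := by
  have hw : IsUnit ((w : Ei) ^ i.val) := isUnit_w.pow _
  constructor
  · rintro ⟨h1, h2, -⟩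
    refine ⟨⟨h3, fun x hx => h2 x (hx.mul_left _)⟩, ?_⟩
    rintro rfl
    rw [mul_one] at h1
    exact h1 hw
  · rintro ⟨⟨-, h2⟩, h1⟩
    refine ⟨fun h => h1 (unit_prim ((isUnit_of_mul_isUnit_right h)) h3), fun x hx => h2 x ?_,
      i, (three_dvd_w h3 i).2 rfl⟩
    exact (hw.dvd_mul_left).1 hx

lemma fin_nr (X : ℕ) : {D : Ei | nr D ≤ X}.Finite := by
  refine (Pool.Agent.Y699.E.fin_norm_le X).subset fun D hD => ?_
  have h1 : nr D ≤ X := hD
  rw [← Pool.Agent.Y699.E.nrm_cast] at h1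
  exact_mod_cast h1

/-- the decomposition of the family -/
theorem card_fam (P : Ei → Prop) (X : ℕ) :
    {D : Ei | nr D ≤ X ∧ FamE D ∧ P D}.ncard =
      ∑ i : ZMod 3, {z : Ei | nr z ≤ X ∧ ClP z ∧ z ≠ 1 ∧ P (w ^ i.val * z)}.ncard := by
  have h1 : ∀ i : ZMod 3, {z : Ei | nr z ≤ X ∧ ClP z ∧ z ≠ 1 ∧ P (w ^ i.val * z)}.ncard =
      ((fun z : Ei => w ^ i.val * z) ''
        {z : Ei | nr z ≤ X ∧ ClP z ∧ z ≠ 1 ∧ P (w ^ i.val * z)}).ncard := by
    intro i
    rw [Set.ncard_image_of_injective]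
    intro a b hab
    exact mul_left_cancel₀ (isUnit_w.pow _).ne_zero hab
  have hfin : ∀ i : ZMod 3, ((fun z : Ei => w ^ i.val * z) ''
        {z : Ei | nr z ≤ X ∧ ClP z ∧ z ≠ 1 ∧ P (w ^ i.val * z)}).Finite := by
    intro i
    exact ((fin_nr X).subset fun z hz => hz.1).image _
  have h2 : {D : Ei | nr D ≤ X ∧ FamE D ∧ P D} = ⋃ i : ZMod 3,
      ((fun z : Ei => w ^ i.val * z) ''
        {z : Ei | nr z ≤ X ∧ ClP z ∧ z ≠ 1 ∧ P (w ^ i.val * z)}) := by
    ext D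
    simp only [Set.mem_iUnion, Set.mem_image]
    constructor
    · rintro ⟨a1, a2, a3⟩
      obtain ⟨i, hi⟩ := a2.2.2
      have hw3 : (w : Ei) ^ i.val * w ^ (-i).val = 1 := by
        have : ∀ i : ZMod 3, (w : Ei) ^ i.val * w ^ (-i).val = 1 := by decide
        exact this i
      have e1 : w ^ i.val * (w ^ (-i).val * D) = D := by rw [← mul_assoc, hw3, one_mul]
      have h3 : (3 : Ei) ∣ w ^ (-i).val * D - 1 := by
        have h4 : w ^ (-i).val * D - 1 = w ^ (-i).val * (D - w ^ i.val) := by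
          rw [mul_sub]
          congr 1
          rw [mul_comm, hw3]
        rw [h4]
        exact hi.mul_left _
      have h5 := a2
      rw [← e1] at h5
      obtain ⟨b1, b2⟩ := (fam_iff i _ h3).1 h5
      refine ⟨i, w ^ (-i).val * D, ⟨?_, b1, b2, ?_⟩, e1⟩
      · have := nr_w_mul i (w ^ (-i).val * D)
        rw [e1] at this
        show nr (w ^ (-i).val * D) ≤ X
        rw [← this]
        exact a1
      · rw [e1]
        exact a3
    · rintro ⟨i, z, ⟨a1, a2, a3, a4⟩, rfl⟩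
      exact ⟨by rw [nr_w_mul]; exact a1, (fam_iff i z a2.1).2 ⟨a2, a3⟩, a4⟩
  rw [h2]
  simp only [h1]
  have hdis : Pairwise (Function.onFun Disjoint fun i : ZMod 3 => ((fun z : Ei => w ^ i.val * z) ''
        {z : Ei | nr z ≤ X ∧ ClP z ∧ z ≠ 1 ∧ P (w ^ i.val * z)})) := by
    intro i k hik
    show Disjoint _ _
    rw [Set.disjoint_left]
    rintro D ⟨z, hz, rfl⟩ ⟨y, hy, hyz⟩
    have h3 : (3 : Ei) ∣ w ^ i.val * z - w ^ i.val := (three_dvd_w hz.2.1.1 i).2 rfl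
    have h4 : (3 : Ei) ∣ w ^ k.val * y - w ^ i.val := by
      have : w ^ k.val * y = w ^ i.val * z := hyz
      rw [this]
      exact h3
    exact hik ((three_dvd_w hy.2.1.1 i).1 h4).symm
  rw [Set.ncard_iUnion_of_finite hfin hdis, finsum_eq_sum_of_fintype]

end Pool.Agent.N883.FF
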