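import Pool.Agent.N883.FF.StmN
import Pool.Agent.R419.KF.Crit

/-!
# Project FF: the graph of the cubic symbols with the additional vertex `ω`
-/

set_option autoImplicit false
set_option linter.unusedVariables false
set_option linter.unusedSectionVars false

open scoped Classical

namespace Pool.Agent.N883.FF

open NumberField
open Pool.Agent.Y692.QS (Ei w nr toC)
open Pool.Agent.Y703.CT
open Pool.Agent.Y715.T.Rec (cs nn)
open Pool.Agent.Y715.T.RecG (Pq)
open Pool.Agent.Y715.T.Gi (CF)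
open Pool.Agent.Y696.CTK (pq_symm)

/-- the kernel of the Laplacian of the graph with the additional vertex is as small as possible -/
def ConnE {J : Type} [Fintype J] (π : J → Ei) (e : J → ZMod 3) (i : ZMod 3) : Prop :=
  ∀ (v : J → ZMod 3) (t : ZMod 3),
    (∀ j, ∑ k, e k * cs (π j) (π k) * (v k - v j) + nq (π j) * (t - i * v j) = 0) →
    ∀ j, t = i * v j ∧ ∀ k, v k = v j

lemma nq_rq {α : Ei} (h : (3 : Ei) ∣ α - 1) : nq α = -rq α := by
  obtain ⟨x, y, e, hr⟩ := ex_q h
  rw [hr]
  unfold nq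
  rw [e, nr_form]
  have e1 : (1 + 3 * (2 * x - y) + 9 * nr (⟨x, y⟩ : Ei) - 1) / 3 =
      -(x + y) + 3 * (x + nr (⟨x, y⟩ : Ei)) := by
    have : 1 + 3 * (2 * x - y) + 9 * nr (⟨x, y⟩ : Ei) - 1 =
      3 * (-(x + y) + 3 * (x + nr (⟨x, y⟩ : Ei))) := by ring
    rw [this]
    exact Int.mul_ediv_cancel_left _ (by norm_num)
  rw [e1]
  push_cast
  have h3 : (3 : ZMod 3) = 0 := rfl
  rw [h3]
  ring

section
variable {J : Type} [Fintype J] {π : J → Ei} {e : J → ZMod 3} {i : ZMod 3}

/-- the case `i ≠ 0` -/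
theorem conn_iffB [Nonempty J] (hi : i ≠ 0) : ConnE π e i ↔ KerB π e i := by
  constructor
  · intro h v hv j
    have h1 := h v 0 (fun j => by rw [hv j]; ring) j
    have h2 : i * v j = 0 := h1.1.symm
    exact (mul_eq_zero.1 h2).resolve_left hi
  · intro h v t hv j
    have hii : i * i = 1 := by
      have : ∀ i : ZMod 3, i ≠ 0 → i * i = 1 := by decide
      exact this i hi
    have h1 := h (fun k => v k - i * t) (fun j => by
      have h2 := hv j
      have e1 : ∀ k, e k * cs (π j) (π k) * ((v k - i * t) - (v j - i * t)) =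
          e k * cs (π j) (π k) * (v k - v j) := fun k => by ring
      simp only [e1]
      linear_combination h2 + (nq (π j) * t) * hii)
    have h3 : ∀ k, v k = i * t := fun k => sub_eq_zero.1 (h1 k)
    refine ⟨?_, fun k => by rw [h3 k, h3 j]⟩
    rw [h3 j]
    linear_combination (-t) * hii

/-- the case `i = 0` -/
theorem conn_iffA [Nonempty J] (hrec : S_REC) (hD : Dt π e) (h9 : ¬ (9 : ℤ) ∣ nr (pD π e) - 1) :
    ConnE π e 0 ↔ Ker π e := by
  have hs := (sum_ne_iff hD).1 h9
  constructor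
  · intro h v hv i' j
    exact (h v 0 (fun j => by rw [hv j]; ring) j).2 i'
  · intro h v t hv
    have hsum : ∑ j, e j * (∑ k, e k * cs (π j) (π k) * (v k - v j)) = 0 := by
      have e1 : ∑ j, e j * (∑ k, e k * cs (π j) (π k) * (v k - v j)) =
          ∑ j, ∑ k, e j * e k * cs (π j) (π k) * (v k - v j) := by
        refine Finset.sum_congr rfl fun j _ => ?_
        rw [Finset.mul_sum]
        exact Finset.sum_congr rfl fun k _ => by ring
      have e2 : ∑ j, ∑ k, e j * e k * cs (π j) (π k) * (v k - v j) =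
          -∑ j, ∑ k, e j * e k * cs (π j) (π k) * (v k - v j) := by
        rw [← Finset.sum_neg_distrib]
        rw [Finset.sum_comm]
        refine Finset.sum_congr rfl fun j _ => ?_
        rw [← Finset.sum_neg_distrib]
        refine Finset.sum_congr rfl fun k _ => ?_
        by_cases hjk : k = j
        · rw [hjk, sub_self]
          ring
        · rw [hrec (π j) (π k) (hD.pq j) (hD.pq k) (hD.nd j k (Ne.symm hjk))]
          ring
      rw [e1]
      generalize ∑ j, ∑ k, e j * e k * cs (π j) (π k) * (v k - v j) = z at e2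
      revert z
      decide
    have h2 : ∑ j, e j * (∑ k, e k * cs (π j) (π k) * (v k - v j)) +
        (∑ j, e j * nq (π j)) * t = 0 := by
      rw [Finset.sum_mul, ← Finset.sum_add_distrib]
      refine Finset.sum_eq_zero fun j _ => ?_
      have := hv j
      linear_combination (e j) * this
    rw [hsum, zero_add] at h2
    have h3 : ∑ j, e j * nq (π j) ≠ 0 := by
      intro h4
      apply hs
      rw [← neg_eq_zero, ← h4, ← Finset.sum_neg_distrib]
      exact Finset.sum_congr rfl fun j _ => by rw [nq_rq (hD.pq j).three]; ring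
    have ht : t = 0 := (mul_eq_zero.1 h2).resolve_left h3
    subst ht
    intro j
    refine ⟨by ring, fun k => ?_⟩
    refine h v (fun j => ?_) k j
    rw [← hv j]
    ring

end

/-! ### over the ring of integers -/

/-- the graph over `𝓞 K` -/
def ConnK {n : ℕ} (e : Fin n → ZMod 3) (i : ZMod 3) (χ : Fin n → Fin n → ZMod 3)
    (η : Fin n → ZMod 3) : Prop :=
  ∀ (v : Fin n → ZMod 3) (t : ZMod 3),
    (∀ j, ∑ k, e k * χ j k * (v k - v j) + η j * (t - i * v j) = 0) →
    ∀ j, t = i * v j ∧ ∀ k, v k = v j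

/-- `D = ω^i ∏ π_k ^ e_k`, `(π_k / π_j)_3 = ω ^ χ j k`, `(ω / π_j)_3 = ω ^ η j` -/
def IsFactB {K : Type} [Field K] [NumberField K] (ω D : 𝓞 K) (n : ℕ) (π : Fin n → 𝓞 K)
    (e : Fin n → ZMod 3) (i : ZMod 3) (χ : Fin n → Fin n → ZMod 3) (η : Fin n → ZMod 3) : Prop :=
  (∀ k, Prime (π k) ∧ (3 : 𝓞 K) ∣ π k - 1 ∧ e k ≠ 0) ∧ D = ω ^ i.val * ∏ k, π k ^ (e k).val ∧
  (∀ k j, k ≠ j → ¬ π j ∣ π k ∧
    π j ∣ π k ^ (((Algebra.norm ℤ (π j)).natAbs - 1) / 3) - ω ^ (χ j k).val) ∧
  ∀ j, π j ∣ ω ^ (((Algebra.norm ℤ (π j)).natAbs - 1) / 3) - ω ^ (η j).val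

section
variable {K : Type} [Field K] [NumberField K] (j : Ei ≃+* 𝓞 K)

lemma jw_or {ω : 𝓞 K} (hω : ω ^ 2 + ω + 1 = 0) : ω = j w ∨ ω = j (w ^ 2) := by
  have hww : (w : Ei) ^ 2 + w + 1 = 0 := by decide
  have hfac : (ω - j w) * (ω - j (w ^ 2)) = 0 := by
    have e1 : (w : Ei) ^ 2 = -w - 1 := by linear_combination hww
    rw [e1, map_sub, map_neg, map_one]
    have e2 : (j w) ^ 2 + j w + 1 = 0 := by
      rw [← map_pow, ← map_one j, ← map_add, ← map_add, hww, map_zero]
    linear_combination hω - e2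
  rcases mul_eq_zero.1 hfac with h4 | h4
  · exact Or.inl (sub_eq_zero.1 h4)
  · exact Or.inr (sub_eq_zero.1 h4)

/-- the symbol of `w` -/
lemma cs_w' {ρ : Ei} (h : Pq ρ) : cs ρ w = nq ρ ∧ ¬ ρ ∣ w := by
  have hw : ¬ ρ ∣ w := fun hd => h.prime.not_isUnit (isUnit_of_dvd_unit hd isUnit_w')
  refine ⟨?_, hw⟩
  apply Pool.Agent.Y715.T.RecG.cs_of h.prime h.norm
  have e1 : (w : Ei) ^ nn ρ = w ^ (nq ρ).val := by
    have h3 : (w : Ei) ^ 3 = 1 := by decide
    have h4 : ((nn ρ : ℕ) : ZMod 3) = nq ρ := by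
      obtain ⟨x, y, e, hr⟩ := ex_q h.three
      unfold nq nn
      have h5 : 0 ≤ nr ρ := Pool.Agent.Y692.QS.nr_nonneg ρ
      have h6 := nr_form x y
      rw [← e] at h6
      obtain ⟨m, hm⟩ : ∃ m : ℤ, nr ρ = 1 + 3 * m := ⟨2 * x - y + 3 * nr (⟨x, y⟩ : Ei), by
        rw [h6]; ring⟩
      have hm0 : 0 ≤ m := by omega
      obtain ⟨m', rfl⟩ := Int.eq_ofNat_of_zero_le hm0
      rw [hm]
      have e2 : (1 + 3 * (m' : ℤ) - 1) / 3 = m' := by omega
      rw [e2]
      have e3 : (1 + 3 * (m' : ℤ)).natAbs = 1 + 3 * m' := by omega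
      rw [e3]
      have e4 : (1 + 3 * m' - 1) / 3 = m' := by omega
      rw [e4]
      push_cast
      rfl
    rw [← h4, ZMod.val_natCast]
    conv_lhs => rw [← Nat.div_add_mod (nn ρ) 3]
    rw [pow_add, pow_mul, h3, one_pow, one_mul]
  rw [e1, sub_self]
  exact dvd_zero _
where
  isUnit_w' : IsUnit (w : Ei) := by
    have h : (w : Ei) ^ 3 = 1 := by decide
    exact IsUnit.of_pow_eq_one h three_ne_zero

lemma w_sub_ne {a b : ZMod 3} {ρ : Ei} (h : Pq ρ) (hd : ρ ∣ w ^ a.val - w ^ b.val) : a = b := by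
  have h3 : ¬ ρ ∣ 3 := h.norm
  have key : ∀ a b : ZMod 3, a ≠ b → (w ^ a.val - w ^ b.val : Ei) ∣ 3 := by
    intro a b hab
    have : ∀ a b : ZMod 3, a ≠ b → ∃ c : Fin 3 × Fin 3 × Fin 3, (3 : Ei) =
      (w ^ a.val - w ^ b.val : Ei) * (((c.1.val : ℤ) - 1 : ℤ) + ((c.2.1.val : ℤ) - 1 : ℤ) * w +
        ((c.2.2.val : ℤ) - 1 : ℤ) * w ^ 2) := by decide
    obtain ⟨c, hc⟩ := this a b hab
    exact ⟨_, hc⟩
  by_contra hab
  exact h3 (hd.trans (key a b hab))

/-- the factorization as data `Dt`, with the criterion -/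
theorem fact_dtB (hj : ∀ z : Ei, Algebra.norm ℤ (j z) = nr z) {ω D : 𝓞 K} {n : ℕ}
    {π : Fin n → 𝓞 K} {e : Fin n → ZMod 3} {i : ZMod 3}
    {χ : Fin n → Fin n → ZMod 3} {η : Fin n → ZMod 3} (hω : ω ^ 2 + ω + 1 = 0)
    (h : IsFactB ω D n π e i χ η) :
    ∃ i' : ZMod 3, (i' = 0 ↔ i = 0) ∧ Dt (fun k => j.symm (π k)) e ∧
      pB (fun k => j.symm (π k)) e i' = j.symm D ∧
      (ConnE (fun k => j.symm (π k)) e i' ↔ ConnK e i χ η) := by
  obtain ⟨h1, h2, h3, h4⟩ := h
  have hdt : Dt (fun k => j.symm (π k)) e :=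
    ⟨fun i => pq_symm j (h1 i).1 (h1 i).2.1, fun i k hik hd =>
      (h3 i k hik).1 ((map_dvd_iff j.symm).1 hd), fun i => (h1 i).2.2⟩
  have hnn : ∀ k, nn (j.symm (π k)) = ((Algebra.norm ℤ (π k)).natAbs - 1) / 3 := by
    intro k
    unfold nn
    rw [← hj, RingEquiv.apply_symm_apply]
  rcases jw_or j hω with h5 | h5
  · refine ⟨i, Iff.rfl, hdt, ?_, ?_⟩
    · unfold pB pD
      rw [h2, h5, map_mul, map_prod, map_pow, RingEquiv.symm_apply_apply]
      simp only [map_pow]
    · have hχ : ∀ k l, k ≠ l → cs (j.symm (π l)) (j.symm (π k)) = χ l k := by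
        intro k l hkl
        have hpq := hdt.pq l
        apply Pool.Agent.Y715.T.RecG.cs_of hpq.prime hpq.norm
        have h6 := map_dvd j.symm (h3 k l hkl).2
        rw [h5, map_sub, map_pow, map_pow, RingEquiv.symm_apply_apply, ← hnn l] at h6
        exact h6
      have hη : ∀ l, nq (j.symm (π l)) = η l := by
        intro l
        have hpq := hdt.pq l
        obtain ⟨h7, h8⟩ := cs_w' hpq
        rw [← h7]
        apply Pool.Agent.Y715.T.RecG.cs_of hpq.prime hpq.norm
        have h6 := map_dvd j.symm (h4 l)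
        rw [h5, map_sub, map_pow, map_pow, RingEquiv.symm_apply_apply, ← hnn l] at h6
        exact h6
      unfold ConnE ConnK
      have key : ∀ (v : Fin n → ZMod 3) (t : ZMod 3) (l : Fin n),
          ∑ k, e k * cs (j.symm (π l)) (j.symm (π k)) * (v k - v l) +
            nq (j.symm (π l)) * (t - i * v l) =
          ∑ k, e k * χ l k * (v k - v l) + η l * (t - i * v l) := by
        intro v t l
        rw [hη]
        congr 1
        refine Finset.sum_congr rfl fun k _ => ?_
        by_cases hkl : k = l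
        · rw [hkl, sub_self, mul_zero, mul_zero]
        · rw [hχ k l hkl]
      simp only [key]
  · have hw2 : ∀ m : ℕ, ((w : Ei) ^ 2) ^ m = w ^ (2 * m) := fun m => (pow_mul _ _ _).symm
    have hww : ∀ a : ZMod 3, ((w : Ei) ^ 2) ^ a.val = w ^ (-a).val := by decide
    refine ⟨-i, neg_eq_zero, hdt, ?_, ?_⟩
    · unfold pB pD
      rw [h2, h5, map_mul, map_prod, map_pow, RingEquiv.symm_apply_apply, hww]
      simp only [map_pow]
    · have hχ : ∀ k l, k ≠ l → cs (j.symm (π l)) (j.symm (π k)) = -χ l k := by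
        intro k l hkl
        have hpq := hdt.pq l
        apply Pool.Agent.Y715.T.RecG.cs_of hpq.prime hpq.norm
        have h6 := map_dvd j.symm (h3 k l hkl).2
        rw [h5, map_sub, map_pow j.symm, map_pow j.symm, RingEquiv.symm_apply_apply, ← hnn l,
          hww] at h6
        exact h6
      have hη : ∀ l, nq (j.symm (π l)) = η l := by
        intro l
        have hpq := hdt.pq l
        obtain ⟨h7, h8⟩ := cs_w' hpq
        have h9 := Pool.Agent.Y715.T.RecG.cs_spec hpq.prime hpq.norm h8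
        rw [h7] at h9
        have h6 := map_dvd j.symm (h4 l)
        rw [h5, map_sub, map_pow j.symm, map_pow j.symm, RingEquiv.symm_apply_apply, ← hnn l, hww,
          hw2] at h6
        have e2 : (w : Ei) ^ (2 * nn (j.symm (π l))) - w ^ (-nq (j.symm (π l))).val =
            (w ^ nn (j.symm (π l)) - w ^ (nq (j.symm (π l))).val) *
              (w ^ nn (j.symm (π l)) + w ^ (nq (j.symm (π l))).val) := by
          have e3 : (w : Ei) ^ (-nq (j.symm (π l))).val =
              w ^ (nq (j.symm (π l))).val * w ^ (nq (j.symm (π l))).val := by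
            generalize nq (j.symm (π l)) = a
            revert a
            decide
          rw [e3]
          ring
        have h10 : j.symm (π l) ∣ (w : Ei) ^ (2 * nn (j.symm (π l))) -
            w ^ (-nq (j.symm (π l))).val := by
          rw [e2]
          exact h9.mul_right _
        have h11 := dvd_sub h10 h6
        have e4 : (w : Ei) ^ (2 * nn (j.symm (π l))) - w ^ (-nq (j.symm (π l))).val -
            (w ^ (2 * nn (j.symm (π l))) - w ^ (-η l).val) =
            w ^ (-η l).val - w ^ (-nq (j.symm (π l))).val := by ring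
        rw [e4] at h11
        exact neg_injective (w_sub_ne hpq h11).symm
      unfold ConnE ConnK
      have key : ∀ (v : Fin n → ZMod 3) (t : ZMod 3) (l : Fin n),
          ∑ k, e k * cs (j.symm (π l)) (j.symm (π k)) * (v k - v l) +
            nq (j.symm (π l)) * (t - -i * v l) =
          -(∑ k, e k * χ l k * (v k - v l) + η l * (-t - i * v l)) := by
        intro v t l
        rw [hη, neg_add, ← Finset.sum_neg_distrib]
        congr 1
        · refine Finset.sum_congr rfl fun k _ => ?_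
          by_cases hkl : k = l
          · rw [hkl, sub_self]
            ring
          · rw [hχ k l hkl]
            ring
        · ring
      simp only [key, neg_eq_zero]
      constructor
      · intro h v t hv l
        have h7 := h v (-t) (by rw [neg_neg]; exact hv) l
        exact ⟨by rw [← neg_inj, h7.1]; ring, h7.2⟩
      · intro h v t hv l
        have h7 := h v (-t) hv l
        exact ⟨by rw [← neg_inj, h7.1]; ring, h7.2⟩

/-- there is a factorization -/
lemma fact_exB (hj : ∀ z : Ei, Algebra.norm ℤ (j z) = nr z) {n : ℕ}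
    {π : Fin n → Ei} {e : Fin n → ZMod 3} (hdt : Dt π e) (i : ZMod 3) :
    ∃ (ω : 𝓞 K) (χ : Fin n → Fin n → ZMod 3) (η : Fin n → ZMod 3),
      ω ^ 2 + ω + 1 = 0 ∧ IsFactB ω (j (pB π e i)) n (fun i => j (π i)) e i χ η := by
  refine ⟨j w, fun k i => cs (π k) (π i), fun k => nq (π k), ?_,
    fun i => ⟨?_, ?_, hdt.e0 i⟩, ?_, fun i k hik =>
    ⟨fun hd => hdt.nd i k hik ((map_dvd_iff j).1 hd), ?_⟩, fun k => ?_⟩
  · have hww : (w : Ei) ^ 2 + w + 1 = 0 := by decide
    rw [← map_pow, ← map_one j, ← map_add, ← map_add, hww, map_zero]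
  · exact (MulEquiv.prime_iff (j : Ei ≃* 𝓞 K)).2 (hdt.pq i).prime
  · have h1 := map_dvd j (hdt.pq i).three
    rwa [map_sub, map_one, map_ofNat] at h1
  · unfold pB pD
    rw [map_mul, map_prod]
    simp only [map_pow]
  · have h1 := map_dvd j (Pool.Agent.Y715.T.RecG.cs_spec (hdt.pq k).prime (hdt.pq k).norm
      (hdt.nd i k hik))
    rw [map_sub, map_pow, map_pow] at h1
    rw [hj]
    exact h1
  · obtain ⟨h7, h8⟩ := cs_w' (hdt.pq k)
    have h1 := map_dvd j (Pool.Agent.Y715.T.RecG.cs_spec (hdt.pq k).prime (hdt.pq k).norm h8)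
    rw [map_sub, map_pow, map_pow, h7] at h1
    rw [hj]
    exact h1

end

end Pool.Agent.N883.FF
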