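import Pool.Agent.N883.FF.StmF
import Pool.Agent.Y100.CT.CUB3

/-!
# Project FF, task CUB3 (helper966): local solutions at three for `D` prime to three
-/

set_option autoImplicit false

namespace Pool.Agent.N883.FF

open Pool.Agent.Y692.QS
open Pool.Agent.Y715.T.Gi Pool.Agent.Y715.T.Nr Pool.Agent.Y715.T.Df Pool.Agent.Y715.T.Ell
open Pool.Agent.Y715.T.Red Pool.Agent.Y715.T.Thr
open Pool.Agent.Y703.CT
open Pool.Agent.Y100.CT.CUB3 (res cube_res root norm_nine)

namespace Cub3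

/-- divisibility by `lam` -/
lemma lam_dvd (z : Ei) (h : (3 : ℤ) ∣ z.re + z.im) : lam ∣ z := by
  have hl : (lam : Ei) = 1 + 2 * w := by decide
  have hw := w_sq
  obtain ⟨m, hm⟩ := h
  refine ⟨-lam * (m : Ei) + (1 + w) * (z.im : Ei), ?_⟩
  have h1 : ((z.re : ℤ) : Ei) + (z.im : Ei) = 3 * (m : Ei) := by
    exact_mod_cast congrArg (Int.cast : ℤ → Ei) hm
  conv_lhs => rw [eta z]
  rw [hl]
  linear_combination h1 + (4 * (m : Ei) - 2 * (z.im : Ei)) * hw

end Cub3

/-- **FF-CUB3** -/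
theorem cub3B : S_CUB3B := by
  intro _ I hI B D hB h9 hD
  obtain ⟨b, hb⟩ := hB
  have eB : B = 1 + 3 * b := by linear_combination hb
  have hll : (lam : Ei) ^ 2 = -3 := lam_sq
  have hfix : ∀ z : Ei, ∀ τ : Au 3, τ I = I → τ (ev I hI z) = ev I hI z :=
    fun z τ hτ => ev_fix hI hτ z
  have hlb : lam ∣ b := by
    apply Cub3.lam_dvd
    have r3 : (3 : Ei).re = 3 := rfl
    have i3 : (3 : Ei).im = 0 := rfl
    have r1 : (1 : Ei).re = 1 := rfl
    have i1 : (1 : Ei).im = 0 := rfl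
    have hBre : B.re = 1 + 3 * b.re := by
      rw [eB, QuadraticAlgebra.re_add, mul_re, r3, i3, r1]
      ring
    have hBim : B.im = 3 * b.im := by
      rw [eB, QuadraticAlgebra.im_add, mul_im, r3, i3, i1]
      ring
    unfold nr at h9
    rw [hBre, hBim] at h9
    obtain ⟨c, hc⟩ := h9
    refine ⟨b.re - (c - b.re ^ 2 + b.re * b.im - b.im ^ 2), ?_⟩
    have h3 : (3 : ℤ) * (b.re + b.im) =
        3 * (3 * (b.re - (c - b.re ^ 2 + b.re * b.im - b.im ^ 2))) := by
      linear_combination -hc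
    exact mul_left_cancel₀ (by norm_num) h3
  obtain ⟨b', hb'⟩ := hlb
  obtain ⟨ud, hud, d', hd'⟩ := res D
  have hud2 : ud ^ 2 = 1 := by
    rcases hud with rfl | rfl | rfl
    · exfalso
      exact hD ⟨d', by linear_combination hd'⟩
    · ring
    · ring
  obtain ⟨u, hu, q, hq⟩ := res (-(b' * ud))
  have hu3 := cube_res hu
  obtain ⟨z, hz⟩ : ∃ z, B ^ 2 + B * D * (lam * u) ^ 3 = 1 + 9 * z := by
    refine ⟨lam * b' - (q * ud - u * d') + b ^ 2 - lam * u * D * b, ?_⟩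
    rw [eB]
    have h3 : (lam * u) ^ 3 = -3 * lam * u := by
      have : (lam * u) ^ 3 = lam ^ 2 * lam * u ^ 3 := by ring
      rw [this, hll, hu3]
    rw [h3]
    linear_combination 6 * hb' - 3 * lam * u * hd' + 3 * lam * ud * hq + 3 * lam * b' * hud2 +
      (3 * ud * q - 3 * u * d') * hll
  obtain ⟨s, hs, hs0, hsf⟩ := root hI (c := ev I hI (1 + 9 * z)) (hfix _) (by
    rw [map_add, map_one, add_sub_cancel_left]
    exact norm_nine hI z)
  refine ⟨s, 1, ev I hI (lam * u), ⟨fun τ hτ => ⟨hsf τ hτ, map_one τ, hfix _ τ hτ⟩,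
    Or.inl hs0, ?_⟩⟩
  rw [hs, ← hz, map_add, map_mul, map_mul, map_pow, map_pow]
  ring

end Pool.Agent.N883.FF

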