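import Pool.Agent.Y703.CT.StmB

/-!
# Project FF (helper883): all cubic twists over `ℚ(ω)`, definitions

`E_D : y² + D y = x³`, `D = ω ^ i ∏ π_j ^ (e j)`, `i ≠ 0`, `π_j` primary primes (`Dt π e`).  The
library (project CT) has the case `i = 0`, with the additional condition that the norm of `D` is not
`1` modulo `9`.
-/

set_option autoImplicit false

open scoped Classical

namespace Pool.Agent.N883.FF

open Pool.Agent.Y692.QS (Ei w nr toC)
open Pool.Agent.Y703.CT (Dt pD chD)
open Pool.Agent.Y715.T.Rec (cs)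

/-- the exponent of the symbol of `ω` modulo `α`, for `α` prime to three:
`(ω / α)_3 = ω ^ ((nr α - 1) / 3)` -/
def nq (α : Ei) : ZMod 3 := (((nr α - 1) / 3 : ℤ) : ZMod 3)

/-- the kernel of the Laplacian with the additional index `ω` is trivial; `(v j)_j` are the values at
the primes, `0` is the value at `ω` -/
def KerB {J : Type} [Fintype J] (π : J → Ei) (e : J → ZMod 3) (i : ZMod 3) : Prop :=
  ∀ v : J → ZMod 3, (∀ j, ∑ k, e k * cs (π j) (π k) * (v k - v j) = i * nq (π j) * v j) →
    ∀ j, v j = 0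

/-- `F` is the entire continuation of the `L`-series of the Hecke character
`(α) ↦ α ∏ (α / π_j)^(e_j) (ω / α)^i`, `α` primary -/
def IsHLB {J : Type} [Fintype J] (π : J → Ei) (e : J → ZMod 3) (i : ZMod 3) (F : ℂ → ℂ) : Prop :=
  Differentiable ℂ F ∧ ∀ s : ℂ, 3 / 2 < s.re →
    HasSum (fun α : {α : Ei // (3 : Ei) ∣ α - 1} =>
      toC α * (chD π e α * toC w ^ (i * nq α).val) * ((nr α : ℤ) : ℂ) ^ (-s)) (F s)

/-- the element `ω ^ i ∏ π_j ^ (e j)` -/
def pB {J : Type} [Fintype J] (π : J → Ei) (e : J → ZMod 3) (i : ZMod 3) : Ei :=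
  w ^ i.val * pD π e

end Pool.Agent.N883.FF
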