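import Pool.Agent.N883.FF.StmE
import Pool.Agent.Y350.CT.REC

/-!
# Project FF: the Laplacian with the additional index `ω` (`S_DNE`, `S_DRE`)

By helper279.
-/

set_option autoImplicit false
set_option linter.unusedVariables false

open scoped Classical

namespace Pool.Agent.N883.FF

open Pool.Agent.Y692.QS (Ei w nr toC)
open Pool.Agent.Y703.CT (Dt pD chD)
open Pool.Agent.Y715.T.Rec (cs)

namespace Dne

variable {J : Type} [Fintype J] {π : J → Ei} {e : J → ZMod 3} {i : ZMod 3}

lemma csr (h : Dt π e) {a b : J} (hab : a ≠ b) : cs (π b) (π a) = cs (π a) (π b) :=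
  Pool.Agent.Y350.CT.rec (π a) (π b) (h.pq a) (h.pq b) (h.nd a b hab)

lemma full : (insert none ((Finset.univ : Finset J).image some) : Finset (Option J)) =
    Finset.univ := by
  ext x
  cases x <;> simp

lemma sum_option (f : Option J → ZMod 3) : ∑ x, f x = f none + ∑ j, f (some j) := by
  rw [Fintype.sum_option]

end Dne

open Dne in
/-- **The combinatorial part.** -/
theorem dne : S_DNE := by
  intro J _ π e i h hk
  unfold DB
  rw [full]
  refine Pool.Agent.Y715.T.Comb.D_ne (ε := fun x => x.elim 1 (fun k => -e k))
    ⟨none, Finset.mem_univ _⟩ ?_ ?_ ?_ ?_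
  · rintro (_ | k) _
    · exact one_ne_zero
    · exact neg_ne_zero.2 (h.e0 k)
  · rintro (_ | a) _ (_ | b) _ hab
    · exact absurd rfl hab
    · simp [aB]
    · simp [aB]
    · have hab' : a ≠ b := fun h' => hab (by rw [h'])
      simp only [aB, Option.elim]
      rw [csr h hab']
      ring
  · intro v hv
    have hrow : ∀ a : J, ∑ b, e b * cs (π b) (π a) * (v (some a) - v (some b)) +
        i * nq (π a) * (v (some a) - v none) = 0 := by
      intro a
      have h1 := hv (some a) (Finset.mem_univ _)
      rw [Fintype.sum_option] at h1
      simp only [aB] at h1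
      rw [← h1, add_comm]
      congr 1
      refine Finset.sum_congr rfl fun b _ => ?_
      ring
    have hu := hk (fun b => v (some b) - v none) (by
      intro a
      have h1 := hrow a
      have h2 : ∑ k, e k * cs (π a) (π k) * (v (some k) - v none - (v (some a) - v none)) =
          - ∑ b, e b * cs (π b) (π a) * (v (some a) - v (some b)) := by
        rw [← Finset.sum_neg_distrib]
        refine Finset.sum_congr rfl fun k _ => ?_
        by_cases hka : k = a
        · subst hka; ring
        · rw [csr h (a := a) (b := k) (Ne.symm hka)]
          ring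
      rw [h2]
      linear_combination -h1)
    have hall : ∀ x, v x = v none := by
      rintro (_ | k)
      · rfl
      · exact sub_eq_zero.1 (hu k)
    intro x _ y _
    rw [hall x, hall y]
  · rw [Fintype.sum_option]
    simp [bB]

open Dne in
/-- **The recursion.** -/
theorem dre : S_DRE := by
  intro J _ π e i
  refine ⟨?_, ?_⟩
  · unfold DB
    have h0 : (insert none ((∅ : Finset J).image some) : Finset (Option J)) = {none} := by
      simp
    rw [h0, Pool.Agent.Y715.T.Comb.D_one]
    rfl
  · intro S hS
    have hnone : ∀ T : Finset J, none ∉ T.image (some : J → Option J) := by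
      intro T h; simp at h
    have hinj : Function.Injective (some : J → Option J) := Option.some_injective J
    have hcard : ∀ T : Finset J, (insert none (T.image some) : Finset (Option J)).card =
        T.card + 1 := by
      intro T
      rw [Finset.card_insert_of_notMem (hnone T), Finset.card_image_of_injective _ hinj]
    have h1 := Pool.Agent.Y715.T.Comb.D_rec (aB π e i) bB (insert none (S.image some)) (by
      rw [hcard]
      have := hS.card_pos
      omega)
    rw [Finset.sum_powerset_insert (hnone S)] at h1
    have h2 : ∑ t ∈ (S.image some).powerset, (-1 : ZMod 3) ^ t.card *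
        (Pool.Agent.Y715.T.Comb.D (aB π e i) bB t *
          ∏ x ∈ insert none (S.image some) \ t, ∑ y ∈ t, aB π e i x y) = 0 := by
      refine Finset.sum_eq_zero fun t ht => ?_
      have h3 : Pool.Agent.Y715.T.Comb.D (aB π e i) bB t = 0 := by
        unfold Pool.Agent.Y715.T.Comb.D
        refine Finset.sum_eq_zero fun r hr => ?_
        have h4 := Finset.mem_powerset.1 ht hr
        rw [Finset.mem_image] at h4
        obtain ⟨k, _, rfl⟩ := h4
        simp [bB]
      rw [h3, zero_mul, mul_zero]
    rw [h2, zero_add] at h1
    have h5 : ∑ T ∈ S.powerset, (-1) ^ T.card * (DB π e i T *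
        ∏ k ∈ S \ T, (i * nq (π k) + ∑ l ∈ T, -(e l * cs (π l) (π k)))) =
        - ∑ t ∈ (S.image some).powerset, (-1 : ZMod 3) ^ (insert none t : Finset (Option J)).card *
        (Pool.Agent.Y715.T.Comb.D (aB π e i) bB (insert none t) *
          ∏ x ∈ insert none (S.image some) \ insert none t, ∑ y ∈ insert none t, aB π e i x y) := by
      rw [← Finset.sum_neg_distrib]
      refine Finset.sum_nbij (fun T => T.image some) ?_ ?_ ?_ ?_
      · intro T hT
        rw [Finset.mem_powerset] at hT ⊢
        exact Finset.image_subset_image hT
      · intro T _ T' _ hTT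
        exact Finset.image_injective hinj hTT
      · intro t ht
        rw [Finset.mem_coe, Finset.mem_powerset] at ht
        obtain ⟨T, hT, rfl⟩ := Finset.subset_image_iff.1 ht
        exact ⟨T, by simpa using hT, rfl⟩
      · intro T hT
        rw [hcard]
        have h6 : insert none (S.image some) \ insert none (T.image some) =
            (S \ T).image (some : J → Option J) := by
          ext x
          cases x with
          | none => simp
          | some a => simp
        rw [h6, Finset.prod_image (fun x _ y _ hxy => hinj hxy)]
        have h7 : ∀ k ∈ S \ T, ∑ y ∈ insert none (T.image some), aB π e i (some k) y =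
            i * nq (π k) + ∑ l ∈ T, -(e l * cs (π l) (π k)) := by
          intro k _
          rw [Finset.sum_insert (hnone T), Finset.sum_image (fun x _ y _ hxy => hinj hxy)]
          rfl
        rw [Finset.prod_congr rfl h7]
        unfold DB
        ring
    rw [h5, h1, neg_zero]

end Pool.Agent.N883.FF
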