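import Pool.Agent.N883.FF.StmF
import Pool.Agent.Y655.CTE.Ram

/-!
# Project FF, subtask 2723: total ramification above three for `D = ω ^ i D₁`, `i ≠ 0` (helper157)
-/

set_option autoImplicit false

namespace Pool.Agent.N883.FF

open NumberField IsDedekindDomain WithZero
open Pool.Agent.Y692.QS (Ei w nr mul_re mul_im)
open Pool.Agent.Y696.CTE (Cub)
open Pool.Agent.Y655.CTE (lam_dvd lam_prime lam_ne below_val below_le cube_exp)

namespace E6

/-- decomposition modulo the prime above three -/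
theorem decomp {D : Ei} (hlam : ¬ Pool.Agent.Y655.CTE.lam ∣ D) (h1 : ¬ (3 : Ei) ∣ D - 1)
    (h2 : ¬ (3 : Ei) ∣ D + 1) :
    ∃ d m : Ei, d ^ 2 = 1 ∧ D = d + Pool.Agent.Y655.CTE.lam * m ∧
      ¬ Pool.Agent.Y655.CTE.lam ∣ m := by
  have hll : Pool.Agent.Y655.CTE.lam * Pool.Agent.Y655.CTE.lam = -3 := Pool.Agent.Y655.CTE.lam_sq
  rw [lam_dvd] at hlam
  have h3 : (3 : ℤ) ∣ (D.re + D.im - 1) ∨ (3 : ℤ) ∣ (D.re + D.im + 1) := by omega
  rcases h3 with h3 | h3
  · have h4 : Pool.Agent.Y655.CTE.lam ∣ D - 1 := by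
      rw [lam_dvd]
      have e : (D - 1).re + (D - 1).im = D.re + D.im - 1 := by
        rw [QuadraticAlgebra.re_sub, QuadraticAlgebra.im_sub, QuadraticAlgebra.re_one,
          QuadraticAlgebra.im_one]
        ring
      rw [e]
      exact h3
    obtain ⟨m, hm⟩ := h4
    refine ⟨1, m, one_pow 2, by rw [← hm]; ring, ?_⟩
    rintro ⟨c, rfl⟩
    apply h1
    refine ⟨-c, ?_⟩
    rw [hm, ← mul_assoc, hll]
    ring
  · have h4 : Pool.Agent.Y655.CTE.lam ∣ D + 1 := by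
      rw [lam_dvd]
      have e : (D + 1).re + (D + 1).im = D.re + D.im + 1 := by
        rw [QuadraticAlgebra.re_add, QuadraticAlgebra.im_add, QuadraticAlgebra.re_one,
          QuadraticAlgebra.im_one]
        ring
      rw [e]
      exact h3
    obtain ⟨m, hm⟩ := h4
    refine ⟨-1, m, by ring, by rw [← hm]; ring, ?_⟩
    rintro ⟨c, rfl⟩
    apply h2
    refine ⟨-c, ?_⟩
    rw [hm, ← mul_assoc, hll]
    ring

/-- the ramification index of the primes above three -/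
theorem main (K F : Type) [Field K] [NumberField K] [Field F] [NumberField F]
    [Algebra K F] (j : Ei ≃+* 𝓞 K) (D : Ei) (θ : 𝓞 F) (hC : Cub j D θ)
    (hlam : ¬ Pool.Agent.Y655.CTE.lam ∣ D) (h1 : ¬ (3 : Ei) ∣ D - 1) (h2 : ¬ (3 : Ei) ∣ D + 1)
    (v : HeightOneSpectrum (𝓞 F)) (hv : (3 : 𝓞 F) ∈ v.asIdeal) :
    v.valuation F 3 = exp (-6 : ℤ) := by
  obtain ⟨d, m, hd, hD, hm0⟩ := decomp hlam h1 h2
  rw [lam_dvd] at hm0
  have hdvd : Pool.Agent.Y655.CTE.lam ∣ m ^ 2 - 1 := by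
    rw [lam_dvd]
    have h1 : (m ^ 2 - 1).re + (m ^ 2 - 1).im =
        (m.re + m.im - 1) * (m.re + m.im + 1) - 3 * m.im ^ 2 := by
      rw [pow_two, QuadraticAlgebra.re_sub, QuadraticAlgebra.im_sub, mul_re, mul_im,
        QuadraticAlgebra.re_one, QuadraticAlgebra.im_one]
      ring
    rw [h1]
    refine dvd_sub ?_ ⟨_, rfl⟩
    have h2 : (3 : ℤ) ∣ (m.re + m.im - 1) ∨ (3 : ℤ) ∣ (m.re + m.im + 1) := by omega
    rcases h2 with h2 | h2
    · exact h2.mul_right _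
    · exact h2.mul_left _
  obtain ⟨q, hq⟩ := hdvd
  set R1 := algebraMap (𝓞 K) (𝓞 F) with hR1
  have hLsq : R1 (j Pool.Agent.Y655.CTE.lam) * R1 (j Pool.Agent.Y655.CTE.lam) = -3 := by
    rw [← map_mul, ← map_mul, Pool.Agent.Y655.CTE.lam_sq, map_neg, map_neg, map_ofNat, map_ofNat]
  have hLv : R1 (j Pool.Agent.Y655.CTE.lam) ∈ v.asIdeal := by
    have h1 : R1 (j Pool.Agent.Y655.CTE.lam) * R1 (j Pool.Agent.Y655.CTE.lam) ∈ v.asIdeal := by
      rw [hLsq]
      exact neg_mem hv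
    rcases v.isPrime.mem_or_mem h1 with h | h <;> exact h
  have hmv : R1 (j m) ∉ v.asIdeal := by
    intro h
    have h1 : R1 (j m) ^ 2 - 1 ∈ v.asIdeal := by
      have : R1 (j m) ^ 2 - 1 = R1 (j Pool.Agent.Y655.CTE.lam) * R1 (j q) := by
        rw [← map_mul, ← map_mul, ← hq, map_sub, map_sub, map_pow, map_pow, map_one, map_one]
      rw [this]
      exact Ideal.mul_mem_right _ _ hLv
    have h2 : (1 : 𝓞 F) ∈ v.asIdeal := by
      have : (1 : 𝓞 F) = R1 (j m) * R1 (j m) - (R1 (j m) ^ 2 - 1) := by ring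
      rw [this]
      exact sub_mem (Ideal.mul_mem_right _ _ h) h1
    exact v.isPrime.ne_top ((Ideal.eq_top_iff_one _).2 h2)
  -- the prime below
  have hjp : Prime (j Pool.Agent.Y655.CTE.lam) := (MulEquiv.prime_iff j.toMulEquiv).2 lam_prime
  let P : HeightOneSpectrum (𝓞 K) := ⟨Ideal.span {j Pool.Agent.Y655.CTE.lam},
    (Ideal.span_singleton_prime hjp.ne_zero).2 hjp,
    by rw [Ne, Ideal.span_singleton_eq_bot]; exact hjp.ne_zero⟩
  have hlies : v.asIdeal.LiesOver P.asIdeal := by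
    constructor
    refine P.isMaximal.eq_of_le ?_ ?_
    · exact Ideal.comap_ne_top _ v.isPrime.ne_top
    · show Ideal.span {j Pool.Agent.Y655.CTE.lam} ≤ _
      rw [Ideal.span_singleton_le_iff_mem]
      exact hLv
  have hPval : P.intValuation (j Pool.Agent.Y655.CTE.lam) = exp (-1 : ℤ) :=
    P.intValuation_singleton hjp.ne_zero rfl
  obtain ⟨e, he⟩ : ∃ e, e = P.asIdeal.ramificationIdx' v.asIdeal := ⟨_, rfl⟩
  have hval : v.intValuation (R1 (j Pool.Agent.Y655.CTE.lam)) = exp (-(e : ℤ)) := by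
    rw [he]
    exact below_val P v (j Pool.Agent.Y655.CTE.lam) hPval
  have he3 : e ≤ 3 := by
    rw [he]
    exact below_le hC.deg P v
  have h3val : v.intValuation (3 : 𝓞 F) = exp (-(2 * e : ℤ)) := by
    have h1 : v.intValuation (-3 : 𝓞 F) = exp (-(2 * e : ℤ)) := by
      rw [← hLsq, map_mul, hval, ← exp_add]
      congr 1
      ring
    rwa [Valuation.map_neg] at h1
  have he0 : 0 < e := by
    by_contra hc
    have h0 : e = 0 := by omega
    have h1 := (v.intValuation_lt_one_iff_mem _).2 hLv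
    rw [hval, h0] at h1
    simp at h1
  -- the element
  obtain ⟨δ, hδ⟩ : ∃ δ : 𝓞 F, δ = R1 (j d) := ⟨_, rfl⟩
  have hδ2 : δ ^ 2 = 1 := by rw [hδ, ← map_pow, ← map_pow, hd, map_one, map_one]
  obtain ⟨t, ht⟩ : ∃ t : 𝓞 F, t = θ - δ := ⟨_, rfl⟩
  have hrel : t ^ 3 = R1 (j Pool.Agent.Y655.CTE.lam) * R1 (j m) - 3 * (δ * θ ^ 2 - θ) := by
    have h1 : θ ^ 3 = δ + R1 (j Pool.Agent.Y655.CTE.lam) * R1 (j m) := by
      rw [hC.cube, ← hR1, hD, map_add, map_add, map_mul, map_mul, hδ]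
    have h2 : t ^ 3 = θ ^ 3 - 3 * δ * θ ^ 2 + 3 * δ ^ 2 * θ - δ ^ 2 * δ := by rw [ht]; ring
    rw [h2, h1, hδ2]
    ring
  have hm1 : v.intValuation (R1 (j m)) = 1 := HeightOneSpectrum.intValuation_eq_one_iff.2 hmv
  have hlt : v.intValuation (3 * (δ * θ ^ 2 - θ)) <
      v.intValuation (R1 (j Pool.Agent.Y655.CTE.lam) * R1 (j m)) := by
    rw [map_mul, map_mul, hm1, mul_one, h3val, hval]
    calc exp (-(2 * e : ℤ)) * v.intValuation (δ * θ ^ 2 - θ)
        ≤ exp (-(2 * e : ℤ)) * 1 := mul_le_mul_right (v.intValuation_le_one _) _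
      _ = exp (-(2 * e : ℤ)) := mul_one _
      _ < exp (-(e : ℤ)) := by
          rw [exp_lt_exp]
          omega
  have hcube : v.intValuation t ^ 3 = exp (-(e : ℤ)) := by
    rw [← map_pow, hrel, Valuation.map_sub_eq_of_lt_left _ hlt, map_mul, hm1, mul_one, hval]
  have hd3 := cube_exp hcube
  have he : e = 3 := by omega
  have h4 : v.valuation F (3 : F) = v.intValuation (3 : 𝓞 F) := by
    have h5 : algebraMap (𝓞 F) F 3 = 3 := map_ofNat _ 3
    have h6 := HeightOneSpectrum.valuation_of_algebraMap (K := F) v (3 : 𝓞 F)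
    rw [← h6]
    exact congrArg (v.valuation F) h5.symm
  rw [h4, h3val, he]
  norm_num

end E6

/-- FF-E6 -/
theorem e6B : S_E6B := by
  intro K F _ _ _ _ _ j D θ hC hlam h1 h2 v hv
  exact E6.main K F j D θ hC hlam h1 h2 v hv

end Pool.Agent.N883.FF
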