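import Pool.Agent.N883.FF.StmX

/-!
# Project FF, part GF (helper545): limits of the regularized Eisenstein sums modulo `3 √-3`
-/

set_option autoImplicit false
set_option linter.unusedSectionVars false

open Filter
open scoped Topology PeriodPair

namespace Pool.Agent.N883.FF

namespace Gf

open H667R3
open Pool.Agent.Y692.QS (Ei w nr toC)
open Pool.Agent.Y703.CT.Ana (ej ej_u ej_prim ej_ncop eo_j)
open Pool.Agent.W192.HK (sp)
open Pool.Agent.TH936.CM Pool.Agent.TH936.PU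
open Pool.Agent.Y715.Dist Pool.Agent.Y715.Idn Pool.Agent.Y696
open Pool.Agent.Y715.T.Rs (eq0)
open Pool.Agent.Y715.T.Lat
open Pool.Agent.Y715.T.Three (lam lam_sq lam_ne')

variable {L : PeriodPair} {Ω : ℂ}

lemma w_om : toC w = om := by
  rw [Pool.Agent.Y715.T.Rs.toC_eq]
  simp [w]

lemma fB_coe : ((fB : eis) : ℂ) = 3 * lam := by
  unfold fB
  push_cast
  rw [la_coe]
  rfl

lemma la_ne : (la : eis) ≠ 0 := by
  intro h
  have h1 := la_sq
  rw [h, zero_mul] at h1
  have h2 : (3 : eis) = 0 := by linear_combination h1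
  exact three_ne h2

lemma fB_ne : (fB : eis) ≠ 0 := mul_ne_zero three_ne la_ne

lemma elam : lam = om - om ^ 2 := by
  rw [← la_coe, la_eq]
  push_cast
  rw [omr_coe]

/-! ### the point `Ω / √-3` -/

lemma T_eq : Ω / lam = -(lam * (Ω / 3)) := by
  have h := lam_ne'
  have h2 := lam_sq
  rw [div_eq_iff h]
  linear_combination (Ω / 3) * h2

lemma T_not (hC : Cur L Ω) : Ω / lam ∉ L.lattice := by
  rw [T_eq, neg_mem_iff, hC.mem_third (r := la) (by rw [la_coe]; ring)]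
  unfold la
  rw [mem_three]
  norm_num

lemma EE_T (hC : Cur L Ω) (δ : ℝ) : EE eis Ω δ (Ω / lam) = 0 := by
  have h1 : ((omr : eis) : ℂ) * (Ω / lam) - Ω / lam ∈ L.lattice := by
    refine (hC.lat.mem _).2 ⟨-omr ^ 2, ?_⟩
    push_cast
    rw [omr_coe]
    have h := lam_ne'
    have h4 := elam
    have h3 := om_cube
    field_simp
    rw [h4]
    linear_combination (Ω * (1 - om)) * h3
  have h2 := EE_per hC.lat δ h1
  rw [EE_unit omr_unit, omr_coe] at h2
  have h3 : (om⁻¹ - 1) * EE eis Ω δ (Ω / lam) = 0 := by linear_combination h2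
  refine (mul_eq_zero.1 h3).resolve_left fun h4 => ?_
  have h5 : om⁻¹ = 1 := by linear_combination h4
  have h7 : om = 1 := by
    have := congrArg (fun t : ℂ => t⁻¹) h5
    simpa using this
  have h6 := congrArg Complex.im h7
  simp at h6
  exact om_im.ne' h6

lemma wp_T (hC : Cur L Ω) : ℘[L] (Ω / lam) = 0 := by
  rw [T_eq, L.weierstrassP_neg]
  exact wp_la_third hC

lemma dwp_T (hC : Cur L Ω) : ℘'[L] (Ω / lam) ^ 2 = 1 := by
  rw [hC.ode (T_not hC), wp_T hC]
  norm_num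

/-- **the key limit** -/
theorem key (hC : Cur L Ω) {a b : ℂ} (hab : a + b = -1) {z : ℂ} (h0 : z ∉ L.lattice)
    (h1 : z + Ω / lam ∉ L.lattice) (h2 : z - Ω / lam ∉ L.lattice) :
    Tendsto (fun δ : ℝ => EE eis Ω δ z + b * EE eis Ω δ (z + Ω / lam) +
      a * EE eis Ω δ (z - Ω / lam)) (𝓝[>] 0)
      (𝓝 (gB L ((a - b) * ℘'[L] (Ω / lam)) z)) := by
  have hT := T_not hC
  have hA := lim_Dd hC.lat h0 hT h1 h2
  have hB := lim_Dd hC.lat hT h0 (by rwa [add_comm]) (by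
    rw [← neg_mem_iff, neg_sub]
    exact h2)
  have hz : ℘[L] z ≠ 0 := by
    have := wp_sub_ne h0 hT h1 h2
    rwa [wp_T hC, sub_zero] at this
  have h3 := (hA.const_mul (-(1 / 2 : ℂ))).add (hB.const_mul ((b - a) / 2))
  have e1 : -(1 / 2 : ℂ) * Dd L z (Ω / lam) + (b - a) / 2 * Dd L (Ω / lam) z =
      gB L ((a - b) * ℘'[L] (Ω / lam)) z := by
    unfold Dd gB
    rw [wp_T hC]
    field_simp
    ring
  rw [e1] at h3
  refine h3.congr fun δ => ?_
  have e2 : EE eis Ω δ (Ω / lam - z) = -EE eis Ω δ (z - Ω / lam) := by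
    rw [← EE_neg, neg_sub]
  rw [EE_T hC, e2, add_comm (Ω / lam) z]
  linear_combination (-(1 / 2 : ℂ) * (EE eis Ω δ (z + Ω / lam) + EE eis Ω δ (z - Ω / lam))) * hab

/-! ### sums modulo `3 √-3` -/

lemma la_mem_int (k : ℤ) : (k : eis) ∈ (sp la : Ideal eis) ↔ 3 ∣ k := by
  rw [Ideal.mem_span_singleton']
  constructor
  · rintro ⟨s, hs⟩
    obtain ⟨x, y, rfl⟩ := ez_ex s
    unfold la at hs
    rw [ez_mul, ← ez_int] at hs
    obtain ⟨h1, h2⟩ := ez_inj hs
    omega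
  · rintro ⟨m, rfl⟩
    refine ⟨-(la * (m : eis)), ?_⟩
    push_cast
    linear_combination (-(m : eis)) * la_sq

lemma la_cls (t : eis) : ∃ k ∈ ({0, 1, -1} : Finset ℤ), t - (k : eis) ∈ (sp la : Ideal eis) := by
  obtain ⟨x, y, rfl⟩ := ez_ex t
  have h1 : ez x y - ((x + y : ℤ) : eis) ∈ (sp la : Ideal eis) := by
    rw [Ideal.mem_span_singleton']
    refine ⟨(y : eis) * (-omr ^ 2), ?_⟩
    rw [la_eq]
    unfold ez
    push_cast
    linear_combination ((y : eis) * (-1 + omr)) * omr_cube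
  obtain ⟨k, hk, m, hm⟩ : ∃ k ∈ ({0, 1, -1} : Finset ℤ), ∃ m : ℤ, x + y - k = 3 * m := by
    have h2 : (x + y) % 3 = 0 ∨ (x + y) % 3 = 1 ∨ (x + y) % 3 = 2 := by omega
    rcases h2 with h2 | h2 | h2
    · exact ⟨0, by simp, (x + y) / 3, by omega⟩
    · exact ⟨1, by simp, (x + y) / 3, by omega⟩
    · exact ⟨-1, by simp, (x + y) / 3 + 1, by omega⟩
  refine ⟨k, hk, ?_⟩
  have h3 : ((x + y - k : ℤ) : eis) ∈ (sp la : Ideal eis) := (la_mem_int _).2 ⟨m, hm⟩
  have h4 := add_mem h1 h3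
  have e : ez x y - ((x + y : ℤ) : eis) + ((x + y - k : ℤ) : eis) = ez x y - (k : eis) := by
    push_cast
    ring
  rwa [e] at h4

lemma fB_mem {x : eis} : 3 * x ∈ (sp fB : Ideal eis) ↔ x ∈ (sp la : Ideal eis) := by
  unfold fB
  rw [Ideal.mem_span_singleton', Ideal.mem_span_singleton']
  constructor
  · rintro ⟨s, hs⟩
    refine ⟨s, mul_left_cancel₀ three_ne ?_⟩
    linear_combination hs
  · rintro ⟨s, hs⟩
    exact ⟨s, by linear_combination 3 * hs⟩

lemma fB_three {x : eis} (h : x ∈ (sp fB : Ideal eis)) : x ∈ (sp 3 : Ideal eis) := by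
  unfold fB at h
  rw [Ideal.mem_span_singleton'] at h ⊢
  obtain ⟨s, hs⟩ := h
  exact ⟨s * la, by linear_combination hs⟩

/-- the eighteen classes -/
lemma sum18 (F : eis → ℂ) (hF0 : ∀ x, ¬ IsCoprime x 3 → F x = 0)
    (hper : ∀ x y : eis, x - y ∈ (sp fB : Ideal eis) → F x = F y)
    [Fintype (eis ⧸ (sp fB : Ideal eis))] (G : eis → ℂ)
    (hG : ∀ u : eis, IsUnit u → F (u * (1 + 3 * ((0 : ℤ) : eis))) +
      (F (u * (1 + 3 * ((1 : ℤ) : eis))) + F (u * (1 + 3 * ((-1 : ℤ) : eis)))) = G u) :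
    ∑ y : eis ⧸ (sp fB : Ideal eis), F y.out =
      G 1 + G (-1) + G omr + G (-omr) + G (omr ^ 2) + G (-omr ^ 2) := by
  classical
  set U : Finset eis := {1, -1, omr, -omr, omr ^ 2, -omr ^ 2} with hU
  set KK : Finset ℤ := {0, 1, -1} with hKK
  have hUu : ∀ u ∈ U, IsUnit u := by
    intro u hu
    rw [unit_list]
    simpa [hU] using hu
  have hinj : ∀ x y a b : ℤ, (x : ℂ) + y * om = a + b * om → x = a ∧ y = b := by
    intro x y a b h
    have h1 := congrArg Complex.im h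
    simp at h1
    have h2 : y = b := by
      rcases h1 with h1 | h1
      · exact h1
      · exact absurd h1 om_im.ne'
    subst h2
    have h3 : (x : ℂ) = a := add_right_cancel h
    exact ⟨by exact_mod_cast h3, rfl⟩
  have e1 : ((1 : eis) : ℂ) = ((1 : ℤ) : ℂ) + ((0 : ℤ) : ℂ) * om := by push_cast; ring
  have e2 : ((-1 : eis) : ℂ) = ((-1 : ℤ) : ℂ) + ((0 : ℤ) : ℂ) * om := by push_cast; ring
  have e3 : ((omr : eis) : ℂ) = ((0 : ℤ) : ℂ) + ((1 : ℤ) : ℂ) * om := by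
    push_cast [omr_coe]; ring
  have e4 : ((-omr : eis) : ℂ) = ((0 : ℤ) : ℂ) + ((-1 : ℤ) : ℂ) * om := by
    push_cast [omr_coe]; ring
  have e5 : ((omr ^ 2 : eis) : ℂ) = ((-1 : ℤ) : ℂ) + ((-1 : ℤ) : ℂ) * om := by
    push_cast [omr_coe]; linear_combination om_sq
  have e6 : ((-omr ^ 2 : eis) : ℂ) = ((1 : ℤ) : ℂ) + ((1 : ℤ) : ℂ) * om := by
    push_cast [omr_coe]; linear_combination -om_sq
  have hd : ∀ {s t : eis} {x y a b : ℤ}, (s : ℂ) = (x : ℂ) + y * om → (t : ℂ) = (a : ℂ) + b * om →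
      ¬ (x = a ∧ y = b) → s ≠ t := by
    intro s t x y a b hs ht h hst
    apply h
    apply hinj
    rw [← hs, ← ht, hst]
  have hsum : ∑ u ∈ U, G u = G 1 + G (-1) + G omr + G (-omr) + G (omr ^ 2) + G (-omr ^ 2) := by
    rw [hU, Finset.sum_insert, Finset.sum_insert, Finset.sum_insert, Finset.sum_insert,
      Finset.sum_insert, Finset.sum_singleton]
    · ring
    all_goals
      simp only [Finset.mem_insert, Finset.mem_singleton, not_or]
    · exact hd e5 e6 (by norm_num)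
    · exact ⟨hd e4 e5 (by norm_num), hd e4 e6 (by norm_num)⟩
    · exact ⟨hd e3 e4 (by norm_num), hd e3 e5 (by norm_num), hd e3 e6 (by norm_num)⟩
    · exact ⟨hd e2 e3 (by norm_num), hd e2 e4 (by norm_num), hd e2 e5 (by norm_num),
        hd e2 e6 (by norm_num)⟩
    · exact ⟨hd e1 e2 (by norm_num), hd e1 e3 (by norm_num), hd e1 e4 (by norm_num),
        hd e1 e5 (by norm_num), hd e1 e6 (by norm_num)⟩
  rw [← hsum]
  set g : eis × ℤ → eis ⧸ (sp fB : Ideal eis) :=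
    fun p => Ideal.Quotient.mk _ (p.1 * (1 + 3 * (p.2 : eis))) with hg
  have hginj : Set.InjOn g (U ×ˢ KK : Finset (eis × ℤ)) := by
    rintro ⟨u, k⟩ hu ⟨v, m⟩ hv huv
    simp only [Finset.coe_product, Set.mem_prod, Finset.mem_coe] at hu hv
    have h1 : u * (1 + 3 * (k : eis)) - v * (1 + 3 * (m : eis)) ∈ (sp fB : Ideal eis) := by
      rw [← Ideal.Quotient.mk_eq_mk_iff_sub_mem]
      exact huv
    have h2 : u - v ∈ (sp 3 : Ideal eis) := by
      have h3 := fB_three h1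
      have h4 : 3 * (v * (m : eis) - u * (k : eis)) ∈ (sp 3 : Ideal eis) :=
        Ideal.mul_mem_right _ _ (Ideal.mem_span_singleton_self 3)
      have h5 := add_mem h3 h4
      have e : u * (1 + 3 * (k : eis)) - v * (1 + 3 * (m : eis)) +
          3 * (v * (m : eis) - u * (k : eis)) = u - v := by ring
      rwa [e] at h5
    have h3 := unit_mod (hUu u hu.1) (hUu v hv.1) h2
    subst h3
    have h4 : 3 * (u * ((k - m : ℤ) : eis)) ∈ (sp fB : Ideal eis) := by
      have e : 3 * (u * ((k - m : ℤ) : eis)) =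
          u * (1 + 3 * (k : eis)) - u * (1 + 3 * (m : eis)) := by
        push_cast
        ring
      rw [e]
      exact h1
    rw [fB_mem] at h4
    obtain ⟨u', hu'⟩ := (hUu u hu.1).exists_left_inv
    have h5 : ((k - m : ℤ) : eis) ∈ (sp la : Ideal eis) := by
      have h6 := Ideal.mul_mem_left _ u' h4
      rwa [← mul_assoc, hu', one_mul] at h6
    rw [la_mem_int] at h5
    have h6 : k = m := by
      have h7 := hu.2
      have h8 := hv.2
      simp only [hKK, Finset.mem_insert, Finset.mem_singleton] at h7 h8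
      omega
    rw [h6]
  have h1 : ∑ u ∈ U, G u = ∑ y ∈ (U ×ˢ KK).image g, F y.out := by
    rw [Finset.sum_image hginj, Finset.sum_product]
    refine Finset.sum_congr rfl fun u hu => ?_
    rw [← hG u (hUu u hu), hKK, Finset.sum_insert (by simp), Finset.sum_insert (by simp),
      Finset.sum_singleton]
    have hout : ∀ k : ℤ, F (u * (1 + 3 * (k : eis))) = F (g (u, k)).out := fun k =>
      hper _ _ (out_mk (sp fB) (u * (1 + 3 * (k : eis))))
    rw [← hout, ← hout, ← hout]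
  rw [h1]
  symm
  refine Finset.sum_subset (Finset.subset_univ _) fun y _ hy => hF0 _ ?_
  intro hcop
  obtain ⟨u, hu, hu'⟩ := cop_three hcop
  apply hy
  rw [Ideal.mem_span_singleton'] at hu'
  obtain ⟨t, ht⟩ := hu'
  obtain ⟨u', hu''⟩ := hu.exists_right_inv
  obtain ⟨k, hk, hk'⟩ := la_cls (t * u')
  rw [Finset.mem_image]
  refine ⟨(u, k), ?_, ?_⟩
  · rw [Finset.mem_product]
    refine ⟨?_, hk⟩
    rw [unit_list] at hu
    simpa [hU] using hu
  · rw [hg]
    simp only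
    rw [← Ideal.Quotient.mk_out y, eq_comm, Ideal.Quotient.mk_eq_mk_iff_sub_mem]
    have h2 : 3 * (u * (t * u' - (k : eis))) ∈ (sp fB : Ideal eis) :=
      fB_mem.2 (Ideal.mul_mem_left _ _ hk')
    have e : 3 * (u * (t * u' - (k : eis))) = y.out - u * (1 + 3 * (k : eis)) := by
      linear_combination ht + 3 * t * hu''
    rwa [e] at h2

/-! ### the sums -/

lemma cop_u {u : eis} (hu : IsUnit u) : IsCoprime u 3 := cop_of_unit hu (by simp)

lemma one_mem (k : ℤ) : (1 + 3 * (k : eis)) - 1 ∈ (sp 3 : Ideal eis) := by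
  rw [add_sub_cancel_left]
  exact Ideal.mul_mem_right _ _ (Ideal.mem_span_singleton_self 3)

lemma cop_k (k : ℤ) : IsCoprime (1 + 3 * (k : eis)) 3 := cop_of_unit isUnit_one (one_mem k)

lemma not_fB (k : ℤ) : (1 + 3 * (k : eis)) ∉ (sp fB : Ideal eis) := by
  intro h
  have h1 := fB_three h
  have h2 := sub_mem h1 (one_mem k)
  rw [sub_sub_cancel] at h2
  have h3 : IsCoprime (0 : eis) 3 := by
    refine cop_of_unit isUnit_one ?_
    rw [zero_sub]
    exact neg_mem h2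
  rw [isCoprime_zero_left, isUnit_iff'] at h3
  have : Complex.normSq ((3 : eis) : ℂ) = 9 := normSq_three
  rw [this] at h3
  norm_num at h3

lemma pt (k : ℤ) : Ω * ((1 + 3 * (k : eis) : eis) : ℂ) / ((fB : eis) : ℂ) =
    Ω / (3 * lam) + k * (Ω / lam) := by
  rw [fB_coe]
  have h := lam_ne'
  push_cast
  have e3 : ((3 : eis) : ℂ) = 3 := rfl
  rw [e3]
  field_simp

lemma eB_val (h : S_CHI) (i : ZMod 3) (j : Fin 3) {u : eis} (hu : IsUnit u) (k : ℤ) :
    eB i j (u * (1 + 3 * (k : eis))) =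
      (u : ℂ) ^ (2 * (j : ℕ) + 1) * om ^ (-(i * (k : ZMod 3))).val := by
  obtain ⟨_, h2, h3, _, _, h6⟩ := h i
  unfold eB
  rw [(eo_j j).mul, ej_u j hu, ej_prim j (one_mem k), mul_one, h2 _ _ (cop_u hu) (cop_k k),
    h3 u hu, one_mul, h6 k, w_om]

lemma eB_ncop (i : ZMod 3) (j : Fin 3) {x : eis} (hx : ¬ IsCoprime x 3) : eB i j x = 0 := by
  unfold eB
  rw [ej_ncop j hx, zero_mul]

lemma z0 (i : ZMod 3) : om ^ (-(i * ((0 : ℤ) : ZMod 3))).val = 1 := by simp

lemma z1 (i : ZMod 3) : om ^ (-(i * ((1 : ℤ) : ZMod 3))).val = om ^ (-i).val := by simp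

lemma z2 (i : ZMod 3) : om ^ (-(i * ((-1 : ℤ) : ZMod 3))).val = om ^ i.val := by simp

lemma hab {i : ZMod 3} (hi : i ≠ 0) : om ^ i.val + om ^ (-i).val = -1 := by
  have h : i = 1 ∨ i = 2 := by
    revert hi
    revert i
    decide
  rcases h with rfl | rfl
  · have h1 : (1 : ZMod 3).val = 1 := rfl
    have h2 : (-1 : ZMod 3).val = 2 := rfl
    rw [h1, h2]
    linear_combination om_sq
  · have h1 : (2 : ZMod 3).val = 2 := rfl
    have h2 : (-2 : ZMod 3).val = 1 := rfl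
    rw [h1, h2]
    linear_combination om_sq

lemma hab2 {i : ZMod 3} (hi : i ≠ 0) : (om ^ i.val - om ^ (-i).val) ^ 2 = -3 := by
  have h : i = 1 ∨ i = 2 := by
    revert hi
    revert i
    decide
  rcases h with rfl | rfl
  · have h1 : (1 : ZMod 3).val = 1 := rfl
    have h2 : (-1 : ZMod 3).val = 2 := rfl
    rw [h1, h2]
    linear_combination (om ^ 2 - 3 * om + 3) * om_sq
  · have h1 : (2 : ZMod 3).val = 2 := rfl
    have h2 : (-2 : ZMod 3).val = 1 := rfl
    rw [h1, h2]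
    linear_combination (om ^ 2 - 3 * om + 3) * om_sq

lemma dB_eq (i : ZMod 3) : dB L Ω i = (om ^ i.val - om ^ (-i).val) * ℘'[L] (Ω / lam) := by
  unfold dB
  rw [w_om]

lemma pts (hC : Cur L Ω) (k : ℤ) : Ω / (3 * lam) + k * (Ω / lam) ∉ L.lattice := by
  rw [← pt, div_mem_iff hC.lat fB_ne]
  exact not_fB k

lemma per_E (hC : Cur L Ω) {x y : eis} (h : x - y ∈ (sp fB : Ideal eis)) :
    Ω * (x : ℂ) / ((fB : eis) : ℂ) - Ω * (y : ℂ) / ((fB : eis) : ℂ) ∈ L.lattice := by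
  have := (div_mem_iff hC.lat fB_ne (x - y)).2 h
  convert this using 1
  push_cast
  ring

/-- the limits for the three characters -/
theorem lims (hS : S_CHI) (hC : Cur L Ω) {i : ZMod 3} (hi : i ≠ 0)
    [Fintype (eis ⧸ (sp fB : Ideal eis))] (j : Fin 3) :
    Tendsto (fun δ : ℝ => ∑ y : eis ⧸ (sp fB : Ideal eis),
      eB i j y.out * EE eis Ω δ (Ω * y.out / fB)) (𝓝[>] 0) (𝓝 (CB L Ω i j)) := by
  have q0 := pts hC 0
  have q1 := pts hC 1
  have q2 := pts hC (-1)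
  have p0 : Ω / (3 * lam) + ((0 : ℤ) : ℂ) * (Ω / lam) = Ω / (3 * lam) := by push_cast; ring
  have p1 : Ω / (3 * lam) + ((1 : ℤ) : ℂ) * (Ω / lam) = Ω / (3 * lam) + Ω / lam := by
    push_cast; ring
  have p2 : Ω / (3 * lam) + ((-1 : ℤ) : ℂ) * (Ω / lam) = Ω / (3 * lam) - Ω / lam := by
    push_cast; ring
  have hk := key hC (hab hi) (z := Ω / (3 * lam)) (by rwa [p0] at q0) (by rwa [p1] at q1)
    (by rwa [p2] at q2)
  rw [← dB_eq] at hk
  set X : ℝ → ℂ := fun δ => EE eis Ω δ (Ω / (3 * lam)) +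
    om ^ (-i).val * EE eis Ω δ (Ω / (3 * lam) + Ω / lam) +
    om ^ i.val * EE eis Ω δ (Ω / (3 * lam) - Ω / lam) with hX
  have hsum : ∀ δ : ℝ, ∑ y : eis ⧸ (sp fB : Ideal eis),
      eB i j y.out * EE eis Ω δ (Ω * y.out / fB) = (if j = 0 then 6 else 0) * X δ := by
    intro δ
    rw [sum18 (fun y => eB i j y * EE eis Ω δ (Ω * y / fB))
      (fun x hx => by rw [eB_ncop i j hx, zero_mul])
      (fun x y hxy => by
        show eB i j x * EE eis Ω δ (Ω * x / fB) = eB i j y * EE eis Ω δ (Ω * y / fB)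
        rw [((hS i).2.2.2.2.1 j).per x y hxy, EE_per hC.lat δ (per_E hC hxy)])
      (fun u => (u : ℂ) ^ (2 * (j : ℕ)) * X δ) ?_]
    · have h3 := om_cube
      have hs := om_sq
      push_cast
      rw [omr_coe]
      by_cases hj : j = 0
      · subst hj
        rw [if_pos rfl]
        simp only [Fin.val_zero, mul_zero, pow_zero, one_mul]
        ring
      · rw [if_neg hj, zero_mul]
        have hj' : (j : ℕ) = 1 ∨ (j : ℕ) = 2 := by
          have h1 := j.2
          have h2 : (j : ℕ) ≠ 0 := fun h => hj (Fin.ext h)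
          omega
        rcases hj' with h | h
        · rw [h]
          linear_combination (2 * X δ) * hs + (2 * om * X δ) * h3
        · rw [h]
          linear_combination (2 * X δ) * hs + (2 * om * X δ + 2 * X δ * (om ^ 5 + om ^ 2)) * h3
    · intro u hu
      have hu0 : (u : ℂ) ≠ 0 := coe_ne hu.ne_zero
      have hterm : ∀ k : ℤ, eB i j (u * (1 + 3 * (k : eis))) *
          EE eis Ω δ (Ω * ((u * (1 + 3 * (k : eis)) : eis) : ℂ) / fB) =
          (u : ℂ) ^ (2 * (j : ℕ)) * (om ^ (-(i * (k : ZMod 3))).val *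
            EE eis Ω δ (Ω / (3 * lam) + k * (Ω / lam))) := by
        intro k
        have e : Ω * ((u * (1 + 3 * (k : eis)) : eis) : ℂ) / ((fB : eis) : ℂ) =
            u * (Ω / (3 * lam) + k * (Ω / lam)) := by
          rw [← pt]
          push_cast
          ring
        rw [e, EE_unit hu, eB_val hS i j hu k, pow_succ]
        field_simp
      show eB i j (u * (1 + 3 * ((0 : ℤ) : eis))) *
          EE eis Ω δ (Ω * ((u * (1 + 3 * ((0 : ℤ) : eis)) : eis) : ℂ) / fB) +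
        (eB i j (u * (1 + 3 * ((1 : ℤ) : eis))) *
          EE eis Ω δ (Ω * ((u * (1 + 3 * ((1 : ℤ) : eis)) : eis) : ℂ) / fB) +
        eB i j (u * (1 + 3 * ((-1 : ℤ) : eis))) *
          EE eis Ω δ (Ω * ((u * (1 + 3 * ((-1 : ℤ) : eis)) : eis) : ℂ) / fB)) =
        (u : ℂ) ^ (2 * (j : ℕ)) * X δ
      rw [hterm, hterm, hterm, z0, z1, z2, p0, p1, p2, hX]
      ring
  have h5 := hk.const_mul (if j = 0 then (6 : ℂ) else 0)
  have e6 : (if j = 0 then (6 : ℂ) else 0) * gB L (dB L Ω i) (Ω / (3 * lam)) = CB L Ω i j := by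
    unfold CB kB
    split_ifs <;> ring
  rw [e6] at h5
  exact h5.congr fun δ => (hsum δ).symm

lemma Dd_neg (z u : ℂ) : Dd L (-z) u = -Dd L z u := by
  unfold Dd
  rw [L.weierstrassP_neg, L.derivWeierstrassP_neg, neg_div]

/-- the sum of the three functions -/
theorem tot (hS : S_CHI) (hC : Cur L Ω) {i : ZMod 3} [Fintype (eis ⧸ (sp fB : Ideal eis))]
    (u : ℂ) : ∑ j : Fin 3, HH L Ω fB (eB i j) u =
      3 * (Dd L (Ω / (3 * lam)) u + om ^ (-i).val * Dd L (Ω / (3 * lam) + Ω / lam) u +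
        om ^ i.val * Dd L (Ω / (3 * lam) - Ω / lam) u) := by
  have p0 : Ω / (3 * lam) + ((0 : ℤ) : ℂ) * (Ω / lam) = Ω / (3 * lam) := by push_cast; ring
  have p1 : Ω / (3 * lam) + ((1 : ℤ) : ℂ) * (Ω / lam) = Ω / (3 * lam) + Ω / lam := by
    push_cast; ring
  have p2 : Ω / (3 * lam) + ((-1 : ℤ) : ℂ) * (Ω / lam) = Ω / (3 * lam) - Ω / lam := by
    push_cast; ring
  have h1 : ∑ j : Fin 3, HH L Ω fB (eB i j) u = (1 / 2) * ∑ y : eis ⧸ (sp fB : Ideal eis),
      (∑ j : Fin 3, eB i j y.out) * Dd L (Ω * y.out / fB) u := by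
    unfold HH
    rw [← Finset.mul_sum, Finset.sum_comm]
    congr 1
    exact Finset.sum_congr rfl fun y _ => by rw [Finset.sum_mul]
  set Y : eis → ℂ := fun x => Dd L ((x : ℂ) * (Ω / (3 * lam))) u +
    om ^ (-i).val * Dd L ((x : ℂ) * (Ω / (3 * lam) + Ω / lam)) u +
    om ^ i.val * Dd L ((x : ℂ) * (Ω / (3 * lam) - Ω / lam)) u with hY
  rw [h1, sum18 (fun y => (∑ j : Fin 3, eB i j y) * Dd L (Ω * y / fB) u)
    (fun x hx => by
      show (∑ j : Fin 3, eB i j x) * Dd L (Ω * x / fB) u = 0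
      rw [Finset.sum_eq_zero fun j _ => eB_ncop i j hx, zero_mul])
    (fun x y hxy => by
      show (∑ j : Fin 3, eB i j x) * Dd L (Ω * x / fB) u =
        (∑ j : Fin 3, eB i j y) * Dd L (Ω * y / fB) u
      rw [Finset.sum_congr rfl fun j _ => ((hS i).2.2.2.2.1 j).per x y hxy,
        Pool.Agent.TH936.PU.Dd_per (per_E hC hxy)])
    (fun x => ((x : ℂ) + x ^ 3 + x ^ 5) * Y x) ?_]
  · have h3 := om_cube
    have hs := om_sq
    have y1 : om + om ^ 3 + om ^ 5 = 0 := by linear_combination hs + (1 + om ^ 2) * h3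
    have y2 : om ^ 2 + (om ^ 2) ^ 3 + (om ^ 2) ^ 5 = 0 := by
      linear_combination hs + (om ^ 3 + 1 + om * (om ^ 6 + om ^ 3 + 1)) * h3
    have y3 : -om + (-om) ^ 3 + (-om) ^ 5 = 0 := by linear_combination -y1
    have y4 : -om ^ 2 + (-om ^ 2) ^ 3 + (-om ^ 2) ^ 5 = 0 := by linear_combination -y2
    push_cast
    rw [omr_coe, y1, y2, y3, y4]
    have e1 : Y 1 = Dd L (Ω / (3 * lam)) u + om ^ (-i).val * Dd L (Ω / (3 * lam) + Ω / lam) u +
        om ^ i.val * Dd L (Ω / (3 * lam) - Ω / lam) u := by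
      rw [hY]
      simp only [OneMemClass.coe_one, one_mul]
    have e2 : Y (-1) = -Y 1 := by
      rw [hY]
      simp only [OneMemClass.coe_one, one_mul, NegMemClass.coe_neg, neg_mul, Dd_neg]
      ring
    rw [e2, ← e1]
    ring
  · intro x hx
    have h2 : ∀ k : ℤ, (∑ j : Fin 3, eB i j (x * (1 + 3 * (k : eis)))) =
        ((x : ℂ) + x ^ 3 + x ^ 5) * om ^ (-(i * (k : ZMod 3))).val := by
      intro k
      rw [Fin.sum_univ_three, eB_val hS _ _ hx, eB_val hS _ _ hx, eB_val hS _ _ hx]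
      norm_num
      ring
    have e : ∀ k : ℤ, Ω * ((x * (1 + 3 * (k : eis)) : eis) : ℂ) / ((fB : eis) : ℂ) =
        x * (Ω / (3 * lam) + k * (Ω / lam)) := by
      intro k
      rw [← pt]
      push_cast
      ring
    show (∑ j : Fin 3, eB i j (x * (1 + 3 * ((0 : ℤ) : eis)))) *
        Dd L (Ω * ((x * (1 + 3 * ((0 : ℤ) : eis)) : eis) : ℂ) / fB) u +
      ((∑ j : Fin 3, eB i j (x * (1 + 3 * ((1 : ℤ) : eis)))) *
        Dd L (Ω * ((x * (1 + 3 * ((1 : ℤ) : eis)) : eis) : ℂ) / fB) u +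
      (∑ j : Fin 3, eB i j (x * (1 + 3 * ((-1 : ℤ) : eis)))) *
        Dd L (Ω * ((x * (1 + 3 * ((-1 : ℤ) : eis)) : eis) : ℂ) / fB) u) =
      ((x : ℂ) + x ^ 3 + x ^ 5) * Y x
    rw [h2, h2, h2, e, e, e, z0, z1, z2, p0, p1, p2, hY]
    ring

/-- the second limit -/
theorem tot2 (hC : Cur L Ω) {i : ZMod 3} (hi : i ≠ 0) {c x : eis} (hc : c ≠ 0)
    (h3 : IsCoprime 3 c) (hx : x ∉ (sp c : Ideal eis)) :
    Dd L (Ω / (3 * lam)) (Ω * x / c) + om ^ (-i).val *
        Dd L (Ω / (3 * lam) + Ω / lam) (Ω * x / c) +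
        om ^ i.val * Dd L (Ω / (3 * lam) - Ω / lam) (Ω * x / c) =
      gB L (dB L Ω i) (Ω / (3 * lam) + Ω * x / c) +
          gB L (dB L Ω i) (Ω / (3 * lam) - Ω * x / c) - 2 * kB L Ω i := by
  have hu : Ω * x / c ∉ L.lattice := by rwa [div_mem_iff hC.lat hc]
  have hcop : IsCoprime fB c := h3.mul_left (cop_la h3)
  have hn : ∀ k : ℤ, Ω / (3 * lam) + k * (Ω / lam) + Ω * x / c ∉ L.lattice ∧
      Ω / (3 * lam) + k * (Ω / lam) - Ω * x / c ∉ L.lattice := by
    intro k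
    rw [← pt]
    exact cop_notMem hC.lat fB_ne hc hcop hx
  have p0 : Ω / (3 * lam) + ((0 : ℤ) : ℂ) * (Ω / lam) = Ω / (3 * lam) := by push_cast; ring
  have p1 : Ω / (3 * lam) + ((1 : ℤ) : ℂ) * (Ω / lam) = Ω / (3 * lam) + Ω / lam := by
    push_cast; ring
  have p2 : Ω / (3 * lam) + ((-1 : ℤ) : ℂ) * (Ω / lam) = Ω / (3 * lam) - Ω / lam := by
    push_cast; ring
  have q0 := pts hC 0
  have q1 := pts hC 1
  have q2 := pts hC (-1)
  have n0 := hn 0
  have n1 := hn 1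
  have n2 := hn (-1)
  rw [p0] at q0 n0
  rw [p1] at q1 n1
  rw [p2] at q2 n2
  set T1 := Ω / (3 * lam) with hT1
  set T := Ω / lam with hT
  set z := Ω * (x : ℂ) / (c : ℂ) with hz
  -- the limit of the second differences
  have l0 := lim_Dd hC.lat q0 hu n0.1 n0.2
  have l1 := lim_Dd hC.lat q1 hu n1.1 n1.2
  have l2 := lim_Dd hC.lat q2 hu n2.1 n2.2
  have hl := (l0.add (l1.const_mul (om ^ (-i).val))).add (l2.const_mul (om ^ i.val))
  -- the other limit
  have s1 : T1 + z + T = T1 + T + z := by ring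
  have s2 : T1 + z - T = T1 - T + z := by ring
  have s3 : T1 - z + T = T1 + T - z := by ring
  have s4 : T1 - z - T = T1 - T - z := by ring
  have k1 := key hC (hab hi) (z := T1 + z) n0.1 (by rw [s1]; exact n1.1) (by rw [s2]; exact n2.1)
  have k2 := key hC (hab hi) (z := T1 - z) n0.2 (by rw [s3]; exact n1.2) (by rw [s4]; exact n2.2)
  have k3 := key hC (hab hi) (z := T1) q0 q1 q2
  rw [← dB_eq] at k1 k2 k3
  have hr := (k1.add k2).sub (k3.const_mul 2)
  rw [← hT, s1, s2, s3, s4] at hr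
  refine tendsto_nhds_unique hl (hr.congr fun δ => ?_)
  ring

end Gf

/-- FF-GF -/
theorem gf : S_GF := by
  intro hS L Ω hC i hi
  refine ⟨?_, ?_⟩
  · rw [Gf.dB_eq, mul_pow, Gf.hab2 hi, Gf.dwp_T hC, mul_one]
  · intro _
    refine ⟨fun j => Gf.lims hS hC hi j, fun c x hc h3 hx => ?_⟩
    rw [Gf.tot hS hC, Gf.tot2 hC hi hc h3 hx]

end Pool.Agent.N883.FF
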