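import Pool.Agent.N883.FF.StmC

/-!
# Project FF: mean values with the symbol of `ω` (part HAL)

An adaptation of `Pool/Agent/Y699/E/Hal2.lean` to the character `d ↦ xab A B d * ez (t * nq d)` on
primary elements.
-/

set_option autoImplicit false

open Finset

namespace Pool.Agent.N883.FF

open Pool.Agent.Y692.QS (Ei w nr nr_mul nr_one)
open Pool.Agent.Y715.T.Rec (cs)
open Pool.Agent.Y715.T.RecG (Pq)
open Pool.Agent.Y699.E
open scoped ComplexConjugate

namespace HalA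

/-! ### norms modulo three -/

lemma nr_mod (a : Ei) : nr a % 3 = 0 ∨ nr a % 3 = 1 := by
  have h : nr a = (a.re + a.im) ^ 2 - 3 * (a.re * a.im) := by unfold nr; ring
  rw [h]
  have h1 : (a.re + a.im) ^ 2 % 3 = 0 ∨ (a.re + a.im) ^ 2 % 3 = 1 := by
    have h2 : (a.re + a.im) % 3 = 0 ∨ (a.re + a.im) % 3 = 1 ∨ (a.re + a.im) % 3 = 2 := by omega
    rcases h2 with h2 | h2 | h2 <;> simp [pow_two, Int.mul_emod, h2]
  omega

lemma nr_mod_one {a : Ei} (h : ¬ (3 : ℤ) ∣ nr a) : ∃ k : ℤ, nr a = 1 + 3 * k := by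
  have h1 := nr_mod a
  exact ⟨nr a / 3, by omega⟩

lemma nq_of {a : Ei} {k : ℤ} (h : nr a = 1 + 3 * k) : nq a = (k : ZMod 3) := by
  unfold nq
  have : (nr a - 1) / 3 = k := by rw [h]; omega
  rw [this]

lemma nq_mul {a b : Ei} (ha : ¬ (3 : ℤ) ∣ nr a) (hb : ¬ (3 : ℤ) ∣ nr b) :
    nq (a * b) = nq a + nq b := by
  obtain ⟨k, hk⟩ := nr_mod_one ha
  obtain ⟨l, hl⟩ := nr_mod_one hb
  have h : nr (a * b) = 1 + 3 * (k + l + 3 * (k * l)) := by rw [nr_mul, hk, hl]; ring
  rw [nq_of hk, nq_of hl, nq_of h]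
  push_cast
  have h3 : (3 : ZMod 3) = 0 := by decide
  rw [h3]
  ring

lemma nr_of_prm {a : Ei} (h : prm a) : ¬ (3 : ℤ) ∣ nr a := by
  obtain ⟨c, hc⟩ := h
  have h1 : a = 1 + 3 * c := by rw [← hc]; ring
  have h2 : nr a = 1 + 3 * (2 * c.re - c.im + 3 * nr c) := by
    have r3 : (3 : Ei).re = 3 := by decide
    have i3 : (3 : Ei).im = 0 := by decide
    have r1 : (1 : Ei).re = 1 := by decide
    have i1 : (1 : Ei).im = 0 := by decide
    have e1 : a.re = 1 + 3 * c.re := by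
      rw [h1]; simp [r3, i3, r1]
    have e2 : a.im = 3 * c.im := by
      rw [h1]; simp [r3, i3, i1]
    unfold nr
    rw [e1, e2]
    ring
  omega

lemma nq_one : nq 1 = 0 := by
  have : nr (1 : Ei) = 1 + 3 * 0 := by rw [nr_one]; norm_num
  rw [nq_of this]
  simp

/-! ### the character -/

open Classical in
/-- the character -/
noncomputable def ps (A B : Ei) (t : ZMod 3) (d : Ei) : ℂ :=
  if (3 : ℤ) ∣ nr d then 0 else xab A B d * ez (t * nq d)

lemma xab_cases (A B a : Ei) : xab A B a = 0 ∨ ∃ c : ZMod 3, xab A B a = ez c := by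
  unfold xab
  rcases jac_cases A a with h | ⟨c, h⟩
  · left; rw [h, zero_mul]
  · rcases jac_cases B a with h' | ⟨c', h'⟩
    · left; rw [h', map_zero, mul_zero]
    · right
      exact ⟨c + -c', by rw [h, h', conj_ez, ← ez_add]⟩

lemma ps_ch {A B : Ei} (hA : PS A) (hB : PS B) (t : ZMod 3) : CH (ps A B t) := by
  refine ⟨?_, ?_, ?_⟩
  · unfold ps
    rw [if_neg (nr_of_prm prm_one), (xab_ch hA hB).one, nq_one, mul_zero, ez_zero, mul_one]
  · intro a b
    unfold ps
    by_cases ha : (3 : ℤ) ∣ nr a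
    · rw [if_pos ha, if_pos (by rw [nr_mul]; exact ha.mul_right _), zero_mul]
    by_cases hb : (3 : ℤ) ∣ nr b
    · rw [if_pos hb, if_pos (by rw [nr_mul]; exact hb.mul_left _), mul_zero]
    have hab : ¬ (3 : ℤ) ∣ nr (a * b) := by
      rw [nr_mul]
      intro h
      rcases Int.prime_three.dvd_or_dvd h with h1 | h1
      · exact ha h1
      · exact hb h1
    rw [if_neg ha, if_neg hb, if_neg hab, (xab_ch hA hB).mul, nq_mul ha hb, mul_add, ez_add]
    ring
  · intro a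
    unfold ps
    split_ifs with h
    · left; rfl
    · rcases xab_cases A B a with h1 | ⟨c, h1⟩
      · left; rw [h1, zero_mul]
      · right
        rw [h1, ← ez_add]
        exact ez_val _

lemma ps_prm {A B : Ei} {t : ZMod 3} {d : Ei} (hd : prm d) :
    ps A B t d = xab A B d * ez (t * nq d) := if_neg (nr_of_prm hd)

/-! ### the character sum -/

/-- norms of elements congruent modulo nine -/
lemma nr_congr {a b : Ei} (h : (9 : Ei) ∣ a - b) : (9 : ℤ) ∣ nr a - nr b := by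
  obtain ⟨c, hc⟩ := h
  have h1 : a = b + 9 * c := by rw [← hc]; ring
  have r9 : (9 : Ei).re = 9 := by decide
  have i9 : (9 : Ei).im = 0 := by decide
  have e1 : a.re = b.re + 9 * c.re := by
    rw [h1]; simp [r9, i9]
  have e2 : a.im = b.im + 9 * c.im := by
    rw [h1]; simp [r9, i9]
  unfold nr
  rw [e1, e2]
  exact ⟨2 * b.re * c.re + 9 * c.re ^ 2 - b.re * c.im - c.re * b.im - 9 * c.re * c.im +
    2 * b.im * c.im + 9 * c.im ^ 2, by ring⟩

lemma nq_congr {a b : Ei} (h : (9 : Ei) ∣ a - b) : nq a = nq b := by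
  obtain ⟨m, hm⟩ := nr_congr h
  unfold nq
  have : (nr a - 1) / 3 = (nr b - 1) / 3 + 3 * m := by omega
  rw [this]
  push_cast
  have h3 : (3 : ZMod 3) = 0 := by decide
  rw [h3]
  ring

open Classical in
/-- the character on primary elements -/
noncomputable def pf (A B : Ei) (t : ZMod 3) (d : Ei) : ℂ := if prm d then ps A B t d else 0

lemma pf_norm {A B : Ei} (hA : PS A) (hB : PS B) (t : ZMod 3) (a : Ei) : ‖pf A B t a‖ ≤ 1 := by
  unfold pf
  split_ifs
  · exact (ps_ch hA hB t).norm_le a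
  · simp

lemma nine_eq : (9 : Ei) = 3 * 3 := by decide

lemma nrm_nine : nrm (9 : Ei) = 81 := by decide

lemma prm_cop_nine {a : Ei} (h : prm a) : IsCoprime a 9 := by
  have h3 : IsCoprime a 3 := by
    obtain ⟨k, hk⟩ := h
    exact ⟨1, -k, by linear_combination hk⟩
  rw [nine_eq]
  exact IsCoprime.mul_right h3 h3

/-- the element `g = 1` modulo `A B`, `g = 4` modulo `9` -/
lemma exists_g {A B : Ei} (hA : PS A) (hB : PS B) : ∃ g : Ei, A * B ∣ g - 1 ∧ (9 : Ei) ∣ g - 4 := by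
  have hAB : prm (A * B) := prm_mul hA.prm hB.prm
  obtain ⟨x, y, hxy⟩ := prm_cop_nine hAB
  refine ⟨1 + 3 * (x * (A * B)), ⟨3 * x, by ring⟩, ⟨-(3 * y), ?_⟩⟩
  linear_combination 3 * hxy

theorem pf_sum {A B : Ei} (hA : PS A) (hB : PS B) {t : ZMod 3} (ht : t ≠ 0) (V : ℕ) :
    ‖∑ a ∈ ZB V, pf A B t a‖ ≤ 243 * (nrm A * nrm B) * (3 * Real.sqrt V + 1) := by
  classical
  have h9 : (9 : Ei) ≠ 0 := by decide
  have hq : 9 * (A * B) ≠ 0 := mul_ne_zero h9 (mul_ne_zero hA.ne hB.ne)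
  obtain ⟨g, hg1, hg9⟩ := exists_g hA hB
  have hg3 : prm g := by
    have h1 : (3 : Ei) ∣ g - 4 := (Dvd.intro _ nine_eq.symm).trans hg9
    have h2 : g - 1 = (g - 4) + 3 := by ring
    unfold prm
    rw [h2]
    exact dvd_add h1 dvd_rfl
  have hxg : xab A B g = 1 := by
    unfold xab
    rw [jac_per hA.ne (a := g) (b := 1) ((dvd_mul_right _ _).trans hg1),
      jac_per hB.ne (a := g) (b := 1) ((dvd_mul_left _ _).trans hg1), jac_one_right hA.ne,
      jac_one_right hB.ne, map_one, one_mul]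
  have hng : nq g = 2 := by
    rw [nq_congr hg9]
    decide
  have hz : ez (t * nq g) ≠ 1 := by
    apply ez_ne
    rw [hng]
    revert ht
    revert t
    decide
  have hcop : IsCoprime g (9 * (A * B)) := by
    refine IsCoprime.mul_right (prm_cop_nine hg3) ?_
    obtain ⟨k, hk⟩ := hg1
    exact ⟨1, -k, by linear_combination hk⟩
  have h3 := csum hq (f := pf A B t) ?_ (pf_norm hA hB t) hcop hz ?_ V
  · refine h3.trans (le_of_eq ?_)
    rw [nrm_mul, nrm_mul, nrm_nine]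
    push_cast
    ring
  · intro a b hab
    have e9 : (9 : Ei) ∣ a - b := (dvd_mul_right _ _).trans hab
    have e1 : (3 : Ei) ∣ a - b := (Dvd.intro _ nine_eq.symm).trans e9
    have e2 : A ∣ a - b := ((dvd_mul_right _ _).trans (dvd_mul_left _ _)).trans hab
    have e3 : B ∣ a - b := ((dvd_mul_left _ _).trans (dvd_mul_left _ _)).trans hab
    have e4 : prm a ↔ prm b := by
      unfold prm
      constructor
      · intro h
        have := dvd_sub h e1
        have e : a - 1 - (a - b) = b - 1 := by ring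
        rwa [e] at this
      · intro h
        have := dvd_add h e1
        have e : b - 1 + (a - b) = a - 1 := by ring
        rwa [e] at this
    unfold pf
    by_cases h : prm a
    · rw [if_pos h, if_pos (e4.1 h), ps_prm h, ps_prm (e4.1 h), nq_congr e9]
      unfold xab
      rw [jac_per hA.ne e2, jac_per hB.ne e3]
    · rw [if_neg h, if_neg (fun hh => h (e4.2 hh))]
  · intro a
    unfold pf
    have e4 : prm (g * a) ↔ prm a :=
      ⟨fun h => prm_cancel hg3 h, fun h => prm_mul hg3 h⟩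
    by_cases h : prm a
    · rw [if_pos h, if_pos (e4.2 h), (ps_ch hA hB t).mul, ps_prm hg3, hxg, one_mul]
    · rw [if_neg h, if_neg (fun hh => h (e4.1 hh)), mul_zero]

/-- character sums -/
lemma ps_le {A B : Ei} {t : ZMod 3} (hA : PS A) (hB : PS B) (h1 : A ≠ B ∨ t ≠ 0) {v : ℕ}
    (hv : 1 ≤ v) : ‖∑ d ∈ PB v, ps A B t d‖ ≤ 972 * (nrm A * nrm B : ℕ) * Real.sqrt v := by
  classical
  have h2 : (1 : ℝ) ≤ Real.sqrt v := Real.one_le_sqrt.2 (by exact_mod_cast hv)
  have h3 : (0 : ℝ) ≤ (nrm A : ℝ) * nrm B := by positivity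
  by_cases ht : t = 0
  · have hAB : A ≠ B := h1.resolve_right fun h => h ht
    have e : ∑ d ∈ PB v, ps A B t d = ∑ d ∈ PB v, xab A B d := by
      refine sum_congr rfl fun d hd => ?_
      rw [ps_prm (mem_PB.1 hd).2, ht, zero_mul, ez_zero, mul_one]
    rw [e]
    refine (chs_le hA hB hAB hv).trans ?_
    push_cast
    nlinarith [mul_nonneg h3 (by linarith : (0 : ℝ) ≤ Real.sqrt v)]
  · have h := pf_sum hA hB ht v
    have e : ∑ a ∈ ZB v, pf A B t a = ∑ d ∈ PB v, ps A B t d := by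
      unfold PB
      rw [sum_filter]
      rfl
    rw [e] at h
    refine h.trans ?_
    push_cast
    nlinarith

/-- partial sums of the L-series at 1 -/
theorem ch_log {χ : Ei → ℂ} (hch : CH χ) {N : ℕ} (hN1 : 1 ≤ N) {c : ℝ} (hc : 0 ≤ c)
    (hχ : ∀ v : ℕ, 1 ≤ v → ‖∑ d ∈ PB v, χ d‖ ≤ c * N * Real.sqrt v) (Y : ℕ) :
    ‖∑ d ∈ PB Y, χ d / nrm d‖ ≤ (48 + 2 * c) * lg N := by
  classical
  have hlg := one_le_lg N
  rcases Nat.eq_zero_or_pos Y with h0 | hY
  · have : PB Y = ∅ := by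
      rw [eq_empty_iff_forall_notMem]
      intro x hx
      rw [mem_PB] at hx
      have := nrm_pos' (prm_ne_zero hx.2)
      omega
    rw [this, sum_empty, norm_zero]
    positivity
  have hYr : (0 : ℝ) < Y := by exact_mod_cast hY
  -- summation by parts
  have e1 : ∑ d ∈ PB Y, χ d / nrm d = (∑ d ∈ PB Y, χ d) * ((1 / Y : ℝ) : ℂ) +
      ∑ v ∈ Ico 1 Y, (∑ d ∈ PB v, χ d) * ((1 / ((v : ℝ) * (v + 1)) : ℝ) : ℂ) := by
    have e2 : ∀ d ∈ PB Y, χ d / nrm d = χ d * ((1 / Y : ℝ) : ℂ) +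
        ∑ v ∈ Ico 1 Y, if nrm d ≤ v then χ d * ((1 / ((v : ℝ) * (v + 1)) : ℝ) : ℂ) else 0 := by
      intro d hd
      rw [mem_PB] at hd
      have hd1 := nrm_pos' (prm_ne_zero hd.2)
      have h2 := inv_tel (nrm d) hd1 Y hd.1
      have h3 : χ d / (nrm d : ℂ) = χ d * ((1 / (nrm d : ℝ) : ℝ) : ℂ) := by
        push_cast
        rw [mul_one_div]
      rw [h3, h2, Complex.ofReal_add, mul_add]
      congr 1
      rw [Complex.ofReal_sum, mul_sum, ← sum_filter]
      refine sum_congr ?_ fun _ _ => rfl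
      ext v
      rw [mem_filter, mem_Ico, mem_Ico]
      constructor
      · rintro ⟨a1, a2⟩; exact ⟨⟨by omega, a2⟩, a1⟩
      · rintro ⟨⟨-, a2⟩, a1⟩; exact ⟨a1, a2⟩
    rw [sum_congr rfl e2, sum_add_distrib, ← sum_mul, sum_comm]
    congr 1
    refine sum_congr rfl fun v hv => ?_
    rw [mem_Ico] at hv
    rw [← sum_filter, ← sum_mul]
    congr 1
    refine sum_congr ?_ fun _ _ => rfl
    ext d
    rw [mem_filter, mem_PB, mem_PB]
    constructor
    · rintro ⟨⟨-, a2⟩, a1⟩; exact ⟨a1, a2⟩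
    · rintro ⟨a1, a2⟩; exact ⟨⟨by omega, a2⟩, a1⟩
  rw [e1]
  refine (norm_add_le _ _).trans ?_
  have nr : ∀ {r : ℝ}, 0 ≤ r → ‖(r : ℂ)‖ = r := fun {r} h => by
    rw [Complex.norm_real, Real.norm_of_nonneg h]
  have e3 : ‖(∑ d ∈ PB Y, χ d) * ((1 / Y : ℝ) : ℂ)‖ ≤ 16 := by
    rw [norm_mul, nr (by positivity), mul_one_div, div_le_iff₀ hYr]
    exact chs_le' hch hY
  have e4 : ∀ v ∈ Ico 1 Y, ‖(∑ d ∈ PB v, χ d) * ((1 / ((v : ℝ) * (v + 1)) : ℝ) : ℂ)‖ ≤
      (if v < N ^ 2 then 16 * (1 / ((v : ℝ) + 1)) else 0) +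
      (if N ^ 2 ≤ v then c * N * (Real.sqrt v / (v * (v + 1))) else 0) := by
    intro v hv
    rw [mem_Ico] at hv
    have v0 : (0 : ℝ) < v := by exact_mod_cast hv.1
    have hp : (0 : ℝ) < 1 / ((v : ℝ) * (v + 1)) := by positivity
    rw [norm_mul, nr hp.le]
    by_cases h : v < N ^ 2
    · rw [if_pos h, if_neg (by omega), add_zero]
      calc ‖∑ d ∈ PB v, χ d‖ * (1 / ((v : ℝ) * (v + 1))) ≤ (16 * v) * (1 / ((v : ℝ) * (v + 1))) :=
            mul_le_mul_of_nonneg_right (chs_le' hch hv.1) hp.le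
        _ = 16 * (1 / ((v : ℝ) + 1)) := by field_simp
    · rw [if_neg h, if_pos (by omega), zero_add]
      calc ‖∑ d ∈ PB v, χ d‖ * (1 / ((v : ℝ) * (v + 1))) ≤
            (c * N * Real.sqrt v) * (1 / ((v : ℝ) * (v + 1))) :=
            mul_le_mul_of_nonneg_right (hχ v hv.1) hp.le
        _ = c * N * (Real.sqrt v / (v * (v + 1))) := by ring
  have e5 : ‖∑ v ∈ Ico 1 Y, (∑ d ∈ PB v, χ d) * ((1 / ((v : ℝ) * (v + 1)) : ℝ) : ℂ)‖ ≤
      16 * (2 * lg N) + 2 * c := by
    refine (norm_sum_le _ _).trans ((sum_le_sum e4).trans ?_)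
    rw [sum_add_distrib]
    have hN2 : 1 ≤ N ^ 2 := Nat.one_le_pow _ _ hN1
    have a1 : ∑ v ∈ Ico 1 Y, (if v < N ^ 2 then 16 * (1 / ((v : ℝ) + 1)) else 0) ≤
        16 * (2 * lg N) := by
      rw [← sum_filter, ← mul_sum]
      have h2 : ∑ v ∈ (Ico 1 Y).filter (fun v => v < N ^ 2), (1 : ℝ) / ((v : ℝ) + 1) ≤
          ∑ v ∈ Ico 1 (N ^ 2), (1 : ℝ) / ((v : ℝ) + 1) := by
        refine sum_le_sum_of_subset_of_nonneg ?_ (fun _ _ _ => by positivity)
        intro v hv
        rw [mem_filter, mem_Ico] at hv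
        rw [mem_Ico]
        exact ⟨hv.1.1, hv.2⟩
      have h3 := harm_le (N ^ 2) hN2
      have h4 : Real.log ((N ^ 2 : ℕ) : ℝ) = 2 * Real.log N := by
        push_cast
        rw [Real.log_pow]
        push_cast
        ring
      rw [h4] at h3
      have h5 := log_le_lg hN1
      linarith
    have a2 : ∑ v ∈ Ico 1 Y, (if N ^ 2 ≤ v then c * (N : ℝ) * (Real.sqrt v / (v * (v + 1)))
        else 0) ≤ 2 * c := by
      rw [← sum_filter, ← mul_sum]
      have h2 : ∑ v ∈ (Ico 1 Y).filter (fun v => N ^ 2 ≤ v), Real.sqrt v / ((v : ℝ) * (v + 1)) ≤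
          ∑ v ∈ Ico (N ^ 2) (max Y (N ^ 2)), Real.sqrt v / ((v : ℝ) * (v + 1)) := by
        refine sum_le_sum_of_subset_of_nonneg ?_ (fun _ _ _ => by positivity)
        intro v hv
        rw [mem_filter, mem_Ico] at hv
        rw [mem_Ico]
        exact ⟨hv.2, lt_of_lt_of_le hv.1.2 (le_max_left _ _)⟩
      have h3 := sqrt_tel (N ^ 2) hN2 (max Y (N ^ 2)) (le_max_right _ _)
      have h4 : Real.sqrt ((N ^ 2 : ℕ) : ℝ) = N := by
        push_cast
        exact Real.sqrt_sq (Nat.cast_nonneg _)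
      rw [h4] at h3
      have h5 : (0 : ℝ) ≤ 1 / Real.sqrt ((max Y (N ^ 2) : ℕ) : ℝ) := by positivity
      have Nr : (0 : ℝ) < N := by exact_mod_cast hN1
      calc c * (N : ℝ) * ∑ v ∈ (Ico 1 Y).filter (fun v => N ^ 2 ≤ v),
            Real.sqrt v / ((v : ℝ) * (v + 1))
          ≤ c * N * (2 * (1 / N)) := by
            apply mul_le_mul_of_nonneg_left _ (by positivity)
            linarith
        _ = 2 * c := by field_simp
    linarith
  nlinarith

end HalA

open HalA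

/-- FF-HAL -/
theorem hal : S_HALB := by
  classical
  refine ⟨5544, by norm_num, ?_⟩
  intro A B t hA hB h1 T
  have hN1 : 1 ≤ nrm A * nrm B := Nat.mul_pos (nrm_pos' hA.ne) (nrm_pos' hB.ne)
  rcases Nat.eq_zero_or_pos T with h0 | hT
  · rw [SB_empty h0, sum_empty]
    have h2 := lg_pos T
    have h3 := lg_pos (nrm A * nrm B)
    positivity
  have hch := ps_ch hA hB t
  have hl := one_le_lg (nrm A * nrm B)
  have hlT := lg_pos T
  have hmf : ∀ n ∈ SB T, mf (fun π => (1 + 2 * (xab A B π * ez (t * nq π)).re) / 3) n =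
      mf (fun π => (1 + 2 * (ps A B t π).re) / 3) n := by
    intro n hn
    unfold mf
    refine prod_congr rfl fun π hπ => ?_
    show (1 + 2 * (xab A B π * ez (t * nq π)).re) / 3 = (1 + 2 * (ps A B t π).re) / 3
    rw [ps_prm (pq_prm ((mem_PD (mem_SB.1 hn).2.ne).1 hπ).1)]
  rw [sum_congr rfl hmf]
  have hAA : ∑ n ∈ PB (T ^ 3), mf (fun π => 3 * ((1 + 2 * (ps A B t π).re) / 3)) n / nrm n ≤
      (18399744 * lg (nrm A * nrm B)) * lg T ^ 2 := by
    have e1 : (fun π : Ei => 3 * ((1 + 2 * (ps A B t π).re) / 3)) =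
        fun π => 1 + 2 * (ps A B t π).re := by
      funext π; ring
    rw [e1]
    have hlog : ∀ Y : ℕ, ‖∑ d ∈ PB Y, ps A B t d / nrm d‖ ≤ 1992 * lg (nrm A * nrm B) := by
      intro Y
      have := ch_log hch hN1 (c := 972) (by norm_num) (fun v hv => ps_le hA hB h1 hv) Y
      refine this.trans (le_of_eq ?_)
      norm_num
    refine (conv_bound hch hlog (T ^ 3)).trans ?_
    have e5 := lg_cube T
    have e6 := lg_pos (T ^ 3)
    have e7 : (32 * lg (T ^ 3)) ^ 2 ≤ (96 * lg T) ^ 2 := by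
      apply pow_le_pow_left₀ (by positivity)
      linarith
    calc (32 * lg (T ^ 3)) ^ 2 * (1992 * lg (nrm A * nrm B)) ≤
          (96 * lg T) ^ 2 * (1992 * lg (nrm A * nrm B)) := by
          apply mul_le_mul_of_nonneg_right e7 (by positivity)
      _ = 18358272 * (lg (nrm A * nrm B) * lg T ^ 2) := by ring
      _ ≤ 18399744 * (lg (nrm A * nrm B) * lg T ^ 2) := by
          have : 0 ≤ lg (nrm A * nrm B) * lg T ^ 2 := by positivity
          linarith
      _ = _ := by ring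
  have hv := fun π => hch.val π
  have h2 := hall_aux (g := fun π => (1 + 2 * (ps A B t π).re) / 3)
    (fun π => by have := re_nonneg (hv π); linarith)
    (fun π => by have := re_le (hv π); linarith) hT (by linarith) hAA
  refine h2.trans (le_of_eq ?_)
  have e : (18399744 * lg (nrm A * nrm B)) ^ (1 / 3 : ℝ) =
      264 * (lg (nrm A * nrm B)) ^ (1 / 3 : ℝ) := by
    rw [Real.mul_rpow (by norm_num) (by linarith)]
    congr 1
    rw [show (18399744 : ℝ) = 264 ^ (3 : ℝ) by norm_num, ← Real.rpow_mul (by norm_num)]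
    norm_num
  rw [e]
  ring

end Pool.Agent.N883.FF
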