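import Pool.Agent.N883.FF.StmF
import Pool.Agent.R419.CE.LF3

/-!
# Project FF: the `L`-function of `y² + y = x³` over `F = K(θ)`, `θ³ = ω ^ i ∏ π_j ^ (e j)`

Adapted from the files `R419/CE/LF3.lean` and `Y696/CTE/Eul.lean` (the case `i = 0`) by helper395.
-/

set_option autoImplicit false
set_option linter.unusedVariables false
set_option linter.unusedSectionVars false

namespace Pool.Agent.N883.FF

namespace Lfe

open NumberField IsDedekindDomain WeierstrassCurve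
open Pool.Agent.W189.NF (aV eV redMap)
open Pool.Agent.H921R2.TatePole (two_le_nm)
open Pool.Agent.Y715.T.Rs (eq0 eq0_coe card_quo)
open Pool.Agent.Y703.CT
open Pool.Agent.Y696 hiding nr
open Pool.Agent.Y696.CT
open Pool.Agent.Y696.CTK
open Pool.Agent.Y696.CTE
open Pool.Agent.Y715.T.Gi (CF lam)
open Pool.Agent.Y692.QS (Ei w toC nr nr_mul nr_one nr_nonneg w_cube)
open Pool.Agent.Y715.T.Rec (cs nn)
open Pool.Agent.Y715.T.RecG (Pq cs_spec)
open Pool.Agent.W192.HK Pool.Agent.TH936.CM Pool.Agent.TH936.PU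
open Pool.Agent.R419.CE
open scoped Classical

/-! ### The character -/

lemma nr_mod (x : Ei) (h : ¬ (3 : ℤ) ∣ nr x) : ∃ m, nr x = 1 + 3 * m := by
  have h3 : nr x = (x.re + x.im) * (x.re + x.im) - 3 * (x.re * x.im) := by unfold nr; ring
  have h5 : ∃ k r : ℤ, x.re + x.im = 3 * k + r ∧ (r = 0 ∨ r = 1 ∨ r = 2) := by
    refine ⟨(x.re + x.im) / 3, (x.re + x.im) % 3, by omega, by omega⟩
  obtain ⟨k, r, hk, hr⟩ := h5
  rw [hk] at h3
  rcases hr with rfl | rfl | rfl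
  · exfalso
    apply h
    rw [h3]
    exact ⟨3 * k * k - x.re * x.im, by ring⟩
  · exact ⟨3 * k * k + 2 * k - x.re * x.im, by rw [h3]; ring⟩
  · exact ⟨3 * k * k + 4 * k + 1 - x.re * x.im, by rw [h3]; ring⟩

lemma nq_mul {x y : Ei} (hx : ¬ (3 : ℤ) ∣ nr x) (hy : ¬ (3 : ℤ) ∣ nr y) :
    nq (x * y) = nq x + nq y := by
  obtain ⟨m, hm⟩ := nr_mod x hx
  obtain ⟨n, hn⟩ := nr_mod y hy
  unfold nq
  rw [nr_mul, hm, hn]
  have e1 : ((1 + 3 * m) * (1 + 3 * n) - 1) / 3 = m + n + 3 * (m * n) := by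
    have : (1 + 3 * m) * (1 + 3 * n) - 1 = 3 * (m + n + 3 * (m * n)) := by ring
    rw [this]
    exact Int.mul_ediv_cancel_left _ (by norm_num)
  have e2 : (1 + 3 * m - 1) / 3 = m := by omega
  have e3 : (1 + 3 * n - 1) / 3 = n := by omega
  rw [e1, e2, e3]
  push_cast
  have h3 : (3 : ZMod 3) = 0 := rfl
  rw [h3]
  ring

lemma nq_one : nq 1 = 0 := by
  unfold nq
  rw [nr_one]
  rfl

lemma cs_w {ρ : Ei} (h : Pq ρ) : cs ρ w = nq ρ := by
  refine Pool.Agent.Y715.T.RecG.cs_of h.prime h.norm ?_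
  have h1 : 0 ≤ nr ρ := nr_nonneg ρ
  have h2 : ¬ (3 : ℤ) ∣ nr ρ := ep_ndvd h.three
  obtain ⟨m, hm⟩ := nr_mod ρ h2
  have h3 : ((nn ρ : ℕ) : ℤ) = (nr ρ - 1) / 3 := by
    unfold nn
    omega
  have h4 : ((nn ρ : ℕ) : ZMod 3) = nq ρ := by
    unfold nq
    rw [← h3]
    push_cast
    rfl
  have h5 : w ^ nn ρ = w ^ (nq ρ).val := by
    rw [← h4, ZMod.val_natCast]
    conv_lhs => rw [← Nat.div_add_mod (nn ρ) 3, pow_add, pow_mul, w_cube, one_pow, one_mul]
  rw [h5, sub_self]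
  exact dvd_zero _

lemma isUnit_w : IsUnit (w : Ei) := IsUnit.of_pow_eq_one w_cube three_ne_zero

section character
variable {J : Type} [Fintype J] {π : J → Ei} {e : J → ZMod 3} {i : ZMod 3}

/-- the character of the twist -/
noncomputable def xB (π : J → Ei) (e : J → ZMod 3) (i : ZMod 3) (α : Ei) : ℂ :=
  chD π e α * toC w ^ (i * nq α).val

/-- the summand -/
noncomputable def gB (π : J → Ei) (e : J → ZMod 3) (i : ZMod 3) (s : ℂ) (α : Ei) : ℂ :=
  if (3 : ℤ) ∣ nr α then 0 else toC α * xB π e i α * ((nr α : ℤ) : ℂ) ^ (-s)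

lemma gB_one (hpq : ∀ j, Pq (π j)) (e : J → ZMod 3) (i : ZMod 3) (s : ℂ) : gB π e i s 1 = 1 := by
  unfold gB xB
  rw [if_neg (by rw [nr_one]; norm_num), chD_one hpq, nr_one, map_one, nq_one, mul_zero,
    ZMod.val_zero, pow_zero, Int.cast_one, Complex.one_cpow, mul_one, mul_one, mul_one]

lemma gB_mul (hpq : ∀ j, Pq (π j)) (e : J → ZMod 3) (i : ZMod 3) (s : ℂ) (α β : Ei) :
    gB π e i s (α * β) = gB π e i s α * gB π e i s β := by
  unfold gB
  have h4 : (3 : ℤ) ∣ nr (α * β) ↔ (3 : ℤ) ∣ nr α ∨ (3 : ℤ) ∣ nr β := by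
    rw [nr_mul]
    exact Int.prime_three.dvd_mul
  by_cases h1 : (3 : ℤ) ∣ nr α
  · rw [if_pos (h4.2 (Or.inl h1)), if_pos h1, zero_mul]
  · by_cases h2 : (3 : ℤ) ∣ nr β
    · rw [if_pos (h4.2 (Or.inr h2)), if_pos h2, mul_zero]
    · rw [if_neg (fun h => (h4.1 h).elim h1 h2), if_neg h1, if_neg h2]
      unfold xB
      rw [chD_mul hpq, map_mul, nr_cpow, nq_mul h1 h2, mul_add, tw_add]
      ring

lemma xB_conj (hpq : ∀ j, Pq (π j)) (e : J → ZMod 3) (i : ZMod 3) (α : Ei) :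
    (starRingEnd ℂ) (xB π (fun k => -e k) (-i) α) = xB π e i α := by
  unfold xB
  rw [map_mul, chD_conj hpq]
  congr 1
  rw [neg_mul, ← map_pow, ← toC_star', (w_inv _).1, map_pow]

/-- the sum over the primary elements -/
lemma sumB {F : ℂ → ℂ} (h : IsHLB π e i F) {s : ℂ} (hs : 3 / 2 < s.re) :
    HasSum (fun α : {α : Ei // (3 : Ei) ∣ α - 1} => gB π e i s α) (F s) := by
  refine (h.2 s hs).congr_fun fun α => ?_
  unfold gB xB
  rw [if_neg (ep_ndvd α.2)]

lemma pB_ne (hD : Dt π e) : pB π e i ≠ 0 :=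
  mul_ne_zero (isUnit_w.pow _).ne_zero (cf_pD hD).1

lemma cf_pB (hD : Dt π e) : CF (pB π e i) := by
  refine ⟨pB_ne hD, fun d hd => (cf_pD hD).2 d ?_⟩
  exact ((isUnit_w.pow i.val).dvd_mul_left).1 hd

lemma dvd_pB {α : Ei} : α ∣ pB π e i ↔ α ∣ pD π e := (isUnit_w.pow i.val).dvd_mul_left

/-- reciprocity for the symbols with `D` -/
lemma cs_pB (hrec : S_REC) (hdt : Dt π e) {α : Ei} (hα : Pq α)
    (hnd : ¬ α ∣ pB π e i) : cs α (pB π e i) = i * nq α + ∑ k, e k * cs (π k) α := by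
  have h1 : ¬ α ∣ pD π e := fun h => hnd (dvd_pB.2 h)
  have h2 : ¬ α ∣ w := fun h => hα.prime.not_isUnit (isUnit_of_dvd_unit h isUnit_w)
  have h3 : ¬ α ∣ w ^ i.val := fun h => h2 (hα.prime.dvd_of_dvd_pow h)
  unfold pB
  rw [Pool.Agent.Y715.T.RecG.cs_mul hα.prime hα.norm h3 h1,
    Pool.Agent.Y715.T.RecG.cs_pow hα.prime hα.norm h2, ZMod.natCast_zmod_val, cs_w hα,
    cs_pD hrec hdt hα h1]

lemma three_w {x : Ei} (hx : (3 : Ei) ∣ x - 1) (hi : i ≠ 0) :
    ¬ (3 : Ei) ∣ w ^ i.val * x - 1 ∧ ¬ (3 : Ei) ∣ w ^ i.val * x + 1 := by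
  have key : ∀ y : Ei, (3 : Ei) ∣ w ^ i.val * x - y → (3 : Ei) ∣ w ^ i.val - y := by
    intro y h
    have h1 : w ^ i.val - y = (w ^ i.val * x - y) - w ^ i.val * (x - 1) := by ring
    rw [h1]
    exact dvd_sub h (Dvd.dvd.mul_left hx _)
  have h3 : ∀ y : Ei, (3 : Ei) ∣ y → (3 : ℤ) ∣ y.re ∧ (3 : ℤ) ∣ y.im := by
    rintro y ⟨c, hc⟩
    have e3 : (3 : Ei) = ⟨3, 0⟩ := rfl
    rw [hc, e3, Pool.Agent.Y692.QS.mul_re, Pool.Agent.Y692.QS.mul_im]
    constructor
    · exact ⟨c.re, by ring⟩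
    · exact ⟨c.im, by ring⟩
  have hi' : i = 1 ∨ i = 2 := by
    clear key
    revert hi
    revert i
    decide
  constructor
  · intro h
    have h4 := h3 _ (key 1 h)
    rcases hi' with rfl | rfl
    · exact absurd h4.1 (by decide)
    · exact absurd h4.1 (by decide)
  · intro h
    have h4 := h3 _ (key (-1) (by rw [sub_neg_eq_add]; exact h))
    rcases hi' with rfl | rfl
    · exact absurd h4.1 (by decide)
    · exact absurd h4.2 (by decide)

lemma not_lam_pB (hD : Dt π e) (i : ZMod 3) : ¬ lam ∣ pB π e i := by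
  intro h
  have h1 : lam ∣ pD π e := ((isUnit_w.pow i.val).dvd_mul_left).1 h
  have h3 : lam ∣ (3 : Ei) := ⟨-lam, by decide⟩
  have h4 : lam ∣ pD π e - 1 := h3.trans (three_pD hD)
  have h5 : lam ∣ (1 : Ei) := by
    have h6 := dvd_sub h1 h4
    rwa [sub_sub_cancel] at h6
  obtain ⟨c, hc⟩ := h5
  have h7 := congrArg nr hc
  rw [nr_mul, nr_one] at h7
  have h8 : nr lam = 3 := by decide
  rw [h8] at h7
  omega

end character

section eulerproduct
variable {K : Type} [Field K] [NumberField K] (j : Ei ≃+* 𝓞 K)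
variable {J : Type} [Fintype J] {π : J → Ei} {e : J → ZMod 3} {i : ZMod 3}

/-- the Euler product of the twisted L-function -/
theorem eulB (hpq : ∀ k, Pq (π k)) {F1 F2 : ℂ → ℂ} (h1 : IsHLB π e i F1)
    (h2 : IsHLB π (fun k => -e k) (-i) F2) {s : ℂ} (hs : 3 / 2 < s.re) {x : 𝓞 K → ℂ}
    (hx : ∀ α : Ei, (3 : Ei) ∣ α - 1 → x (j α) = xB π e i α) :
    HasProd (fun P => ZZ' x (vp j) P s) (F1 s * (starRingEnd ℂ) (F2 ((starRingEnd ℂ) s))) := by
  have hsc : 3 / 2 < ((starRingEnd ℂ) s).re := by rwa [Complex.conj_re]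
  have h3 := hasProd_Ei (gB_one hpq e i s) (gB_mul hpq e i s) (sumB h1 hs)
  have h4 := (hasProd_Ei (gB_one hpq (fun k => -e k) (-i) ((starRingEnd ℂ) s))
    (gB_mul hpq _ _ _) (sumB h2 hsc)).map (starRingEnd ℂ) Complex.continuous_conj
  have h5 := h3.mul h4
  rw [← (eK j).hasProd_iff]
  refine h5.congr_fun fun P => ?_
  have hP : eK j P = pK j P := rfl
  show ZZ' x (vp j) (eK j P) s = _
  rw [hP]
  unfold ZZ'
  by_cases h : (3 : ℤ) ∣ Pool.Agent.Y692.QS.nr (Pool.Agent.Y696.CT.gn P.asIdeal)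
  · rw [if_pos ((three_iff j P).2 h)]
    unfold fI
    simp [h]
  · rw [if_neg fun h' => h ((three_iff j P).1 h')]
    obtain ⟨k1, -, -, -⟩ := prime_data j h
    have hfI : ∀ g : Ei → ℂ, fI g P.asIdeal = g (g0 P) := fun g => by
      rw [g0_span P, fI_prim g k1.three]
    rw [vp_pK, hx _ k1.three, YY_val j h, mul_inv]
    show _ = (1 - fI (gB π e i s) P.asIdeal)⁻¹ *
      (starRingEnd ℂ) ((1 - fI (gB π (fun k => -e k) (-i) ((starRingEnd ℂ) s)) P.asIdeal)⁻¹)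
    rw [hfI, hfI]
    unfold gB
    rw [if_neg (ep_ndvd k1.three), if_neg (ep_ndvd k1.three)]
    rw [map_inv₀, map_sub, map_one, map_mul, map_mul, xB_conj hpq]
    congr 3
    rw [← Int.natAbs_of_nonneg (Pool.Agent.Y692.QS.nr_nonneg (g0 P)), Int.cast_natCast,
      conj_nat_cpow', map_neg, Complex.conj_conj]

end eulerproduct

section main
variable {K F : Type} [Field K] [NumberField K] [Field F] [NumberField F] [Algebra K F]
variable {J : Type} [Fintype J] {π : J → Ei} {e : J → ZMod 3} {i : ZMod 3}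

/-- the data of the extension with its Artin map -/
theorem mkDatB (hrec : S_REC) (j : Ei ≃+* 𝓞 K) (hdt : Dt π e) {θ : 𝓞 F}
    (hC : Cub j (pB π e i) θ) [IsGalois K F] {σ : F ≃ₐ[K] F} (h3 : σ ^ 3 = 1)
    (h1 : σ ≠ 1) (hg : ∀ g : F ≃ₐ[K] F, ∃ c : ZMod 3, g = σ ^ c.val)
    (hunr : ∀ v : HeightOneSpectrum (𝓞 F),
      algebraMap (𝓞 K) (𝓞 F) (j (3 * pB π e i)) ∉ v.asIdeal →
      ∀ g : F ≃ₐ[K] F, (∀ x : 𝓞 F, g • x - x ∈ v.asIdeal) → g = 1)
    (hfrob : ∀ α : Ei, Prime α → ¬ α ∣ 3 → ¬ α ∣ pB π e i →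
      ∀ v : HeightOneSpectrum (𝓞 F),
      algebraMap (𝓞 K) (𝓞 F) (j α) ∈ v.asIdeal → ∀ x : 𝓞 F,
        (σ ^ (cs α (pB π e i)).val) • x - x ^ Nat.card (𝓞 K ⧸ Ideal.span {j α}) ∈
          v.asIdeal)
    {f : (𝓞 K ⧸ Ideal.span {j (9 * pB π e i)})ˣ →* Multiplicative (ZMod 3)}
    (hf : Function.Surjective f)
    (hfv : ∀ (u : (𝓞 K ⧸ Ideal.span {j (9 * pB π e i)})ˣ) (z α : Ei), IsUnit z →
      (3 : Ei) ∣ α - 1 → (u : 𝓞 K ⧸ Ideal.span {j (9 * pB π e i)}) =
        Ideal.Quotient.mk _ (j (z * α)) →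
      f u = Multiplicative.ofAdd (i * nq α + ∑ k, e k * cs (π k) α)) :
    letI := cg h3 hg
    DatN (N := K) (K := F) (F ≃ₐ[K] F) (j (9 * pB π e i)) ((zh h3).comp f) := by
  let _ := cg h3 hg
  have h39 : (9 : Ei) * pB π e i = 3 * (3 * pB π e i) := by ring
  refine ⟨?_, ?_, ?_, ?_, ?_, ?_⟩
  · rw [Ne, map_eq_zero_iff _ j.injective]
    exact mul_ne_zero (by decide) hC.ne0
  · intro b hb
    exact Algebra.IsInvariant.isInvariant (A := 𝓞 K) (G := F ≃ₐ[K] F) b hb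
  · intro g a
    exact smul_algebraMap (α := F ≃ₐ[K] F) g a
  · exact (zh_surj h3 hg).comp hf
  · intro v hv
    refine hunr v fun h => hv ?_
    rw [h39, map_mul, map_mul]
    exact Ideal.mul_mem_left _ _ h
  · intro ϖ hϖ u hu v hv x
    obtain ⟨p, rfl⟩ := j.surjective ϖ
    have hp : Prime p := (MulEquiv.prime_iff (j : Ei ≃* 𝓞 K)).1 hϖ
    have hcop : IsCoprime (j p) (j (9 * pB π e i)) := by
      rw [← unitN_iff]
      rw [← hu]
      exact u.isUnit
    have hnd : ∀ y : Ei, y ∣ 9 * pB π e i → ¬ p ∣ y := by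
      intro y hy hpy
      have h4 : IsUnit (j p) := hcop.isUnit_of_dvd' dvd_rfl (map_dvd j (hpy.trans hy))
      exact hϖ.not_isUnit h4
    have hp3 : ¬ p ∣ 3 := hnd 3 (by rw [h39]; exact dvd_mul_right _ _)
    have hpD : ¬ p ∣ pB π e i := hnd _ (dvd_mul_left _ _)
    obtain ⟨z, α, hz, hα, hpz, hass⟩ := exists_primary hp hp3
    have h5 := hfv u z α hz hα.three (by rw [hu, hpz])
    have h6 : cs p (pB π e i) = i * nq α + ∑ k, e k * cs (π k) α := by
      rw [cs_assoc hp hp3 hα hass hpD, cs_pB hrec hdt hα fun h => hpD (hass.dvd.trans h)]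
    have h7 : ((zh h3).comp f) u = σ ^ (cs p (pB π e i)).val := by
      rw [MonoidHom.comp_apply, h5, zh_apply, h6]
    rw [h7]
    exact hfrob p hp hp3 hpD v hv x

/-- **The factorization of the L-function over `F`.** -/
theorem LF_main (hE6 : S_E6B) (hART : S_ARTB) (hGAL : S_GAL) (hrec : S_REC)
    (j : Ei ≃+* 𝓞 K) (hdt : Dt π e) (hi : i ≠ 0) {θ : 𝓞 F}
    (hC : Cub j (pB π e i) θ) {F1 F2 : ℂ → ℂ}
    (k1 : IsHLB π e i F1) (k2 : IsHLB π (fun k => -e k) (-i) F2) {s : ℂ} (hs : 3 / 2 < s.re) :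
    LSeriesSummable ((fun n : ℤ => (n : ℂ)) ∘ (E0 F).LFunction) s ∧
    (E0 F).LSeries s = (E0 K).LSeries s * (F1 s * (starRingEnd ℂ) (F2 ((starRingEnd ℂ) s))) *
      (F2 s * (starRingEnd ℂ) (F1 ((starRingEnd ℂ) s))) := by
  obtain ⟨hgal, σ, h3, h1, hg, hσθ, hunr, hfrob⟩ := hGAL K F j _ θ hC
  obtain ⟨f, hf, hfv⟩ := hART K j J π e i hdt hi
  have h3D := three_w (three_pD hdt) hi
  let _ := cg h3 hg
  have hD := mkDatB hrec j hdt hC h3 h1 hg hunr hfrob hf hfv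
  have hfinM : Finite (MulChar (F ≃ₐ[K] F) ℂ) := inferInstance
  have : Fintype (MulChar (F ≃ₐ[K] F) ℂ) := Fintype.ofFinite _
  have h3F : ∀ v : HeightOneSpectrum (𝓞 F), (3 : 𝓞 F) ∈ v.asIdeal →
      aV (E0 F) v = 0 ∧ eV (E0 F) v = 0 := fun v hv =>
    aV_bad6 (hE6 K F j _ θ hC (not_lam_pB hdt i) h3D.1 h3D.2 v hv)
  have hF := LSeries_hasProd' (E0 F) (hasseA ((algebraMap (𝓞 K) (𝓞 F)).comp (io j)) h3F) hs
  have hK := LSeries_hasProd' (E0 K) (hasseN (io j) (val3_K j)) hs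
  refine ⟨hF.1, ?_⟩
  have q1 : HasProd (fun v : HeightOneSpectrum (𝓞 F) => XX v s) ((E0 F).LSeries s) := hF.2
  have q2 : HasProd (fun P : HeightOneSpectrum (𝓞 K) => XX P s) ((E0 K).LSeries s) := hK.2
  have q3 := (Equiv.sigmaFiberEquiv (und (F := K) (K := F))).hasProd_iff.2 q1
  have q4 : HasProd (fun P : HeightOneSpectrum (𝓞 K) =>
      ∏ v : {v : HeightOneSpectrum (𝓞 F) // und v = P}, XX v.1 s) ((E0 F).LSeries s) := by
    refine q3.sigma fun P => ?_
    exact hasProd_fintype _ (.unconditional _)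
  have k1' : IsHLB π (fun k => -(fun k => -e k) k) (-(-i)) F1 := by
    rw [negneg, neg_neg]
    exact k1
  have q5 := eulB j (e := e) hdt.pq k1 k2 hs
    (x := fun y => xB π e i (j.symm y)) (fun α _ => by rw [j.symm_apply_apply])
  have q6 := eulB j (e := fun k => -e k) hdt.pq k2 k1' hs
    (x := fun y => xB π (fun k => -e k) (-i) (j.symm y)) (fun α _ => by rw [j.symm_apply_apply])
  refine q4.unique (((q2.mul q5).mul q6).congr_fun fun P => ?_)
  show _ = XX P s * ZZ' (fun y => xB π e i (j.symm y)) (vp j) P s *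
    ZZ' (fun y => xB π (fun k => -e k) (-i) (j.symm y)) (vp j) P s
  by_cases h3P : (3 : 𝓞 K) ∈ P.asIdeal
  · have e1 : ∀ x : 𝓞 K → ℂ, ZZ' x (vp j) P s = 1 := fun x => if_pos h3P
    obtain ⟨a1, a2⟩ := bad_K j P h3P
    have e2 : XX P s = 1 := by
      unfold XX
      rw [a1, a2]
      simp
    rw [e1, e1, e2, mul_one, mul_one]
    refine Finset.prod_eq_one fun v _ => ?_
    have h8 : (3 : 𝓞 F) ∈ v.1.asIdeal := by
      have h7 := v.2
      rw [← map_ofNat (algebraMap (𝓞 K) (𝓞 F)) 3, ← mem_und, h7]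
      exact h3P
    obtain ⟨a3, a4⟩ := h3F v.1 h8
    unfold XX
    rw [a3, a4]
    simp
  · have e1 : ∀ x : 𝓞 K → ℂ, ZZ' x (vp j) P s = YY P (x (vp j P)) s := fun x => if_neg h3P
    rw [e1, e1]
    obtain ⟨Q, rfl⟩ := (eK j).surjective P
    have hP : eK j Q = pK j Q := rfl
    rw [hP] at h3P ⊢
    have h3Q : ¬ (3 : ℤ) ∣ Pool.Agent.Y692.QS.nr (Pool.Agent.Y696.CT.gn Q.asIdeal) :=
      fun h' => h3P ((three_iff j Q).2 h')
    obtain ⟨hpq, -, -, -⟩ := prime_data j h3Q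
    rw [vp_pK, j.symm_apply_apply]
    have hspan : Ideal.span {j (g0 Q)} = (pK j Q).asIdeal := (pK_span j (g0_span Q)).symm
    by_cases hDQ : g0 Q ∣ pB π e i
    · have h0 : ∀ (e : J → ZMod 3) (i : ZMod 3), xB π e i (g0 Q) = 0 := fun e' i' => by
        unfold xB
        rw [chD_bad hpq.prime hdt (Or.inl rfl) (dvd_pB.1 hDQ) e', zero_mul]
      have hy : YY (pK j Q) 0 s = 1 := by
        unfold YY
        simp
      rw [h0, h0, hy, mul_one, mul_one]
      obtain ⟨v, hv1, hv2⟩ := ramf K F j _ θ hC (cf_pB hdt) (pK j Q) (by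
        rw [mem_pK, g0_span Q, Ideal.mem_span_singleton]
        exact hDQ)
      have hund : ∀ u : HeightOneSpectrum (𝓞 F), und u = pK j Q ↔ u = v := by
        intro u
        rw [← hv1 u]
        constructor
        · intro h
          exact congrArg HeightOneSpectrum.asIdeal h
        · intro h
          exact HeightOneSpectrum.ext h
      have hu : Unique {u : HeightOneSpectrum (𝓞 F) // und u = pK j Q} :=
        ⟨⟨⟨v, (hund v).2 rfl⟩⟩, fun u => Subtype.ext ((hund u.1).1 u.2)⟩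
      have hval : ∀ u : {u : HeightOneSpectrum (𝓞 F) // und u = pK j Q},
          XX u.1 s = XX (pK j Q) s := by
        intro u
        have h5 := (hund u.1).1 u.2
        exact XX_deg1 j u.2 h3P (by rw [h5, hv2]) s
      rw [Finset.prod_congr rfl fun u _ => hval u, Finset.prod_const, Finset.card_univ]
      have hc1 : Fintype.card {u : HeightOneSpectrum (𝓞 F) // und u = pK j Q} = 1 := by
        rw [Fintype.card_eq_one_iff]
        exact ⟨⟨v, (hund v).2 rfl⟩, fun u => Subtype.ext ((hund u.1).1 u.2)⟩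
      rw [hc1, pow_one]
    · have hPc : j (9 * pB π e i) ∉ (pK j Q).asIdeal := by
        rw [mem_pK, g0_span Q, Ideal.mem_span_singleton]
        intro h
        rcases hpq.prime.dvd_or_dvd h with h' | h'
        · have h9 : (9 : Ei) = 3 * 3 := by decide
          rw [h9] at h'
          rcases hpq.prime.dvd_or_dvd h' with h'' | h''
          · exact hpq.norm h''
          · exact hpq.norm h''
        · exact hDQ h'
      have hcop : IsCoprime (j (g0 Q)) (j (9 * pB π e i)) := by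
        have hmax : (pK j Q).asIdeal.IsMaximal := (pK j Q).isPrime.isMaximal (pK j Q).ne_bot
        rw [← Ideal.isCoprime_span_singleton_iff, hspan, Ideal.isCoprime_iff_sup_eq]
        refine hmax.out.2 _ ?_
        refine lt_of_le_of_ne le_sup_left fun he => hPc ?_
        rw [he]
        exact Ideal.mem_sup_right (Ideal.mem_span_singleton_self _)
      obtain ⟨u, hu⟩ := (unitN_iff (j (g0 Q))).2 hcop
      have hfu := hfv u 1 (g0 Q) isUnit_one hpq.three (by rw [one_mul]; exact hu)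
      have hart : ((zh h3).comp f) u =
          σ ^ (i * nq (g0 Q) + ∑ k, e k * cs (π k) (g0 Q)).val := by
        rw [MonoidHom.comp_apply, hfu, zh_apply]
      rw [fib_goodN (io j) hD hPc h3P hspan hu (by linarith), hart,
        prod_chars h3 h1 hg (fun z => YY (pK j Q) z s), XX_YY j (pK j Q) h3P]
      have hnd : ¬ ∃ k, π k ∣ g0 Q := by
        rintro ⟨k, hk⟩
        apply hDQ
        have h5 := ((hdt.pq k).prime.associated_of_dvd hpq.prime hk).symm.dvd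
        exact dvd_pB.2 (h5.trans (pi_dvd_pD hdt k))
      have c1 : xB π e i (g0 Q) =
          toC w ^ (i * nq (g0 Q) + ∑ k, e k * cs (π k) (g0 Q)).val := by
        unfold xB chD
        rw [if_neg hnd, ← tw_add, add_comm]
      have c2 : xB π (fun k => -e k) (-i) (g0 Q) =
          toC w ^ (-(i * nq (g0 Q) + ∑ k, e k * cs (π k) (g0 Q))).val := by
        unfold xB chD
        rw [if_neg hnd, ← tw_add, neg_add, neg_mul, ← Finset.sum_neg_distrib, add_comm]
        congr 3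
        exact Finset.sum_congr rfl fun k _ => neg_mul _ _
      rw [c1, c2]

end main

end Lfe

theorem lfB : S_LFB := by
  intro hE6 hART hGAL hrec K F _ _ _ _ _ j J _ _ π e i hdt hi θ hC F1 F2 k1 k2 s hs
  exact Lfe.LF_main hE6 hART hGAL hrec j hdt hi hC k1 k2 hs

end Pool.Agent.N883.FF
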