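import Pool.Agent.N883.FF.StmK
import Pool.Agent.R419.CE.Pd

/-!
# Project FF, task LK (helper488): the `L`-function of `y² + D y = x³` over `ℚ(ω)`, `D = ω ^ i D'`

Adapted from the file `R419/KF/LK.lean` (`i = 0`).
-/

set_option autoImplicit false
set_option linter.unusedVariables false

namespace Pool.Agent.N883.FF.Lk

open NumberField IsDedekindDomain WeierstrassCurve
open Pool.Agent.W189.NF (aV eV redMap Ov mem_max_iff finite_res card_res redMap_eq_zero aLoc eLoc)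
open Pool.Agent.H921R2.TatePole (nm two_le_nm)
open Pool.Agent.Y715.T.Rs (eq0 eq0_coe card_quo)
open Pool.Agent.Y703.CT
open Pool.Agent.Y696 Pool.Agent.Y696.CT
open Pool.Agent.Y696.CTK
open Pool.Agent.Y692.QS hiding chi
open Pool.Agent.Y715.T.Rec (cs nn w_add)
open Pool.Agent.Y715.T.RecG (Pq cs_spec cs_mul cs_pow cs_of)
open Pool.Agent.R419.CE (three_pD pi_dvd_pD val_ne)
open scoped Classical

lemma isUnit_wpow (n : ℕ) : IsUnit ((w : Ei) ^ n) := by
  have h : IsUnit (w : Ei) := by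
    rw [isUnit_iff]
    decide
  exact h.pow n

/-! ### the exponent `nq` -/

lemma nr_three {α : Ei} (h : ¬ (3 : ℤ) ∣ nr α) : ∃ a : ℤ, nr α = 3 * a + 1 := by
  have h2 : ∀ x y : ZMod 3, x ^ 2 - x * y + y ^ 2 ≠ 0 → x ^ 2 - x * y + y ^ 2 = 1 := by decide
  have h3 : ((nr α : ℤ) : ZMod 3) = 1 := by
    have h4 : ((nr α : ℤ) : ZMod 3) ≠ 0 := by
      intro h5
      exact h (by exact_mod_cast (ZMod.intCast_zmod_eq_zero_iff_dvd (nr α) 3).1 h5)
    have h6 := nr_mod α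
    rw [h6] at h4 ⊢
    generalize ((α.re : ℤ) : ZMod 3) = x at h4 ⊢
    generalize ((α.im : ℤ) : ZMod 3) = y at h4 ⊢
    revert x y
    decide
  have h5 : ((nr α - 1 : ℤ) : ZMod 3) = 0 := by
    push_cast
    rw [h3, sub_self]
  obtain ⟨a, ha⟩ := (ZMod.intCast_zmod_eq_zero_iff_dvd (nr α - 1) 3).1 h5
  refine ⟨a, ?_⟩
  push_cast at ha
  linarith

lemma nq_of {α : Ei} {a : ℤ} (h : nr α = 3 * a + 1) : nq α = (a : ZMod 3) := by
  unfold nq
  rw [h, add_sub_cancel_right, Int.mul_ediv_cancel_left _ (by norm_num)]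

lemma nq_mul {α β : Ei} (hα : ¬ (3 : ℤ) ∣ nr α) (hβ : ¬ (3 : ℤ) ∣ nr β) :
    nq (α * β) = nq α + nq β := by
  obtain ⟨a, ha⟩ := nr_three hα
  obtain ⟨b, hb⟩ := nr_three hβ
  have hab : nr (α * β) = 3 * (3 * a * b + a + b) + 1 := by
    rw [nr_mul, ha, hb]
    ring
  rw [nq_of ha, nq_of hb, nq_of hab]
  push_cast
  have h3 : (3 : ZMod 3) = 0 := by decide
  rw [h3]
  ring

lemma nq_one : nq 1 = 0 := by
  have h : nr (1 : Ei) = 3 * 0 + 1 := by rw [nr_one]; norm_num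
  rw [nq_of h, Int.cast_zero]

lemma cs_w {ρ : Ei} (hρ : Pq ρ) : cs ρ w = nq ρ := by
  apply cs_of hρ.prime hρ.norm
  have h3 : ¬ (3 : ℤ) ∣ nr ρ := ep_ndvd hρ.three
  obtain ⟨a, ha⟩ := nr_three h3
  have h0 := nr_nonneg ρ
  have ha0 : 0 ≤ a := by omega
  obtain ⟨n, rfl⟩ := Int.eq_ofNat_of_zero_le ha0
  have h4 : nn ρ = n := by
    unfold nn
    rw [ha]
    omega
  rw [nq_of ha, h4]
  have h5 : (w : Ei) ^ n = w ^ (((n : ℕ) : ℤ) : ZMod 3).val := by
    rw [Int.cast_natCast, ZMod.val_natCast]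
    conv_lhs => rw [← Nat.div_add_mod n 3, pow_add, pow_mul, w_cube, one_pow, one_mul]
  rw [h5, sub_self]
  exact dvd_zero _

/-! ### the function -/

section
variable {J : Type} [Fintype J] {π : J → Ei} {e : J → ZMod 3}

/-- the summand -/
noncomputable def gB (π : J → Ei) (e : J → ZMod 3) (i : ZMod 3) (s : ℂ) (α : Ei) : ℂ :=
  if (3 : ℤ) ∣ nr α then 0 else gg π e s α * toC w ^ (i * nq α).val

lemma gB_prim (π : J → Ei) (e : J → ZMod 3) (i : ZMod 3) (s : ℂ) {α : Ei}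
    (h : ¬ (3 : ℤ) ∣ nr α) : gB π e i s α = gg π e s α * toC w ^ (i * nq α).val := if_neg h

lemma gB_one (hpq : ∀ j, Pq (π j)) (e : J → ZMod 3) (i : ZMod 3) (s : ℂ) :
    gB π e i s 1 = 1 := by
  rw [gB_prim _ _ _ _ (by rw [nr_one]; decide), gg_one hpq, nq_one, mul_zero, ZMod.val_zero,
    pow_zero, one_mul]

lemma gB_mul (hpq : ∀ j, Pq (π j)) (e : J → ZMod 3) (i : ZMod 3) (s : ℂ) (α β : Ei) :
    gB π e i s (α * β) = gB π e i s α * gB π e i s β := by
  unfold gB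
  by_cases h1 : (3 : ℤ) ∣ nr α
  · rw [if_pos h1, if_pos (by rw [nr_mul]; exact Dvd.dvd.mul_right h1 _), zero_mul]
  by_cases h2 : (3 : ℤ) ∣ nr β
  · rw [if_pos h2, if_pos (by rw [nr_mul]; exact Dvd.dvd.mul_left h2 _), mul_zero]
  have h3 : ¬ (3 : ℤ) ∣ nr (α * β) := by
    rw [nr_mul]
    intro h
    exact (Int.prime_three.dvd_or_dvd h).elim h1 h2
  rw [if_neg h1, if_neg h2, if_neg h3, gg_mul hpq, nq_mul h1 h2, mul_add, tw_add]
  ring

/-- the symbol of `D` -/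
lemma cs_pB {ρ : Ei} (hρ : Pq ρ) (i : ZMod 3) (hD : ¬ ρ ∣ pD π e) :
    cs ρ (pB π e i) = i * nq ρ + cs ρ (pD π e) := by
  have hw : ¬ ρ ∣ w := fun h => hρ.prime.not_isUnit (isUnit_of_dvd_unit h (by
    simpa using isUnit_wpow 1))
  have hw' : ¬ ρ ∣ w ^ i.val := fun h => hρ.prime.not_isUnit (isUnit_of_dvd_unit h (isUnit_wpow _))
  unfold pB
  rw [cs_mul hρ.prime hρ.norm hw' hD, cs_pow hρ.prime hρ.norm hw, ZMod.natCast_zmod_val, cs_w hρ]

lemma not_dvd {ρ : Ei} (i : ZMod 3) (hD : ¬ ρ ∣ pB π e i) : ¬ ρ ∣ pD π e := fun h => hD (by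
  unfold pB
  exact Dvd.dvd.mul_left h _)

lemma of_dvd {ρ : Ei} (hρ : Prime ρ) (i : ZMod 3) (hD : ρ ∣ pB π e i) : ρ ∣ pD π e := by
  unfold pB at hD
  rcases hρ.dvd_or_dvd hD with h | h
  · exact absurd (isUnit_of_dvd_unit h (isUnit_wpow _)) hρ.not_isUnit
  · exact h

/-- the value at the primes -/
lemma gB_prime (hrec : S_REC) (hdt : Dt π e) {ρ : Ei} (hρ : Pq ρ) (i : ZMod 3)
    (hD : ¬ ρ ∣ pB π e i) (z : ℂ) :
    gB π (fun k => -e k) (-i) z ρ =
      toC (w ^ (-cs ρ (pB π e i)).val * ρ) * ((nr ρ : ℤ) : ℂ) ^ (-z) := by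
  have h1 := chD_prime hrec hdt (Or.inl rfl) hρ (not_dvd i hD)
  rw [gB_prim _ _ _ _ (ep_ndvd hρ.three)]
  unfold gg
  have h2 : -cs ρ (pB π e i) = -cs ρ (pD π e) + -i * nq ρ := by
    rw [cs_pB hρ i (not_dvd i hD)]
    ring
  rw [h1, h2, map_mul, map_pow, tw_add]
  ring

end

section
variable {K : Type} [Field K] [NumberField K] (j : Ei ≃+* 𝓞 K)
variable {J : Type} [Fintype J] {π : J → Ei} {e : J → ZMod 3}

/-- at the prime above three -/
theorem bad_three {P : HeightOneSpectrum Ei} (h : (3 : ℤ) ∣ nr (gn P.asIdeal)) {D : Ei}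
    (hD : ¬ tht ∣ D) :
    aV (ED (j D : K)) (pK j P) = 0 ∧ eV (ED (j D : K)) (pK j P) = 0 := by
  have hs := three_span h
  refine bad_of (t := j tht) (r := (j D) ^ 4) (m := 6) ?_ (pK_span j hs) (by norm_num) ?_ ?_
  · rw [Ne, map_eq_zero_iff j j.injective]
    exact tht_prime.ne_zero
  · intro h4
    have h5 := (pK j P).isPrime.mem_of_pow_mem 4 h4
    rw [mem_pK, hs, Ideal.mem_span_singleton] at h5
    exact hD h5
  · have h7 : (-27 : 𝓞 K) = (j tht) ^ 6 := by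
      rw [← map_pow]
      have : tht ^ 6 = -27 := by decide
      rw [this, map_neg, map_ofNat]
    rw [h7]

lemma tht_pB (hdt : Dt π e) (i : ZMod 3) : ¬ tht ∣ pB π e i := by
  intro h
  have h1 := of_dvd tht_prime i h
  have h3 : tht ∣ (3 : Ei) := ⟨-tht, by linear_combination tht_sq⟩
  have h2 := dvd_sub h1 (dvd_trans h3 (three_pD hdt))
  rw [sub_sub_cancel] at h2
  exact tht_prime.not_isUnit (isUnit_of_dvd_one h2)

/-- at the primes dividing `D` -/
theorem bad_D {P : HeightOneSpectrum Ei} (hdt : Dt π e) (c : ZMod 3) {i : J}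
    (h : P.asIdeal = Ideal.span {π i}) :
    aV (ED (j (pB π e c) : K)) (pK j P) = 0 ∧
      eV (ED (j (pB π e c) : K)) (pK j P) = 0 := by
  have hi := hdt.pq i
  have hsp : pD π e = π i ^ (e i).val * ∏ l ∈ Finset.univ.erase i, π l ^ (e l).val := by
    unfold pD
    exact (Finset.mul_prod_erase Finset.univ (fun l => π l ^ (e l).val) (Finset.mem_univ i)).symm
  refine bad_of (t := j (π i)) (r := -27 * (j (w ^ c.val *
    ∏ l ∈ Finset.univ.erase i, π l ^ (e l).val)) ^ 4)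
    (m := 4 * (e i).val) ?_ (pK_span j h) ?_ ?_ ?_
  · rw [Ne, map_eq_zero_iff j j.injective]
    exact hi.prime.ne_zero
  · have h1 : (e i).val < 3 := ZMod.val_lt _
    have h2 : (e i).val ≠ 0 := val_ne (hdt.e0 i)
    omega
  · intro h4
    rcases (pK j P).isPrime.mem_or_mem h4 with h5 | h5
    · have h6 : (-27 : 𝓞 K) = j (-(3 ^ 3)) := by
        rw [map_neg, map_pow, map_ofNat]
        norm_num
      rw [h6, mem_pK, h, Ideal.mem_span_singleton, dvd_neg] at h5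
      have h7 := hi.prime.dvd_of_dvd_pow h5
      apply hi.prime.not_isUnit
      apply isUnit_of_dvd_one
      have h8 := dvd_sub (dvd_refl (π i)) (dvd_trans h7 hi.three)
      rwa [sub_sub_cancel] at h8
    · have h6 := (pK j P).isPrime.mem_of_pow_mem 4 h5
      rw [mem_pK, h, Ideal.mem_span_singleton] at h6
      rcases hi.prime.dvd_or_dvd h6 with h8 | h8
      · exact hi.prime.not_isUnit (isUnit_of_dvd_unit h8 (isUnit_wpow _))
      · rw [Prime.dvd_finsetProd_iff hi.prime] at h8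
        obtain ⟨l, hl, h7⟩ := h8
        exact hdt.nd l i (Finset.ne_of_mem_erase hl) (hi.prime.dvd_of_dvd_pow h7)
  · unfold pB
    rw [hsp, map_mul, map_mul, map_mul, map_pow, map_pow]
    ring

/-- the factor of the Hecke `L`-function and its conjugate -/
theorem factorK (hrec : S_REC) (hdt : Dt π e) (c : ZMod 3) (s : ℂ) (P : HeightOneSpectrum Ei) :
    HBd (aV (ED (j (pB π e c) : K)) (pK j P))
      (eV (ED (j (pB π e c) : K)) (pK j P)) (nm (pK j P)) ∧
    (1 - (aV (ED (j (pB π e c) : K)) (pK j P) : ℂ) * (nm (pK j P) : ℂ) ^ (-s) +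
      (eV (ED (j (pB π e c) : K)) (pK j P) : ℂ) * ((nm (pK j P) : ℂ) ^ (-s)) ^ 2)⁻¹ =
    (1 - fI (gB π (fun i => -e i) (-c) s) P.asIdeal)⁻¹ *
      (starRingEnd ℂ) ((1 - fI (gB π (fun i => -e i) (-c) ((starRingEnd ℂ) s)) P.asIdeal)⁻¹) := by
  have hbad : aV (ED (j (pB π e c) : K)) (pK j P) = 0 ∧
      eV (ED (j (pB π e c) : K)) (pK j P) = 0 →
      (∀ z, fI (gB π (fun i => -e i) (-c) z) P.asIdeal = 0) →
      HBd (aV (ED (j (pB π e c) : K)) (pK j P))
      (eV (ED (j (pB π e c) : K)) (pK j P)) (nm (pK j P)) ∧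
    (1 - (aV (ED (j (pB π e c) : K)) (pK j P) : ℂ) * (nm (pK j P) : ℂ) ^ (-s) +
      (eV (ED (j (pB π e c) : K)) (pK j P) : ℂ) * ((nm (pK j P) : ℂ) ^ (-s)) ^ 2)⁻¹ =
    (1 - fI (gB π (fun i => -e i) (-c) s) P.asIdeal)⁻¹ *
      (starRingEnd ℂ) ((1 - fI (gB π (fun i => -e i) (-c) ((starRingEnd ℂ) s)) P.asIdeal)⁻¹) := by
    rintro ⟨h1, h2⟩ h3
    refine ⟨Or.inl ⟨h1, h2⟩, ?_⟩
    rw [h1, h2, h3, h3]
    simp
  by_cases h3 : (3 : ℤ) ∣ nr (gn P.asIdeal)
  · refine hbad (bad_three j h3 (tht_pB hdt c)) fun z => ?_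
    unfold fI
    rw [if_pos h3]
  · set α := ns (gn P.asIdeal) with hα
    have hs := span_ns h3
    rw [← hα] at hs
    have hpq := pq_ns h3
    rw [← hα] at hpq
    have hfI : ∀ g : Ei → ℂ, fI g P.asIdeal = g α := fun g => by
      rw [hs, fI_prim g hpq.three]
    by_cases hD : α ∣ pB π e c
    · have hD' := of_dvd hpq.prime c hD
      obtain ⟨i, hi⟩ := dvd_pD hpq.prime hdt hD'
      refine hbad (bad_D j hdt c (i := i) ?_) fun z => ?_
      · rw [hs]
        exact Ideal.span_singleton_eq_span_singleton.2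
          ((hdt.pq i).prime.associated_of_dvd hpq.prime hi).symm
      · rw [hfI, gB_prim _ _ _ _ (ep_ndvd hpq.three)]
        unfold gg
        rw [chD_bad hpq.prime hdt (Or.inl rfl) hD', mul_zero, zero_mul, zero_mul]
    · obtain ⟨v1, v2⟩ := good_val j hpq (pK_span j hs) hD
      have hnm := nm_nr j (pK_span j hs)
      set x := toC (w ^ (-cs α (pB π e c)).val * α) with hx
      have hxx : x * (starRingEnd ℂ) x = (nm (pK j P) : ℂ) := by
        rw [Complex.mul_conj, hx, toC_normSq, nr_mul]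
        have h5 : nr (w ^ (-cs α (pB π e c)).val) = 1 := by
          generalize -cs α (pB π e c) = c
          revert c
          decide
        rw [h5, one_mul, ← hnm]
        push_cast
        rfl
      have hg : ∀ z, gB π (fun i => -e i) (-c) z α = x * (nm (pK j P) : ℂ) ^ (-z) := by
        intro z
        rw [gB_prime hrec hdt hpq c hD z, ← hnm, hx]
        push_cast
        rfl
      refine ⟨Or.inr ⟨x, v1, ?_, hxx⟩, ?_⟩
      · rw [v2, hxx]
      · rw [hfI, hfI, hg, hg, v1, v2, map_inv₀, map_sub, map_one, map_mul, conj_nat_cpow',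
          map_neg, Complex.conj_conj, ← mul_inv]
        congr 1
        linear_combination (-(((nm (pK j P) : ℕ) : ℂ) ^ (-s)) ^ 2) * hxx

end

end Pool.Agent.N883.FF.Lk

namespace Pool.Agent.N883.FF

open NumberField IsDedekindDomain WeierstrassCurve
open Pool.Agent.W189.NF (aV eV)
open Pool.Agent.H921R2.TatePole (nm)
open Pool.Agent.Y692.QS (Ei w nr toC)
open Pool.Agent.Y703.CT
open Pool.Agent.Y696 Pool.Agent.Y696.CT
open Pool.Agent.Y696.CTK
open Lk

/-- **FF-LK.** -/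
theorem lk (hrec : Pool.Agent.Y703.CT.S_REC) : S_LKB := by
  intro K _ _ j J _ π e i hdt F hF s hs
  have hsum : ∀ z : ℂ, 3 / 2 < z.re → HasSum (fun α : {α : Ei // (3 : Ei) ∣ α - 1} =>
      gB π (fun k => -e k) (-i) z α) (F z) := by
    intro z hz
    refine (hF.2 z hz).congr_fun fun α => ?_
    rw [gB_prim _ _ _ _ (ep_ndvd α.2)]
    unfold gg
    ring
  have hsc : 3 / 2 < ((starRingEnd ℂ) s).re := by rwa [Complex.conj_re]
  have h1 := hsum s hs
  have h2 := hsum _ hsc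
  have h3 := hasProd_Ei (gB_one hdt.pq _ _ s) (gB_mul hdt.pq _ _ s) h1
  have h4 := (hasProd_Ei (gB_one hdt.pq _ _ ((starRingEnd ℂ) s)) (gB_mul hdt.pq _ _ _) h2).map
    (starRingEnd ℂ) Complex.continuous_conj
  have h5 := h3.mul h4
  have hE : ∀ v : HeightOneSpectrum (𝓞 K), HBd (aV (ED (j (pB π e i) : K)) v)
      (eV (ED (j (pB π e i) : K)) v) (nm v) := by
    intro v
    obtain ⟨P, rfl⟩ := (eK j).surjective v
    exact (factorK j hrec hdt i s P).1
  obtain ⟨h6, h7⟩ := LSeries_hasProd' (ED (j (pB π e i) : K)) hE hs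
  refine ⟨h6, ?_⟩
  have h8 := (eK j).hasProd_iff.2 h7
  refine h5.unique (h8.congr_fun fun P => ?_)
  exact ((factorK j hrec hdt i s P).2).symm

end Pool.Agent.N883.FF
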