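import Pool.Agent.N883.FF.StmS
import Pool.Agent.Y153.CT.RAM

/-!
# Project FF (helper883): local conditions at the primes not above three, for all `D`
(helper711; generalization of `Pool/Agent/Y153/CT/RAM.lean`)
-/

set_option autoImplicit false
set_option linter.unusedVariables false

open scoped Classical

namespace Pool.Agent.N883.FF

open WeierstrassCurve
open Pool.Agent.Y703.CT
open Pool.Agent.Y692.QS (Ei w nr toC)
open Pool.Agent.Y715.T.Gi Pool.Agent.Y715.T.Nr Pool.Agent.Y715.T.Df Pool.Agent.Y715.T.Ell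
open Pool.Agent.Y715.T.Red Pool.Agent.Y715.T.Odd
open Pool.Agent.Y153.CTRAM

/-- FF-UNR -/
theorem unr : S_UNRG := by
  intro D hD0 i₀ hi u a hT h p _ ι hp hD R hS τ σ hc hτ
  have hI := iota_sq' hi ι
  have h3 := norm_three_one (p := p) hp
  have hu := u_ne hT hD0
  have ha : a σ = 0 := by
    refine a_zero hT hu ?_
    apply ι.injective
    show ι (σ u) = ι u
    rw [← hc]
    have hτI : τ (ι i₀) = ι i₀ := hc.fix
    refine fix_of_unit hI hp (z := ι (ev i₀ hi D)) ?_ ?_ hτ ?_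
    · rw [← map_pow, hT.cube]
    · rw [iota_ev] at hD ⊢
      exact eq_one_of_not_lt hI hD
    · rw [iota_ev]
      exact ev_fix hI hτI _
  refine ⟨ha, ?_⟩
  have h4 := hS τ σ hc
  rw [ha, jj_zero] at h4
  apply tt_mem (p := p)
  rw [← h4]
  exact inert_mem h3 hτ _

/-- FF-RAM -/
theorem ram : S_RAMG := by
  intro D ϖ m hpr hϖ3 hmD hmD' h3m i₀ hi u a hT h p _ ι hπ R hS
  have hI := iota_sq' hi ι
  have hD0 : D ≠ 0 := by
    rintro rfl
    exact hmD' (dvd_zero _)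
  have hu := u_ne hT hD0
  have hπ' := hπ
  rw [iota_ev] at hπ'
  -- the residue characteristic is not three
  have hp : p ≠ 3 := by
    rintro rfl
    apply hϖ3
    rw [dvd_iff hI hpr hπ']
    rw [map_ofNat, norm_three']
    norm_num
  have h3 := norm_three_one (p := p) hp
  -- an automorphism of the inertia group which moves the cube root
  have hne : ∃ (τ : Au p) (σ : GK i₀), Cmp ι τ σ ∧ Inert τ ∧ a σ ≠ 0 := by
    by_contra hcon
    push Not at hcon
    have hfix : ∀ τ : Au p, Inert τ → τ (ι i₀) = ι i₀ → τ (ι u) = ι u := by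
      intro τ hτ hτI
      obtain ⟨σ, hc⟩ := exists_cmp ι τ hτI
      rw [hc, hT.act σ, hcon τ σ hc hτ, neg_zero, ZMod.val_zero, pow_zero, one_mul]
    obtain ⟨k, hk⟩ := norm_odd hI hp (z := ι u) ((map_ne_zero ι).2 hu) hfix
    obtain ⟨D', rfl⟩ := hmD
    have hD' : ¬ ϖ ∣ D' := by
      rintro ⟨c, rfl⟩
      apply hmD'
      exact ⟨c, by rw [pow_succ]; ring⟩
    have hn : ‖(ι u) ^ 3‖ = (p : ℝ) ^ (-(m : ℤ)) := by
      have h4 : ¬ ‖ev (ι i₀) hI D'‖ < 1 := fun h5 => hD' ((dvd_iff hI hpr hπ' _).2 h5)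
      rw [← map_pow, hT.cube, iota_ev, map_mul, norm_mul, eq_one_of_not_lt hI h4, mul_one,
        map_pow, norm_pow, norm_prime hI hp hpr hπ', inv_pow, zpow_neg, zpow_natCast]
    have h5 := three_of hk hn
    omega
  obtain ⟨τ₁, σ₁, hc₁, hτ₁, ha₁⟩ := hne
  obtain ⟨hn3, hT3⟩ := exists_T3 hI
  set T3 : Pt (PadicAlgCl p) := Affine.Point.some (-1) ((ι i₀) ^ 2) hn3 with hT3d
  have hjT3 : ∀ c : ZMod 3, jj hI c T3 = T3 - tt _ c := by
    intro c
    rcases z3 c with rfl | rfl | rfl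
    · rw [jj_zero, tt_zero, sub_zero]
    · rw [jj_one, hT3]
    · rw [jj_neg_one, hT3, map_sub, im_tt, hT3, sub_sub, ← tt_add]
      congr 2
  have hlT3 : ∀ τ : Au p, τ (ι i₀) = ι i₀ → pm (lh τ) T3 = T3 := by
    intro τ hτI
    rw [hT3d, pm_some, Affine.Point.some.injEq]
    rw [lh_apply, lh_apply]
    constructor
    · rw [map_neg, map_one]
    · rw [map_pow, hτI]
  -- the correction
  obtain ⟨ε, hε⟩ : ∃ ε : ZMod 3, ε * a σ₁ = h σ₁ := by
    refine ⟨h σ₁ * a σ₁, ?_⟩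
    have : ∀ x y : ZMod 3, y ≠ 0 → x * y * y = x := by decide
    exact this _ _ ha₁
  refine ⟨ε, ?_⟩
  set R' : Pt (PadicAlgCl p) := R + ε.val • T3 with hR'
  have hmem : jj hI (a σ₁) R' - R' ∈ E1 (isE (PadicAlgCl p)) := by
    have h4 := hS τ₁ σ₁ hc₁
    have h5 := jj_mem hI (a σ₁) (inert_mem h3 hτ₁ R)
    rw [jj_sub] at h5
    have e1 : jj hI (a σ₁) R' - R' = -(jj hI (a σ₁) (pm (lh τ₁) R) - jj hI (a σ₁) R) := by
      have e2 : jj hI (a σ₁) (pm (lh τ₁) R) = R + tt _ (h σ₁) := by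
        rw [← h4]
        abel
      rw [e2, hR', jj_add, jj_nsmul, hjT3, smul_sub, nsmul_tt, hε]
      abel
    rw [e1]
    exact neg_mem h5
  have hmem2 : R' - im (isE _) hI R' ∈ E1 (isE (PadicAlgCl p)) := by
    rcases z3 (a σ₁) with h4 | h4 | h4
    · exact absurd h4 ha₁
    · rw [h4, jj_one] at hmem
      rw [← neg_sub]
      exact neg_mem hmem
    · rw [h4, jj_neg_one, im_im] at hmem
      have h5 := im_mem _ hI hmem
      rw [map_sub, map_sub, map_neg, im_im] at h5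
      have e1 : R' - im (isE _) hI R' =
          -im (isE (PadicAlgCl p)) hI R' - (-R' - im (isE _) hI R') - im (isE _) hI R' := by
        abel
      rw [e1]
      exact h5
  obtain ⟨R₁, hR₁, e₁⟩ := surj_E1 (isE (PadicAlgCl p)) h3 hI hmem2
  have hker : (R' - R₁) - im (isE (PadicAlgCl p)) hI (R' - R₁) = 0 := by
    rw [map_sub]
    have e2 : R' - R₁ - (im (isE (PadicAlgCl p)) hI R' - im (isE _) hI R₁) =
        (R' - im (isE (PadicAlgCl p)) hI R') - (R₁ - im (isE _) hI R₁) := by abel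
    rw [e2, e₁, sub_self]
  obtain ⟨c, hc⟩ := ker_tt hI hker
  have hR : R = R₁ + tt _ c - ε.val • T3 := by
    rw [← hc, hR']
    abel
  intro τ σ hcτ
  have hτI : τ (ι i₀) = ι i₀ := hcτ.fix
  have h4 := hS τ σ hcτ
  rw [hR, map_sub, map_add, pm_tt, map_nsmul, hlT3 τ hτI, jj_sub, jj_add, jj_tt, jj_nsmul, hjT3,
    smul_sub, nsmul_tt] at h4
  have h5 : jj hI (a σ) (pm (lh τ) R₁) - R₁ = tt _ (h σ - ε * a σ) := by
    rw [tt_sub, ← h4]
    abel
  have h6 : jj hI (a σ) (pm (lh τ) R₁) - R₁ ∈ E1 (isE (PadicAlgCl p)) :=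
    sub_mem (jj_mem hI _ (lh_mem hR₁)) hR₁
  rw [h5] at h6
  exact sub_eq_zero.1 (tt_mem h6)

end Pool.Agent.N883.FF
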