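import Pool.Agent.N883.FF.StmF
import Pool.Agent.Y379.CT.Ramc

/-!
# Project FF, task RAMC (helper966): local points at the primes dividing `D`

Adapted from `Pool/Agent/Y379/CT/Ramc.lean`.
-/

set_option autoImplicit false
set_option linter.unusedVariables false

open scoped Classical

namespace Pool.Agent.N883.FF

open WeierstrassCurve
open Pool.Agent.Y703.CT
open Pool.Agent.Y692.QS (Ei w nr toC nr_nonneg nr_zero_iff isUnit_iff w_cube)
open Pool.Agent.Y715.T.Rec (cs nn)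
open Pool.Agent.Y715.T.RecG (Pq cs_of)
open Pool.Agent.Y715.T.Gi Pool.Agent.Y715.T.Nr Pool.Agent.Y715.T.Df Pool.Agent.Y715.T.Ell
open Pool.Agent.Y715.T.Red
open Pool.Agent.Y153.CTRAM
open Pool.Agent.Y379.CT

namespace Ramc

lemma w_unit : IsUnit w := by
  rw [isUnit_iff]
  decide

lemma w_ne : w ≠ 0 := w_unit.ne_zero

lemma cs_w {ρ : Ei} (h : Pq ρ) : cs ρ w = nq ρ := by
  refine cs_of h.prime h.norm ?_
  have h1 : 0 ≤ nr ρ := nr_nonneg ρ
  have h2 : nr ρ ≠ 0 := fun h' => h.prime.ne_zero (nr_zero_iff.1 h')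
  have h3 : ((nn ρ : ℕ) : ℤ) = (nr ρ - 1) / 3 := by
    unfold nn
    omega
  have h4 : ((nn ρ : ℕ) : ZMod 3) = nq ρ := by
    unfold nq
    rw [← h3]
    push_cast
    rfl
  have h5 : w ^ nn ρ = w ^ (nq ρ).val := by
    rw [← h4, ZMod.val_natCast]
    conv_lhs => rw [← Nat.div_add_mod (nn ρ) 3, pow_add, pow_mul, w_cube, one_pow, one_mul]
  rw [h5, sub_self]
  exact dvd_zero _

lemma pB_ne {J : Type} [Fintype J] {π : J → Ei} {e : J → ZMod 3} (hD : Dt π e) (i : ZMod 3) :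
    pB π e i ≠ 0 :=
  mul_ne_zero (pow_ne_zero _ w_ne) (ne_zero_of hD)

end Ramc

/-- **FF-RAMC** -/
theorem ramcB : S_RAMCB := by
  intro J _ π e i hD i₀ hi u a hT v h hK j hj p _ ι hπ
  have hI := iota_sq' hi ι
  have hu := u_ne hT (Ramc.pB_ne hD i)
  have hπ' := hπ
  rw [iota_ev] at hπ'
  -- the residue characteristic is not three
  have hp : p ≠ 3 := by
    rintro rfl
    obtain ⟨q, hq⟩ := (hD.pq j).three
    have e1 : π j = 1 + 3 * q := by linear_combination hq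
    have h1 : ‖ev (ι i₀) hI (3 * q)‖ < 1 := by
      rw [map_mul]
      rw [mul_comm]
      refine mul_lt (ev_le hI q) ?_
      rw [map_ofNat, norm_three']
      norm_num
    have h2 : ‖ev (ι i₀) hI (π j)‖ = 1 := by
      rw [e1, map_add, map_one, eq_of_lt, norm_one]
      rwa [norm_one]
    rw [h2] at hπ'
    exact lt_irrefl _ hπ'
  have hpr := (hD.pq j).prime
  have hnd : ∀ k, k ≠ j → ¬ π j ∣ π k := fun k hkj => hD.nd k j hkj
  have hndw : ¬ π j ∣ w := fun h1 => hpr.not_isUnit (isUnit_of_dvd_unit h1 Ramc.w_unit)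
  -- the local cube
  set M₀ : Ei := ∏ k ∈ Finset.univ.erase j, π k ^ (e k * (v k - v j)).val with hM₀
  set M : Ei := w ^ (i * (0 - v j)).val * M₀ with hM
  have hndp : ∀ k ∈ Finset.univ.erase j, ¬ π j ∣ π k ^ (e k * (v k - v j)).val := fun k hk' h1 =>
    hnd k (Finset.ne_of_mem_erase hk') (hpr.dvd_of_dvd_pow h1)
  have hM₀d : ¬ π j ∣ M₀ := by
    intro h1
    obtain ⟨k, hk', h2⟩ := (hpr.dvd_finsetProd_iff _).1 h1
    exact hndp k hk' h2
  have hndwp : ¬ π j ∣ w ^ (i * (0 - v j)).val := fun h1 => hndw (hpr.dvd_of_dvd_pow h1)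
  have hMd : ¬ π j ∣ M := by
    intro h1
    rcases hpr.dvd_or_dvd h1 with h2 | h2
    · exact hndwp h2
    · exact hM₀d h2
  have hcs₀ : cs (π j) M₀ = i * nq (π j) * v j := by
    rw [hM₀, Pool.Agent.Y715.T.RecG.cs_prod hpr (hD.pq j).norm _ _ hndp]
    rw [← Finset.add_sum_erase _ _ (Finset.mem_univ j)] at hj
    rw [sub_self, mul_zero, zero_add] at hj
    rw [← hj]
    refine Finset.sum_congr rfl fun k hk' => ?_
    rw [Pool.Agent.Y715.T.RecG.cs_pow hpr (hD.pq j).norm (hnd k (Finset.ne_of_mem_erase hk')),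
      ZMod.natCast_zmod_val]
    ring
  have hcs : cs (π j) M = 0 := by
    rw [hM, Pool.Agent.Y715.T.RecG.cs_mul hpr (hD.pq j).norm hndwp hM₀d,
      Pool.Agent.Y715.T.RecG.cs_pow hpr (hD.pq j).norm hndw, Ramc.cs_w (hD.pq j), hcs₀,
      ZMod.natCast_zmod_val]
    ring
  obtain ⟨x, hx⟩ := (Pool.Agent.Y715.T.RecG.cs_zero_iff hpr (hD.pq j).norm hMd).1 hcs
  have hxd : ¬ π j ∣ x := by
    intro h1
    apply hMd
    have h2 := dvd_add hx (dvd_pow h1 three_ne_zero)
    rwa [sub_add_cancel] at h2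
  obtain ⟨s, hs, hs1, hsf⟩ := hensel hI hp (c := ev (ι i₀) hI M) (y := ev (ι i₀) hI x)
    (fun τ hτ => ev_fix hI hτ M) (fun τ hτ => ev_fix hI hτ x)
    (eq_one_of_not_lt hI ((dvd_iff hI hpr hπ' x).not.1 hxd)) (by
      have h1 := (dvd_iff hI hpr hπ' _).1 hx
      rw [map_sub, map_pow, ← norm_neg, neg_sub] at h1
      exact h1)
  -- the identity between the products
  choose k hk using fun i => exp_eq (e i) (v i) (v j)
  obtain ⟨k₀, hk₀⟩ := exp_eq i 0 (v j)
  rw [mul_zero, ZMod.val_zero, zero_add] at hk₀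
  have hprod : (∏ i, π i ^ (e i * v i).val) * pB π e i ^ (-v j).val =
      M * (w ^ k₀ * ∏ i, π i ^ k i) ^ 3 := by
    have h1 : M₀ = ∏ i, π i ^ (e i * (v i - v j)).val := by
      rw [← Finset.mul_prod_erase _ _ (Finset.mem_univ j), sub_self, mul_zero, ZMod.val_zero,
        pow_zero, one_mul]
    have h2 : (∏ i, π i ^ (e i * v i).val) * pD π e ^ (-v j).val =
        M₀ * (∏ i, π i ^ k i) ^ 3 := by
      rw [h1]
      unfold pD
      rw [← Finset.prod_pow, ← Finset.prod_pow, ← Finset.prod_mul_distrib,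
        ← Finset.prod_mul_distrib]
      refine Finset.prod_congr rfl fun i _ => ?_
      rw [← pow_mul, ← pow_mul, ← pow_add, ← pow_add, hk, mul_comm (k i) 3]
    have h3 : (w ^ i.val) ^ (-v j).val = w ^ (i * (0 - v j)).val * (w ^ k₀) ^ 3 := by
      rw [← pow_mul, ← pow_mul, ← pow_add, hk₀, mul_comm k₀ 3]
    unfold pB
    rw [mul_pow, h3, hM]
    linear_combination (w ^ (i * (0 - v j)).val * (w ^ k₀) ^ 3) * h2
  -- the cube root
  obtain ⟨b, hb⟩ := IsAlgClosed.exists_pow_nat_eq (ev i₀ hi (∏ i, π i ^ (e i * v i).val)) (n := 3)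
    (by norm_num)
  have hb0 : b ≠ 0 := by
    rintro rfl
    have h1 : ev i₀ hi (∏ i, π i ^ (e i * v i).val) = 0 := by rw [← hb]; ring
    have h2 := ev_inj hi h1
    rw [Finset.prod_eq_zero_iff] at h2
    obtain ⟨i, _, h3⟩ := h2
    exact pow_ne_zero _ (hD.pq i).prime.ne_zero h3
  have hcube : (ι (b * u ^ (-v j).val)) ^ 3 =
      (s * ev (ι i₀) hI (w ^ k₀ * ∏ i, π i ^ k i)) ^ 3 := by
    rw [← map_pow, mul_pow, ← pow_mul, mul_comm _ 3, pow_mul, hb, hT.cube, ← map_pow, ← map_mul,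
      hprod, iota_ev, map_mul, map_pow, mul_pow, hs]
  obtain ⟨n, hn⟩ := cube_eq hI hcube
  have hchar : ∀ (τ : Au p) (σ : GK i₀), Cmp ι τ σ → h σ = -(v j * a σ) := by
    intro τ σ hc
    have hτI : τ (ι i₀) = ι i₀ := hc.fix
    have h1 : τ (ι (b * u ^ (-v j).val)) = ι (b * u ^ (-v j).val) := by
      rw [hn, map_mul, map_mul, map_pow, hτI, hsf τ hτI, ev_fix hI hτI]
    rw [hc] at h1
    have h2 := ι.injective h1
    have h3 : σ (b * u ^ (-v j).val) =
        i₀ ^ ((h σ).val + (-a σ).val * (-v j).val) * (b * u ^ (-v j).val) := by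
      rw [map_mul, map_pow, hK b hb σ, hT.act σ, mul_pow, ← pow_mul, pow_add]
      ring
    rw [h3] at h2
    have h4 : i₀ ^ ((h σ).val + (-a σ).val * (-v j).val) = 1 := by
      apply mul_right_cancel₀ (mul_ne_zero hb0 (pow_ne_zero (-v j).val hu))
      rw [h2, one_mul]
    have h5 := pow_val_eq_one hi _ h4
    push_cast at h5
    rw [ZMod.natCast_zmod_val, ZMod.natCast_zmod_val, ZMod.natCast_zmod_val] at h5
    linear_combination h5
  -- the point
  obtain ⟨hn3, hT3⟩ := exists_T3 hI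
  set T3 : Pt (PadicAlgCl p) := Affine.Point.some (-1) ((ι i₀) ^ 2) hn3 with hT3d
  have hjT3 : ∀ c : ZMod 3, jj hI c T3 = T3 - tt _ c := by
    intro c
    rcases z3 c with rfl | rfl | rfl
    · rw [jj_zero, tt_zero, sub_zero]
    · rw [jj_one, hT3]
    · rw [jj_neg_one, hT3, map_sub, im_tt, hT3, sub_sub, ← tt_add]
      congr 2
  have hlT3 : ∀ τ : Au p, τ (ι i₀) = ι i₀ → pm (lh τ) T3 = T3 := by
    intro τ hτI
    rw [hT3d, pm_some, Affine.Point.some.injEq]
    rw [lh_apply, lh_apply]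
    constructor
    · rw [map_neg, map_one]
    · rw [map_pow, hτI]
  refine ⟨(v j).val • T3, fun τ σ hc => ?_⟩
  rw [map_nsmul, hlT3 τ hc.fix, jj_nsmul, hjT3, smul_sub, nsmul_tt, hchar τ σ hc, ← tt_neg]
  abel

end Pool.Agent.N883.FF

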