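import Pool.Agent.N883.FF.StmA
import Pool.Agent.Y703.CT.AN1

/-!
# Project FF: the central sums modulo the maximal ideal above three
-/

set_option autoImplicit false

open Filter
open scoped Classical Topology PeriodPair

namespace Pool.Agent.N883.FF

open Pool.Agent.Y692.QS (Ei w nr toC)
open Pool.Agent.Y703.CT (Dt Xc fy fin_quot Xc_of)
open Pool.Agent.Y703.CT.Ana (ej ej_prim PX PX_zero PX_le sum_PX om_val)
open Pool.Agent.W192.HK (sp)
open Pool.Agent.TH936.CM
open Pool.Agent.TH936.PU hiding v_int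
open Pool.Agent.Y715.Dist Pool.Agent.Y715.Idn
open Pool.Agent.Y696 (Cur eis om)
open Pool.Agent.Y715.T.Rs (eq0)
open Pool.Agent.Y715.T.Rec (cs)
open Pool.Agent.Y715.T.Lat (la la_sq cop_la notMem_of_cop)
open Pool.Agent.Y715.T.Three (lam lam_lt lam_ne lam_ne' lam_pos sq_three v_two v_six)
open Pool.Agent.Y715.T.Cg (Cg Zt zt_of_prim z_pow)
open Pool.Agent.Y715.Two (v_nat v_int v_unit v_mul_le_of)

namespace RecAux

lemma fB_ne : fB ≠ 0 := by
  unfold fB
  refine mul_ne_zero Pool.Agent.Y696.three_ne ?_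
  intro h
  have h1 := la_sq
  rw [h, mul_zero] at h1
  exact Pool.Agent.Y696.three_ne (neg_eq_zero.1 h1.symm)

lemma c0_ne (i : ZMod 3) (x : eis) : c0 i x ≠ 0 := by
  unfold c0
  refine pow_ne_zero _ ?_
  intro h
  have h1 := Pool.Agent.Y715.T.Fin.prim_w.pow_eq_one
  rw [h] at h1
  norm_num at h1

variable {J : Type} [Fintype J] {π : J → Ei} {e : J → ZMod 3} {i : ZMod 3}

omit [Fintype J] in
lemma prim_cc (h : Dt π e) (S : Finset J) :
    cc (fun k => eq0 (π k)) S - 1 ∈ (sp 3 : Ideal eis) := by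
  induction S using Finset.induction_on with
  | empty =>
    have h1 : cc (fun k => eq0 (π k)) (∅ : Finset J) = 1 := Finset.prod_empty
    rw [h1, sub_self]
    exact Submodule.zero_mem _
  | insert j S hj ih =>
    rw [cc_insert hj]
    have h1 : eq0 (π j) * cc (fun k => eq0 (π k)) S - 1 =
        cc (fun k => eq0 (π k)) S * (eq0 (π j) - 1) + (cc (fun k => eq0 (π k)) S - 1) := by ring
    rw [h1]
    exact add_mem (Ideal.mul_mem_left _ _
      (Pool.Agent.Y715.T.Ex.three_mem.2 (h.pq j).three)) ih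

lemma eB_prim (j : Fin 3) {x : eis} (hx : x - 1 ∈ (sp 3 : Ideal eis)) : eB i j x = c0 i x := by
  unfold eB
  rw [ej_prim j hx, one_mul]

lemma sum_CB (L : PeriodPair) (Ω : ℂ) (i : ZMod 3) : ∑ j : Fin 3, CB L Ω i j = 6 * kB L Ω i := by
  rw [Fin.sum_univ_three]
  unfold CB
  rw [if_pos rfl, if_neg (by decide), if_neg (by decide)]
  ring

variable {Γ : Type} [LinearOrderedCommGroupWithZero Γ] {v : Valuation ℂ Γ}
  {L : PeriodPair} {Ω : ℂ}

/-- the function -/
noncomputable def dl (L : PeriodPair) (Ω : ℂ) (i : ZMod 3) (u : ℂ) : ℂ :=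
  3 * (gB L (dB L Ω i) (Ω / (3 * lam) + u) + gB L (dB L Ω i) (Ω / (3 * lam) - u) -
    2 * kB L Ω i)

/-- the identity -/
theorem idn (hchi : S_CHI) (hdist : S_DIST) (hgf : S_GF) (hv : v 3 < 1) (hC : Cur L Ω)
    (h : Dt π e) (hi : i ≠ 0) [Fintype (eis ⧸ (sp fB : Ideal eis))] {S : Finset J}
    (hS : S.Nonempty) :
    c0 i (cc (fun k => eq0 (π k)) S) *
      (6 * kB L Ω i * Sm (cc (fun k => eq0 (π k)) S)
          (fun x => PX (fun k => eq0 (π k)) (Xc π e) S x) +
        Sm (cc (fun k => eq0 (π k)) S) (fun x => PX (fun k => eq0 (π k)) (Xc π e) S x *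
          dl L Ω i (Ω * x / cc (fun k => eq0 (π k)) S))) =
      ∑ T ∈ S.powerset, (-1) ^ T.card *
        ((∏ k ∈ S \ T, ((eq0 (π k) : ℂ) - c0 i (eq0 (π k)) * XT (Xc π e) T (eq0 (π k)))) *
        SQB L Ω π e i T) := by
  set P : J → eis := fun k => eq0 (π k) with hP
  set X := Xc π e with hX
  obtain ⟨-, -, -, -, c_eo, -⟩ := hchi i
  have hfy := fy (v := v) hv h
  obtain ⟨-, hlim⟩ := hgf hchi L Ω hC i hi
  obtain ⟨hl1, hl2⟩ := hlim
  have hprim : ∀ k, P k - 1 ∈ (sp 3 : Ideal eis) := fun k =>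
    Pool.Agent.Y715.T.Ex.three_mem.2 (h.pq k).three
  have hcop : ∀ k, IsCoprime fB (P k) := fun k =>
    (hfy.three k).mul_left (cop_la (hfy.three k))
  have hne : ∀ (j : Fin 3) (k : J), eB i j (P k) ≠ 0 := fun j k => by
    rw [eB_prim j (hprim k)]
    exact c0_ne _ _
  have key : ∀ j : Fin 3, c0 i (cc P S) * Sm (cc P S) (fun x => PX P X S x *
      Ph L Ω fB (eB i j) (CB L Ω i j) (cc P S) x) =
      ∑ T ∈ S.powerset, (-1) ^ T.card *
        ((∏ k ∈ S \ T, ((P k : ℂ) - c0 i (P k) * XT X T (P k))) *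
        (c0 i (cc P T) * SP L Ω fB (eB i j) (CB L Ω i j) P X T)) := by
    intro j
    have h1 := hdist L eis Ω J P X fB (eB i j) (CB L Ω i j) hC.lat fin_quot fB_ne hfy.toFm hcop
      (c_eo j) (hne j) (hl1 j) S
    rw [eB_prim j (prim_cc h S)] at h1
    refine h1.trans (Finset.sum_congr rfl fun T _ => ?_)
    rw [eB_prim j (prim_cc h T)]
    congr 2
    exact Finset.prod_congr rfl fun k _ => by rw [eB_prim j (hprim k)]
  have h5 : ∑ j : Fin 3, (c0 i (cc P S) * Sm (cc P S) (fun x => PX P X S x *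
      Ph L Ω fB (eB i j) (CB L Ω i j) (cc P S) x)) =
      ∑ T ∈ S.powerset, (-1) ^ T.card *
        ((∏ k ∈ S \ T, ((P k : ℂ) - c0 i (P k) * XT X T (P k))) * SQB L Ω π e i T) := by
    rw [Finset.sum_congr rfl fun j _ => key j, Finset.sum_comm]
    refine Finset.sum_congr rfl fun T _ => ?_
    unfold SQB
    rw [← Finset.mul_sum, ← Finset.mul_sum, ← Finset.mul_sum]
  rw [← h5, ← Finset.mul_sum]
  congr 1
  rw [← Sm_mul_left, ← Sm_add]
  unfold Sm
  rw [Finset.sum_comm]
  refine Finset.sum_congr rfl fun x _ => ?_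
  rw [← Finset.mul_sum]
  by_cases hx : IsCoprime x (cc P S)
  · have hx' : x ∉ (sp (cc P S) : Ideal eis) := notMem_of_cop (hfy.cc_top hS) hx
    rw [Finset.sum_congr rfl fun j _ => Ph_of_notMem hx', Finset.sum_add_distrib,
      hl2 _ _ (hfy.cc_ne S) (hfy.three_cc S) hx', sum_CB]
    unfold dl
    ring
  · have h0 : PX P X S x = 0 := PX_zero hfy hx
    show 6 * kB L Ω i * PX P X S x + PX P X S x * dl L Ω i (Ω * x / cc P S) =
      PX P X S x * ∑ j : Fin 3, Ph L Ω fB (eB i j) (CB L Ω i j) (cc P S) x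
    rw [h0]
    ring

omit [Fintype J] in
/-- the estimate -/
theorem est (hchi : S_CHI) (hgf : S_GF) (hval : S_VAL) (hv : v 3 < 1) (hC : Cur L Ω)
    (h : Dt π e) (hi : i ≠ 0) (hz : Zt v (toC w)) {S : Finset J} (hS : S.Nonempty) :
    v (Sm (cc (fun k => eq0 (π k)) S) (fun x => PX (fun k => eq0 (π k)) (Xc π e) S x *
          dl L Ω i (Ω * x / cc (fun k => eq0 (π k)) S))) <
      v (1 - toC w) ^ S.card * (v 3 * v lam) := by
  set P : J → eis := fun k => eq0 (π k) with hP
  set X := Xc π e with hX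
  have hfy := fy (v := v) hv h
  obtain ⟨hd, -⟩ := hgf hchi L Ω hC i hi
  obtain ⟨-, hv2⟩ := hval Γ v hv L Ω hC _ hd
  have hc := hfy.cc_ne S
  have hct := hfy.cc_top hS
  have : Fintype (eis ⧸ (sp (cc P S) : Ideal eis)) := @Fintype.ofFinite _ (fin_quot _ hc)
  have hzp : 0 < v (1 - toC w) := by
    rw [zero_lt_iff, Ne, map_eq_zero]
    exact hz.ne
  have h3p : 0 < v (3 : ℂ) := zero_lt_iff.2 Pool.Agent.Y715.T.Three.three_ne
  have hpos : 0 < v (1 - toC w) ^ S.card * (v 3 * v lam) :=
    mul_pos (pow_pos hzp _) (mul_pos h3p lam_pos)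
  rw [Sm_eq]
  refine v.map_sum_lt hpos.ne' fun q _ => ?_
  by_cases hq : IsCoprime q.out (cc P S)
  · have h1 := hv2 (cc P S) q.out hc (hfy.three_cc S) hct hq
    have h2 := hv2 (cc P S) (-q.out) hc (hfy.three_cc S) hct hq.neg_left
    have e2 : Ω / (3 * lam) + Ω * ((-q.out : eis) : ℂ) / (cc P S : eis) =
        Ω / (3 * lam) - Ω * (q.out : ℂ) / (cc P S : eis) := by
      push_cast
      ring
    rw [e2] at h2
    have h3 : v (dl L Ω i (Ω * (q.out : ℂ) / (cc P S : eis))) < v 3 * v lam := by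
      have e3 : dl L Ω i (Ω * (q.out : ℂ) / (cc P S : eis)) =
          3 * ((gB L (dB L Ω i) (Ω / (3 * lam) + Ω * (q.out : ℂ) / (cc P S : eis)) -
            gB L (dB L Ω i) (Ω / (3 * lam))) +
          (gB L (dB L Ω i) (Ω / (3 * lam) - Ω * (q.out : ℂ) / (cc P S : eis)) -
            gB L (dB L Ω i) (Ω / (3 * lam)))) := by
        unfold dl kB
        ring
      rw [e3, map_mul]
      exact mul_lt_mul_of_pos_left (v.map_add_lt h1 h2) h3p
    rw [map_mul]
    calc v (PX P X S q.out) * v (dl L Ω i (Ω * (q.out : ℂ) / (cc P S : eis))) ≤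
        v (1 - toC w) ^ S.card * v (dl L Ω i (Ω * (q.out : ℂ) / (cc P S : eis))) :=
          mul_le_mul' (PX_le hz hfy _) le_rfl
      _ < _ := mul_lt_mul_of_pos_left h3 (pow_pos hzp _)
  · rw [PX_zero hfy hq, zero_mul, map_zero]
    exact hpos

end RecAux

open RecAux

theorem recB : S_RECB := by
  intro hchi hdist hgf hval hdre Γ _ v hv L Ω hC J _ π e i h hi _ T
  have hfy := fy (v := v) hv h
  obtain ⟨hd, -⟩ := hgf hchi L Ω hC i hi
  obtain ⟨hkv, -⟩ := hval Γ v hv L Ω hC _ hd
  have hkv' : v (kB L Ω i) = v lam := hkv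
  have hk0 : kB L Ω i ≠ 0 := by
    intro h0
    rw [h0, map_zero] at hkv'
    exact lam_ne hkv'.symm
  have hz : Zt v (toC w) := zt_of_prim hv (k := 1) le_rfl (by
    rw [pow_one]
    exact Pool.Agent.Y715.T.Fin.prim_w)
  have hz1 := hz.ne
  have hzp : 0 < v (1 - toC w) := by
    rw [zero_lt_iff, Ne, map_eq_zero]
    exact hz.ne
  have h6k : v (6 * kB L Ω i) = v 3 * v lam := by
    rw [map_mul, hkv', v_six hv]
  have h3p : 0 < v (3 : ℂ) := zero_lt_iff.2 Pool.Agent.Y715.T.Three.three_ne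
  obtain ⟨hD0, hDrec⟩ := hdre J π e i
  obtain ⟨-, -, c_u, c_cube, -, -⟩ := hchi i
  induction T using Finset.strongInduction with
  | H S ih =>
  rcases S.eq_empty_or_nonempty with rfl | hS
  · rw [hD0]
    apply Cg.one
    have h1 : SQB L Ω π e i ∅ = 6 * kB L Ω i := by
      unfold SQB
      rw [Finset.sum_congr rfl fun j _ => SP_empty fin_quot, sum_CB]
      have h2 : cc (fun k => eq0 (π k)) (∅ : Finset J) = 1 := Finset.prod_empty
      rw [h2, c_u 1 isUnit_one, one_mul]
    rw [h1, Finset.card_empty, pow_zero, mul_one, div_self (mul_ne_zero (by norm_num) hk0),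
      sub_self, map_zero]
    exact zero_lt_one
  · have hid := idn hchi hdist hgf hv hC h hi hS
    have hest := est hchi hgf hval hv hC h hi hz hS
    have hsP := sum_PX fin_quot hfy S
    set P : J → eis := fun k => eq0 (π k) with hP
    set X := Xc π e with hX
    set z : ℂ := toC w with hzd
    set R : ℂ := Sm (cc P S) (fun x => PX P X S x * dl L Ω i (Ω * x / cc P S)) with hR
    set N : ℂ := 6 * kB L Ω i * (1 - z) ^ S.card with hN
    have hN0 : N ≠ 0 := mul_ne_zero (mul_ne_zero (by norm_num) hk0) (pow_ne_zero _ hz1)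
    have hvN : v N = v (1 - z) ^ S.card * (v 3 * v lam) := by
      rw [hN, map_mul, h6k, map_pow, mul_comm]
    have hvNp : 0 < v N := by
      rw [zero_lt_iff, Ne, map_eq_zero]
      exact hN0
    -- the terms
    set E : Finset J → ℂ := fun T => (∏ k ∈ S \ T, ((P k : ℂ) - c0 i (P k) * XT X T (P k))) *
      SQB L Ω π e i T / N with hE
    have hsum : ∑ T ∈ S.powerset, (-1) ^ T.card * E T =
        c0 i (cc P S) * ((Sm (cc P S) (fun x => PX P X S x)) / (1 - z) ^ S.card + R / N) := by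
      have h4 : ∑ T ∈ S.powerset, (-1) ^ T.card * E T = (∑ T ∈ S.powerset, (-1) ^ T.card *
          ((∏ k ∈ S \ T, ((P k : ℂ) - c0 i (P k) * XT X T (P k))) * SQB L Ω π e i T)) / N := by
        rw [Finset.sum_div]
        exact Finset.sum_congr rfl fun T _ => by rw [hE]; ring
      rw [h4, ← hid, hN]
      field_simp
    have hRs : v (R / N) < 1 := by
      rw [map_div₀, div_lt_one₀ hvNp, hvN]
      exact hest
    have hBs : v ((Sm (cc P S) (fun x => PX P X S x)) / (1 - z) ^ S.card) < 1 := by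
      rw [map_div₀, map_pow, div_lt_one₀ (pow_pos hzp _), hsP, map_prod]
      have h4 : ∏ k ∈ S, v ((Nat.card (eis ⧸ (sp (P k) : Ideal eis)) : ℂ) - 1) ≤
          (v 3) ^ S.card := Finset.prod_le_pow_card _ _ _ fun k _ => hfy.card k
      refine h4.trans_lt ?_
      exact pow_lt_pow_left₀ hz.three zero_le (Finset.card_pos.2 hS).ne'
    have hc1 : v (c0 i (cc P S)) = 1 := z_pow (k := 3) (by norm_num) (c_cube _)
    have hsmall : v (∑ T ∈ S.powerset, (-1) ^ T.card * E T) < 1 := by
      rw [hsum, map_mul, hc1, one_mul]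
      exact v.map_add_lt hBs hRs
    have hES : E S = SQB L Ω π e i S / N := by
      rw [hE]
      show (∏ k ∈ S \ S, _) * _ / N = _
      rw [Finset.sdiff_self, Finset.prod_empty, one_mul]
    have hlz : v (3 : ℂ) < v (1 - z) := hz.three
    have hET : ∀ T ∈ S.powerset.erase S, Cg v (E T)
        (DB π e i T * ∏ k ∈ S \ T, (i * nq (π k) + ∑ l ∈ T, -(e l * cs (π l) (π k)))) := by
      intro T hT
      rw [Finset.mem_erase, Finset.mem_powerset] at hT
      have hssub : T ⊂ S := Finset.ssubset_iff_subset_ne.2 ⟨hT.2, hT.1⟩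
      have h4 := ih T hssub
      have h5 : (S \ T).card + T.card = S.card := by
        rw [Finset.card_sdiff_of_subset hT.2]
        have := Finset.card_le_card hT.2
        omega
      have h6 : E T = SQB L Ω π e i T / (6 * kB L Ω i * (1 - z) ^ T.card) *
          ∏ k ∈ S \ T, (((P k : ℂ) - c0 i (P k) * XT X T (P k)) / (1 - z)) := by
        rw [hE]
        show (∏ k ∈ S \ T, _) * _ / N = _
        rw [Finset.prod_div_distrib, Finset.prod_const, hN, ← h5, pow_add]
        field_simp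
      rw [h6]
      refine h4.mul hv (Cg.prod hv _ fun k hk => ?_)
      rw [Finset.mem_sdiff] at hk
      -- the quotient
      have h7 : ∀ l ∈ T, X l (P k) = z ^ (-(e l * cs (π l) (π k))).val := by
        intro l hl
        have hkl : k ≠ l := fun hkl => hk.2 (hkl ▸ hl)
        have h1 : ¬ π l ∣ eq0.symm (P k) := by
          rw [hP]
          show ¬ π l ∣ eq0.symm (eq0 (π k))
          rw [RingEquiv.symm_apply_apply]
          exact h.nd k l hkl
        rw [hX, Xc_of h1, hP]
        show toC w ^ (-(e l * cs (π l) (eq0.symm (eq0 (π k))))).val = _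
        rw [RingEquiv.symm_apply_apply]
      have h8 : XT X T (P k) = z ^ (∑ l ∈ T, (-(e l * cs (π l) (π k))).val) := by
        unfold XT
        rw [← Finset.prod_pow_eq_pow_sum]
        exact Finset.prod_congr rfl fun l hl => h7 l hl
      have h8' : c0 i (P k) = z ^ (i * nq (π k)).val := by
        unfold c0
        rw [hP]
        show toC w ^ (i * nq (eq0.symm (eq0 (π k)))).val = _
        rw [RingEquiv.symm_apply_apply]
      have h9 : ((P k : ℂ) - c0 i (P k) * XT X T (P k)) / (1 - z) =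
          ((P k : ℂ) - 1) / (1 - z) +
            (1 - z ^ ((i * nq (π k)).val + ∑ l ∈ T, (-(e l * cs (π l) (π k))).val)) /
              (1 - z) := by
        rw [h8, h8', pow_add]
        ring
      rw [h9]
      have h10 : (i * nq (π k) + ∑ l ∈ T, -(e l * cs (π l) (π k))) =
          0 + (((i * nq (π k)).val + ∑ l ∈ T, (-(e l * cs (π l) (π k))).val : ℕ) : ZMod 3) := by
        rw [zero_add]
        push_cast
        rw [ZMod.natCast_zmod_val]
        congr 1
        exact Finset.sum_congr rfl fun l _ => (ZMod.natCast_zmod_val _).symm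
      rw [h10]
      refine (Cg.zero ?_).add hv (Zt.quot hv hz _)
      rw [map_div₀, div_lt_one₀ hzp]
      exact (hfy.lin k).trans_lt hlz
    -- conclusion
    have hSmem : S ∈ S.powerset := Finset.mem_powerset_self S
    have hsplit := Finset.add_sum_erase S.powerset (fun T => (-1) ^ T.card * E T) hSmem
    have hrest : Cg v (∑ T ∈ S.powerset.erase S, (-1) ^ T.card * E T)
        (-((-1) ^ S.card * DB π e i S)) := by
      have h4 : -((-1) ^ S.card * DB π e i S) = ∑ T ∈ S.powerset.erase S, (-1) ^ T.card *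
          (DB π e i T * ∏ k ∈ S \ T, (i * nq (π k) + ∑ l ∈ T, -(e l * cs (π l) (π k)))) := by
        have h6 := hDrec S hS
        rw [← Finset.add_sum_erase _ _ hSmem, Finset.sdiff_self, Finset.prod_empty, mul_one] at h6
        linear_combination -h6
      rw [h4]
      exact Cg.sum hv _ fun T hT => Cg.sign hv (hET T hT) _
    have hES2 : Cg v ((-1) ^ S.card * E S) ((-1) ^ S.card * DB π e i S) := by
      have h4 : (-1) ^ S.card * E S = (∑ T ∈ S.powerset, (-1) ^ T.card * E T) -
          ∑ T ∈ S.powerset.erase S, (-1) ^ T.card * E T := by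
        rw [← hsplit]
        ring
      rw [h4]
      have h5 := hrest.neg hv
      rw [neg_neg] at h5
      refine Cg.of_sub (t := -(∑ T ∈ S.powerset.erase S, (-1) ^ T.card * E T)) ?_ h5
      rw [sub_neg_eq_add, sub_add_cancel]
      exact hsmall
    have h4 := hES2.sign hv S.card
    rw [← mul_assoc, ← mul_pow, neg_one_mul, neg_neg, one_pow, one_mul, hES, ← mul_assoc,
      ← mul_pow, neg_one_mul, neg_neg, one_pow, one_mul] at h4
    exact h4

end Pool.Agent.N883.FF
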