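import Pool.Agent.N883.FF.StmF
import Pool.Agent.N883.FF.Sel
import Pool.Agent.Y363.CT.SELC
import Pool.Agent.Y350.CT.REC

/-!
# FF/SELC: a nontrivial kernel gives a nontrivial Selmer class (written by helper868)
-/

set_option autoImplicit false
set_option linter.unusedSectionVars false

open scoped Classical

namespace Pool.Agent.N883.FF.Selc

open Polynomial
open Pool.Agent.Y692.QS (Ei w nr nr_mul nr_one)
open Pool.Agent.Y715.T.Gi Pool.Agent.Y715.T.Nr Pool.Agent.Y715.T.Df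
open Pool.Agent.Y715.T.Rec (cs)
open Pool.Agent.Y715.T.RecG
open Pool.Agent.Y715.T.Sel (kc_mul kc_one kc_congr kc_pow kc_uniq kc_exp ex_root root_ne
  iota_sq iota_ev odd_of not_dvd_of_unr i₀_mod i₀_prim)
open Pool.Agent.Y48.CT.SEL (p0 pr0 esq prod_form cf_prod not_assoc_lam)
open Pool.Agent.Y703.CT

variable {J : Type} [Fintype J] {π : J → Ei} {e : J → ZMod 3} {i : ZMod 3}
variable {i₀ : QB} {hi : i₀ ^ 2 + i₀ + 1 = 0}

/-! ### norms modulo nine -/

lemma nr_prim {α : Ei} (h : (3 : Ei) ∣ α - 1) : nr α % 3 = 1 := by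
  obtain ⟨β, hβ⟩ := h
  have h1 : α = 1 + 3 * β := by rw [← hβ]; ring
  have hre : α.re = 1 + 3 * β.re := by
    rw [h1]
    have e3 : (3 : Ei) = ⟨3, 0⟩ := rfl
    have e1 : (1 : Ei) = ⟨1, 0⟩ := rfl
    rw [e3, e1]
    simp
  have him : α.im = 3 * β.im := by
    rw [h1]
    have e3 : (3 : Ei) = ⟨3, 0⟩ := rfl
    have e1 : (1 : Ei) = ⟨1, 0⟩ := rfl
    rw [e3, e1]
    simp
  unfold nr
  rw [hre, him]
  have h2 : (1 + 3 * β.re) ^ 2 - (1 + 3 * β.re) * (3 * β.im) + (3 * β.im) ^ 2 =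
      1 + 3 * (2 * β.re + 3 * β.re ^ 2 - (1 + 3 * β.re) * β.im + 3 * β.im ^ 2) := by ring
  rw [h2]
  omega

lemma nq_mul {x y : Ei} (h1 : nr x % 3 = 1) (h2 : nr y % 3 = 1) : nq (x * y) = nq x + nq y := by
  obtain ⟨m, hm⟩ : ∃ m, nr x = 1 + 3 * m := ⟨nr x / 3, by omega⟩
  obtain ⟨n, hn⟩ : ∃ n, nr y = 1 + 3 * n := ⟨nr y / 3, by omega⟩
  unfold nq
  rw [nr_mul, hm, hn]
  have e1 : ((1 + 3 * m) * (1 + 3 * n) - 1) / 3 = m + n + 3 * (m * n) := by
    have : (1 + 3 * m) * (1 + 3 * n) - 1 = 3 * (m + n + 3 * (m * n)) := by ring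
    rw [this]
    exact Int.mul_ediv_cancel_left _ (by norm_num)
  have e2 : (1 + 3 * m - 1) / 3 = m := by omega
  have e3 : (1 + 3 * n - 1) / 3 = n := by omega
  rw [e1, e2, e3]
  push_cast
  have h3 : (3 : ZMod 3) = 0 := rfl
  rw [h3]
  ring

lemma nq_one : nq 1 = 0 := by
  unfold nq
  rw [nr_one]
  rfl

lemma nr_mul_mod {x y : Ei} (h1 : nr x % 3 = 1) (h2 : nr y % 3 = 1) : nr (x * y) % 3 = 1 := by
  rw [nr_mul, Int.mul_emod, h1, h2]
  norm_num

lemma nr_pow_mod {x : Ei} (h1 : nr x % 3 = 1) (n : ℕ) : nr (x ^ n) % 3 = 1 := by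
  induction n with
  | zero => rw [pow_zero, nr_one]; norm_num
  | succ n ih => rw [pow_succ]; exact nr_mul_mod ih h1

lemma nq_pow {x : Ei} (h1 : nr x % 3 = 1) (n : ℕ) : nq (x ^ n) = n * nq x := by
  induction n with
  | zero => rw [pow_zero, nq_one, Nat.cast_zero, zero_mul]
  | succ n ih =>
    rw [pow_succ, nq_mul (nr_pow_mod h1 n) h1, ih]
    push_cast
    ring

lemma nq_prod (h : ∀ j, nr (π j) % 3 = 1) (f : J → ℕ) (S : Finset J) :
    nr (∏ j ∈ S, π j ^ f j) % 3 = 1 ∧ nq (∏ j ∈ S, π j ^ f j) = ∑ j ∈ S, (f j : ZMod 3) * nq (π j) := by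
  induction S using Finset.induction_on with
  | empty => simp [nq_one, nr_one]
  | insert a S ha ih =>
    rw [Finset.prod_insert ha, Finset.sum_insert ha]
    refine ⟨nr_mul_mod (nr_pow_mod (h a) _) ih.1, ?_⟩
    rw [nq_mul (nr_pow_mod (h a) _) ih.1, nq_pow (h a), ih.2]

lemma nine_of {x : Ei} (h1 : nr x % 3 = 1) (h2 : nq x = 0) : (9 : ℤ) ∣ nr x - 1 := by
  unfold nq at h2
  rw [ZMod.intCast_zmod_eq_zero_iff_dvd] at h2
  obtain ⟨m, hm⟩ := h2
  push_cast at hm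
  exact ⟨m, by omega⟩

/-! ### reciprocity -/

lemma sum_zero (hD : Dt π e) (v : J → ZMod 3) :
    ∑ j, e j * ∑ k, e k * cs (π j) (π k) * (v k - v j) = 0 := by
  have h1 : ∑ j, e j * ∑ k, e k * cs (π j) (π k) * (v k - v j) =
      ∑ j, ∑ k, e j * e k * cs (π j) (π k) * (v k - v j) := by
    refine Finset.sum_congr rfl fun j _ => ?_
    rw [Finset.mul_sum]
    refine Finset.sum_congr rfl fun k _ => ?_
    ring
  rw [h1]
  have h2 : ∑ j, ∑ k, e j * e k * cs (π j) (π k) * (v k - v j) =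
      -∑ j, ∑ k, e j * e k * cs (π j) (π k) * (v k - v j) := by
    conv_lhs => rw [Finset.sum_comm]
    rw [← Finset.sum_neg_distrib]
    refine Finset.sum_congr rfl fun j _ => ?_
    rw [← Finset.sum_neg_distrib]
    refine Finset.sum_congr rfl fun k _ => ?_
    by_cases hjk : j = k
    · subst hjk
      ring
    · have h3 : cs (π k) (π j) = cs (π j) (π k) :=
        Pool.Agent.Y350.CT.rec (π j) (π k) (hD.pq j) (hD.pq k) (hD.nd j k hjk)
      rw [h3]
      ring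
  have key : ∀ x : ZMod 3, x = -x → x = 0 := by decide
  exact key _ h2

/-! ### the cube roots of `ω ^ n` -/

lemma mem_of_fix {s : QB} (h : ∀ σ : GK i₀, σ s = s) : s ∈ KK i₀ := by
  have h2 := (InfiniteGalois.mem_bot_iff_fixed (k := KK i₀) (K := QB) s).2 h
  rw [IntermediateField.mem_bot] at h2
  obtain ⟨q, hq⟩ := h2
  rw [← hq]
  exact q.2

include hi in
lemma w_not_cube {n : ℕ} (hn : (n : ZMod 3) ≠ 0) {s : QB} (hs : s ^ 3 = i₀ ^ n)
    (hmem : s ∈ KK i₀) : False := by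
  have hprim := i₀_prim (hi := hi)
  have h3 : ¬ s ^ 3 ^ 1 = 1 := by
    rw [pow_one, hs]
    intro h
    have := (hprim.pow_eq_one_iff_dvd n).1 h
    exact hn ((ZMod.natCast_eq_zero_iff n 3).2 this)
  have h9 : s ^ 3 ^ (1 + 1) = 1 := by
    have : s ^ 3 ^ (1 + 1) = (s ^ 3) ^ 3 := by rw [← pow_mul]; norm_num
    rw [this, hs, ← pow_mul, mul_comm, pow_mul, i₀_cube hi, one_pow]
  have ho : orderOf s = 3 ^ (1 + 1) := orderOf_eq_prime_pow h3 h9
  have hp9 : IsPrimitiveRoot s 9 := by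
    rw [show (9 : ℕ) = orderOf s by rw [ho]; norm_num]
    exact IsPrimitiveRoot.orderOf s
  have hmin := cyclotomic_eq_minpoly_rat hp9 (by norm_num)
  obtain ⟨a, b, hab⟩ := KK_ex hi hmem
  obtain ⟨p, hp⟩ : ∃ p : ℚ[X], p = X ^ 2 - C (2 * a - b) * X + C (a ^ 2 - a * b + b ^ 2) := ⟨_, rfl⟩
  have hp0 : aeval s p = 0 := by
    rw [hp, hab]
    simp only [map_add, map_sub, map_mul, map_pow, aeval_X, aeval_C, eq_ratCast]
    push_cast
    linear_combination (b : QB) ^ 2 * hi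
  have hdeg : p.natDegree = 2 := by
    rw [hp]
    compute_degree!
  have hpne : p ≠ 0 := by
    intro h
    rw [h, natDegree_zero] at hdeg
    omega
  have h1 := natDegree_le_of_dvd (minpoly.dvd ℚ s hp0) hpne
  rw [← hmin, natDegree_cyclotomic, hdeg] at h1
  have h2 : Nat.totient 9 = 6 := by decide
  omega

end Pool.Agent.N883.FF.Selc

namespace Pool.Agent.N883.FF

open Pool.Agent.Y692.QS (Ei w nr)
open Pool.Agent.Y715.T.Gi Pool.Agent.Y715.T.Nr Pool.Agent.Y715.T.Df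
open Pool.Agent.Y715.T.Rec (cs)
open Pool.Agent.Y715.T.RecG
open Pool.Agent.Y715.T.Sel (kc_mul kc_one kc_congr kc_pow kc_uniq kc_exp ex_root root_ne
  iota_sq iota_ev odd_of not_dvd_of_unr i₀_mod)
open Pool.Agent.Y48.CT.SEL (p0 pr0 esq prod_form cf_prod not_assoc_lam)
open Pool.Agent.Y155.CT (a_mul a_cont)
open Pool.Agent.Y703.CT
open Pool.Agent.Y363.CT.SELC (exists_tw not_lt_prod)

/-- **FF-SELC.** -/
theorem selcB : S_SELCB := by
  intro hFF hCUB hCUB3 hPT hRAMC J _ π e i hD hi0 hker i₀ hi u a hTw hsel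
  have hker' : ∃ v : J → ZMod 3, (∀ j, ∑ k, e k * cs (π j) (π k) * (v k - v j) =
      i * nq (π j) * v j) ∧ ∃ j, v j ≠ 0 := by
    by_contra hcon
    apply hker
    intro v hv j
    by_contra hne
    exact hcon ⟨v, hv, j, hne⟩
  obtain ⟨v, hv, j₁, hne⟩ := hker'
  have hkey : ∀ c : ZMod 3, c ≠ 0 → c * c = 1 := by decide
  have hii : i * i = 1 := hkey i hi0
  have hB0 : (∏ j, π j ^ (e j * v j).val) ≠ 0 := pr0 hD _
  have hD0 : pB π e i ≠ 0 := Sel.pB_ne hD i
  obtain ⟨β, a', hTw'⟩ := exists_tw (hi := hi) (∏ j, π j ^ (e j * v j).val)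
  have hm : ∀ σ τ : GK i₀, -a' (σ * τ) = -a' σ + -a' τ := by
    intro σ τ
    rw [a_mul hB0 hTw' σ τ]
    ring
  have hc : IsLocallyConstant (fun σ : GK i₀ => -a' σ) :=
    (a_cont hB0 hTw').comp (fun c : ZMod 3 => -c)
  have hKc : Kc hi (∏ j, π j ^ (e j * v j).val) (fun σ => -a' σ) :=
    kc_of hi (root_ne (hi := hi) hB0 hTw'.cube) hTw'.cube hTw'.act
  -- the norm
  have hpr : ∀ j, nr (π j) % 3 = 1 := fun j => Selc.nr_prim (hD.pq j).three
  have h9 : (9 : ℤ) ∣ nr (∏ j, π j ^ (e j * v j).val) - 1 := by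
    obtain ⟨f1, f2⟩ := Selc.nq_prod (π := π) hpr (fun j => (e j * v j).val) Finset.univ
    refine Selc.nine_of f1 ?_
    rw [f2]
    have h1 := Selc.sum_zero hD v
    have h2 : ∑ j, e j * ∑ k, e k * cs (π j) (π k) * (v k - v j) =
        i * ∑ j, ((e j * v j).val : ZMod 3) * nq (π j) := by
      rw [Finset.mul_sum]
      refine Finset.sum_congr rfl fun j _ => ?_
      rw [hv j, ZMod.natCast_zmod_val]
      ring
    rw [h2] at h1
    exact (mul_eq_zero.1 h1).resolve_left hi0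
  have hloc : ∀ (p : ℕ) [Fact p.Prime] (ι : QB →ₐ[ℚ] PadicAlgCl p),
      ∃ R, St1 hi ι a (fun σ => -a' σ) R := by
    intro p _ ι
    by_cases hp3 : p = 3
    · subst hp3
      exact hPT i₀ hi _ _ hB0 hD0 u a hTw _ hKc 3 ι
        (hCUB3 inferInstance (ι i₀) (iota_sq' hi ι) _ _ (prod_form hD _) h9
          (Sel.not_lam_pB hD i))
    · by_cases hj : ∃ j, ‖ι (ev i₀ hi (π j))‖ < 1
      · obtain ⟨j, hj⟩ := hj
        exact hRAMC J π e i hD i₀ hi u a hTw v _ hKc j (hv j) p ι hj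
      · have hj' : ∀ j, ¬ ‖ev (ι i₀) (iota_sq' hi ι) (π j)‖ < 1 := by
          intro j h1
          apply hj
          refine ⟨j, ?_⟩
          rw [iota_ev]
          exact h1
        have hpB : ¬ ‖ev (ι i₀) (iota_sq' hi ι) (pB π e i)‖ < 1 := by
          intro h1
          refine Sel.pB_norm hD i ι (fun j h2 => hj ⟨j, h2⟩) (hi := hi) ?_
          rw [iota_ev]
          exact h1
        exact hPT i₀ hi _ _ hB0 hD0 u a hTw _ hKc p ι
          (hCUB hFF p hp3 (ι i₀) (iota_sq' hi ι) _ _ (not_lt_prod _ hj' _) hpB)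
  obtain ⟨c, hc'⟩ := hsel _ hc hm hloc
  have hb : Kc hi (w ^ i.val * ∏ j, π j ^ (e j).val) (fun σ => -a σ) :=
    kc_of hi (root_ne (hi := hi) (z := pB π e i) hD0 hTw.cube) hTw.cube hTw.act
  have h00 : ∀ (s : ℕ) (f : J → ℕ), w ^ s * ∏ j, π j ^ f j ≠ 0 := fun s f =>
    mul_ne_zero (pow_ne_zero _ Sel.w_ne) (pr0 hD _)
  have hy := kc_mul hB0 (pow_ne_zero c.val (h00 _ _)) hKc (kc_pow (h00 _ _) hb c.val)
  have ey : (∏ j, π j ^ (e j * v j).val) * (w ^ i.val * ∏ k, π k ^ (e k).val) ^ c.val =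
      w ^ (i.val * c.val) * ∏ k, π k ^ ((e k * v k).val + (e k).val * c.val) := by
    rw [mul_pow, ← Finset.prod_pow, ← pow_mul, mul_left_comm, ← Finset.prod_mul_distrib]
    congr 1
    refine Finset.prod_congr rfl fun k _ => ?_
    rw [← pow_mul, ← pow_add]
  rw [ey] at hy
  have hy2 : Kc hi (w ^ (i.val * c.val) * ∏ k, π k ^ (e k * (v k + c)).val)
      (fun σ => -a' σ + (c.val : ZMod 3) * -a σ) := by
    refine Sel.kc_exp2 (p0 hD) rfl (fun k => ?_) hy
    push_cast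
    rw [ZMod.natCast_zmod_val, ZMod.natCast_zmod_val, ZMod.natCast_zmod_val,
      ZMod.natCast_zmod_val]
    ring
  have hy3 : ∀ σ : GK i₀, -a' σ + (c.val : ZMod 3) * -a σ = 0 := by
    intro σ
    have h1 : -a' σ = c * a σ := hc' σ
    rw [h1, ZMod.natCast_zmod_val]
    ring
  have hyj : ∀ j, e j * (v j + c) = 0 := by
    intro j
    obtain ⟨p, hp, ι, hl⟩ := exists_emb hi (hD.pq j).prime
    have hp3 := odd_of hi ι (hD.pq j).prime hl (not_assoc_lam (hD.pq j))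
    have h1 := not_dvd_of_unr (Sel.cf_unit (Sel.w_unit.pow (i.val * c.val))
      (cf_prod hD (fun k => e k * (v k + c)))) hy2 hp3 ι
      (hD.pq j).prime hl (fun τ σ _ _ => hy3 σ)
    by_contra hne'
    apply h1
    refine Dvd.dvd.mul_left (dvd_trans (dvd_pow_self (π j) ?_) (Finset.dvd_prod_of_mem
      (fun k => π k ^ (e k * (v k + c)).val) (Finset.mem_univ j))) _
    rwa [Ne, ZMod.val_eq_zero]
  have hvj : ∀ j, v j = -c := by
    intro j
    have h2 := esq hD j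
    have h3 : v j + c = 0 := by
      calc v j + c = (e j * e j) * (v j + c) := by rw [h2, one_mul]
        _ = e j * (e j * (v j + c)) := by ring
        _ = 0 := by rw [hyj, mul_zero]
    exact eq_neg_of_add_eq_zero_left h3
  have hc0 : c ≠ 0 := by
    rintro rfl
    apply hne
    rw [hvj, neg_zero]
  -- `w ^ (i c)` would be a cube
  have hprod : ∏ k, π k ^ (e k * (v k + c)).val = 1 := by
    refine Finset.prod_eq_one fun k _ => ?_
    rw [hyj k, ZMod.val_zero, pow_zero]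
  rw [hprod, mul_one] at hy2
  have hn : ((i.val * c.val : ℕ) : ZMod 3) ≠ 0 := by
    push_cast
    rw [ZMod.natCast_zmod_val, ZMod.natCast_zmod_val]
    exact mul_ne_zero hi0 hc0
  obtain ⟨s, hs⟩ := ex_root (ev i₀ hi (w ^ (i.val * c.val)))
  have hfix : ∀ σ : GK i₀, σ s = s := by
    intro σ
    have h1 := hy2 s hs σ
    simp only [hy3 σ, ZMod.val_zero, pow_zero, one_mul] at h1
    exact h1
  have hw : ev i₀ hi w = i₀ := by
    rw [ev_apply]
    show ((0 : ℤ) : QB) + ((1 : ℤ) : QB) * i₀ = i₀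
    push_cast
    ring
  rw [map_pow, hw] at hs
  exact Selc.w_not_cube (hi := hi) hn hs (Selc.mem_of_fix hfix)

end Pool.Agent.N883.FF
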