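import Pool.Agent.N883.FF.StmX

/-!
# Project FF: the valuations above three of torsion values (part VAL, by helper539)
-/

set_option autoImplicit false
set_option linter.unusedVariables false

open Filter
open scoped Classical Topology PeriodPair

namespace Pool.Agent.N883.FF

namespace Val

open Pool.Agent.W192.HK (sp)
open H667R3
open Pool.Agent.TH936.CM Pool.Agent.TH936.PU
open Pool.Agent.Y715.Dist Pool.Agent.Y715.Idn
open Pool.Agent.Y696 (Cur eis finite_q)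
open Pool.Agent.Y715.T.Lat (la la_coe XX sL cop_la notMem_of_cop)
open Pool.Agent.Y715.T.Three
open Pool.Agent.Y703.CT.Ana (rel_la' dat')

section abs

variable {Γ : Type*} [LinearOrderedCommGroupWithZero Γ] {v : Valuation ℂ Γ}

lemma l4_lt (h3 : v 3 < 1) : v lam ^ 4 < v lam ^ 3 := by
  have hl := lam_lt h3
  have hp : 0 < v lam ^ 3 := pow_pos lam_pos 3
  calc v lam ^ 4 = v lam ^ 3 * v lam := pow_succ _ _
    _ < v lam ^ 3 * 1 := mul_lt_mul_of_pos_left hl hp
    _ = v lam ^ 3 := mul_one _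

lemma l3_lt (h3 : v 3 < 1) : v lam ^ 3 < v lam ^ 2 := by
  have hl := lam_lt h3
  have hp : 0 < v lam ^ 2 := pow_pos lam_pos 2
  calc v lam ^ 3 = v lam ^ 2 * v lam := pow_succ _ _
    _ < v lam ^ 2 * 1 := mul_lt_mul_of_pos_left hl hp
    _ = v lam ^ 2 := mul_one _

/-- the case of a large value is impossible -/
lemma no_large (h3 : v 3 < 1) {A B : ℂ} (h : 27 * (A - 1) ^ 2 * B = -(A * (A - 9) ^ 2))
    (hB : v B ≤ 1) : v A ≤ 1 := by
  by_contra hcon
  push Not at hcon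
  have hl := lam_lt h3
  have h1 : v (A - 1) = v A := v.map_sub_eq_of_lt_left (by rw [map_one]; exact hcon)
  have h9 : v (A - 9) = v A := by
    apply v.map_sub_eq_of_lt_left
    refine lt_of_le_of_lt ?_ hcon
    rw [v_nine]
    exact pow_le_one' hl.le 4
  have h2 := congrArg v h
  rw [map_mul, map_mul, map_pow, v_27, v.map_neg, map_mul, map_pow, h1, h9] at h2
  have hpos : 0 < v A ^ 2 := pow_pos (lt_trans zero_lt_one hcon) 2
  have h4 : v A ^ 2 * v A = v A ^ 2 * (v lam ^ 6 * v B) := by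
    rw [mul_comm (v A ^ 2) (v A), ← h2, mul_comm (v lam ^ 6) (v A ^ 2), mul_assoc]
  have h5 := mul_left_cancel₀ hpos.ne' h4
  have h6 : v A ≤ 1 := by
    rw [h5]
    exact mul_le_one' (pow_le_one' hl.le 6) hB
  exact absurd hcon (not_lt.2 h6)

lemma bound_prod (h3 : v 3 < 1) {A B : ℂ} (h : 27 * (A - 1) ^ 2 * B = -(A * (A - 9) ^ 2))
    (hB : v B ≤ 1) : v A * v (A - 9) ^ 2 ≤ v lam ^ 6 * v B := by
  have h0 := no_large h3 h hB
  have h1 : v (A - 1) ≤ 1 := v.map_sub_le h0 (by rw [map_one])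
  have h2 := congrArg v h
  rw [map_mul, map_mul, map_pow, v_27, v.map_neg, map_mul, map_pow] at h2
  rw [← h2]
  calc v lam ^ 6 * v (A - 1) ^ 2 * v B ≤ v lam ^ 6 * 1 * v B :=
        mul_le_mul' (mul_le_mul' le_rfl (pow_le_one' h1 2)) le_rfl
    _ = v lam ^ 6 * v B := by rw [mul_one]

/-- the step -/
lemma step (h3 : v 3 < 1) {A B : ℂ} (h : 27 * (A - 1) ^ 2 * B = -(A * (A - 9) ^ 2))
    (hB : v B ≤ v lam ^ 3) : v A ≤ v lam ^ 3 := by
  have hl := lam_lt h3
  have hB1 : v B ≤ 1 := hB.trans (pow_le_one' hl.le 3)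
  have h1 := bound_prod h3 h hB1
  by_contra hcon
  push Not at hcon
  have h9 : v (A - 9) = v A := by
    apply v.map_sub_eq_of_lt_left
    rw [v_nine]
    exact (l4_lt h3).trans hcon
  rw [h9, ← pow_succ'] at h1
  have h2 : v A ^ 3 ≤ (v lam ^ 3) ^ 3 := by
    calc v A ^ 3 ≤ v lam ^ 6 * v B := h1
      _ ≤ v lam ^ 6 * v lam ^ 3 := mul_le_mul' le_rfl hB
      _ = (v lam ^ 3) ^ 3 := by rw [← pow_add, ← pow_mul]
  have h4 : (v lam ^ 3) ^ 3 < v A ^ 3 := pow_lt_pow_left₀ hcon zero_le (by norm_num)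
  exact absurd h2 (not_le.2 h4)

/-- the last step -/
lemma last (h3 : v 3 < 1) {A B : ℂ} (h : 27 * (A - 1) ^ 2 * B = -(A * (A - 9) ^ 2))
    (hB : v B ≤ v 3) : v A < v lam ^ 2 := by
  have hl := lam_lt h3
  have hB1 : v B ≤ 1 := hB.trans h3.le
  have h1 := bound_prod h3 h hB1
  by_contra hcon
  push Not at hcon
  have h9 : v (A - 9) = v A := by
    apply v.map_sub_eq_of_lt_left
    rw [v_nine]
    exact ((l4_lt h3).trans (l3_lt h3)).trans_le hcon
  rw [h9, ← pow_succ'] at h1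
  have h2 : v A ^ 3 ≤ v lam ^ 8 := by
    calc v A ^ 3 ≤ v lam ^ 6 * v B := h1
      _ ≤ v lam ^ 6 * v 3 := mul_le_mul' le_rfl hB
      _ = v lam ^ 8 := by rw [← sq_three, ← pow_two, ← pow_add]
  have h4 : (v lam ^ 2) ^ 3 ≤ v A ^ 3 := pow_le_pow_left' hcon 3
  have h5 : v lam ^ 8 < (v lam ^ 2) ^ 3 := by
    rw [← pow_mul]
    exact pow_lt_pow_right_of_lt_one₀ lam_pos hl (by norm_num)
  exact absurd (h4.trans h2) (not_le.2 h5)

lemma sqrt_lt {A : ℂ} (h : v (A ^ 2) < v lam ^ 2) : v A < v lam := by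
  rw [map_pow] at h
  exact lt_of_pow_lt_pow_left₀ 2 zero_le h

lemma v_four (h3 : v 3 < 1) : v 4 = 1 := by
  have : (4 : ℂ) = 2 * 2 := by norm_num
  rw [this, map_mul, v_two h3, one_mul]

/-- values of `℘` -/
lemma val_x (h3 : v 3 < 1) {x Y : ℂ} (ho : Y ^ 2 = 4 * x ^ 3 + 1) (hY : v Y < v lam) :
    v x = 1 ∧ v (x + 1) < 1 := by
  have hl := lam_lt h3
  have hY2 : v (Y ^ 2) < 1 := by
    rw [map_pow]
    exact pow_lt_one' (hY.trans hl) (by norm_num)
  have h1 : v (4 * x ^ 3) = 1 := by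
    have e : 4 * x ^ 3 = Y ^ 2 - 1 := by rw [ho]; ring
    rw [e, Valuation.map_sub_swap]
    exact v.map_one_sub_of_lt hY2
  rw [map_mul, v_four h3, one_mul, map_pow] at h1
  have h2 : v x = 1 := by
    rcases lt_trichotomy (v x) 1 with h | h | h
    · exact absurd h1 (ne_of_lt (pow_lt_one' h (by norm_num)))
    · exact h
    · exact absurd h1 (ne_of_gt (one_lt_pow₀ h (by norm_num)))
  refine ⟨h2, ?_⟩
  have h4 : v (x ^ 3 + 1) < 1 := by
    have e : 4 * (x ^ 3 + 1) = Y ^ 2 + 3 := by rw [ho]; ring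
    have h5 : v (4 * (x ^ 3 + 1)) < 1 := by
      rw [e]
      exact lt_of_le_of_lt (v.map_add _ _) (max_lt hY2 h3)
    rwa [map_mul, v_four h3, one_mul] at h5
  have h5 : v ((x + 1) ^ 3) < 1 := by
    have e : (x + 1) ^ 3 = (x ^ 3 + 1) + 3 * (x ^ 2 + x) := by ring
    rw [e]
    refine lt_of_le_of_lt (v.map_add _ _) (max_lt h4 ?_)
    rw [map_mul]
    have h6 : v (x ^ 2 + x) ≤ 1 := by
      refine (v.map_add _ _).trans (max_le ?_ h2.le)
      rw [map_pow, h2, one_pow]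
    exact lt_of_le_of_lt (mul_le_mul' le_rfl h6) (by rw [mul_one]; exact h3)
  rw [map_pow] at h5
  by_contra hcon
  push Not at hcon
  exact absurd h5 (not_lt.2 (one_le_pow₀ hcon))

lemma val_d {δ : ℂ} (hδ : δ ^ 2 = -3) : v δ = v lam := by
  have h1 : v δ ^ 2 = v lam ^ 2 := by
    rw [← map_pow, hδ, v.map_neg, pow_two, sq_three]
  exact (pow_left_inj₀ zero_le zero_le two_ne_zero).1 h1

/-- the value at one point -/
lemma val_g (h3 : v 3 < 1) {δ x Y : ℂ} (hδ : δ ^ 2 = -3) (ho : Y ^ 2 = 4 * x ^ 3 + 1)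
    (hY : v Y < v lam) : v ((δ - Y) / (2 * x)) = v lam := by
  obtain ⟨h1, h2⟩ := val_x h3 ho hY
  have h4 : v (δ - Y) = v lam := by
    rw [← val_d hδ]
    apply v.map_sub_eq_of_lt_left
    rwa [val_d hδ]
  rw [map_div₀, h4, map_mul, v_two h3, h1, one_mul, div_one]

/-- the difference of the values at two points -/
lemma val_dif (h3 : v 3 < 1) {δ x Y x' Y' : ℂ} (hδ : δ ^ 2 = -3) (ho : Y ^ 2 = 4 * x ^ 3 + 1)
    (hY : v Y < v lam) (ho' : Y' ^ 2 = 4 * x' ^ 3 + 1) (hY' : v Y' < v lam) :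
    v ((δ - Y') / (2 * x') - (δ - Y) / (2 * x)) < v lam := by
  obtain ⟨h1, h2⟩ := val_x h3 ho hY
  obtain ⟨h1', h2'⟩ := val_x h3 ho' hY'
  have hx : x ≠ 0 := by
    rintro rfl
    rw [map_zero] at h1
    exact zero_ne_one h1
  have hx' : x' ≠ 0 := by
    rintro rfl
    rw [map_zero] at h1'
    exact zero_ne_one h1'
  have e : (δ - Y') / (2 * x') - (δ - Y) / (2 * x) =
      (δ * ((x + 1) - (x' + 1)) / (2 * (x' * x)) - Y' / (2 * x')) + Y / (2 * x) := by
    field_simp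
    ring
  rw [e]
  have t1 : v (δ * ((x + 1) - (x' + 1)) / (2 * (x' * x))) < v lam := by
    rw [map_div₀, map_mul, map_mul, map_mul, v_two h3, h1, h1', one_mul, one_mul, div_one,
      val_d hδ]
    have h5 : v ((x + 1) - (x' + 1)) < 1 :=
      lt_of_le_of_lt (v.map_sub _ _) (max_lt h2 h2')
    calc v lam * v ((x + 1) - (x' + 1)) < v lam * 1 := mul_lt_mul_of_pos_left h5 lam_pos
      _ = v lam := mul_one _
  have t2 : v (Y' / (2 * x')) < v lam := by
    rw [map_div₀, map_mul, v_two h3, h1', one_mul, div_one]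
    exact hY'
  have t3 : v (Y / (2 * x)) < v lam := by
    rw [map_div₀, map_mul, v_two h3, h1, one_mul, div_one]
    exact hY
  exact lt_of_le_of_lt (v.map_add _ _)
    (max_lt (lt_of_le_of_lt (v.map_sub _ _) (max_lt t1 t2)) t3)

end abs

variable {L : PeriodPair} {Ω : ℂ}

lemma lam_mem (hC : Cur L Ω) {z : ℂ} (hz : z ∈ L.lattice) : lam * z ∈ L.lattice := by
  have h := hC.lat.mul la _ hz
  rwa [la_coe] at h

lemma lam_mul_T1 : lam * (Ω / (3 * lam)) = Ω / 3 := by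
  have := lam_ne'
  field_simp

lemma T1_notMem (hC : Cur L Ω) : Ω / (3 * lam) ∉ L.lattice := by
  intro h
  apply hC.third
  have := lam_mem hC h
  rwa [lam_mul_T1] at this

section val

variable {Γ : Type*} [LinearOrderedCommGroupWithZero Γ] {v : Valuation ℂ Γ}

lemma Y_T1 (h3 : v 3 < 1) (hC : Cur L Ω) : v (℘'[L] (Ω / (3 * lam))) < v lam := by
  apply sqrt_lt
  have hl : lam * (Ω / (3 * lam)) ∉ L.lattice := by
    rw [lam_mul_T1]
    exact hC.third
  have h1 := rel_la' hC hl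
  rw [lam_mul_T1, hC.y0] at h1
  refine last h3 h1 ?_
  rw [v.map_neg]

lemma Y_P (h3 : v 3 < 1) (hC : Cur L Ω) {c x : eis} (hc : c ≠ 0) (h3c : IsCoprime 3 c)
    (hct : (sp c : Ideal eis) ≠ ⊤) (hx : IsCoprime x c) :
    Ω / (3 * lam) + Ω * x / c ∉ L.lattice ∧ v (℘'[L] (Ω / (3 * lam) + Ω * x / c)) < v lam := by
  have hfin : ∀ q : eis, q ≠ 0 → Finite (eis ⧸ sp q) := fun q hq => finite_q hq
  set P := Ω / (3 * lam) + Ω * x / c with hP
  have hlne := lam_ne'
  have hlam := lam_sq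
  have hcx : IsCoprime (3 * (la * x)) c := h3c.mul_left ((cop_la h3c).mul_left hx)
  have hn := notMem_of_cop hct hcx
  rw [← div_mem_iff hC.lat hc] at hn
  have e3 : ((3 : eis) : ℂ) = 3 := rfl
  have hc0 : (c : ℂ) ≠ 0 := by
    intro h
    apply hc
    exact_mod_cast h
  have hΩ : Ω ∈ L.lattice := (hC.lat.mem Ω).2 ⟨1, by push_cast; ring⟩
  -- the point `lam ^ 3 P`
  have e : lam * (lam * (lam * P)) = -(Ω + Ω * ((3 * (la * x) : eis) : ℂ) / c) := by
    rw [hP]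
    push_cast
    rw [la_coe, e3]
    have h1 : lam * (lam * (lam * (Ω / (3 * lam) + Ω * x / c))) =
        (lam * lam) * (Ω / 3 + lam * (Ω * x / c)) := by
      have := lam_mul_T1 (Ω := Ω)
      linear_combination (lam * lam) * this
    rw [h1, hlam]
    ring
  have n3 : lam * (lam * (lam * P)) ∉ L.lattice := by
    rw [e]
    intro h
    apply hn
    have h1 := sub_mem (neg_mem h) hΩ
    convert h1 using 1
    ring
  have n2 : lam * (lam * P) ∉ L.lattice := fun h => n3 (lam_mem hC h)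
  have n1 : lam * P ∉ L.lattice := fun h => n2 (lam_mem hC h)
  have n0 : P ∉ L.lattice := fun h => n1 (lam_mem hC h)
  refine ⟨n0, ?_⟩
  have hY3 : v (℘'[L] (lam * (lam * (lam * P))) ^ 2) ≤ v lam ^ 3 := by
    have h1 := X_le h3 (dat' hC hc h3c hct hfin) ⟨3 * (la * x), hcx⟩
    have h2 : XX L Ω c ⟨3 * (la * x), hcx⟩ = ℘'[L] (lam * (lam * (lam * P))) ^ 2 := by
      unfold XX
      rw [e, L.derivWeierstrassP_neg, neg_sq]
      congr 1
      apply dwp_per
      have e4 : Ω * ((3 * (la * x) : eis) : ℂ) / c - (Ω + Ω * ((3 * (la * x) : eis) : ℂ) / c) =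
          -Ω := by ring
      rw [e4]
      exact neg_mem hΩ
    rwa [h2] at h1
  have hY2 := step h3 (rel_la' hC n3) hY3
  have hY1 := step h3 (rel_la' hC n2) hY2
  have hY0 := step h3 (rel_la' hC n1) hY1
  exact sqrt_lt (hY0.trans_lt (l3_lt h3))

end val

end Val

open Val in
/-- FF-VAL. -/
theorem val : S_VAL := by
  intro Γ _ v h3 L Ω hC δ hδ
  have hT := Y_T1 h3 hC
  have oT := hC.ode (T1_notMem hC)
  refine ⟨val_g h3 hδ oT hT, fun c x hc h3c hct hx => ?_⟩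
  obtain ⟨n0, hP⟩ := Y_P h3 hC hc h3c hct hx
  exact val_dif h3 hδ oT hT (hC.ode n0) hP

end Pool.Agent.N883.FF
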