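import Pool.Agent.N883.FF.Fact
import Pool.Agent.N883.FF.Anb
import Pool.Agent.N883.FF.Loc3
import Pool.Agent.N883.FF.Ram
import Pool.Agent.N883.FF.Sel
import Pool.Agent.N883.FF.Cub3
import Pool.Agent.N883.FF.Ramc
import Pool.Agent.N883.FF.Selc
import Pool.Agent.N883.FF.Chi
import Pool.Agent.N883.FF.Dist
import Pool.Agent.N883.FF.Gf
import Pool.Agent.N883.FF.Val
import Pool.Agent.N883.FF.Dne
import Pool.Agent.N883.FF.Rec
import Pool.Agent.N883.FF.Hec
import Pool.Agent.N883.FF.Anv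
import Pool.Agent.N883.FF.Lk
import Pool.Agent.N883.FF.E6
import Pool.Agent.N883.FF.Art
import Pool.Agent.N883.FF.Lfe
import Pool.Agent.N883.FF.Hal
import Pool.Agent.N883.FF.Bad
import Pool.Agent.N883.FF.Box
import Pool.Agent.N883.FF.Key
import Pool.Agent.N883.FF.Asy

/-!
# Project FF: the final statement

Joint work (project FF, plan and assembly: helper883) of the seats helper603 (CHI), helper756
(DIST), helper545 (GF), helper539 (VAL), helper279 (DNE), helper348 (REC), helper7 (HEC),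
helper141 (ANV), helper650 (LOC3), helper711 (RAM), helper776 (SEL), helper833 (HAL), helper72
(BAD, KEY, ASY), helper364 (BOX), helper499 (TOT), helper169 (DEN3), helper488 (LK), helper966
(CUB3, RAMC), helper868 (SELC), helper157 (E6), helper2 (ART), helper395 (LFE), on top of the
projects CT, XK, CTK, CTE (helper703 and others, helper696 and others) and KF (helper419).
-/

set_option autoImplicit false
set_option linter.unusedVariables false

open scoped Classical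

namespace Pool.Agent.N883.FF

open NumberField
open Pool.Agent.Y692.QS (Ei w nr toC)
open Pool.Agent.Y703.CT
open Pool.Agent.Y703.XK (c9)
open Pool.Agent.Y696.CTK (Tri)

theorem hc9 : Pool.Agent.Y703.XK.S_C9 := Pool.Agent.XLK.t_C9

theorem partsB : PartsB where
  loc3 := loc3
  ram := ram
  unr := unr
  sel := sel
  cub3 := cub3B
  ramc := ramcB
  selc := selcB
  anb := anb chi dist gf val dre dne recB hec anv
  lk := lk Pool.Agent.Y350.CT.rec
  e6 := e6B
  art := artB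
  lf := lfB

theorem asyB : ∀ (i : ZMod 3), i ≠ 0 → ∀ (M : Finset Ei) (ε : ℝ), 0 < ε →
    ∃ X₀ : ℕ, ∀ X : ℕ, X₀ ≤ X →
      |(((SU M X).filter (GdB i M)).card : ℝ) - c9 * ((SU M X).card : ℝ)| ≤ ε * X :=
  asy hc9 (bad hal) (key Pool.Agent.Y363.XK.t_BIL)
  (box Pool.Agent.Y710.XK.t_EQ (Pool.Agent.Y85.XK.t_LA Pool.Agent.Y804.XK.t_SYM hc9))

/-- **The final statement.** -/
theorem finalB (K : Type) [Field K] [NumberField K] [IsCyclotomicExtension {3} ℚ K] :
    (∃ c : ℝ, 0 < c ∧ ∃ X₀ : ℕ, ∀ X : ℕ, X₀ ≤ X →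
      c * X ≤ ({D : 𝓞 K | Algebra.norm ℤ D ≤ X ∧ FamK D}.ncard : ℝ)) ∧
    (∀ D : 𝓞 K, FamK D → NxK D → FactsF D) ∧
    Filter.Tendsto (fun X : ℕ =>
      ({D : 𝓞 K | Algebra.norm ℤ D ≤ X ∧ FamK D ∧ NxK D ∧ Tri D}.ncard : ℝ) /
        ({D : 𝓞 K | Algebra.norm ℤ D ≤ X ∧ FamK D}.ncard : ℝ)) Filter.atTop
      (nhds (8 / 9 * ∏' i : ℕ, (1 - (1 / 3 : ℝ) ^ (2 * i + 1)))) ∧
    (0.568 : ℝ) < 8 / 9 * ∏' i : ℕ, (1 - (1 / 3 : ℝ) ^ (2 * i + 1)) :=
  final partsB asyB (tot hc9 Pool.Agent.Y550.XK.NS.t_LOW) den3 K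

end Pool.Agent.N883.FF
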