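import Pool.Agent.N883.FF.Lim

/-!
# Project FF: the statements over the ring of integers of `ℚ(ω)`
-/

set_option autoImplicit false
set_option linter.unusedVariables false
set_option linter.unusedSectionVars false

open scoped Classical

namespace Pool.Agent.N883.FF

open NumberField Filter Topology
open Pool.Agent.Y692.QS (Ei w nr toC)
open Pool.Agent.Y703.CT
open Pool.Agent.Y703.XK (c9)
open Pool.Agent.Y715.T.Gi (CF)
open Pool.Agent.TH841.NF.D (Sha)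
open Pool.Agent.R419.KF (el ClsC ClsKC clsC_iff EntL ex_pair ext_ex)
open Pool.Agent.Y696.CTK (Tri ED parts)
open Pool.Agent.Y696.CTE (root_int partsE)
open Pool.Agent.Y696.XK (RkZ img_ncard)

/-- the family over `𝓞 K` -/
def FamK {K : Type} [Field K] [NumberField K] (D : 𝓞 K) : Prop :=
  ¬ IsUnit D ∧ (∀ x : 𝓞 K, x ^ 3 ∣ D → IsUnit x) ∧ ∃ ω : 𝓞 K, ω ^ 3 = 1 ∧ (3 : 𝓞 K) ∣ D - ω

/-- not in the exceptional class -/
def NxK {K : Type} [Field K] [NumberField K] (D : 𝓞 K) : Prop :=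
  ¬ ((3 : 𝓞 K) ∣ D - 1 ∧ (9 : ℤ) ∣ Algebra.norm ℤ D - 1)

/-- the criterion -/
def CritF {K : Type} [Field K] [NumberField K] (D : 𝓞 K) : Prop :=
  (∃ (ω : 𝓞 K) (n : ℕ) (π : Fin n → 𝓞 K) (e : Fin n → ZMod 3) (i : ZMod 3)
    (χ : Fin n → Fin n → ZMod 3) (η : Fin n → ZMod 3),
    ω ^ 2 + ω + 1 = 0 ∧ IsFactB ω D n π e i χ η) ∧
  ∀ (ω : 𝓞 K) (n : ℕ) (π : Fin n → 𝓞 K) (e : Fin n → ZMod 3) (i : ZMod 3)
    (χ : Fin n → Fin n → ZMod 3) (η : Fin n → ZMod 3),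
    ω ^ 2 + ω + 1 = 0 → IsFactB ω D n π e i χ η → (Tri D ↔ ConnK e i χ η)

/-- the facts on one `D` -/
def FactsF {K : Type} [Field K] [NumberField K] (D : 𝓞 K) : Prop :=
  CritF D ∧ EntL (ED (D : K)) ∧
  (∃ (F : Type) (_ : Field F) (_ : NumberField F) (_ : Algebra K F) (θ : F),
    Module.finrank K F = 3 ∧ θ ^ 3 = algebraMap K F D) ∧
  (∀ (F : Type) [Field F] [NumberField F] [Algebra K F] (θ : F),
    Module.finrank K F = 3 → θ ^ 3 = algebraMap K F D → EntL (ED (1 : F))) ∧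
  (Tri D → RkZ (ED (D : K)) ∧
    ∀ (F : Type) [Field F] [NumberField F] [Algebra K F] (θ : F),
      Module.finrank K F = 3 → θ ^ 3 = algebraMap K F D →
        RkZ (ED (1 : F)) ∧ ∀ (n : ℕ) (x : Sha (ED (1 : F))), 3 ^ n • x = 0 → 3 • x = 0)

section
variable {K : Type} [Field K] [NumberField K] (j : Ei ≃+* 𝓞 K)

lemma cube_one {x : Ei} (h : x ^ 3 = 1) : ∃ i : ZMod 3, x = w ^ i.val := by
  have h1 : (x - 1) * ((x - w) * (x - w ^ 2)) = 0 := by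
    have e1 : (1 : Ei) + w + w ^ 2 = 0 := by decide
    have e3 : (w : Ei) ^ 3 = 1 := by decide
    have e2 : (x - 1) * ((x - w) * (x - w ^ 2)) =
        x ^ 3 - x ^ 2 * (1 + w + w ^ 2) + x * (w + w ^ 2 + w ^ 3) - w ^ 3 := by ring
    have e4 : (w : Ei) + w ^ 2 + w ^ 3 = 0 := by rw [e3, ← e1]; ring
    rw [e2, e1, e4, e3, h]
    ring
  rcases mul_eq_zero.1 h1 with h2 | h2
  · refine ⟨0, ?_⟩
    have : (w : Ei) ^ (0 : ZMod 3).val = 1 := by decide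
    rw [this]
    exact sub_eq_zero.1 h2
  · rcases mul_eq_zero.1 h2 with h3 | h3
    · refine ⟨1, ?_⟩
      have : (w : Ei) ^ (1 : ZMod 3).val = w := by decide
      rw [this]
      exact sub_eq_zero.1 h3
    · refine ⟨2, ?_⟩
      have : (w : Ei) ^ (2 : ZMod 3).val = w ^ 2 := by decide
      rw [this]
      exact sub_eq_zero.1 h3

lemma famK_iff (D : Ei) : FamK (j D) ↔ FamE D := by
  unfold FamK FamE
  refine and_congr (not_congr (MulEquiv.isUnit_map j)) (and_congr ?_ ?_)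
  · constructor
    · intro h x hx
      have h1 := h (j x) (by rw [← map_pow]; exact map_dvd j hx)
      exact (MulEquiv.isUnit_map j).1 h1
    · intro h x hx
      obtain ⟨y, rfl⟩ := j.surjective x
      rw [← map_pow, map_dvd_iff j] at hx
      exact (h y hx).map j
  · constructor
    · rintro ⟨ω, h1, h2⟩
      obtain ⟨y, rfl⟩ := j.surjective ω
      have h3 : y ^ 3 = 1 := by
        apply j.injective
        rw [map_pow, h1, map_one]
      obtain ⟨i, rfl⟩ := cube_one h3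
      refine ⟨i, ?_⟩
      rw [← map_sub, ← map_ofNat j 3, map_dvd_iff j] at h2
      exact h2
    · rintro ⟨i, h⟩
      refine ⟨j (w ^ i.val), ?_, ?_⟩
      · rw [← map_pow, ← pow_mul, mul_comm, pow_mul]
        have : (w : Ei) ^ 3 = 1 := by decide
        rw [this, one_pow, map_one]
      · rw [← map_sub, ← map_ofNat j 3, map_dvd_iff j]
        exact h

lemma nxK_iff (hj : ∀ z : Ei, Algebra.norm ℤ (j z) = nr z) (D : Ei) : NxK (j D) ↔ NxE D := by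
  unfold NxK NxE
  have e1 : (3 : 𝓞 K) ∣ j D - 1 ↔ (3 : Ei) ∣ D - 1 := by
    have : j D - 1 = j (D - 1) := by rw [map_sub, map_one]
    rw [this, ← map_ofNat j 3, map_dvd_iff j]
  rw [e1, hj]

/-- the data of an element of the family -/
lemma fam_data {D : Ei} (hD : FamE D) : ∃ (i : ZMod 3) (n : ℕ) (π : Fin (n + 1) → Ei)
    (e : Fin (n + 1) → ZMod 3), Dt π e ∧ D = pB π e i := by
  obtain ⟨i, hi⟩ := hD.2.2
  have hw3 : (w : Ei) ^ i.val * w ^ (-i).val = 1 := by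
    have : ∀ i : ZMod 3, (w : Ei) ^ i.val * w ^ (-i).val = 1 := by decide
    exact this i
  have e1 : w ^ i.val * (w ^ (-i).val * D) = D := by rw [← mul_assoc, hw3, one_mul]
  have h3 : (3 : Ei) ∣ w ^ (-i).val * D - 1 := by
    have h4 : w ^ (-i).val * D - 1 = w ^ (-i).val * (D - w ^ i.val) := by
      rw [mul_sub]
      congr 1
      rw [mul_comm, hw3]
    rw [h4]
    exact hi.mul_left _
  have h5 := hD
  rw [← e1] at h5
  obtain ⟨b1, b2⟩ := (fam_iff i _ h3).1 h5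
  obtain ⟨M, S, hS, hM, hel⟩ := ex_pair h3 ⟨Pool.Agent.Y699.E.prm_ne_zero h3, b1.2⟩
  have hne : S.Nonempty := by
    rw [Finset.nonempty_iff_ne_empty]
    rintro rfl
    have hM' : M = ∅ := Finset.subset_empty.1 hM
    subst hM'
    apply b2
    rw [hel]
    unfold el
    simp
  obtain ⟨n, π, e, hdt, hel', -⟩ := datb M S ⟨hS, hM⟩ hne i
  refine ⟨i, n, π, e, hdt, ?_⟩
  unfold pB
  rw [← hel', ← hel, e1]

lemma nx_nine {n : ℕ} {π : Fin n → Ei} {e : Fin n → ZMod 3} (hdt : Dt π e)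
    (h : NxE (pB π e 0)) : ¬ (9 : ℤ) ∣ nr (pD π e) - 1 := by
  intro h9
  have e1 : pB π e 0 = pD π e := by
    unfold pB
    rw [ZMod.val_zero, pow_zero, one_mul]
  rw [e1] at h
  exact h ⟨(pD_prim hdt).1, h9⟩

theorem critF (B : PartsB) (hj : ∀ z : Ei, Algebra.norm ℤ (j z) = nr z) {D : 𝓞 K}
    (hD : FamK D) (hx : NxK D) {ω : 𝓞 K} {n : ℕ} {π : Fin n → 𝓞 K} {e : Fin n → ZMod 3}
    {i : ZMod 3} {χ : Fin n → Fin n → ZMod 3} {η : Fin n → ZMod 3} (hω : ω ^ 2 + ω + 1 = 0)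
    (h : IsFactB ω D n π e i χ η) : Tri D ↔ ConnK e i χ η := by
  obtain ⟨i', -, hdt, hp, hc⟩ := fact_dtB j hj hω h
  have hDj : D = j (pB (fun k => j.symm (π k)) e i') := by rw [hp, RingEquiv.apply_symm_apply]
  have hn : Nonempty (Fin n) := by
    rw [← not_isEmpty_iff]
    intro hn
    apply hD.1
    rw [h.2.1, Finset.univ_eq_empty, Finset.prod_empty, mul_one]
    have h1 : ω ^ 3 = 1 := by linear_combination (ω - 1) * hω
    exact (IsUnit.of_pow_eq_one h1 three_ne_zero).pow _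
  rw [← hc, hDj]
  by_cases hi : i' = 0
  · subst hi
    have h9 := nx_nine hdt ((nxK_iff j hj _).1 (by rw [← hDj]; exact hx))
    have e1 : pB (fun k => j.symm (π k)) e 0 = pD (fun k => j.symm (π k)) e := by
      unfold pB
      rw [ZMod.val_zero, pow_zero, one_mul]
    rw [conn_iffA Pool.Agent.Y350.CT.rec hdt h9, e1]
    exact Pool.Agent.R419.KF.tri_iff j parts hdt h9
  · rw [conn_iffB hi]
    exact tri_iffB B j hdt hi

theorem facts [IsCyclotomicExtension {3} ℚ K] (B : PartsB)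
    (hj : ∀ z : Ei, Algebra.norm ℤ (j z) = nr z) {D : 𝓞 K} (hD : FamK D) (hx : NxK D) :
    FactsF D := by
  obtain ⟨z, rfl⟩ := j.surjective D
  obtain ⟨i, n, π, e, hdt, rfl⟩ := fam_data ((famK_iff j _).1 hD)
  refine ⟨⟨?_, fun ω n' π' e' i' χ η hω h => critF j B hj hD hx hω h⟩, ?_⟩
  · obtain ⟨ω, χ, η, h1, h2⟩ := fact_exB j hj hdt i
    exact ⟨ω, _, _, e, i, χ, η, h1, h2⟩
  by_cases hi : i = 0
  · subst hi
    have h9 := nx_nine hdt ((nxK_iff j hj _).1 hx)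
    have e1 : pB π e 0 = pD π e := by
      unfold pB
      rw [ZMod.val_zero, pow_zero, one_mul]
    rw [e1] at hD hx ⊢
    have hcls : ClsKC (j (pD π e)) := by
      rw [clsC_iff j hj]
      exact ⟨(pD_prim hdt).1, Pool.Agent.R419.CE.cf_pD hdt, h9⟩
    obtain ⟨-, f2, f3, f4, f5⟩ := Pool.Agent.R419.KF.facts j hj hcls
    refine ⟨f2, f3, fun F _ _ _ θ => f4 F θ, fun ht => ?_⟩
    obtain ⟨g1, -, g3⟩ := f5 ht
    refine ⟨g1, fun F _ _ _ θ hd hθ => ?_⟩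
    obtain ⟨k1, -, k3⟩ := g3 F θ hd hθ
    exact ⟨k1, k3⟩
  · have htri := tri_iffB B j hdt hi
    refine ⟨ent_KB B j hdt hi, ?_, ?_, ?_⟩
    · exact ext_ex hD.2.1 hD.1
    · intro F _ _ _ θ hd hθ
      obtain ⟨θ', -, hθ'⟩ := root_int (K := K) (F := F) (D := j (pB π e i)) (θ := θ) hθ
      obtain ⟨Lf, h1, h2, -⟩ := lawEB B j hdt hi hd θ' hθ'
      exact ⟨Lf, h1, h2⟩
    · intro ht
      have hk := htri.1 ht
      refine ⟨rk_KB B j hdt hi hk, fun F _ _ _ θ hd hθ => ?_⟩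
      obtain ⟨θ', -, hθ'⟩ := root_int (K := K) (F := F) (D := j (pB π e i)) (θ := θ) hθ
      exact rk_FB B j hdt hi hk hd θ' hθ'

/-- **The final statement.** -/
theorem final (B : PartsB) (hasy : ∀ (i : ZMod 3), i ≠ 0 → ∀ (M : Finset Ei) (ε : ℝ),
    0 < ε → ∃ X₀ : ℕ, ∀ X : ℕ, X₀ ≤ X →
      |(((SU M X).filter (GdB i M)).card : ℝ) - c9 * ((SU M X).card : ℝ)| ≤ ε * X)
    (htot : S_TOTB) (hden : S_DEN3)
    (K : Type) [Field K] [NumberField K] [IsCyclotomicExtension {3} ℚ K] :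
    (∃ c : ℝ, 0 < c ∧ ∃ X₀ : ℕ, ∀ X : ℕ, X₀ ≤ X →
      c * X ≤ ({D : 𝓞 K | Algebra.norm ℤ D ≤ X ∧ FamK D}.ncard : ℝ)) ∧
    (∀ D : 𝓞 K, FamK D → NxK D → FactsF D) ∧
    Filter.Tendsto (fun X : ℕ =>
      ({D : 𝓞 K | Algebra.norm ℤ D ≤ X ∧ FamK D ∧ NxK D ∧ Tri D}.ncard : ℝ) /
        ({D : 𝓞 K | Algebra.norm ℤ D ≤ X ∧ FamK D}.ncard : ℝ)) Filter.atTop
      (nhds (8 / 9 * ∏' i : ℕ, (1 - (1 / 3 : ℝ) ^ (2 * i + 1)))) ∧
    (0.568 : ℝ) < 8 / 9 * ∏' i : ℕ, (1 - (1 / 3 : ℝ) ^ (2 * i + 1)) := by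
  obtain ⟨⟨j, hj⟩, -⟩ := Pool.Agent.Y455.CTK.jex K
  have e2 : ∀ X : ℕ, {D : 𝓞 K | Algebra.norm ℤ D ≤ X ∧ FamK D}.ncard =
      {D : Ei | nr D ≤ X ∧ FamE D}.ncard := fun X =>
    img_ncard j hj X FamE FamK fun D => (famK_iff j D).symm
  have e1 : ∀ X : ℕ, {D : 𝓞 K | Algebra.norm ℤ D ≤ X ∧ FamK D ∧ NxK D ∧ Tri D}.ncard =
      {D : Ei | nr D ≤ X ∧ FamE D ∧ (NxE D ∧ Tri (j D))}.ncard := fun X =>
    img_ncard j hj X (fun D => FamE D ∧ (NxE D ∧ Tri (j D))) (fun D => FamK D ∧ NxK D ∧ Tri D)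
      fun D => and_congr (famK_iff j D).symm (and_congr (nxK_iff j hj D).symm Iff.rfl)
  refine ⟨?_, fun D hD hx => facts j B hj hD hx, ?_, ?_⟩
  · obtain ⟨⟨c, hc, X₀, h⟩, -⟩ := hden
    refine ⟨c, hc, max (max X₀ 1) (⌈2 / c⌉₊), fun X hX => ?_⟩
    have h1 : X₀ ≤ X := le_trans (le_trans (le_max_left _ _) (le_max_left _ _)) hX
    have h2 : 1 ≤ X := le_trans (le_trans (le_max_right _ _) (le_max_left _ _)) hX
    have h3 : ⌈2 / c⌉₊ ≤ X := le_trans (le_max_right _ _) hX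
    have h4 : 2 / c ≤ X := (Nat.le_ceil _).trans (by exact_mod_cast h3)
    have h5 : 2 ≤ c * X := by
      rw [div_le_iff₀ hc] at h4
      linarith
    rw [e2, card_all X h2]
    have h6 := h X h1
    have h7 : (({D : Ei | nr D ≤ X ∧ ClP D}.ncard : ℕ) : ℝ) = (PP X : ℝ) := rfl
    rw [h7] at h6
    linarith
  · simp only [e1, e2]
    exact lim_fam j hj B hasy htot hden
  · have h : (0.639 : ℝ) < ∏' i : ℕ, (1 - (1 / 3 : ℝ) ^ (2 * i + 1)) :=
      Pool.Agent.XLK.t_C9.2.2.2.1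
    linarith

end

end Pool.Agent.N883.FF
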