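import Pool.Agent.N883.FF.StmK
import Pool.Agent.Y696.CTK.Fin
import Pool.Agent.R395.CT.Light

/-!
# Project FF: the group of points and the `3`-part of the Tate-Shafarevich group
-/

set_option autoImplicit false
set_option linter.unusedVariables false
set_option linter.unusedSectionVars false

open scoped Classical

namespace Pool.Agent.N883.FF

open NumberField IsDedekindDomain WeierstrassCurve
open Pool.Agent.Y692.QS (Ei w nr toC)
open Pool.Agent.Y715.T.Gi Pool.Agent.Y715.T.Nr Pool.Agent.Y715.T.Df Pool.Agent.Y715.T.Ell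
open Pool.Agent.Y703.CT
open Pool.Agent.Y696.CTK (ED parts)

lemma isUnit_w : IsUnit (w : Ei) := by
  have h : (w : Ei) ^ 3 = 1 := by decide
  exact IsUnit.of_pow_eq_one h three_ne_zero

section
variable {J : Type} [Fintype J] {π : J → Ei} {e : J → ZMod 3} {i : ZMod 3}

lemma pB_ne (hD : Dt π e) : pB π e i ≠ 0 :=
  mul_ne_zero (isUnit_w.pow _).ne_zero (Pool.Agent.Y153.CTRAM.ne_zero_of hD)

lemma cf_pB (hD : Dt π e) : CF (pB π e i) := by
  have hcf : CF (pD π e) := Pool.Agent.Y48.CT.SEL.cf_prod hD e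
  refine ⟨pB_ne hD, fun d hd => hcf.2 d ?_⟩
  exact ((isUnit_w.pow i.val).dvd_mul_left).1 hd

lemma a_neB [Nonempty J] {i₀ : QB} {hi : i₀ ^ 2 + i₀ + 1 = 0} (hD : Dt π e)
    {u : QB} {a : GK i₀ → ZMod 3} (hT : Tw hi (pB π e i) u a) : ∃ σ, a σ ≠ 0 := by
  by_contra hcon
  push Not at hcon
  have hne : pB π e i ≠ 0 := pB_ne hD
  obtain ⟨j⟩ := (inferInstance : Nonempty J)
  have hb : Kc hi (pB π e i) (fun σ => -a σ) :=
    kc_of hi (Pool.Agent.Y715.T.Sel.root_ne (hi := hi) hne hT.cube) hT.cube hT.act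
  obtain ⟨p, hp, ι, hl⟩ := exists_emb hi (hD.pq j).prime
  have hp3 := Pool.Agent.Y715.T.Sel.odd_of hi ι (hD.pq j).prime hl
    (Pool.Agent.Y48.CT.SEL.not_assoc_lam (hD.pq j))
  refine Pool.Agent.Y715.T.Sel.not_dvd_of_unr (cf_pB hD) hb hp3 ι (hD.pq j).prime hl
    (fun τ σ _ _ => by rw [hcon σ, neg_zero]) ?_
  unfold pB pD
  refine Dvd.dvd.mul_left ?_ _
  refine (dvd_pow_self (π j) ?_).trans (Finset.dvd_prod_of_mem _ (Finset.mem_univ j))
  rw [Ne, ZMod.val_eq_zero]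
  exact hD.e0 j

end

/-- FF-FIN with the order of the group of points -/
theorem finB' (h1 : S_LOC3B) (h2 : S_RAMG) (h3 : S_UNRG) (h4 : S_SELB)
    (K : Type) [Field K] [NumberField K] (j : Ei ≃+* 𝓞 K)
    (J : Type) [Fintype J] [Nonempty J] (π : J → Ei) (e : J → ZMod 3) (i : ZMod 3) (hD : Dt π e)
    (hi0 : i ≠ 0) (hk : KerB π e i) : Finite (ED (j (pB π e i) : K)).toAffine.Point ∧
      padicValNat 3 (Nat.card (ED (j (pB π e i) : K)).toAffine.Point) = 1 ∧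
      ∀ (n : ℕ) (x : Pool.Agent.TH841.NF.D.Sha (ED (j (pB π e i) : K))), 3 ^ n • x = 0 → x = 0 := by
  have hne : pB π e i ≠ 0 := pB_ne hD
  have hm := parts.mwt parts.trf K j _ hne fun i₀ hi u a hT =>
    Pool.Agent.Y155.CT.t_MWK _ hne i₀ hi u a hT (a_neB hD hT)
      (h4 h1 h2 h3 J π e i hD hi0 hk i₀ hi u a hT)
  exact ⟨hm.1, hm.2, parts.sht parts.trf K j _ hne fun i₀ hi u a hT =>
    Pool.Agent.Y155.CT.t_SHK _ hne i₀ hi u a hT (h4 h1 h2 h3 J π e i hD hi0 hk i₀ hi u a hT)⟩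

theorem finB : S_FINB := by
  intro h1 h2 h3 h4 K _ _ j J _ _ π e i hD hi0 hk
  have h := finB' h1 h2 h3 h4 K j J π e i hD hi0 hk
  exact ⟨h.1, h.2.2⟩

end Pool.Agent.N883.FF
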