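import Pool.Agent.N883.FF.Cnt

/-!
# Project FF: the limit
-/

set_option autoImplicit false
set_option linter.unusedVariables false
set_option linter.unusedSectionVars false

open scoped Classical

namespace Pool.Agent.N883.FF

open NumberField Filter Topology
open Pool.Agent.Y692.QS (Ei w nr toC)
open Pool.Agent.Y703.CT
open Pool.Agent.Y703.XK (c9)
open Pool.Agent.Y715.T.Gi (CF)
open Pool.Agent.R419.KF (el ClsC ClsKC clsC_iff)
open Pool.Agent.Y696.CTK (Tri)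
open Pool.Agent.Y696.XK (img_ncard)

/-- the number of cube-free primary elements -/
noncomputable def PP (X : ℕ) : ℕ := {z : Ei | nr z ≤ X ∧ ClP z}.ncard

lemma lim_aux {P A B1 B2 : ℕ → ℝ} {c : ℝ} (hP : Tendsto P atTop atTop)
    (hA : Tendsto (fun X => A X / P X) atTop (𝓝 (2 / 3 * c)))
    (hB1 : Tendsto (fun X => (B1 X + 1) / P X) atTop (𝓝 c))
    (hB2 : Tendsto (fun X => (B2 X + 1) / P X) atTop (𝓝 c)) :
    Tendsto (fun X => (A X + B1 X + B2 X) / (3 * (P X - 1))) atTop (𝓝 (8 / 9 * c)) := by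
  have h0 : Tendsto (fun X => 1 / P X) atTop (𝓝 0) := by
    simp only [one_div]
    exact tendsto_inv_atTop_zero.comp hP
  have h1 : Tendsto (fun X => (A X / P X + (B1 X + 1) / P X + (B2 X + 1) / P X - 2 * (1 / P X)) /
      (3 * (1 - 1 / P X))) atTop (𝓝 ((2 / 3 * c + c + c - 2 * 0) / (3 * (1 - 0)))) := by
    refine Tendsto.div ?_ ?_ (by norm_num)
    · exact ((hA.add hB1).add hB2).sub (h0.const_mul 2)
    · exact (tendsto_const_nhds.sub h0).const_mul 3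
  have e : (2 / 3 * c + c + c - 2 * 0) / (3 * (1 - 0)) = 8 / 9 * c := by ring
  rw [e] at h1
  refine h1.congr' ?_
  filter_upwards [hP.eventually_gt_atTop 1] with X hX
  have h2 : P X ≠ 0 := by linarith
  have h3 : P X - 1 ≠ 0 := by linarith
  have h4 : 1 - 1 / P X ≠ 0 := by
    rw [Ne, sub_eq_zero, eq_div_iff h2]
    intro h
    apply h3
    linarith
  field_simp
  ring

lemma one_mem (X : ℕ) (hX : 1 ≤ X) : nr (1 : Ei) ≤ X ∧ ClP 1 := by
  refine ⟨?_, ?_, ?_⟩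
  · have : nr (1 : Ei) = 1 := by decide
    rw [this]
    exact_mod_cast hX
  · rw [sub_self]
    exact dvd_zero _
  · intro x hx
    exact (isUnit_pow_iff three_ne_zero).1 (isUnit_of_dvd_one hx)

/-- the count without the element `1` -/
lemma card_ne_one (P : Ei → Prop) (X : ℕ) (hX : 1 ≤ X) :
    {z : Ei | nr z ≤ X ∧ ClP z ∧ (z = 1 ∨ P z)}.ncard =
      {z : Ei | nr z ≤ X ∧ ClP z ∧ z ≠ 1 ∧ P z}.ncard + 1 := by
  have h1 : {z : Ei | nr z ≤ X ∧ ClP z ∧ (z = 1 ∨ P z)} =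
      insert 1 {z : Ei | nr z ≤ X ∧ ClP z ∧ z ≠ 1 ∧ P z} := by
    ext z
    simp only [Set.mem_ofPred_eq, Set.mem_insert_iff]
    constructor
    · rintro ⟨a, b, c⟩
      by_cases hz : z = 1
      · exact Or.inl hz
      · exact Or.inr ⟨a, b, hz, c.resolve_left hz⟩
    · rintro (rfl | ⟨a, b, c, d⟩)
      · exact ⟨(one_mem X hX).1, (one_mem X hX).2, Or.inl rfl⟩
      · exact ⟨a, b, Or.inr d⟩
  have hf : {z : Ei | nr z ≤ X ∧ ClP z ∧ z ≠ 1 ∧ P z}.Finite :=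
    (fin_nr X).subset fun z hz => hz.1
  rw [h1, Set.ncard_insert_of_notMem (fun h => h.2.2.1 rfl) hf]

lemma card_all (X : ℕ) (hX : 1 ≤ X) :
    ({D : Ei | nr D ≤ X ∧ FamE D}.ncard : ℝ) = 3 * ((PP X : ℝ) - 1) := by
  have h1 := card_fam (fun _ => True) X
  simp only [and_true] at h1
  rw [h1]
  have h2 := card_ne_one (fun _ => True) X hX
  simp only [or_true, and_true] at h2
  have h3 : {z : Ei | nr z ≤ X ∧ ClP z ∧ z ≠ 1}.ncard + 1 = PP X := h2.symm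
  rw [Finset.sum_const, ← h3]
  have : (Finset.univ : Finset (ZMod 3)).card = 3 := by decide
  rw [this, smul_eq_mul, Nat.cast_mul, Nat.cast_add, Nat.cast_one, add_sub_cancel_right]
  norm_num

/-- the large number of elements -/
lemma PP_top (hden : S_DEN3) : Tendsto (fun X => (PP X : ℝ)) atTop atTop := by
  obtain ⟨⟨c, hc, X₀, h⟩, -⟩ := hden
  refine tendsto_atTop_mono' atTop ?_ (tendsto_natCast_atTop_atTop.const_mul_atTop hc)
  filter_upwards [eventually_ge_atTop X₀] with X hX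
  exact h X hX

/-- the proportion of the elements with norm not `1` modulo `9` -/
lemma clsC_lim (hden : S_DEN3) : Tendsto (fun X : ℕ =>
    ({z : Ei | nr z ≤ X ∧ ClsC z}.ncard : ℝ) / (PP X : ℝ)) atTop (𝓝 (2 / 3)) := by
  have h1 := hden.2
  have h2 : Tendsto (fun X : ℕ => 1 - ({D : Ei | nr D ≤ X ∧ ClP D ∧ (9 : ℤ) ∣ nr D - 1}.ncard : ℝ) /
    ({D : Ei | nr D ≤ X ∧ ClP D}.ncard : ℝ)) atTop (𝓝 (1 - 1 / 3)) := tendsto_const_nhds.sub h1
  have e : (1 - 1 / 3 : ℝ) = 2 / 3 := by norm_num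
  rw [e] at h2
  refine h2.congr' ?_
  filter_upwards [(PP_top hden).eventually_gt_atTop 0] with X hX
  have h3 : PP X = {z : Ei | nr z ≤ X ∧ ClsC z}.ncard +
      {D : Ei | nr D ≤ X ∧ ClP D ∧ (9 : ℤ) ∣ nr D - 1}.ncard := by
    unfold PP
    have hf1 : {z : Ei | nr z ≤ X ∧ ClsC z}.Finite := (fin_nr X).subset fun z hz => hz.1
    have hf2 : {D : Ei | nr D ≤ X ∧ ClP D ∧ (9 : ℤ) ∣ nr D - 1}.Finite :=
      (fin_nr X).subset fun z hz => hz.1
    rw [← Set.ncard_union_eq ?_ hf1 hf2]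
    · congr 1
      ext z
      simp only [Set.mem_ofPred_eq, Set.mem_union]
      constructor
      · rintro ⟨a, b⟩
        by_cases h9 : (9 : ℤ) ∣ nr z - 1
        · exact Or.inr ⟨a, b, h9⟩
        · exact Or.inl ⟨a, b.1, ⟨Pool.Agent.Y699.E.prm_ne_zero b.1, b.2⟩, h9⟩
      · rintro (⟨a, b, c, d⟩ | ⟨a, b, c⟩)
        · exact ⟨a, b, c.2⟩
        · exact ⟨a, b⟩
    · rw [Set.disjoint_left]
      rintro z ⟨-, -, -, h⟩ ⟨-, -, h'⟩
      exact h h'
  have h4 : (PP X : ℝ) ≠ 0 := ne_of_gt hX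
  have h5 : (PP X : ℝ) = ({z : Ei | nr z ≤ X ∧ ClsC z}.ncard : ℝ) +
      ({D : Ei | nr D ≤ X ∧ ClP D ∧ (9 : ℤ) ∣ nr D - 1}.ncard : ℝ) := by exact_mod_cast h3
  have h6 : (({D : Ei | nr D ≤ X ∧ ClP D}.ncard : ℕ) : ℝ) = (PP X : ℝ) := rfl
  rw [h6, eq_div_iff h4, sub_mul, one_mul, div_mul_cancel₀ _ h4, h5]
  ring

section
variable {K : Type} [Field K] [NumberField K] (j : Ei ≃+* 𝓞 K)

/-- the proportion for `i ≠ 0` -/
theorem lim_B (B : PartsB) (hasy : ∀ (i : ZMod 3), i ≠ 0 → ∀ (M : Finset Ei) (ε : ℝ),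
    0 < ε → ∃ X₀ : ℕ, ∀ X : ℕ, X₀ ≤ X →
      |(((SU M X).filter (GdB i M)).card : ℝ) - c9 * ((SU M X).card : ℝ)| ≤ ε * X)
    (htot : S_TOTB) {i : ZMod 3} (hi : i ≠ 0) :
    Tendsto (fun X : ℕ => (({z : Ei | nr z ≤ X ∧ ClP z ∧ z ≠ 1 ∧
      Tri (j (w ^ i.val * z))}.ncard : ℝ) + 1) / (PP X : ℝ)) atTop (𝓝 c9) := by
  have h1 := htot hasy i hi (fun z => z = 1 ∨ Tri (j (w ^ i.val * z))) ?_
  · refine h1.congr' ?_
    filter_upwards [eventually_ge_atTop 1] with X hX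
    rw [card_ne_one (fun z => Tri (j (w ^ i.val * z))) X hX]
    push_cast
    rfl
  · intro M S hMS
    rcases S.eq_empty_or_nonempty with rfl | hne
    · have hM : M = ∅ := Finset.subset_empty.1 hMS.2
      subst hM
      refine iff_of_true (Or.inl ?_) ?_
      · unfold el
        simp
      · intro v hv π hπ
        exact absurd hπ (Finset.notMem_empty _)
    · obtain ⟨n, π, e, hdt, hel, hg⟩ := datb M S hMS hne i
      have hne1 : el M S ≠ 1 := by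
        rw [hel]
        intro h
        have := Pool.Agent.R419.CE.nunit hdt
        rw [h] at this
        exact this isUnit_one
      have h2 : (el M S = 1 ∨ Tri (j (w ^ i.val * el M S))) ↔ Tri (j (pB π e i)) := by
        rw [or_iff_right hne1, hel]
        rfl
      exact h2.trans ((tri_iffB B j hdt hi).trans hg.symm)

/-- **The proportion in the family.** -/
theorem lim_fam [IsCyclotomicExtension {3} ℚ K] (hj : ∀ z : Ei, Algebra.norm ℤ (j z) = nr z)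
    (B : PartsB) (hasy : ∀ (i : ZMod 3), i ≠ 0 → ∀ (M : Finset Ei) (ε : ℝ),
    0 < ε → ∃ X₀ : ℕ, ∀ X : ℕ, X₀ ≤ X →
      |(((SU M X).filter (GdB i M)).card : ℝ) - c9 * ((SU M X).card : ℝ)| ≤ ε * X)
    (htot : S_TOTB) (hden : S_DEN3) :
    Tendsto (fun X : ℕ => ({D : Ei | nr D ≤ X ∧ FamE D ∧ (NxE D ∧ Tri (j D))}.ncard : ℝ) /
      ({D : Ei | nr D ≤ X ∧ FamE D}.ncard : ℝ)) atTop
      (𝓝 (8 / 9 * ∏' i : ℕ, (1 - (1 / 3 : ℝ) ^ (2 * i + 1)))) := by
  have hc : (c9 : ℝ) = ∏' i : ℕ, (1 - (1 / 3 : ℝ) ^ (2 * i + 1)) := rfl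
  rw [← hc]
  have hB1 := lim_B j B hasy htot (i := 1) one_ne_zero
  have hB2 := lim_B j B hasy htot (i := 2) (by decide)
  obtain ⟨-, -, hfin, -, -⟩ := Pool.Agent.R419.KF.final K
  rw [← hc] at hfin
  have e2 : ∀ X : ℕ, {D : 𝓞 K | Algebra.norm ℤ D ≤ X ∧ ClsKC D}.ncard =
      {D : Ei | nr D ≤ X ∧ ClsC D}.ncard := fun X =>
    img_ncard j hj X ClsC ClsKC fun D => (clsC_iff j hj D).symm
  have e1 : ∀ X : ℕ, {D : 𝓞 K | Algebra.norm ℤ D ≤ X ∧ ClsKC D ∧ Tri D}.ncard =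
      {D : Ei | nr D ≤ X ∧ ClsC D ∧ Tri (j D)}.ncard := fun X =>
    img_ncard j hj X (fun D => ClsC D ∧ Tri (j D)) (fun D => ClsKC D ∧ Tri D)
      fun D => and_congr_left fun _ => (clsC_iff j hj D).symm
  simp only [e1, e2] at hfin
  have hA : Tendsto (fun X : ℕ => ({D : Ei | nr D ≤ X ∧ ClsC D ∧ Tri (j D)}.ncard : ℝ) /
      (PP X : ℝ)) atTop (𝓝 (2 / 3 * c9)) := by
    have h1 := hfin.mul (clsC_lim hden)
    rw [mul_comm (2 / 3 : ℝ)]
    refine h1.congr' ?_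
    have h2 : Tendsto (fun X : ℕ => ({z : Ei | nr z ≤ X ∧ ClsC z}.ncard : ℝ) / (PP X : ℝ)) atTop
      (𝓝 (2 / 3)) := clsC_lim hden
    have h3 : ∀ᶠ X : ℕ in atTop, ({z : Ei | nr z ≤ X ∧ ClsC z}.ncard : ℝ) / (PP X : ℝ) ≠ 0 :=
      h2.eventually_ne (by norm_num)
    filter_upwards [h3] with X hX
    have h4 : ({z : Ei | nr z ≤ X ∧ ClsC z}.ncard : ℝ) ≠ 0 := fun h => hX (by rw [h, zero_div])
    rw [div_mul_div_comm, mul_comm ({z : Ei | nr z ≤ X ∧ ClsC z}.ncard : ℝ),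
      mul_div_mul_right _ _ h4]
  have h := lim_aux (PP_top hden) hA hB1 hB2
  refine h.congr' ?_
  filter_upwards [eventually_ge_atTop 1] with X hX
  rw [card_all X hX, card_fam (fun D => NxE D ∧ Tri (j D)) X]
  have hu : (Finset.univ : Finset (ZMod 3)) = {0, 1, 2} := by decide
  rw [hu, Finset.sum_insert (by decide), Finset.sum_insert (by decide), Finset.sum_singleton]
  have hs : ∀ i : ZMod 3, i ≠ 0 → {z : Ei | nr z ≤ X ∧ ClP z ∧ z ≠ 1 ∧
      (NxE (w ^ i.val * z) ∧ Tri (j (w ^ i.val * z)))} =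
      {z : Ei | nr z ≤ X ∧ ClP z ∧ z ≠ 1 ∧ Tri (j (w ^ i.val * z))} := by
    intro i hi
    ext z
    simp only [Set.mem_ofPred_eq]
    constructor
    · rintro ⟨a, b, c, -, d⟩
      exact ⟨a, b, c, d⟩
    · rintro ⟨a, b, c, d⟩
      refine ⟨a, b, c, fun h => hi ?_, d⟩
      refine (three_dvd_w b.1 0).1 ?_
      have : (w : Ei) ^ (0 : ZMod 3).val = 1 := by decide
      rw [this]
      exact h.1
  have h0 : {z : Ei | nr z ≤ X ∧ ClP z ∧ z ≠ 1 ∧
      (NxE (w ^ (0 : ZMod 3).val * z) ∧ Tri (j (w ^ (0 : ZMod 3).val * z)))} =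
      {D : Ei | nr D ≤ X ∧ ClsC D ∧ Tri (j D)} := by
    have hw0 : (w : Ei) ^ (0 : ZMod 3).val = 1 := by decide
    ext z
    simp only [Set.mem_ofPred_eq, hw0, one_mul]
    constructor
    · rintro ⟨a, b, c, d, e⟩
      exact ⟨a, ⟨b.1, ⟨Pool.Agent.Y699.E.prm_ne_zero b.1, b.2⟩, fun h => d ⟨b.1, h⟩⟩, e⟩
    · rintro ⟨a, ⟨b, c, d⟩, e⟩
      refine ⟨a, ⟨b, c.2⟩, ?_, fun h => d h.2, e⟩
      rintro rfl
      apply d
      have : nr (1 : Ei) = 1 := by decide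
      rw [this, sub_self]
      exact dvd_zero _
  rw [h0, hs 1 one_ne_zero, hs 2 (by decide)]
  push_cast
  congr 1
  ring

end

end Pool.Agent.N883.FF
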