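import Pool.Agent.Y715.Idn

/-!
# Project FF: the distribution relations for characters that are not `1` at the primes
-/

set_option autoImplicit false
set_option linter.unusedVariables false

open Filter
open scoped Topology PeriodPair

namespace Pool.Agent.N883.FF

open Pool.Agent.W192.HK (sp)
open Pool.Agent.TH936.CM Pool.Agent.TH936.PU
open Pool.Agent.Y715.Dist Pool.Agent.Y715.Idn

/-- FF-DIST: the identity for the sums over subsets of the primes, for characters that are not `1`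
at the primes. -/
def S_DIST : Prop := ∀ (L : PeriodPair) (R : Subring ℂ) (Ω : ℂ) (ι : Type) [DecidableEq ι]
  (π : ι → R) (X : ι → R → ℂ) (f : R) [Fintype (R ⧸ sp f)] (e : R → ℂ) (Ef : ℂ),
  IsLat L R Ω → (∀ q : R, q ≠ 0 → Finite (R ⧸ sp q)) → f ≠ 0 → Fm π X →
  (∀ i, IsCoprime f (π i)) → Eo f e → (∀ i, e (π i) ≠ 0) →
  Tendsto (fun δ : ℝ => ∑ y : R ⧸ sp f, e y.out * EE R Ω δ (Ω * y.out / f)) (𝓝[>] 0) (𝓝 Ef) →
  ∀ S : Finset ι,
    e (cc π S) * Sm (cc π S) (fun x => (∏ i ∈ S, (ind (π i) x - X i x)) *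
        Ph L Ω f e Ef (cc π S) x) =
      ∑ T ∈ S.powerset, (-1) ^ T.card * ((∏ i ∈ S \ T, ((π i : ℂ) - e (π i) * XT X T (π i))) *
        (e (cc π T) * SP L Ω f e Ef π X T))

end Pool.Agent.N883.FF
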