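import Pool.Agent.Y703.CT.Ana
import Pool.Agent.Y715.T.Rs
import Pool.Agent.N883.FF.Defs

/-!
# Project FF: the characters, the limits and the valuations
-/

set_option autoImplicit false
set_option linter.unusedVariables false

open Filter
open scoped Classical Topology PeriodPair

namespace Pool.Agent.N883.FF

open Pool.Agent.Y692.QS (Ei w nr toC)
open Pool.Agent.Y703.CT.Ana (ej)
open Pool.Agent.W192.HK (sp)
open Pool.Agent.TH936.CM Pool.Agent.TH936.PU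
open Pool.Agent.Y715.Dist Pool.Agent.Y715.Idn
open Pool.Agent.Y696 (Cur eis)
open Pool.Agent.Y715.T.Rs (eq0)
open Pool.Agent.Y715.T.Lat (la)
open Pool.Agent.Y715.T.Three (lam)

/-- the symbol of `ω ^ i` as a function on the subring `eis` of `ℂ` -/
noncomputable def c0 (i : ZMod 3) (x : eis) : ℂ := toC w ^ (i * nq (eq0.symm x)).val

/-- the modulus `3 √-3` -/
noncomputable def fB : eis := 3 * la

/-- the three odd characters modulo `3`, multiplied by the symbol of `ω ^ i` -/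
noncomputable def eB (i : ZMod 3) (j : Fin 3) (x : eis) : ℂ := ej j x * c0 i x

/-- FF-CHI. -/
def S_CHI : Prop := ∀ i : ZMod 3,
  (∀ x y : eis, x - y ∈ (sp fB : Ideal eis) → c0 i x = c0 i y) ∧
  (∀ x y : eis, IsCoprime x 3 → IsCoprime y 3 → c0 i (x * y) = c0 i x * c0 i y) ∧
  (∀ u : eis, IsUnit u → c0 i u = 1) ∧
  (∀ x : eis, c0 i x ^ 3 = 1) ∧
  (∀ j : Fin 3, Eo fB (eB i j)) ∧
  (∀ k : ℤ, c0 i (1 + 3 * (k : eis)) = toC w ^ (-(i * (k : ZMod 3))).val)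

/-- the function `(δ - ℘') / (2 ℘)` -/
noncomputable def gB (L : PeriodPair) (δ z : ℂ) : ℂ := (δ - ℘'[L] z) / (2 * ℘[L] z)

/-- the constant, a square root of `-3` -/
noncomputable def dB (L : PeriodPair) (Ω : ℂ) (i : ZMod 3) : ℂ :=
  (toC w ^ i.val - toC w ^ (-i).val) * ℘'[L] (Ω / lam)

/-- the value at `Ω / (3 √-3)` -/
noncomputable def kB (L : PeriodPair) (Ω : ℂ) (i : ZMod 3) : ℂ :=
  gB L (dB L Ω i) (Ω / (3 * lam))

/-- the limits -/
noncomputable def CB (L : PeriodPair) (Ω : ℂ) (i : ZMod 3) (j : Fin 3) : ℂ :=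
  if j = 0 then 6 * kB L Ω i else 0

/-- FF-GF: the limits of the regularized sums. -/
def S_GF : Prop := S_CHI → ∀ (L : PeriodPair) (Ω : ℂ), Cur L Ω → ∀ i : ZMod 3, i ≠ 0 →
  dB L Ω i ^ 2 = -3 ∧
  ∀ [Fintype (eis ⧸ (sp fB : Ideal eis))],
    (∀ j : Fin 3, Tendsto (fun δ : ℝ => ∑ y : eis ⧸ (sp fB : Ideal eis),
      eB i j y.out * EE eis Ω δ (Ω * y.out / fB)) (𝓝[>] 0) (𝓝 (CB L Ω i j))) ∧
    (∀ c x : eis, c ≠ 0 → IsCoprime 3 c → x ∉ (sp c : Ideal eis) →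
      ∑ j : Fin 3, HH L Ω fB (eB i j) (Ω * x / c) =
        3 * (gB L (dB L Ω i) (Ω / (3 * lam) + Ω * x / c) +
          gB L (dB L Ω i) (Ω / (3 * lam) - Ω * x / c) - 2 * kB L Ω i))

/-- FF-VAL: the valuations at three. -/
def S_VAL : Prop := ∀ (Γ : Type) [LinearOrderedCommGroupWithZero Γ] (v : Valuation ℂ Γ), v 3 < 1 →
  ∀ (L : PeriodPair) (Ω : ℂ), Cur L Ω → ∀ δ : ℂ, δ ^ 2 = -3 →
    v (gB L δ (Ω / (3 * lam))) = v lam ∧
    ∀ c x : eis, c ≠ 0 → IsCoprime 3 c → (sp c : Ideal eis) ≠ ⊤ → IsCoprime x c →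
      v (gB L δ (Ω / (3 * lam) + Ω * x / c) - gB L δ (Ω / (3 * lam))) < v lam

end Pool.Agent.N883.FF
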