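import Pool.Agent.Y715.CT.AN1b
import Pool.Agent.N883.FF.StmD
import Pool.Agent.N883.FF.StmE
import Pool.Agent.N883.FF.StmX

/-!
# Project FF: statements of the analytic part
-/

set_option autoImplicit false
set_option linter.unusedVariables false

open Filter
open scoped Classical Topology PeriodPair

namespace Pool.Agent.N883.FF

open Pool.Agent.Y692.QS (Ei w nr toC)
open Pool.Agent.Y703.CT (Dt pD chD Xc)
open Pool.Agent.Y715.CT.Hec (XX cP)
open Pool.Agent.W192.HK (sp HC)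
open Pool.Agent.TH936.CM Pool.Agent.TH936.PU
open Pool.Agent.Y715.Dist Pool.Agent.Y715.Idn
open Pool.Agent.Y696 (Cur eis om omr)
open Pool.Agent.Y715.T.Rs (eq0)
open Pool.Agent.Y715.T.Three (lam)
open Pool.Agent.Y715.T.Cg (Cg)

/-- the sums for the three characters together, times the symbol of `ω ^ i` -/
noncomputable def SQB {J : Type} [Fintype (eis ⧸ (sp fB : Ideal eis))] (L : PeriodPair) (Ω : ℂ)
    (π : J → Ei) (e : J → ZMod 3) (i : ZMod 3) (T : Finset J) : ℂ :=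
  c0 i (cc (fun k => eq0 (π k)) T) *
    ∑ j : Fin 3, SP L Ω fB (eB i j) (CB L Ω i j) (fun k => eq0 (π k)) (Xc π e) T

/-- FF-REC: the recursion modulo the maximal ideal. -/
def S_RECB : Prop := S_CHI → S_DIST → S_GF → S_VAL → S_DRE →
  ∀ (Γ : Type) [LinearOrderedCommGroupWithZero Γ] (v : Valuation ℂ Γ), v 3 < 1 →
  ∀ (L : PeriodPair) (Ω : ℂ), Cur L Ω →
  ∀ (J : Type) [Fintype J] (π : J → Ei) (e : J → ZMod 3) (i : ZMod 3), Dt π e → i ≠ 0 →
  ∀ [Fintype (eis ⧸ (sp fB : Ideal eis))] (T : Finset J),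
    Cg v (SQB L Ω π e i T / (6 * kB L Ω i * (1 - toC w) ^ T.card)) (DB π e i T)

/-- the function on the elements -/
noncomputable def ggB {J : Type} [Fintype J] (π : J → Ei) (e : J → ZMod 3) (i : ZMod 3)
    (j : Fin 3) (α : eis) : ℂ :=
  (α : ℂ) * (starRingEnd ℂ) (eB i j α * XX π e α)

/-- the Hecke character -/
noncomputable def thB {J : Type} [Fintype J] (π : J → Ei) (e : J → ZMod 3) (i : ZMod 3)
    (j : Fin 3) (I : Ideal eis) : ℂ :=
  ggB π e i j (Submodule.IsPrincipal.generator I)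

/-- FF-HEC: the Hecke character. -/
def S_HEC : Prop := S_CHI → ∀ (J : Type) [Fintype J] (π : J → Ei) (e : J → ZMod 3) (i : ZMod 3),
  Dt π e → i ≠ 0 → ∀ j : Fin 3, om ^ (2 * (j : ℕ)) * XX π e omr = 1 →
    (∀ α : eis, thB π e i j (sp α) = ggB π e i j α) ∧
    (∀ α : eis, ggB π e i j α = 0 ↔ (α = 0 ∨ ¬ IsCoprime α (fB * cP π))) ∧
    HC 1 (sp (fB * cP π)) (thB π e i j)

/-- FF-ANV: the entire continuation and the central value as a sum. -/
def S_ANV : Prop := S_CHI → S_HEC → ∀ (J : Type) [Fintype J] [Nonempty J] (π : J → Ei)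
  (e : J → ZMod 3) (i : ZMod 3), Dt π e → i ≠ 0 → ∃ F : ℂ → ℂ, IsHLB π e (-i) F ∧
    ∀ [Fintype (eis ⧸ (sp fB : Ideal eis))] (L : PeriodPair) (Ω : ℂ), Cur L Ω →
      ∃ (ρ : ℂ) (n : ℕ), 0 < n ∧ ρ ^ n = 1 ∧
        (starRingEnd ℂ) (F 1) / Ω = (18 * lam)⁻¹ * (∏ j, toC (π j))⁻¹ * ρ *
          SQB L Ω π e i Finset.univ

/-- FF-ANB: the final statement of the analytic part; the valuation is as small as possible. -/
def S_ANB : Prop := ∀ (J : Type) [Fintype J] [Nonempty J] (π : J → Ei) (e : J → ZMod 3)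
  (i : ZMod 3), Dt π e → i ≠ 0 → ∃ F : ℂ → ℂ, IsHLB π (fun k => -e k) (-i) F ∧
    (KerB π e i → F 1 ≠ 0 ∧
      ∀ (Γ : Type) [LinearOrderedCommGroupWithZero Γ] (v : Valuation ℂ Γ), v 3 < 1 →
        ∀ (L : PeriodPair) (Ω : ℂ), Cur L Ω →
          v ((starRingEnd ℂ) (F 1) / Ω) * v lam ^ 2 = v lam ^ Fintype.card J)

end Pool.Agent.N883.FF
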