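import Pool.Agent.N883.FF.Defs
import Pool.Agent.R419.KF.Defs
import Pool.Agent.Y699.E.Hal2

/-!
# Project FF: statements of the counting part

Everything as in `Pool/Agent/R419/KF` (helper419), with one more index `ω` in the Laplacian and
without the condition modulo `9`.
-/

set_option autoImplicit false
set_option linter.unusedVariables false

open scoped Classical

namespace Pool.Agent.N883.FF

open Finset
open Pool.Agent.Y692.QS (Ei w nr toC)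
open Pool.Agent.Y715.T.Rec (cs)
open Pool.Agent.Y715.T.RecG (Pq)
open Pool.Agent.Y699.E (ez nrm QB SB PS mf xab lg)
open Pool.Agent.Y703.CX (jj XX eL zz kk)
open Pool.Agent.Y703.XK (sm la bl prs HB c9 S_BIL S_EQ S_LA S_C9)
open Pool.Agent.R419.KF (wt SG)

/-- all solutions of the system with the additional index `ω` are zero -/
def GdB (i : ZMod 3) (M S : Finset Ei) : Prop :=
  ∀ v : Ei → ZMod 3, (∀ π ∈ S, ∑ ρ ∈ S, wt M ρ * cs π ρ * (v ρ - v π) = i * nq π * v π) →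
    ∀ π ∈ S, v π = 0

/-- the labels of the large primes with respect to the small ones and to `ω` are not degenerate -/
def NdB (S₀ S₁ : Finset Ei) : Prop :=
  ∀ (v : Ei → ZMod 3) (t : ZMod 3), ((∃ u ∈ S₀, v u ≠ 0) ∨ t ≠ 0) →
    ∃ π ∈ S₁, ∑ u ∈ S₀, v u * cs u π + t * nq π ≠ 0

/-- the class for a given `M` -/
def ClU (M S : Finset Ei) : Prop := (∀ π ∈ S, Pq π) ∧ M ⊆ S

/-- the sets of the class with norm at most `X` -/
noncomputable def SU (M : Finset Ei) (X : ℕ) : Finset (Finset Ei) :=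
  (QB X).powerset.filter fun S => ClU M S ∧ ∏ π ∈ S, nrm π ≤ X

/-- the regular sets -/
noncomputable def RRU (M : Finset Ei) (X z H k V : ℕ) : Finset (Finset Ei) :=
  (SU M X).filter fun S => Set.InjOn (bl H) (la z S : Set Ei) ∧ S.card ≤ k ∧
    (∏ π ∈ sm z S, nrm π) * ∏ π ∈ la z S, XX H (bl H π) ≤ X ∧
    (sm z S).card + V < (la z S).card

/-- FF-HAL: mean values with the symbol of `ω`. -/
def S_HALB : Prop := ∃ C : ℝ, 1 ≤ C ∧ ∀ (A B : Ei) (t : ZMod 3), PS A → PS B → (A ≠ B ∨ t ≠ 0) →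
  ∀ T : ℕ, ∑ n ∈ SB T, mf (fun π => (1 + 2 * (xab A B π * ez (t * nq π)).re) / 3) n ≤
    C * (lg (nrm A * nrm B)) ^ (1 / 3 : ℝ) * (T * (lg T) ^ (-(1 / 3) : ℝ))

/-- FF-BAD: few sets have degenerate labels. -/
def S_BADB : Prop := ∀ ε : ℝ, 0 < ε → ∃ X₀ : ℕ, ∀ X : ℕ, X₀ ≤ X →
  (((SG X).filter fun S => S.card ≤ kk X ∧ ¬ NdB (sm (zz X) S) (la (zz X) S)).card : ℝ) ≤ ε * X

/-- FF-BOX: the count in a box on which the label at `ω` is constant. -/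
def S_BOXB : Prop := ∀ (i : ZMod 3), i ≠ 0 → ∀ (ι : Type) [Fintype ι] [LinearOrder ι]
  (C : ι → Finset Ei) (X : ι → ℕ) (κ : ℝ) (M S₀ : Finset Ei), M ⊆ S₀ → 0 ≤ κ →
  (∀ i, (C i).card ≤ X i) → HB C X κ → (∀ u ∈ S₀, Pq u) → (∀ i, ∀ π ∈ C i, Pq π ∧ π ∉ S₀) →
  (∀ i l, i ≠ l → Disjoint (C i) (C l)) → (∀ i, ∀ π ∈ C i, ∀ ρ ∈ C i, nq π = nq ρ) →
  S₀.card + 1 < Fintype.card ι →
  |(((Fintype.piFinset C).filter fun p => NdB S₀ (univ.image p) ∧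
      GdB i M (S₀ ∪ univ.image p)).card : ℝ) -
      c9 * (((Fintype.piFinset C).filter fun p => NdB S₀ (univ.image p)).card : ℝ)| ≤
    3 * (3 ^ (S₀.card + 1) / 3 ^ Fintype.card ι) *
      (((Fintype.piFinset C).filter fun p => NdB S₀ (univ.image p)).card : ℝ) +
    3 ^ (S₀.card * Fintype.card ι + (prs ι).card) * (κ * ∏ j, (X j : ℝ))

/-- FF-KEY: the sum over the boxes. -/
def S_KEYB : Prop := S_BOXB → ∀ (i : ZMod 3), i ≠ 0 → ∃ C : ℝ, 1 ≤ C ∧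
  ∀ (M : Finset Ei) (X z H k V N : ℕ) (κ : ℝ), (∀ q ∈ M, nrm q ≤ z) → 1 ≤ X → 1 ≤ H → 1 ≤ z →
  1 ≤ V → 0 ≤ κ → C ≤ κ ^ 24 * z → (H : ℝ) * Real.log X < N →
  |(((RRU M X z H k V).filter fun S => NdB (sm z S) (la z S) ∧ GdB i M S).card : ℝ) -
      c9 * (((RRU M X z H k V).filter fun S => NdB (sm z S) (la z S)).card : ℝ)| ≤
    9 * (1 / 3 : ℝ) ^ V * ((RRU M X z H k V).card : ℝ) +
    (9 * N + 9 : ℝ) ^ k * (3 ^ (9 * k ^ 2 + 9) * κ) * (X * (1 + Real.log X))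

/-- FF-ASY: the asymptotics for one `M`. -/
def S_ASYB : Prop := S_BADB → S_KEYB → S_BOXB → ∀ (i : ZMod 3), i ≠ 0 → ∀ (M : Finset Ei) (ε : ℝ),
  0 < ε → ∃ X₀ : ℕ, ∀ X : ℕ, X₀ ≤ X →
    |(((SU M X).filter (GdB i M)).card : ℝ) - c9 * ((SU M X).card : ℝ)| ≤ ε * X

/-- the cube-free primary elements -/
def ClP (D : Ei) : Prop := (3 : Ei) ∣ D - 1 ∧ ∀ x : Ei, x ^ 3 ∣ D → IsUnit x

/-- FF-DEN: one third of the cube-free primary elements have norm `1` modulo `9`, and there are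
many of them. -/
def S_DEN3 : Prop := (∃ c : ℝ, 0 < c ∧ ∃ X₀ : ℕ, ∀ X : ℕ, X₀ ≤ X →
    c * X ≤ ({D : Ei | nr D ≤ X ∧ ClP D}.ncard : ℝ)) ∧
  Filter.Tendsto (fun X : ℕ => ({D : Ei | nr D ≤ X ∧ ClP D ∧ (9 : ℤ) ∣ nr D - 1}.ncard : ℝ) /
    ({D : Ei | nr D ≤ X ∧ ClP D}.ncard : ℝ)) Filter.atTop (nhds (1 / 3))

end Pool.Agent.N883.FF
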