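import Pool.Agent.N883.FF.StmS
import Pool.Agent.Y703.CT.StmF
import Pool.Agent.Y696.CTE.Asm
import Pool.Agent.R419.CE.Asm

/-!
# Project FF: the converse of the descent, and the curve `y² + y = x³` over cubic extensions
-/

set_option autoImplicit false
set_option linter.unusedVariables false

open scoped Classical

namespace Pool.Agent.N883.FF

open NumberField IsDedekindDomain WeierstrassCurve WithZero
open Pool.Agent.Y692.QS (Ei w nr toC)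
open Pool.Agent.Y715.T.Rec (cs)
open Pool.Agent.Y715.T.RecG (Pq)
open Pool.Agent.Y715.T.Gi Pool.Agent.Y715.T.Nr Pool.Agent.Y715.T.Df Pool.Agent.Y715.T.Ell
open Pool.Agent.Y703.CT
open Pool.Agent.Y696.CTK (ED)
open Pool.Agent.Y696.CTE (Cub S_GAL)

/-! ### the converse of the descent -/

/-- FF-CUB3: local solutions at three. -/
def S_CUB3B : Prop := ∀ (_ : Fact (Nat.Prime 3)) (I : PadicAlgCl 3) (hI : I ^ 2 + I + 1 = 0)
  (B D : Ei), (3 : Ei) ∣ B - 1 → (9 : ℤ) ∣ nr B - 1 → ¬ lam ∣ D → ∃ s t r, Sol hI B D s t r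

/-- FF-RAMC: the primes dividing `D`. -/
def S_RAMCB : Prop := ∀ (J : Type) [Fintype J] (π : J → Ei) (e : J → ZMod 3) (i : ZMod 3),
  Dt π e → ∀ (i₀ : QB) (hi : i₀ ^ 2 + i₀ + 1 = 0) (u : QB) (a : GK i₀ → ZMod 3),
  Tw hi (pB π e i) u a →
  ∀ (v : J → ZMod 3) (h : GK i₀ → ZMod 3), Kc hi (∏ j, π j ^ (e j * v j).val) h →
  ∀ j : J, ∑ k, e k * cs (π j) (π k) * (v k - v j) = i * nq (π j) * v j →
  ∀ (p : ℕ) [Fact p.Prime] (ι : QB →ₐ[ℚ] PadicAlgCl p), ‖ι (ev i₀ hi (π j))‖ < 1 →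
    ∃ R, St1 hi ι a h R

/-- FF-SELC: a nontrivial kernel gives a nontrivial Selmer class. -/
def S_SELCB : Prop := S_FF → S_CUB → S_CUB3B → S_PT → S_RAMCB →
  ∀ (J : Type) [Fintype J] (π : J → Ei) (e : J → ZMod 3) (i : ZMod 3), Dt π e → i ≠ 0 →
  ¬ KerB π e i →
  ∀ (i₀ : QB) (hi : i₀ ^ 2 + i₀ + 1 = 0) (u : QB) (a : GK i₀ → ZMod 3), Tw hi (pB π e i) u a →
  ¬ Sel1 hi a

/-! ### the curve `y² + y = x³` over `F = K(θ)`, `θ³ = D` -/

/-- FF-E6: the ramification index of the primes above `3` is `6`. -/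
def S_E6B : Prop := ∀ (K F : Type) [Field K] [NumberField K] [Field F] [NumberField F]
  [Algebra K F] (j : Ei ≃+* 𝓞 K) (D : Ei) (θ : 𝓞 F), Cub j D θ → ¬ lam ∣ D →
  ¬ (3 : Ei) ∣ D - 1 → ¬ (3 : Ei) ∣ D + 1 → ∀ v : HeightOneSpectrum (𝓞 F),
    (3 : 𝓞 F) ∈ v.asIdeal → v.valuation F 3 = exp (-6 : ℤ)

/-- FF-ART: the symbol as a character modulo `9 D`, trivial on the units. -/
def S_ARTB : Prop := ∀ (K : Type) [Field K] [NumberField K] (j : Ei ≃+* 𝓞 K)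
  (J : Type) [Fintype J] (π : J → Ei) (e : J → ZMod 3) (i : ZMod 3), Dt π e → i ≠ 0 →
  ∃ f : (𝓞 K ⧸ Ideal.span {j (9 * pB π e i)})ˣ →* Multiplicative (ZMod 3),
    Function.Surjective f ∧
    ∀ (u : (𝓞 K ⧸ Ideal.span {j (9 * pB π e i)})ˣ) (z α : Ei), IsUnit z →
      (3 : Ei) ∣ α - 1 → (u : 𝓞 K ⧸ Ideal.span {j (9 * pB π e i)}) =
        Ideal.Quotient.mk _ (j (z * α)) →
      f u = Multiplicative.ofAdd (i * nq α + ∑ k, e k * cs (π k) α)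

/-- FF-LF: the factorization of the `L`-function over `F`. -/
def S_LFB : Prop := S_E6B → S_ARTB → S_GAL → S_REC →
  ∀ (K F : Type) [Field K] [NumberField K] [Field F] [NumberField F] [Algebra K F]
  (j : Ei ≃+* 𝓞 K) (J : Type) [Fintype J] [Nonempty J] (π : J → Ei) (e : J → ZMod 3)
  (i : ZMod 3), Dt π e → i ≠ 0 → ∀ θ : 𝓞 F, Cub j (pB π e i) θ → ∀ F1 F2 : ℂ → ℂ,
  IsHLB π e i F1 → IsHLB π (fun k => -e k) (-i) F2 → ∀ s : ℂ, 3 / 2 < s.re →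
    LSeriesSummable ((fun n : ℤ => (n : ℂ)) ∘ (ED (1 : F)).LFunction) s ∧
    (ED (1 : F)).LSeries s = (ED (1 : K)).LSeries s *
      (F1 s * (starRingEnd ℂ) (F2 ((starRingEnd ℂ) s))) *
      (F2 s * (starRingEnd ℂ) (F1 ((starRingEnd ℂ) s)))

end Pool.Agent.N883.FF
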