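import Pool.Agent.N883.FF.StmS
import Pool.Agent.Y696.CTK.LK

/-!
# Project FF: statements over number fields
-/

set_option autoImplicit false
set_option linter.unusedVariables false

open scoped Classical

namespace Pool.Agent.N883.FF

open NumberField IsDedekindDomain WeierstrassCurve
open Pool.Agent.Y692.QS (Ei w nr toC)
open Pool.Agent.Y703.CT
open Pool.Agent.Y696.CTK (ED)

/-- FF-LK: the `L`-function of `y² + D y = x³` over `K`. -/
def S_LKB : Prop := ∀ (K : Type) [Field K] [NumberField K] (j : Ei ≃+* 𝓞 K)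
  (J : Type) [Fintype J] (π : J → Ei) (e : J → ZMod 3) (i : ZMod 3), Dt π e →
  ∀ F : ℂ → ℂ, IsHLB π (fun k => -e k) (-i) F → ∀ s : ℂ, 3 / 2 < s.re →
    LSeriesSummable ((fun n : ℤ => (n : ℂ)) ∘ (ED (j (pB π e i) : K)).LFunction) s ∧
      F s * (starRingEnd ℂ) (F ((starRingEnd ℂ) s)) = (ED (j (pB π e i) : K)).LSeries s

/-- FF-FIN: the group of points and the `3`-part of the Tate-Shafarevich group. -/
def S_FINB : Prop := S_LOC3B → S_RAMG → S_UNRG → S_SELB →
  ∀ (K : Type) [Field K] [NumberField K] (j : Ei ≃+* 𝓞 K)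
  (J : Type) [Fintype J] [Nonempty J] (π : J → Ei) (e : J → ZMod 3) (i : ZMod 3), Dt π e →
    i ≠ 0 → KerB π e i → Finite (ED (j (pB π e i) : K)).toAffine.Point ∧
      ∀ (n : ℕ) (x : Pool.Agent.TH841.NF.D.Sha (ED (j (pB π e i) : K))), 3 ^ n • x = 0 → x = 0

end Pool.Agent.N883.FF
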