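import Pool.Agent.Y703.CT.StmC
import Pool.Agent.N883.FF.Defs

/-!
# Project FF: statements of the descent

The curve `E_D` with `D` arbitrary: see `Pool/Agent/Y703/CT/StmC.lean` for the twisted action.
-/

set_option autoImplicit false
set_option linter.unusedVariables false

open scoped Classical

namespace Pool.Agent.N883.FF

open WeierstrassCurve
open Pool.Agent.Y692.QS (Ei w nr toC)
open Pool.Agent.Y715.T.Gi Pool.Agent.Y715.T.Nr Pool.Agent.Y715.T.Df Pool.Agent.Y715.T.Ell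
open Pool.Agent.Y703.CT

/-- FF-LOC3: the local condition at the prime above three, for all `D` prime to three. -/
def S_LOC3B : Prop := ∀ (i₀ : QB) (hi : i₀ ^ 2 + i₀ + 1 = 0) (D : Ei), ¬ lam ∣ D →
  ∀ (u : QB) (a : GK i₀ → ZMod 3), Tw hi D u a →
  ∀ (h : GK i₀ → ZMod 3) (v q : Ei) (g : ℕ), IsUnit v → Kc hi (v * lam ^ g * (1 + 3 * q)) h →
  ∀ (_ : Fact (Nat.Prime 3)) (ι : QB →ₐ[ℚ] PadicAlgCl 3) (R : Pt (PadicAlgCl 3)),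
    St1 hi ι a h R → 3 ∣ g

/-- FF-RAM: the local condition at the primes with exponent prime to three in `D`. -/
def S_RAMG : Prop := ∀ (D ϖ : Ei) (m : ℕ), Prime ϖ → ¬ ϖ ∣ 3 → ϖ ^ m ∣ D → ¬ ϖ ^ (m + 1) ∣ D →
  ¬ 3 ∣ m → ∀ (i₀ : QB) (hi : i₀ ^ 2 + i₀ + 1 = 0) (u : QB) (a : GK i₀ → ZMod 3), Tw hi D u a →
  ∀ (h : GK i₀ → ZMod 3) (p : ℕ) [Fact p.Prime] (ι : QB →ₐ[ℚ] PadicAlgCl p),
    ‖ι (ev i₀ hi ϖ)‖ < 1 → ∀ R, St1 hi ι a h R →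
    ∃ ε : ZMod 3, ∀ (τ : Au p) (σ : GK i₀), Cmp ι τ σ → h σ = ε * a σ

/-- FF-UNR: the local condition at the primes that do not divide `3 D`. -/
def S_UNRG : Prop := ∀ (D : Ei), D ≠ 0 →
  ∀ (i₀ : QB) (hi : i₀ ^ 2 + i₀ + 1 = 0) (u : QB) (a : GK i₀ → ZMod 3), Tw hi D u a →
  ∀ (h : GK i₀ → ZMod 3) (p : ℕ) [Fact p.Prime] (ι : QB →ₐ[ℚ] PadicAlgCl p), p ≠ 3 →
    ¬ ‖ι (ev i₀ hi D)‖ < 1 → ∀ R, St1 hi ι a h R →
    ∀ (τ : Au p) (σ : GK i₀), Cmp ι τ σ → Inert τ → a σ = 0 ∧ h σ = 0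

/-- FF-SEL: the Selmer group. -/
def S_SELB : Prop := S_LOC3B → S_RAMG → S_UNRG →
  ∀ (J : Type) [Fintype J] (π : J → Ei) (e : J → ZMod 3) (i : ZMod 3), Dt π e → i ≠ 0 →
  KerB π e i → ∀ (i₀ : QB) (hi : i₀ ^ 2 + i₀ + 1 = 0) (u : QB) (a : GK i₀ → ZMod 3),
    Tw hi (pB π e i) u a → Sel1 hi a

end Pool.Agent.N883.FF
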