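import Pool.Agent.N883.FF.Fin
import Pool.Agent.N883.FF.StmA
import Pool.Agent.N883.FF.StmF
import Pool.Agent.N883.FF.Conn
import Pool.Agent.R419.KF.Fin

/-!
# Project FF: the curves `E_D` over `K` and `E` over `K(θ)`, `θ³ = D`, for one `D`
-/

set_option autoImplicit false
set_option linter.unusedVariables false
set_option linter.unusedSectionVars false

open scoped Classical

namespace Pool.Agent.N883.FF

open NumberField IsDedekindDomain WeierstrassCurve WithZero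
open Pool.Agent.Y692.QS (Ei w nr toC)
open Pool.Agent.Y715.T.Rec (cs nn)
open Pool.Agent.Y715.T.RecG (Pq)
open Pool.Agent.Y703.CT
open Pool.Agent.Y696 (NonsingRed Cur)
open Pool.Agent.Y715.T.Gi Pool.Agent.Y715.T.Nr Pool.Agent.Y715.T.Df Pool.Agent.Y715.T.Ell
open Pool.Agent.TH841.NF.D (Sha)
open Pool.Agent.Y696.CTK
open Pool.Agent.Y696.CTE
open Pool.Agent.Y696.XK (RkZ rkz_of disc_ED)
open Pool.Agent.R419.CE (kk kk_eq tw_div ncube pi_dvd_pD)
open Pool.Agent.R419.KF (EntL)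

/-- the parts proved by the team -/
structure PartsB : Prop where
  loc3 : S_LOC3B
  ram : S_RAMG
  unr : S_UNRG
  sel : S_SELB
  cub3 : S_CUB3B
  ramc : S_RAMCB
  selc : S_SELCB
  anb : S_ANB
  lk : S_LKB
  e6 : S_E6B
  art : S_ARTB
  lf : S_LFB

section
variable {J : Type} [Fintype J] {π : J → Ei} {e : J → ZMod 3} {i : ZMod 3}

lemma KerB.neg (h : KerB π e i) : KerB π (fun k => -e k) (-i) := by
  intro v hv
  refine h v fun j => ?_
  have h1 := hv j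
  have e1 : ∑ k, -e k * cs (π j) (π k) * (v k - v j) = -∑ k, e k * cs (π j) (π k) * (v k - v j) := by
    rw [← Finset.sum_neg_distrib]
    exact Finset.sum_congr rfl fun k _ => by ring
  rw [e1] at h1
  linear_combination -h1

lemma negnegB : (fun k => -(fun k => -e k) k) = e := by
  funext k
  exact neg_neg _

lemma nunitB [Nonempty J] (hD : Dt π e) : ¬ IsUnit (pB π e i) := by
  intro hu
  obtain ⟨k⟩ := (inferInstance : Nonempty J)
  exact (hD.pq k).prime.not_isUnit (isUnit_of_dvd_unit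
    ((pi_dvd_pD hD k).mul_left _) hu)

lemma pB_sq : pB π e i ^ 2 = pB π (fun k => -e k) (-i) *
    (w ^ kk i * ∏ k, π k ^ kk (e k)) ^ 3 := by
  have h1 := Pool.Agent.R419.CE.pD_sq (π := π) (e := e)
  unfold pB
  rw [mul_pow, mul_pow, h1, ← pow_mul, ← pow_mul, kk_eq, pow_add]
  ring

/-- the group of points is finite and the `3`-part of Sha trivial exactly when the kernel is small -/
theorem tri_iffB (B : PartsB) {K : Type} [Field K] [NumberField K] (j : Ei ≃+* 𝓞 K) [Nonempty J]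
    (hD : Dt π e) (hi : i ≠ 0) : Tri (j (pB π e i)) ↔ KerB π e i := by
  have hne : pB π e i ≠ 0 := pB_ne hD
  constructor
  · rintro ⟨h1, h2⟩
    by_contra hk
    obtain ⟨e', i₀, hi', u, a, Ψ, g, hdata⟩ := parts.trf K j _ hne
    have hT := hdata.1
    have ha := a_neB hD hT
    have hM := parts.mwc K j _ hne e' i₀ hi' u a Ψ g hdata ha h1
    have hS := parts.shc parts.plc K j _ hne e' i₀ hi' u a Ψ g hdata h2
    have hsel := Pool.Agent.H70CT.t_SHC _ hne i₀ hi' u a hT ha hS hM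
    exact B.selc Pool.Agent.Y319.CT.t_FF Pool.Agent.Y379.CT.t_CUB
      B.cub3 Pool.Agent.Y674.CT.t_PT B.ramc J π e i hD hi hk i₀ hi' u a hT hsel
  · intro hk
    exact finB B.loc3 B.ram B.unr B.sel K j J π e i hD hi hk

/-- the two functions -/
theorem two_FB (B : PartsB) [Nonempty J] (hD : Dt π e) (hi : i ≠ 0) :
    ∃ F1 F2 : ℂ → ℂ, IsHLB π e i F1 ∧ IsHLB π (fun k => -e k) (-i) F2 ∧
      (KerB π e i → F1 1 ≠ 0 ∧ F2 1 ≠ 0) := by
  obtain ⟨F2, h1, h2⟩ := B.anb J π e i hD hi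
  obtain ⟨F1, h3, h4⟩ := B.anb J π (fun k => -e k) (-i) hD.neg (neg_ne_zero.2 hi)
  rw [negnegB, neg_neg] at h3
  exact ⟨F1, F2, h3, h1, fun hk => ⟨(h4 hk.neg).1, (h2 hk).1⟩⟩

/-- the twist over `K`: the `L`-function is entire -/
theorem ent_KB (B : PartsB) {K : Type} [Field K] [NumberField K] (j : Ei ≃+* 𝓞 K) [Nonempty J]
    (hD : Dt π e) (hi : i ≠ 0) : EntL (ED (j (pB π e i) : K)) := by
  obtain ⟨F1, F2, -, k2, -⟩ := two_FB B hD hi
  exact ⟨fun s => F2 s * (starRingEnd ℂ) (F2 ((starRingEnd ℂ) s)), diff_conj k2.1,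
    fun s hs => B.lk K j J π e i hD F2 k2 s hs⟩

/-- the twist over `K` -/
theorem rk_KB (B : PartsB) {K : Type} [Field K] [NumberField K] (j : Ei ≃+* 𝓞 K) [Nonempty J]
    (hD : Dt π e) (hi : i ≠ 0) (hk : KerB π e i) : RkZ (ED (j (pB π e i) : K)) := by
  have hne : pB π e i ≠ 0 := pB_ne hD
  obtain ⟨hf, hs⟩ := (tri_iffB B j hD hi).2 hk
  obtain ⟨F1, F2, -, k2, k3⟩ := two_FB B hD hi
  have h1 := (k3 hk).2
  have hD0 : ((j (pB π e i) : 𝓞 K) : K) ≠ 0 := by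
    intro h
    apply hne
    apply j.injective
    rw [map_zero]
    exact NumberField.RingOfIntegers.coe_injective (h.trans (map_zero _).symm)
  refine rkz_of _ (disc_ED hD0) hf (Lf := fun s => F2 s * (starRingEnd ℂ) (F2 ((starRingEnd ℂ) s)))
    (diff_conj k2.1) (fun s hs => (B.lk K j J π e i hD F2 k2 s hs).2) ?_
  simp only [map_one]
  exact mul_ne_zero h1 ((map_ne_zero _).2 h1)

/-- the points and the Tate-Shafarevich groups of both twists -/
theorem bothB (B : PartsB) {K : Type} [Field K] [NumberField K] (j : Ei ≃+* 𝓞 K) [Nonempty J]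
    (hD : Dt π e) (hi : i ≠ 0) (hk : KerB π e i) :
    Tri (j (pB π e i)) ∧ Tri (j (pB π e i ^ 2)) := by
  refine ⟨(tri_iffB B j hD hi).2 hk, ?_⟩
  have hne : pB π e i ≠ 0 := pB_ne hD
  have h2 : pB π e i ^ 2 ≠ 0 := pow_ne_zero 2 hne
  have hc : (w ^ kk i * ∏ k, π k ^ kk (e k) : Ei) ≠ 0 :=
    mul_ne_zero (isUnit_w.pow _).ne_zero
      (Finset.prod_ne_zero_iff.2 fun k _ => pow_ne_zero _ (hD.pq k).prime.ne_zero)
  have hne' : pB π (fun k => -e k) (-i) ≠ 0 := pB_ne hD.neg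
  have key : ∀ (i₀ : QB) (hi : i₀ ^ 2 + i₀ + 1 = 0) (u : QB) (a : GK i₀ → ZMod 3),
      Tw hi (pB π e i ^ 2) u a → ShK hi a ∧ MwK hi a := fun i₀ hi' u a hT => by
    rw [pB_sq] at hT
    have hT' := tw_div hc hT
    have hs := B.sel B.loc3 B.ram B.unr J π _ _ hD.neg (neg_ne_zero.2 hi) hk.neg i₀ hi' _ a hT'
    exact ⟨Pool.Agent.Y155.CT.t_SHK _ hne' i₀ hi' _ a hT' hs,
      Pool.Agent.Y155.CT.t_MWK _ hne' i₀ hi' _ a hT' (a_neB hD.neg hT') hs⟩
  exact ⟨(parts.mwt parts.trf K j _ h2 fun i₀ hi u a hT => (key i₀ hi u a hT).2).1,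
      parts.sht parts.trf K j _ h2 fun i₀ hi u a hT => (key i₀ hi u a hT).1⟩

lemma not_prim (hD : Dt π e) (hi : i ≠ 0) : ¬ lam ∣ pB π e i ∧ ¬ (3 : Ei) ∣ pB π e i - 1 ∧
    ¬ (3 : Ei) ∣ pB π e i + 1 := by
  obtain ⟨q, hq⟩ := (pD_prim hD).1
  have hq' : pD π e = 1 + 3 * q := by rw [← hq]; ring
  have e1 : pB π e i = w ^ i.val + 3 * (w ^ i.val * q) := by
    unfold pB
    rw [hq']
    ring
  have hl : (lam : Ei) ∣ 3 := by
    have := lam_sq
    exact ⟨-lam, by linear_combination this⟩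
  refine ⟨fun h => ?_, fun h => ?_, fun h => ?_⟩
  · rw [e1] at h
    have h1 : (lam : Ei) ∣ w ^ i.val := (dvd_add_left (hl.mul_right _)).1 h
    exact prime_lam.not_isUnit (isUnit_of_dvd_unit h1 (isUnit_w.pow _))
  · rw [e1] at h
    have h1 : (3 : Ei) ∣ w ^ i.val - 1 := by
      have h2 := dvd_sub h (dvd_mul_right (3 : Ei) (w ^ i.val * q))
      convert h2 using 1
      ring
    have h3 : ∀ i : ZMod 3, i ≠ 0 → ¬ (3 : Ei) ∣ w ^ i.val - 1 := by
      intro i hi hd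
      have : ∀ i : ZMod 3, i ≠ 0 → ¬ (9 : ℤ) ∣ nr (w ^ i.val - 1) := by decide
      refine this i hi ?_
      obtain ⟨t, ht⟩ := hd
      rw [ht, Pool.Agent.Y692.QS.nr_mul]
      exact Dvd.dvd.mul_right (by decide) _
    exact h3 i hi h1
  · rw [e1] at h
    have h1 : (3 : Ei) ∣ w ^ i.val + 1 := by
      have h2 := dvd_sub h (dvd_mul_right (3 : Ei) (w ^ i.val * q))
      convert h2 using 1
      ring
    have h3 : ∀ i : ZMod 3, i ≠ 0 → ¬ (3 : Ei) ∣ w ^ i.val + 1 := by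
      intro i hi hd
      have : ∀ i : ZMod 3, i ≠ 0 → ¬ (9 : ℤ) ∣ nr (w ^ i.val + 1) := by decide
      refine this i hi ?_
      obtain ⟨t, ht⟩ := hd
      rw [ht, Pool.Agent.Y692.QS.nr_mul]
      exact Dvd.dvd.mul_right (by decide) _
    exact h3 i hi h1

/-- the curve over the extension -/
theorem lawEB (B : PartsB) {K : Type} [Field K] [NumberField K]
    [IsCyclotomicExtension {3} ℚ K] (j : Ei ≃+* 𝓞 K) [Nonempty J] (hD : Dt π e) (hi : i ≠ 0)
    {F : Type} [Field F] [NumberField F] [Algebra K F] (hdeg : Module.finrank K F = 3) (θ : 𝓞 F)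
    (hθ : θ ^ 3 = algebraMap (𝓞 K) (𝓞 F) (j (pB π e i))) :
    LawE F (KerB π e i) := by
  have hne : pB π e i ≠ 0 := pB_ne hD
  have hC : Cub j (pB π e i) θ := ⟨hdeg, hθ, hne, ncube (cf_pB hD) (nunitB hD)⟩
  obtain ⟨F1, F2, k1, k2, hF⟩ := two_FB B hD hi
  obtain ⟨L0, hL0d, hL0s, hL01⟩ := L0_ex (K := K) j
  have hcj : ∀ {G : ℂ → ℂ}, Differentiable ℂ G →
      Differentiable ℂ (fun s => (starRingEnd ℂ) (G ((starRingEnd ℂ) s))) := by
    intro G hG s
    have h1 := (hG ((starRingEnd ℂ) s)).conj_conj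
    rw [Complex.conj_conj] at h1
    exact h1
  refine ⟨fun s => L0 s * (F1 s * (starRingEnd ℂ) (F2 ((starRingEnd ℂ) s))) *
      (F2 s * (starRingEnd ℂ) (F1 ((starRingEnd ℂ) s))),
    (hL0d.mul (k1.1.mul (hcj k2.1))).mul (k2.1.mul (hcj k1.1)), fun s hs => ?_, fun hk => ?_⟩
  · obtain ⟨a1, a2⟩ := B.lf B.e6 B.art partsE.gal Pool.Agent.Y350.CT.rec K F j J π e i hD hi θ hC
      F1 F2 k1 k2 s hs
    refine ⟨a1, ?_⟩
    have a3 : (ED (1 : K)).LSeries s = (Pool.Agent.Y696.E0 K).LSeries s := rfl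
    rw [a2, a3, ← (hL0s s hs).2]
  · obtain ⟨h1, h2⟩ := hF hk
    obtain ⟨⟨b1, b2⟩, ⟨b3, b4⟩⟩ := bothB B j hD hi hk
    refine ⟨?_, ?_, ?_⟩
    · have hc : ∀ z : ℂ, z ≠ 0 → (starRingEnd ℂ) z ≠ 0 := fun z hz => (map_ne_zero _).2 hz
      simp only [map_one]
      exact mul_ne_zero (mul_ne_zero hL01 (mul_ne_zero h1 (hc _ h2))) (mul_ne_zero h2 (hc _ h1))
    · exact partsE.mwf K F j _ θ hC fin_one b1 b3
    · exact partsE.shf K F j _ θ hC (partsE.sh1 K j) b2 b4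

/-- the curve over the extension, as a statement on the ranks -/
theorem rk_FB (B : PartsB) {K : Type} [Field K] [NumberField K]
    [IsCyclotomicExtension {3} ℚ K] (j : Ei ≃+* 𝓞 K) [Nonempty J] (hD : Dt π e) (hi : i ≠ 0)
    (hk : KerB π e i)
    {F : Type} [Field F] [NumberField F] [Algebra K F] (hdeg : Module.finrank K F = 3) (θ : 𝓞 F)
    (hθ : θ ^ 3 = algebraMap (𝓞 K) (𝓞 F) (j (pB π e i))) :
    RkZ (ED (1 : F)) ∧ ∀ (n : ℕ) (x : Sha (ED (1 : F))), 3 ^ n • x = 0 → 3 • x = 0 := by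
  obtain ⟨Lf, h1, h2, h3⟩ := lawEB B j hD hi hdeg θ hθ
  obtain ⟨h4, h5, h6⟩ := h3 hk
  exact ⟨rkz_of _ (disc_ED one_ne_zero) h5 h1 (fun s hs => (h2 s hs).2) h4, h6⟩

end

end Pool.Agent.N883.FF
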